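import Pool.Agent.LibT62.Defs

/-!
Row A0: square roots of power series. Existence: the coefficients are built recursively
(`A0_s`, `s_n = (h_n - sum_{0<i<n} s_i s_{n-i}) / 2`). Uniqueness: `(S - S') (S + S') = 0` in a
domain and the constant coefficient of `S + S'` is `2 ≠ 0`.
-/

open scoped Classical
open Polynomial IsLocalRing

namespace Pool.Agent.LibT62

open Pool.Agent.LibBH2 Pool.Agent.LibJac77

/-- the coefficients of the square root -/
noncomputable def A0_s {R : Type} [CommRing R] (c : R) (h : ℕ → R) : ℕ → R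
  | 0 => 1
  | n + 1 => c * (h (n + 1) - ∑ i : Fin n, A0_s c h (i.1 + 1) * A0_s c h (n - i.1))
termination_by n => n
decreasing_by
  · have := i.2; omega
  · have := i.2; omega

theorem A0_s_zero {R : Type} [CommRing R] (c : R) (h : ℕ → R) : A0_s c h 0 = 1 := by
  rw [A0_s]

theorem A0_s_succ {R : Type} [CommRing R] (c : R) (h : ℕ → R) (n : ℕ) :
    A0_s c h (n + 1) =
      c * (h (n + 1) - ∑ i ∈ Finset.range n, A0_s c h (i + 1) * A0_s c h (n - i)) := by
  rw [A0_s, Finset.sum_range (fun i => A0_s c h (i + 1) * A0_s c h (n - i))]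

theorem exists_sqrt {R : Type} [CommRing R] (h2 : IsUnit (2 : R)) (H : PowerSeries R)
    (h : PowerSeries.constantCoeff H = 1) :
    ∃ S : PowerSeries R, S ^ 2 = H ∧ PowerSeries.constantCoeff S = 1 := by
  obtain ⟨u, hu⟩ := h2
  set c : R := ((u⁻¹ : Rˣ) : R) with hc
  have hc2 : (2 : R) * c = 1 := by rw [← hu, hc]; exact u.mul_inv
  set hh : ℕ → R := fun n => PowerSeries.coeff n H with hhh
  refine ⟨PowerSeries.mk (A0_s c hh), ?_, ?_⟩
  · ext n
    rw [pow_two, PowerSeries.coeff_mul]
    simp only [PowerSeries.coeff_mk]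
    rw [Finset.Nat.sum_antidiagonal_eq_sum_range_succ (fun a b => A0_s c hh a * A0_s c hh b)]
    rcases n with _ | n
    · simp only [Nat.succ_eq_add_one, zero_add, Finset.sum_range_one, Nat.sub_self, A0_s_zero,
        mul_one]
      rw [← PowerSeries.coeff_zero_eq_constantCoeff_apply] at h
      exact h.symm
    · rw [Nat.succ_eq_add_one, Finset.sum_range_succ, Finset.sum_range_succ']
      simp only [Nat.sub_zero, Nat.sub_self, A0_s_zero, one_mul, mul_one, Nat.add_sub_add_right]
      rw [A0_s_succ]
      have e : PowerSeries.coeff (n + 1) H = hh (n + 1) := rfl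
      rw [e]
      linear_combination (hh (n + 1)
        - ∑ i ∈ Finset.range n, A0_s c hh (i + 1) * A0_s c hh (n - i)) * hc2
  · rw [← PowerSeries.coeff_zero_eq_constantCoeff_apply, PowerSeries.coeff_mk, A0_s_zero]

theorem sqrt_unique {R : Type} [CommRing R] [IsDomain R] (h2 : (2 : R) ≠ 0) (S S' : PowerSeries R)
    (h : S ^ 2 = S' ^ 2) (h1 : PowerSeries.constantCoeff S = 1)
    (h1' : PowerSeries.constantCoeff S' = 1) : S = S' := by
  rcases sq_eq_sq_iff_eq_or_eq_neg.mp h with h | h
  · exact h
  · exfalso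
    have := congrArg PowerSeries.constantCoeff h
    rw [map_neg, h1, h1'] at this
    apply h2
    linear_combination this

end Pool.Agent.LibT62
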