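import Pool.Agent.LibT62.Defs

/-!
Row A1: Pade approximants exist (dimension count): the linear map
`(Fin (n+2) → K) × (Fin n → K) → (Fin (2n+1) → K)` sending `(a, b)` to the first `2 n + 1`
coefficients of `A - B Sq` has a nonzero kernel (`LinearMap.exists_ne_zero_of...` /
`LinearMap.ker_ne_bot_of_finrank_lt`). `PowerSeries.X_pow_dvd_iff`.
-/

open scoped Classical
open Polynomial IsLocalRing

namespace Pool.Agent.LibT62

open Pool.Agent.LibBH2 Pool.Agent.LibJac77

private noncomputable def A1_map {K : Type} [Field K] (Sq : PowerSeries K) (n : ℕ) :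
    (degreeLT K (n + 2) × degreeLT K n) →ₗ[K] (Fin (2 * n + 1) → K) where
  toFun x j := PowerSeries.coeff (j : ℕ)
    (((x.1 : K[X]) : PowerSeries K) - ((x.2 : K[X]) : PowerSeries K) * Sq)
  map_add' x y := by
    funext j
    simp only [Prod.fst_add, Prod.snd_add, Submodule.coe_add, Polynomial.coe_add, add_mul,
      Pi.add_apply, map_sub, map_add]
    ring
  map_smul' c x := by
    funext j
    simp only [Prod.smul_fst, Prod.smul_snd, Submodule.coe_smul, Polynomial.coe_smul,
      smul_mul_assoc, RingHom.id_apply, Pi.smul_apply, map_sub, PowerSeries.coeff_smul,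
      smul_eq_mul]
    ring

theorem exists_pade {K : Type} [Field K] (Sq : PowerSeries K) (n : ℕ) (hn : 1 ≤ n) :
    ∃ A B : K[X], (A ≠ 0 ∨ B ≠ 0) ∧ Pade Sq n A B := by
  have e1 : Module.finrank K (degreeLT K (n + 2)) = n + 2 := by
    rw [(degreeLTEquiv K (n + 2)).finrank_eq, Module.finrank_fin_fun]
  have e2 : Module.finrank K (degreeLT K n) = n := by
    rw [(degreeLTEquiv K n).finrank_eq, Module.finrank_fin_fun]
  have i1 : Module.Finite K (degreeLT K (n + 2)) := Module.Finite.equiv (degreeLTEquiv K _).symm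
  have i2 : Module.Finite K (degreeLT K n) := Module.Finite.equiv (degreeLTEquiv K _).symm
  have hlt : Module.finrank K (Fin (2 * n + 1) → K) <
      Module.finrank K (degreeLT K (n + 2) × degreeLT K n) := by
    rw [Module.finrank_prod, e1, e2, Module.finrank_fin_fun]
    omega
  have hk := LinearMap.ker_ne_bot_of_finrank_lt (f := A1_map Sq n) hlt
  obtain ⟨x, hx, hx0⟩ := (Submodule.ne_bot_iff _).1 hk
  rw [LinearMap.mem_ker] at hx
  refine ⟨x.1, x.2, ?_, ?_, ?_, ?_⟩
  · by_contra hcon
    push Not at hcon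
    apply hx0
    exact Prod.ext (Subtype.ext hcon.1) (Subtype.ext hcon.2)
  · have h := mem_degreeLT.1 x.1.2
    have h2 : (x.1 : K[X]).degree < ((n + 2 : ℕ) : WithBot ℕ) := h
    have h3 : (x.1 : K[X]).natDegree < n + 2 := by
      by_cases h0 : (x.1 : K[X]) = 0
      · rw [h0, natDegree_zero]
        omega
      · exact (natDegree_lt_iff_degree_lt h0).2 h2
    omega
  · have h2 := mem_degreeLT.1 x.2.2
    have h3 : (x.2 : K[X]).natDegree < n := by
      by_cases h0 : (x.2 : K[X]) = 0
      · rw [h0, natDegree_zero]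
        omega
      · exact (natDegree_lt_iff_degree_lt h0).2 h2
    omega
  · rw [PowerSeries.X_pow_dvd_iff]
    intro m hm
    have h := congrFun hx ⟨m, hm⟩
    exact h

end Pool.Agent.LibT62
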