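import Pool.Agent.LibT62.Defs

/-!
Row A2: the norm of a Pade approximant. `A ^ 2 - H B ^ 2 = (A - B Sq) (A + B Sq)` in power series is
divisible by `X ^ (2 n + 1)`, so the polynomial is (`PowerSeries.X_pow_dvd_iff`,
`Polynomial.X_pow_dvd_iff`, coefficients), and its degree is at most `2 n + 2`. It is not zero
because `H` is not a square in `K[X]`: `A ^ 2 = H B ^ 2` with `B ≠ 0` gives `B ^ 2 ∣ A ^ 2`, `B ∣ A`
(`pow_dvd_pow_iff` in a normalised gcd monoid / `K[X]` is a UFD), `H = (A / B) ^ 2`. The lemma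
`norm_ne_zero` is also wanted by other rows.
-/

open scoped Classical
open Polynomial IsLocalRing

namespace Pool.Agent.LibT62

open Pool.Agent.LibBH2 Pool.Agent.LibJac77

theorem norm_ne_zero {K : Type} [Field K] {H : K[X]} (hH : ¬ IsSquare H) {A B : K[X]}
    (h : A ≠ 0 ∨ B ≠ 0) : A ^ 2 - H * B ^ 2 ≠ 0 := by
  intro h0
  have h1 : A ^ 2 = H * B ^ 2 := sub_eq_zero.1 h0
  by_cases hB : B = 0
  · subst hB
    have hA : A = 0 := by
      rw [zero_pow two_ne_zero, mul_zero] at h1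
      exact pow_eq_zero_iff two_ne_zero |>.1 h1
    rcases h with h | h
    · exact h hA
    · exact h rfl
  · have h2 : B ^ 2 ∣ A ^ 2 := ⟨H, by rw [h1, mul_comm]⟩
    obtain ⟨Q, hQ⟩ := (IsIntegrallyClosed.pow_dvd_pow_iff two_ne_zero).1 h2
    apply hH
    refine ⟨Q, ?_⟩
    have h3 : B ^ 2 * H = B ^ 2 * (Q * Q) := by
      rw [mul_comm, ← h1, hQ]
      ring
    exact mul_left_cancel₀ (pow_ne_zero 2 hB) h3

theorem norm_form {K : Type} [Field K] {H : K[X]} (hH : ¬ IsSquare H) (hd : H.natDegree ≤ 4)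
    {Sq : PowerSeries K} (hSq : Sq ^ 2 = (H : PowerSeries K)) {n : ℕ} {A B : K[X]}
    (h : A ≠ 0 ∨ B ≠ 0) (hP : Pade Sq n A B) :
    ∃ c₀ c₁ : K, (c₀ ≠ 0 ∨ c₁ ≠ 0) ∧
      A ^ 2 - H * B ^ 2 = X ^ (2 * n + 1) * (C c₁ + C c₀ * X) := by
  have hne := norm_ne_zero hH h
  have h1 : ((A ^ 2 - H * B ^ 2 : K[X]) : PowerSeries K) =
      ((A : PowerSeries K) - (B : PowerSeries K) * Sq) *
        ((A : PowerSeries K) + (B : PowerSeries K) * Sq) := by
    rw [Polynomial.coe_sub, Polynomial.coe_mul, Polynomial.coe_pow, Polynomial.coe_pow, ← hSq]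
    ring
  have h2 : (X : K[X]) ^ (2 * n + 1) ∣ A ^ 2 - H * B ^ 2 := by
    rw [Polynomial.X_pow_dvd_iff]
    intro m hm
    have h3 : (PowerSeries.X : PowerSeries K) ^ (2 * n + 1) ∣
        ((A ^ 2 - H * B ^ 2 : K[X]) : PowerSeries K) := by
      rw [h1]
      exact hP.dvd.mul_right _
    have h4 := PowerSeries.X_pow_dvd_iff.1 h3 m hm
    rwa [Polynomial.coeff_coe] at h4
  obtain ⟨Q, hQ⟩ := h2
  have hQ0 : Q ≠ 0 := by
    rintro rfl
    rw [mul_zero] at hQ
    exact hne hQ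
  have hdeg : (A ^ 2 - H * B ^ 2).natDegree ≤ 2 * n + 2 := by
    refine (Polynomial.natDegree_sub_le _ _).trans (max_le ?_ ?_)
    · refine Polynomial.natDegree_pow_le.trans ?_
      have := hP.degA
      omega
    · refine Polynomial.natDegree_mul_le.trans ?_
      have h5 := Polynomial.natDegree_pow_le (p := B) (n := 2)
      have := hP.degB
      omega
  have hQd : Q.natDegree ≤ 1 := by
    rw [hQ, Polynomial.natDegree_mul (pow_ne_zero _ Polynomial.X_ne_zero) hQ0,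
      Polynomial.natDegree_X_pow] at hdeg
    omega
  have hQe := Polynomial.eq_X_add_C_of_natDegree_le_one hQd
  refine ⟨Q.coeff 1, Q.coeff 0, ?_, ?_⟩
  · by_contra hcon
    push Not at hcon
    apply hQ0
    rw [hQe, hcon.1, hcon.2]
    simp
  · rw [hQ]
    congr 1
    rw [add_comm]
    exact hQe

end Pool.Agent.LibT62
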