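import Pool.Agent.LibT62.A2

/-!
Row A3: if the Pell equation has no solution the norm of a Pade approximant is not
`c₀ X ^ (2 n + 2)`: otherwise `P = (A ^ 2 + H B ^ 2) / c₀`, `Q = 2 A B / c₀`, `m = 2 n + 2` is a
solution, so `Q = 0`; `A = 0` is impossible (`- H B ^ 2 = c₀ X ^ (2 n + 2)`: `H ∣ X ^ (2 n + 2)` and
`H(0) = 1` make `H` a unit, `H = 1`, a square), `B = 0` is impossible (`A ^ 2 = c₀ X ^ (2 n + 2)`
and `X ^ (2 n + 1) ∣ A` force `2 (2 n + 1) ≤ 2 n + 2`).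
-/

open scoped Classical
open Polynomial IsLocalRing

namespace Pool.Agent.LibT62

open Pool.Agent.LibBH2 Pool.Agent.LibJac77

private theorem A3_one {K : Type} [Field K] {H : K[X]} (h1 : H.coeff 0 = 1) {N : ℕ}
    (h : H ∣ X ^ N) : H = 1 := by
  obtain ⟨i, -, hi⟩ := (dvd_prime_pow Polynomial.prime_X N).1 h
  rcases Nat.eq_zero_or_pos i with h0 | h0
  · rw [h0, pow_zero] at hi
    have hu : IsUnit H := associated_one_iff_isUnit.1 hi
    rw [Polynomial.eq_C_of_degree_eq_zero (Polynomial.isUnit_iff_degree_eq_zero.1 hu), h1, map_one]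
  · exfalso
    have h2 : (X : K[X]) ∣ H := (dvd_pow_self X h0.ne').trans hi.symm.dvd
    rw [Polynomial.X_dvd_iff, h1] at h2
    exact one_ne_zero h2

theorem no_pell {K : Type} [Field K] (h2 : (2 : K) ≠ 0) {H : K[X]} (hH : ¬ IsSquare H)
    (hd : H.natDegree ≤ 4) (h1 : H.coeff 0 = 1) (hNP : NoPell H)
    {Sq : PowerSeries K} (hSq : Sq ^ 2 = (H : PowerSeries K)) {n : ℕ} (hn : 1 ≤ n) {A B : K[X]}
    (h : A ≠ 0 ∨ B ≠ 0) (hP : Pade Sq n A B) {c₀ c₁ : K}
    (hN : A ^ 2 - H * B ^ 2 = X ^ (2 * n + 1) * (C c₁ + C c₀ * X)) : c₁ ≠ 0 := by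
  intro hc
  have hne : A ^ 2 - H * B ^ 2 ≠ 0 := norm_ne_zero hH h
  have hN' : A ^ 2 - H * B ^ 2 = C c₀ * X ^ (2 * n + 2) := by
    rw [hN, hc, map_zero, zero_add]
    ring
  have hc0 : c₀ ≠ 0 := by
    rintro rfl
    apply hne
    rw [hN', map_zero, zero_mul]
  have hcc : (C c₀⁻¹ : K[X]) * C c₀ = 1 := by
    rw [← map_mul, inv_mul_cancel₀ hc0, map_one]
  have hA : A.natDegree ≤ n + 1 := hP.degA
  have hB : B.natDegree + 1 ≤ n := hP.degB
  -- the solution
  have key : (C (2 * c₀⁻¹) * (A * B) : K[X]) = 0 := by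
    refine hNP (2 * n + 2) (C c₀⁻¹ * (A ^ 2 + H * B ^ 2)) _ ?_ ?_ ?_
    · refine (Polynomial.natDegree_C_mul_le _ _).trans
        ((Polynomial.natDegree_add_le _ _).trans (max_le ?_ ?_))
      · have := Polynomial.natDegree_pow_le (p := A) (n := 2)
        omega
      · have e1 := Polynomial.natDegree_pow_le (p := B) (n := 2)
        have e2 := Polynomial.natDegree_mul_le (p := H) (q := B ^ 2)
        omega
    · have e1 := Polynomial.natDegree_C_mul_le (2 * c₀⁻¹) (A * B)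
      have e2 := Polynomial.natDegree_mul_le (p := A) (q := B)
      omega
    · have e1 : (C c₀⁻¹ * (A ^ 2 + H * B ^ 2)) ^ 2 - H * (C (2 * c₀⁻¹) * (A * B)) ^ 2 =
          (C c₀⁻¹) ^ 2 * (A ^ 2 - H * B ^ 2) ^ 2 := by
        rw [map_mul, show (C (2 : K) : K[X]) = 2 from rfl]
        ring
      rw [e1, hN']
      have e2 : (C c₀⁻¹ : K[X]) ^ 2 * (C c₀ * X ^ (2 * n + 2)) ^ 2 =
          (C c₀⁻¹ * C c₀) ^ 2 * X ^ (2 * (2 * n + 2)) := by ring
      rw [e2, hcc, one_pow, one_mul]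
  have hAB : A * B = 0 := by
    rcases mul_eq_zero.1 key with h3 | h3
    · exfalso
      rw [Polynomial.C_eq_zero] at h3
      exact mul_ne_zero h2 (inv_ne_zero hc0) h3
    · exact h3
  rcases mul_eq_zero.1 hAB with h3 | h3
  · -- `A = 0`
    apply hH
    have h4 : H ∣ X ^ (2 * n + 2) := by
      refine ⟨- (C c₀⁻¹ * B ^ 2), ?_⟩
      have e3 : H * (- (C c₀⁻¹ * B ^ 2)) = C c₀⁻¹ * (A ^ 2 - H * B ^ 2) := by
        rw [h3]
        ring
      rw [e3, hN', ← mul_assoc, hcc, one_mul]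
    rw [A3_one h1 h4]
    exact ⟨1, by rw [one_mul]⟩
  · -- `B = 0`
    have h5 := hP.dvd
    rw [h3, Polynomial.coe_zero, zero_mul, sub_zero, PowerSeries.X_pow_dvd_iff] at h5
    have h6 : A = 0 := by
      ext i
      rw [Polynomial.coeff_zero]
      by_cases hi : i < 2 * n + 1
      · have := h5 i hi
        rwa [Polynomial.coeff_coe] at this
      · exact Polynomial.coeff_eq_zero_of_natDegree_lt (by omega)
    rcases h with h | h
    · exact h h6
    · exact h h3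

end Pool.Agent.LibT62
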