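import Pool.Agent.LibT62.Defs

/-!
Row A4: the change of the coordinate. `Ht = H4.reflect 4` (only `c d ≠ 0` is not even needed:
compute), `(P.reflect m) ^ 2 - H4 * (Q.reflect (m - 2)) ^ 2 = 1` (`Polynomial.reflect_mul`,
`reflect_sub`, or evaluate: two polynomials over an infinite field which agree at all `x ≠ 0` are
equal, `eval₂_reflect_mul_pow` / `Polynomial.eval₂_reflect_eq_zero_iff`), hence `Q.reflect (m-2) = 0`.
The same for squares: `Ht = G ^ 2` gives `natDegree G ≤ 2` and `H4 = (G.reflect 2) ^ 2`.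
Basic facts on `F5`: `Genus2`, the roots are distinct and nonzero.
-/

open scoped Classical
open Polynomial IsLocalRing

namespace Pool.Agent.LibT62

open Pool.Agent.LibBH2 Pool.Agent.LibJac77

variable {k : Type} [Field k]

private theorem A4_deg1 (c : k) : (1 - C c * X : k[X]).natDegree ≤ 1 := by
  compute_degree

theorem Ht_natDegree (a b c d : k) : (Ht a b c d).natDegree ≤ 4 := by
  unfold Ht
  have h1 := A4_deg1 c
  have h2 := A4_deg1 d
  have h3 := A4_deg1 (a * b / c)
  have h4 := A4_deg1 (a * b / d)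
  have e1 := Polynomial.natDegree_mul_le (p := (1 - C c * X)) (q := (1 - C d * X))
  have e2 := Polynomial.natDegree_mul_le (p := (1 - C c * X) * (1 - C d * X))
    (q := (1 - C (a * b / c) * X))
  have e3 := Polynomial.natDegree_mul_le (p := (1 - C c * X) * (1 - C d * X) *
    (1 - C (a * b / c) * X)) (q := (1 - C (a * b / d) * X))
  omega

theorem Ht_coeff_zero (a b c d : k) : (Ht a b c d).coeff 0 = 1 := by
  rw [Polynomial.coeff_zero_eq_eval_zero]
  simp [Ht]

/-- `H4` at `x = 1 / t` -/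
theorem Ht_eval (a b c d : k) {t : k} (ht : t ≠ 0) :
    (Ht a b c d).eval t = t ^ 4 * (H4 a b c d).eval t⁻¹ := by
  have key : ∀ r : k, 1 - r * t = t * (t⁻¹ - r) := by
    intro r
    rw [mul_sub, mul_inv_cancel₀ ht, mul_comm t r]
  simp only [Ht, H4, eval_mul, eval_sub, eval_one, eval_C, eval_X]
  rw [key, key, key, key]
  ring

private theorem A4_refl1 (c : k) : (1 - C c * X : k[X]).reflect 1 = X - C c := by
  rw [reflect_sub, reflect_C_mul, reflect_one_X, reflect_one, pow_one, mul_one]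

private theorem A4_refl (a b c d : k) : (Ht a b c d).reflect 4 = H4 a b c d := by
  unfold Ht H4
  have h1 := A4_deg1 c
  have h2 := A4_deg1 d
  have h3 := A4_deg1 (a * b / c)
  have h4 := A4_deg1 (a * b / d)
  have e1 := Polynomial.natDegree_mul_le (p := (1 - C c * X)) (q := (1 - C d * X))
  have e2 := Polynomial.natDegree_mul_le (p := (1 - C c * X) * (1 - C d * X))
    (q := (1 - C (a * b / c) * X))
  rw [show (4 : ℕ) = 3 + 1 from rfl, reflect_mul _ _ (by omega) h4,
    show (3 : ℕ) = 2 + 1 from rfl, reflect_mul _ _ (by omega) h3,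
    show (2 : ℕ) = 1 + 1 from rfl, reflect_mul _ _ h1 h2]
  simp only [A4_refl1]

theorem noPell_of (a b c d : k) (h : ∀ P Q : k[X], P ^ 2 - H4 a b c d * Q ^ 2 = 1 → Q = 0) :
    NoPell (Ht a b c d) := by
  intro m P Q hP hQ hPQ
  obtain ⟨l, rfl⟩ : ∃ l, m = l + 2 := ⟨m - 2, by omega⟩
  have hQ' : Q.natDegree ≤ l := by omega
  have hQ2 : (Q ^ 2).natDegree ≤ l + l := by
    have := Polynomial.natDegree_pow_le (p := Q) (n := 2)
    omega
  have e1 : (P ^ 2).reflect (2 * (l + 2)) = (P.reflect (l + 2)) ^ 2 := by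
    rw [show 2 * (l + 2) = (l + 2) + (l + 2) by ring, sq, reflect_mul P P hP hP, sq]
  have e2 : (Ht a b c d * Q ^ 2).reflect (2 * (l + 2)) = H4 a b c d * (Q.reflect l) ^ 2 := by
    rw [show 2 * (l + 2) = 4 + (l + l) by ring, reflect_mul _ _ (Ht_natDegree a b c d) hQ2,
      A4_refl, sq, reflect_mul Q Q hQ' hQ', sq]
  have e3 := congrArg (Polynomial.reflect (2 * (l + 2))) hPQ
  rw [reflect_sub, e1, e2, reflect_monomial, Polynomial.revAt_le le_rfl, Nat.sub_self,
    pow_zero] at e3
  exact Polynomial.reflect_eq_zero_iff.1 (h _ _ e3)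

theorem Ht_nsq (a b c d : k) (h : ¬ IsSquare (H4 a b c d)) : ¬ IsSquare (Ht a b c d) := by
  rintro ⟨G, hG⟩
  apply h
  have hd : G.natDegree ≤ 2 := by
    have h1 := Ht_natDegree a b c d
    rw [hG, ← sq, Polynomial.natDegree_pow] at h1
    omega
  refine ⟨G.reflect 2, ?_⟩
  rw [← A4_refl, hG, show (4 : ℕ) = 2 + 2 from rfl, reflect_mul G G hd hd]

theorem genus2_F5 {a b c d : k} (h : Squarefree (F5 a b c d)) : Genus2 (F5 a b c d) where
  monic := by
    unfold F5
    exact (((monic_X.mul (monic_X_sub_C a)).mul (monic_X_sub_C b)).mul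
      (monic_X_sub_C c)).mul (monic_X_sub_C d)
  deg := by
    unfold F5
    rw [((((monic_X.mul (monic_X_sub_C a)).mul (monic_X_sub_C b)).mul
      (monic_X_sub_C c))).natDegree_mul (monic_X_sub_C d),
      (((monic_X.mul (monic_X_sub_C a)).mul (monic_X_sub_C b))).natDegree_mul (monic_X_sub_C c),
      ((monic_X.mul (monic_X_sub_C a))).natDegree_mul (monic_X_sub_C b),
      (monic_X).natDegree_mul (monic_X_sub_C a)]
    simp only [natDegree_X, natDegree_X_sub_C]
  sqf := h

private theorem A4_ns {f : k[X]} (h : Squarefree f) (r : k) {g : k[X]}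
    (hg : f = (X - C r) * (X - C r) * g) : False := by
  have h1 : (X - C r) * (X - C r) ∣ f := ⟨g, hg⟩
  exact Polynomial.not_isUnit_X_sub_C r (h _ h1)

theorem ne_of_F5 {a b c d : k} (h : Squarefree (F5 a b c d)) :
    a ≠ 0 ∧ b ≠ 0 ∧ c ≠ 0 ∧ d ≠ 0 ∧ a ≠ b ∧ a ≠ c ∧ a ≠ d ∧ b ≠ c ∧ b ≠ d ∧ c ≠ d := by
  refine ⟨?_, ?_, ?_, ?_, ?_, ?_, ?_, ?_, ?_, ?_⟩
  · rintro rfl
    exact A4_ns h 0 (g := (X - C b) * (X - C c) * (X - C d)) (by
      unfold F5
      rw [map_zero]
      ring)
  · rintro rfl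
    exact A4_ns h 0 (g := (X - C a) * (X - C c) * (X - C d)) (by
      unfold F5
      rw [map_zero]
      ring)
  · rintro rfl
    exact A4_ns h 0 (g := (X - C a) * (X - C b) * (X - C d)) (by
      unfold F5
      rw [map_zero]
      ring)
  · rintro rfl
    exact A4_ns h 0 (g := (X - C a) * (X - C b) * (X - C c)) (by
      unfold F5
      rw [map_zero]
      ring)
  · rintro rfl
    exact A4_ns h a (g := X * (X - C c) * (X - C d)) (by
      unfold F5
      ring)
  · rintro rfl
    exact A4_ns h a (g := X * (X - C b) * (X - C d)) (by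
      unfold F5
      ring)
  · rintro rfl
    exact A4_ns h a (g := X * (X - C b) * (X - C c)) (by
      unfold F5
      ring)
  · rintro rfl
    exact A4_ns h b (g := X * (X - C a) * (X - C d)) (by
      unfold F5
      ring)
  · rintro rfl
    exact A4_ns h b (g := X * (X - C a) * (X - C c)) (by
      unfold F5
      ring)
  · rintro rfl
    exact A4_ns h c (g := X * (X - C a) * (X - C b)) (by
      unfold F5
      ring)

/-- the value of `f` at `x` times the value at `a b / x` -/
theorem F5_mul (a b c d : k) (hc : c ≠ 0) (hd : d ≠ 0) {e : k} (he : e ≠ 0) :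
    (F5 a b c d).eval e⁻¹ * (F5 a b c d).eval (a * b * e) =
      (c * d) * (a * b * (e⁻¹ - a) * (e⁻¹ - b)) ^ 2 * (Ht a b c d).eval e := by
  simp only [F5, Ht, eval_mul, eval_sub, eval_one, eval_C, eval_X]
  field_simp
  ring

end Pool.Agent.LibT62
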