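import Pool.Agent.LibT62.A1
import Pool.Agent.LibT62.A2

/-!
Row B1: the Pell equation is solvable over a finite field (`char ≠ 2`).

Choose `(A n, B n)` by `exists_pade` for all `n ≥ 1`, `norm_form`:
`A ^ 2 - H B ^ 2 = X ^ (2 n + 1) (c₁ + c₀ X)`, `(c₀, c₁) ≠ 0`. Colour of `n`: `(c₀, c₁)`, the values
`A(e), B(e)` at `e = - c₁ / c₀`, and the top coefficients `A.coeff (n+1)`, `B.coeff (n-1)`: finitely
many, so there are `n`, `m ≥ n + 2` of the same colour. Put
`W₁ = A_m A_n - H B_m B_n`, `W₂ = B_m A_n - A_m B_n` (this is `G_m` times the conjugate of `G_n`),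
norm `W₁ ^ 2 - H W₂ ^ 2 = X ^ (2 (n + m + 1)) (c₁ + c₀ X) ^ 2`. If `c₀ ≠ 0`: `W₁(e) = norm_n(e) = 0`,
`W₂(e) = 0`, so both are divisible by `c₁ + c₀ X`; divide. If `c₀ = 0`: the top coefficients of
`W₁` (degree `n + m + 2`) and of `W₂` (degree `n + m`) vanish (`a ^ 2 = H.coeff 4 * b ^ 2` because the
norm has degree `< 2 n + 2`); divide by `c₁`. In both cases we get `W₁, W₂` with degrees
`≤ M = n + m + 1`, `≤ M - 2` and norm `X ^ (2 M)`, and `X ^ (2 m) ∣ W₁ - W₂ Sq`, `2 m > M`, so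
`W₂ ≠ 0` (otherwise `W₁ = ± X ^ M` is divisible by `X ^ (2 m)`). Finally let `j` be the order of
`W₁ + W₂ Sq`; then `W₁ - W₂ Sq` has the order `2 M - j ≥ j`, both `W₁`, `W₂` are divisible by
`X ^ j` (`2` and `Sq` are units), and `u = W₁ / X ^ j`, `v = W₂ / X ^ j`, `N = M - j` is the solution:
the product `(u - v Sq) (u + v Sq) = X ^ (2 N)` and `u + v Sq` has nonzero constant coefficient, so
`X ^ (2 N) ∣ u - v Sq`. `N > 0` since `v ≠ 0` has degree `≤ N - 2`.
-/

open scoped Classical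
open Polynomial IsLocalRing

namespace Pool.Agent.LibT62

open Pool.Agent.LibBH2 Pool.Agent.LibJac77

theorem B1_unit {F : Type} [Field F] {s : PowerSeries F}
    (h : PowerSeries.constantCoeff s ≠ 0) : IsUnit s :=
  PowerSeries.isUnit_iff_constantCoeff.2 (isUnit_iff_ne_zero.2 h)

theorem B1_norm {R : Type} [CommRing R] {H : R[X]} {Sq : PowerSeries R}
    (hSq : Sq ^ 2 = (H : PowerSeries R)) (U V : R[X]) :
    ((U : PowerSeries R) - (V : PowerSeries R) * Sq) * ((U : PowerSeries R) + (V : PowerSeries R) * Sq) =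
      ((U ^ 2 - H * V ^ 2 : R[X]) : PowerSeries R) := by
  rw [Polynomial.coe_sub, Polynomial.coe_mul, Polynomial.coe_pow, Polynomial.coe_pow, ← hSq]
  ring

/-- Removing the common powers of `X`. -/
theorem B1_red {F : Type} [Field F] (h2 : (2 : F) ≠ 0) (H : F[X])
    (Sq : PowerSeries F) (hSq : Sq ^ 2 = (H : PowerSeries F))
    (hc : PowerSeries.constantCoeff Sq = 1) (M : ℕ) : ∀ (U V : F[X]) (s : ℕ),
      U.natDegree ≤ M → (V = 0 ∨ V.natDegree + 2 ≤ M) → U ^ 2 - H * V ^ 2 = X ^ (2 * M) → M < s →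
      (PowerSeries.X : PowerSeries F) ^ s ∣ (U : PowerSeries F) - (V : PowerSeries F) * Sq →
      ∃ (N : ℕ) (u v : F[X]), PellU H Sq N u v := by
  induction M with
  | zero =>
    intro U V s hU hV hn hs hd
    exfalso
    have h1 : (PowerSeries.X : PowerSeries F) ∣ (U : PowerSeries F) - (V : PowerSeries F) * Sq :=
      (dvd_pow_self _ (by omega)).trans hd
    have h3 := dvd_mul_of_dvd_left h1 ((U : PowerSeries F) + (V : PowerSeries F) * Sq)
    rw [B1_norm hSq, hn, mul_zero, pow_zero, Polynomial.coe_one] at h3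
    exact PowerSeries.X_prime.not_isUnit (isUnit_of_dvd_one h3)
  | succ M ih =>
    intro U V s hU hV hn hs hd
    have h1 : (PowerSeries.X : PowerSeries F) ∣ (U : PowerSeries F) - (V : PowerSeries F) * Sq :=
      (dvd_pow_self _ (by omega)).trans hd
    have h3 : U.coeff 0 = V.coeff 0 := by
      rw [PowerSeries.X_dvd_iff, map_sub, map_mul, hc, mul_one, sub_eq_zero] at h1
      simpa using h1
    by_cases h0 : V.coeff 0 = 0
    · have hU0 : U.coeff 0 = 0 := by rw [h3, h0]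
      obtain ⟨U', hU'⟩ := Polynomial.X_dvd_iff.2 hU0
      obtain ⟨V', hV'⟩ := Polynomial.X_dvd_iff.2 h0
      obtain ⟨s', rfl⟩ : ∃ s', s = s' + 1 := ⟨s - 1, by omega⟩
      refine ih U' V' s' ?_ ?_ ?_ (by omega) ?_
      · by_cases hz : U' = 0
        · rw [hz]; simp
        · rw [hU', Polynomial.natDegree_X_mul hz] at hU
          omega
      · by_cases hz : V' = 0
        · exact Or.inl hz
        · right
          have hV0 : V ≠ 0 := by
            rw [hV']
            exact mul_ne_zero Polynomial.X_ne_zero hz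
          have h4 := hV.resolve_left hV0
          rw [hV', Polynomial.natDegree_X_mul hz] at h4
          omega
      · rw [hU', hV'] at hn
        have h5 : (X : F[X]) ^ 2 * (U' ^ 2 - H * V' ^ 2) = X ^ 2 * X ^ (2 * M) := by
          rw [← pow_add]
          have h6 : 2 + 2 * M = 2 * (M + 1) := by ring
          rw [h6, ← hn]
          ring
        exact mul_left_cancel₀ (pow_ne_zero 2 Polynomial.X_ne_zero) h5
      · rw [hU', hV', Polynomial.coe_mul, Polynomial.coe_mul, Polynomial.coe_X, pow_succ'] at hd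
        have h5 : (PowerSeries.X : PowerSeries F) * (U' : PowerSeries F) -
            PowerSeries.X * (V' : PowerSeries F) * Sq =
            PowerSeries.X * ((U' : PowerSeries F) - (V' : PowerSeries F) * Sq) := by ring
        rw [h5] at hd
        exact (mul_dvd_mul_iff_left PowerSeries.X_ne_zero).1 hd
    · have hV0 : V ≠ 0 := by
        rintro rfl
        exact h0 (by simp)
      refine ⟨M + 1, U, V, by omega, hU, hV.resolve_left hV0, hn, ?_⟩
      have hu : IsUnit ((U : PowerSeries F) + (V : PowerSeries F) * Sq) := by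
        apply B1_unit
        rw [map_add, map_mul, hc, mul_one, Polynomial.constantCoeff_coe,
          Polynomial.constantCoeff_coe, h3, ← two_mul]
        exact mul_ne_zero h2 h0
      rw [← hu.dvd_mul_right, B1_norm hSq, hn, Polynomial.coe_pow, Polynomial.coe_X]

/-- Two approximants of the same colour. -/
theorem B1_step {F : Type} [Field F] (H : F[X]) (hd : H.natDegree ≤ 4) (Sq : PowerSeries F)
    (hSq : Sq ^ 2 = (H : PowerSeries F)) {n m : ℕ} {A B A' B' : F[X]}
    (hP : Pade Sq (n + 1) A B) (hP' : Pade Sq (m + 1) A' B') {c₀ c₁ : F} (hc : c₀ ≠ 0 ∨ c₁ ≠ 0)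
    (hN : A ^ 2 - H * B ^ 2 = X ^ (2 * (n + 1) + 1) * (C c₁ + C c₀ * X))
    (hN' : A' ^ 2 - H * B' ^ 2 = X ^ (2 * (m + 1) + 1) * (C c₁ + C c₀ * X))
    (hA : A.eval (-c₁ / c₀) = A'.eval (-c₁ / c₀)) (hB : B.eval (-c₁ / c₀) = B'.eval (-c₁ / c₀))
    (hAt : A.coeff (n + 2) = A'.coeff (m + 2)) (hBt : B.coeff n = B'.coeff m) :
    ∃ U V : F[X], U.natDegree ≤ n + m + 3 ∧ V.natDegree + 2 ≤ n + m + 3 ∧
      U ^ 2 - H * V ^ 2 = X ^ (2 * (n + m + 3)) ∧
      (PowerSeries.X : PowerSeries F) ^ (2 * (m + 1)) ∣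
        (U : PowerSeries F) - (V : PowerSeries F) * Sq := by
  have dA : A.natDegree ≤ n + 2 := hP.degA
  have dA' : A'.natDegree ≤ m + 2 := hP'.degA
  have dB : B.natDegree ≤ n := by have := hP.degB; omega
  have dB' : B'.natDegree ≤ m := by have := hP'.degB; omega
  set W₁ : F[X] := A' * A - H * B' * B with hW₁
  set W₂ : F[X] := B' * A - A' * B with hW₂
  have hdHB : (H * B').natDegree ≤ 4 + m := Polynomial.natDegree_mul_le_of_le hd dB'
  have d1 : W₁.natDegree ≤ m + 2 + (n + 2) := by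
    refine (Polynomial.natDegree_sub_le_of_le (Polynomial.natDegree_mul_le_of_le dA' dA)
      (Polynomial.natDegree_mul_le_of_le hdHB dB)).trans ?_
    simp only [max_le_iff]
    omega
  have d2 : W₂.natDegree ≤ m + (n + 2) := by
    refine (Polynomial.natDegree_sub_le_of_le (Polynomial.natDegree_mul_le_of_le dB' dA)
      (Polynomial.natDegree_mul_le_of_le dA' dB)).trans ?_
    simp only [max_le_iff]
    omega
  have hnorm : W₁ ^ 2 - H * W₂ ^ 2 = X ^ (2 * (n + m + 3)) * (C c₁ + C c₀ * X) ^ 2 := by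
    have e1 : W₁ ^ 2 - H * W₂ ^ 2 = (A ^ 2 - H * B ^ 2) * (A' ^ 2 - H * B' ^ 2) := by
      rw [hW₁, hW₂]; ring
    rw [e1, hN, hN']
    ring
  have hdv : (PowerSeries.X : PowerSeries F) ^ (2 * (m + 1) + 1) ∣
      (W₁ : PowerSeries F) - (W₂ : PowerSeries F) * Sq := by
    have e1 : (W₁ : PowerSeries F) - (W₂ : PowerSeries F) * Sq =
        ((A' : PowerSeries F) - (B' : PowerSeries F) * Sq) *
          ((A : PowerSeries F) + (B : PowerSeries F) * Sq) := by
      rw [hW₁, hW₂]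
      simp only [Polynomial.coe_sub, Polynomial.coe_mul, ← hSq]
      ring
    rw [e1]
    exact dvd_mul_of_dvd_left hP'.dvd _
  by_cases h0 : c₀ = 0
  · subst h0
    have hc1 : c₁ ≠ 0 := by simpa using hc
    rw [map_zero, zero_mul, add_zero] at hnorm hN
    have ht : A.coeff (n + 2) * A.coeff (n + 2) - H.coeff 4 * B.coeff n * B.coeff n = 0 := by
      have e1 := congrArg (fun P => P.coeff (n + 2 + (n + 2))) hN
      simp only [Polynomial.coeff_sub] at e1
      have hHB : (H * B).natDegree ≤ 4 + n := Polynomial.natDegree_mul_le_of_le hd dB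
      have e2 : H * B ^ 2 = H * B * B := by ring
      have e3 : n + 2 + (n + 2) = 4 + n + n := by ring
      rw [pow_two A, Polynomial.coeff_mul_add_eq_of_natDegree_le dA dA, e2, e3,
        Polynomial.coeff_mul_add_eq_of_natDegree_le hHB dB, Polynomial.coeff_mul_add_eq_of_natDegree_le hd dB,
        Polynomial.coeff_mul_C, Polynomial.coeff_X_pow, if_neg (by omega), zero_mul] at e1
      exact e1
    have t1 : W₁.coeff (m + 2 + (n + 2)) = 0 := by
      have e3 : m + 2 + (n + 2) = 4 + m + n := by ring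
      rw [hW₁, Polynomial.coeff_sub, Polynomial.coeff_mul_add_eq_of_natDegree_le dA' dA, e3,
        Polynomial.coeff_mul_add_eq_of_natDegree_le hdHB dB, Polynomial.coeff_mul_add_eq_of_natDegree_le hd dB',
        ← hAt, ← hBt]
      exact ht
    have t2 : W₂.coeff (m + (n + 2)) = 0 := by
      have e3 : m + (n + 2) = m + 2 + n := by ring
      rw [hW₂, Polynomial.coeff_sub, Polynomial.coeff_mul_add_eq_of_natDegree_le dB' dA, e3,
        Polynomial.coeff_mul_add_eq_of_natDegree_le dA' dB, ← hAt, ← hBt]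
      ring
    have d1' := Polynomial.natDegree_le_pred d1 t1
    have d2' := Polynomial.natDegree_le_pred d2 t2
    refine ⟨C c₁⁻¹ * W₁, C c₁⁻¹ * W₂, ?_, ?_, ?_, ?_⟩
    · exact (Polynomial.natDegree_C_mul_le _ _).trans (by omega)
    · have := Polynomial.natDegree_C_mul_le c₁⁻¹ W₂
      omega
    · have e1 : (C c₁⁻¹ * W₁) ^ 2 - H * (C c₁⁻¹ * W₂) ^ 2 =
          (C c₁⁻¹) ^ 2 * (W₁ ^ 2 - H * W₂ ^ 2) := by ring
      have e2 : (C c₁⁻¹ : F[X]) * C c₁ = 1 := by
        rw [← C_mul, inv_mul_cancel₀ hc1, C_1]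
      rw [e1, hnorm]
      linear_combination (X ^ (2 * (n + m + 3)) * (C c₁⁻¹ * C c₁ + 1)) * e2
    · have e1 : ((C c₁⁻¹ * W₁ : F[X]) : PowerSeries F) -
          ((C c₁⁻¹ * W₂ : F[X]) : PowerSeries F) * Sq =
          ((C c₁⁻¹ : F[X]) : PowerSeries F) *
            ((W₁ : PowerSeries F) - (W₂ : PowerSeries F) * Sq) := by
        rw [Polynomial.coe_mul, Polynomial.coe_mul]
        ring
      rw [e1]
      exact dvd_mul_of_dvd_right ((pow_dvd_pow _ (Nat.le_succ _)).trans hdv) _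
  · set e : F := -c₁ / c₀ with he
    have hce : C c₁ + C c₀ * X = C c₀ * (X - C e) := by
      have h5 : C c₁ = - (C c₀ * C e) := by
        rw [← C_mul, ← C_neg, he]
        congr 1
        field_simp
      rw [h5]
      ring
    have hz : (A ^ 2 - H * B ^ 2).eval e = 0 := by
      rw [hN, hce]
      simp
    simp only [Polynomial.eval_sub, Polynomial.eval_mul, Polynomial.eval_pow] at hz
    have r1 : W₁.eval e = 0 := by
      rw [hW₁]
      simp only [Polynomial.eval_sub, Polynomial.eval_mul]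
      rw [← hA, ← hB]
      linear_combination hz
    have r2 : W₂.eval e = 0 := by
      rw [hW₂]
      simp only [Polynomial.eval_sub, Polynomial.eval_mul]
      rw [← hA, ← hB]
      ring
    obtain ⟨P₁, hP₁⟩ := Polynomial.dvd_iff_isRoot.2 (show W₁.IsRoot e from r1)
    obtain ⟨P₂, hP₂⟩ := Polynomial.dvd_iff_isRoot.2 (show W₂.IsRoot e from r2)
    have hXe : (X - C e : F[X]) ≠ 0 := Polynomial.X_sub_C_ne_zero e
    have dP : ∀ W P : F[X], W = (X - C e) * P → ∀ k, W.natDegree ≤ k → P.natDegree ≤ k - 1 := by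
      intro W P hWP k hk
      by_cases hP0 : P = 0
      · rw [hP0]; simp
      · rw [hWP, Polynomial.natDegree_mul hXe hP0, Polynomial.natDegree_X_sub_C] at hk
        omega
    have q1 := dP W₁ P₁ hP₁ _ d1
    have q2 := dP W₂ P₂ hP₂ _ d2
    have hnP : P₁ ^ 2 - H * P₂ ^ 2 = X ^ (2 * (n + m + 3)) * (C c₀) ^ 2 := by
      rw [hP₁, hP₂, hce] at hnorm
      have e1 : (X - C e) ^ 2 * (P₁ ^ 2 - H * P₂ ^ 2) =
          (X - C e) ^ 2 * (X ^ (2 * (n + m + 3)) * (C c₀) ^ 2) := by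
        linear_combination hnorm
      exact mul_left_cancel₀ (pow_ne_zero 2 hXe) e1
    have hdP : (PowerSeries.X : PowerSeries F) ^ (2 * (m + 1)) ∣
        (P₁ : PowerSeries F) - (P₂ : PowerSeries F) * Sq := by
      have e1 : (W₁ : PowerSeries F) - (W₂ : PowerSeries F) * Sq =
          ((X - C e : F[X]) : PowerSeries F) *
            ((P₁ : PowerSeries F) - (P₂ : PowerSeries F) * Sq) := by
        rw [hP₁, hP₂, Polynomial.coe_mul, Polynomial.coe_mul]
        ring
      rw [e1] at hdv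
      by_cases he0 : e = 0
      · rw [he0, C_0, sub_zero, Polynomial.coe_X, pow_succ'] at hdv
        exact (mul_dvd_mul_iff_left PowerSeries.X_ne_zero).1 hdv
      · refine PowerSeries.X_prime.pow_dvd_of_dvd_mul_left _ ?_
          ((pow_dvd_pow _ (Nat.le_succ _)).trans hdv)
        rw [PowerSeries.X_dvd_iff, Polynomial.constantCoeff_coe]
        simpa using he0
    refine ⟨C c₀⁻¹ * P₁, C c₀⁻¹ * P₂, ?_, ?_, ?_, ?_⟩
    · exact (Polynomial.natDegree_C_mul_le _ _).trans (by omega)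
    · have := Polynomial.natDegree_C_mul_le c₀⁻¹ P₂
      omega
    · have e1 : (C c₀⁻¹ * P₁) ^ 2 - H * (C c₀⁻¹ * P₂) ^ 2 =
          (C c₀⁻¹) ^ 2 * (P₁ ^ 2 - H * P₂ ^ 2) := by ring
      have e2 : (C c₀⁻¹ : F[X]) * C c₀ = 1 := by
        rw [← C_mul, inv_mul_cancel₀ h0, C_1]
      rw [e1, hnP]
      linear_combination (X ^ (2 * (n + m + 3)) * (C c₀⁻¹ * C c₀ + 1)) * e2
    · have e1 : ((C c₀⁻¹ * P₁ : F[X]) : PowerSeries F) -
          ((C c₀⁻¹ * P₂ : F[X]) : PowerSeries F) * Sq =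
          ((C c₀⁻¹ : F[X]) : PowerSeries F) *
            ((P₁ : PowerSeries F) - (P₂ : PowerSeries F) * Sq) := by
        rw [Polynomial.coe_mul, Polynomial.coe_mul]
        ring
      rw [e1]
      exact dvd_mul_of_dvd_right hdP _

theorem finite_pell {F : Type} [Field F] [Finite F] (h2 : (2 : F) ≠ 0) (H : F[X])
    (hH : ¬ IsSquare H) (hd : H.natDegree ≤ 4) (h1 : H.coeff 0 = 1) (Sq : PowerSeries F)
    (hSq : Sq ^ 2 = (H : PowerSeries F)) (hc : PowerSeries.constantCoeff Sq = 1) :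
    ∃ (N : ℕ) (u v : F[X]), PellU H Sq N u v := by
  have hex : ∀ k : ℕ, ∃ (A B : F[X]) (c₀ c₁ : F), Pade Sq (2 * k + 1) A B ∧
      (c₀ ≠ 0 ∨ c₁ ≠ 0) ∧ A ^ 2 - H * B ^ 2 = X ^ (2 * (2 * k + 1) + 1) * (C c₁ + C c₀ * X) := by
    intro k
    obtain ⟨A, B, hAB, hP⟩ := exists_pade Sq (2 * k + 1) (by omega)
    obtain ⟨c₀, c₁, hc, hN⟩ := norm_form hH hd hSq hAB hP
    exact ⟨A, B, c₀, c₁, hP, hc, hN⟩
  choose A B c₀ c₁ hP hcc hN using hex
  have key : ∀ k l : ℕ, k < l → c₀ k = c₀ l → c₁ k = c₁ l →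
      (A k).eval (-c₁ k / c₀ k) = (A l).eval (-c₁ l / c₀ l) →
      (B k).eval (-c₁ k / c₀ k) = (B l).eval (-c₁ l / c₀ l) →
      (A k).coeff (2 * k + 2) = (A l).coeff (2 * l + 2) →
      (B k).coeff (2 * k) = (B l).coeff (2 * l) →
      ∃ (N : ℕ) (u v : F[X]), PellU H Sq N u v := by
    intro k l hkl h3 h4 h5 h6 h7 h8
    have hNl := hN l
    rw [← h3, ← h4] at hNl h5 h6
    obtain ⟨U, V, hU, hV, hn, hdv⟩ := B1_step H hd Sq hSq (n := 2 * k) (m := 2 * l) (hP k) (hP l)
      (hcc k) (hN k) hNl h5 h6 h7 h8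
    exact B1_red h2 H Sq hSq hc (2 * k + 2 * l + 3) U V (2 * (2 * l + 1)) hU (Or.inr hV) hn
      (by omega) hdv
  obtain ⟨k, l, hkl, hcol⟩ := Finite.exists_ne_map_eq_of_infinite
    (fun k : ℕ => (c₀ k, c₁ k, (A k).eval (-c₁ k / c₀ k), (B k).eval (-c₁ k / c₀ k),
      (A k).coeff (2 * k + 2), (B k).coeff (2 * k)))
  simp only [Prod.mk.injEq] at hcol
  obtain ⟨g1, g2, g3, g4, g5, g6⟩ := hcol
  rcases lt_or_gt_of_ne hkl with h | h
  · exact key k l h g1 g2 g3 g4 g5 g6
  · exact key l k h g1.symm g2.symm g3.symm g4.symm g5.symm g6.symm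

end Pool.Agent.LibT62
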