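import Pool.Agent.LibT62.A0
import Pool.Agent.LibT62.B1

/-!
Row B2: the Pell equation is solvable over the residue field of a place of `Qb`.
The residue field `RF V` is algebraic over its prime field (`Qb` is algebraic over `ℚ`: `x ∈ V` is a
root of a primitive integral polynomial, whose reduction is not zero; see D1b.lean of LibJac77,
`exists_primitive`, `finite_red1`). So the coefficients of `H` lie in a finite subfield `F`
(`Subfield.closure` of a finite set of elements algebraic over `ZMod p`; or
`IntermediateField.adjoin (ZMod p)` of a finite set, `finiteDimensional_adjoin`). `H` is not a square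
over `F`, `finite_pell` over `F` with the root `Sq_F` of `exists_sqrt` gives `u, v`; map them to
`RF V`; `Sq = Sq_F` by `sqrt_unique`.
-/

open scoped Classical
open Polynomial IsLocalRing

namespace Pool.Agent.LibT62

open Pool.Agent.LibBH2 Pool.Agent.LibJac77

theorem B2_alg (V : ValuationSubring Qb) (p : ℕ) [Fact p.Prime] [CharP (RF V) p] (z : RF V) :
    ∃ g : (ZMod p)[X], g ≠ 0 ∧ g.eval₂ (ZMod.castHom dvd_rfl (RF V)) z = 0 := by
  have hp : p.Prime := Fact.out
  obtain ⟨⟨x, hxV⟩, rfl⟩ := residue_surjective (R := V) z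
  obtain ⟨h, hprim, -, hroot⟩ := exists_primitive x le_rfl
  refine ⟨h.map (Int.castRingHom (ZMod p)), ?_, ?_⟩
  · intro h0
    have h1 : C (p : ℤ) ∣ h := by
      rw [C_dvd_iff_dvd_coeff]
      intro n
      have h2 : (h.map (Int.castRingHom (ZMod p))).coeff n = 0 := by rw [h0, coeff_zero]
      rw [coeff_map, eq_intCast] at h2
      exact (ZMod.intCast_zmod_eq_zero_iff_dvd _ _).mp h2
    have h3 := hprim _ h1
    rw [Int.isUnit_iff] at h3
    have := hp.one_lt
    omega
  · have hφ : (ZMod.castHom dvd_rfl (RF V)).comp (Int.castRingHom (ZMod p)) =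
        (residue V).comp (algebraMap ℤ V) :=
      RingHom.ext_int _ _
    rw [eval₂_map, hφ, ← eval₂_map]
    have h4 : (h.map (algebraMap ℤ V)).eval ⟨x, hxV⟩ = 0 := by
      apply Subtype.val_injective
      have h5 : algebraMap V Qb ((h.map (algebraMap ℤ V)).eval ⟨x, hxV⟩) = aeval x h := by
        rw [← aeval_algebraMap_apply_eq_algebraMap_eval, aeval_map_algebraMap]
        rfl
      rw [hroot] at h5
      exact h5
    rw [eval₂_at_apply, h4, map_zero]

theorem B2_sub {L : Type} [Field L] (F : Subfield L) [Finite F] (h2 : (2 : L) ≠ 0) (H : L[X])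
    (hF : ∀ n, H.coeff n ∈ F) (hH : ¬ IsSquare H) (hd : H.natDegree ≤ 4)
    (h1 : H.coeff 0 = 1) (Sq : PowerSeries L) (hSq : Sq ^ 2 = (H : PowerSeries L))
    (hc : PowerSeries.constantCoeff Sq = 1) :
    ∃ (N : ℕ) (u v : L[X]), PellU H Sq N u v := by
  obtain ⟨H', hH'⟩ : ∃ H' : F[X], H'.map F.subtype = H := by
    have : H ∈ Polynomial.lifts F.subtype := by
      rw [Polynomial.lifts_iff_coeff_lifts]
      intro n
      exact ⟨⟨H.coeff n, hF n⟩, rfl⟩
    exact (Polynomial.mem_lifts H).1 this
  have hinj : Function.Injective F.subtype := F.subtype.injective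
  have h2' : (2 : F) ≠ 0 := by
    intro h0
    apply h2
    have := congrArg F.subtype h0
    rw [map_zero, map_ofNat] at this
    exact this
  have hsq' : ¬ IsSquare H' := by
    rintro ⟨P, hP⟩
    apply hH
    exact ⟨P.map F.subtype, by rw [← hH', hP, Polynomial.map_mul]⟩
  have hd' : H'.natDegree ≤ 4 := by
    rw [← Polynomial.natDegree_map_eq_of_injective hinj, hH']
    exact hd
  have h1' : H'.coeff 0 = 1 := by
    apply hinj
    rw [← Polynomial.coeff_map, hH', h1, map_one]
  obtain ⟨S', hS', hc'⟩ := exists_sqrt (isUnit_iff_ne_zero.2 h2') (H' : PowerSeries F)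
    (by rw [Polynomial.constantCoeff_coe, h1'])
  obtain ⟨N, u, v, hP⟩ := finite_pell h2' H' hsq' hd' h1' S' hS' hc'
  have hmS : PowerSeries.map F.subtype S' = Sq := by
    refine sqrt_unique h2 _ _ ?_ ?_ hc
    · rw [← map_pow, hS', hSq, ← Polynomial.polynomial_map_coe, hH']
    · rw [← PowerSeries.coeff_zero_eq_constantCoeff_apply, PowerSeries.coeff_map,
        PowerSeries.coeff_zero_eq_constantCoeff_apply, hc', map_one]
  refine ⟨N, u.map F.subtype, v.map F.subtype, hP.pos, natDegree_map_le.trans hP.degu, ?_, ?_, ?_⟩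
  · have := hP.degv
    have h3 : (v.map F.subtype).natDegree ≤ v.natDegree := natDegree_map_le
    omega
  · have := congrArg (Polynomial.map F.subtype) hP.norm
    simpa [hH'] using this
  · have h3 := map_dvd (PowerSeries.map F.subtype) hP.dvd
    rw [map_pow, PowerSeries.map_X, map_sub, map_mul, hmS, ← Polynomial.polynomial_map_coe,
      ← Polynomial.polynomial_map_coe] at h3
    exact h3

theorem residue_pell (V : ValuationSubring Qb) (p : ℕ) [Fact p.Prime] [CharP (RF V) p]
    (h2 : (2 : RF V) ≠ 0) (H : (RF V)[X]) (hH : ¬ IsSquare H) (hd : H.natDegree ≤ 4)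
    (h1 : H.coeff 0 = 1) (Sq : PowerSeries (RF V)) (hSq : Sq ^ 2 = (H : PowerSeries (RF V)))
    (hc : PowerSeries.constantCoeff Sq = 1) :
    ∃ (N : ℕ) (u v : (RF V)[X]), PellU H Sq N u v := by
  let _ : Algebra (ZMod p) (RF V) := ZMod.algebra (RF V) p
  have hint : ∀ x ∈ (H.coeffs : Set (RF V)), IsIntegral (ZMod p) x := by
    intro x _
    obtain ⟨g, hg0, hg⟩ := B2_alg V p x
    exact (show IsAlgebraic (ZMod p) x from ⟨g, hg0, hg⟩).isIntegral
  have hfd := IntermediateField.finiteDimensional_adjoin (K := ZMod p) (L := RF V) hint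
  set K := IntermediateField.adjoin (ZMod p) (H.coeffs : Set (RF V)) with hK
  have hfin : Finite K := Module.finite_of_finite (ZMod p)
  have hfin' : Finite K.toSubfield := hfin
  refine B2_sub K.toSubfield h2 H (fun n => ?_) hH hd h1 Sq hSq hc
  by_cases h0 : H.coeff n = 0
  · rw [h0]
    exact K.toSubfield.zero_mem
  · exact IntermediateField.subset_adjoin (ZMod p) _ (Polynomial.coeff_mem_coeffs h0)

end Pool.Agent.LibT62
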