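import Pool.Agent.LibT62.A2

/-!
Row B3: a Pade approximant of order `n = N j`, `N` the order of a Pell unit `u + v s`, has the norm
`c X ^ (2 n + 2)`.
Put `(W₁, W₂) = (A, B) (u, -v) ^ j` (multiplication in `K[X][s]`, `s ^ 2 = H`; e.g. define the pair by
recursion on `j`, or use `QuadraticAlgebra K[X] H 0`). Degrees: `W₁` at most `n + 1 + N j = 2 n + 1`,
`W₂` at most `2 n - 1`. `W₁ - W₂ Sq = (A - B Sq) (u + v Sq) ^ j` is divisible by `X ^ (2 n + 1)`,
`W₁ + W₂ Sq = (A + B Sq) (u - v Sq) ^ j` by `X ^ (2 N j) = X ^ (2 n)`. So `X ^ (2 n) ∣ W₂` (`2`, `Sq`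
units), `W₂ = 0` by its degree, and `X ^ (2 n + 1) ∣ W₁`, `W₁ = w X ^ (2 n + 1)`, `w ≠ 0` (norms:
`norm_ne_zero`). Norms: `w ^ 2 X ^ (4 n + 2) = (A ^ 2 - H B ^ 2) X ^ (2 n)`.
Second claim: `(A - B Sq) (u + v Sq) ^ j = w X ^ (2 n + 1)` and `u + v Sq` has nonzero constant
coefficient (if `X` divides both `u + v Sq` and `u - v Sq`, hmm: `(u - v Sq) (u + v Sq) = X ^ (2 N)`
and `X ^ (2 N) ∣ u - v Sq`, so cancelling gives `E (u + v Sq) = 1`).
-/

open scoped Classical
open Polynomial IsLocalRing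

namespace Pool.Agent.LibT62

open Pool.Agent.LibBH2 Pool.Agent.LibJac77

lemma B3_dvd {R : Type} [CommRing R] {P : R[X]} {k : ℕ}
    (h : (PowerSeries.X : PowerSeries R) ^ k ∣ (P : PowerSeries R)) : (X : R[X]) ^ k ∣ P := by
  rw [Polynomial.X_pow_dvd_iff]
  intro i hi
  rw [PowerSeries.X_pow_dvd_iff] at h
  have := h i hi
  rwa [Polynomial.coeff_coe] at this

lemma B3_rec {K : Type} [Field K] {H : K[X]} (hd : H.natDegree ≤ 4) {Sq : PowerSeries K}
    (hSq : Sq ^ 2 = (H : PowerSeries K)) {N a : ℕ} {u v A B : K[X]} (du : u.natDegree ≤ N)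
    (dv : v.natDegree + 2 ≤ N) (norm : u ^ 2 - H * v ^ 2 = X ^ (2 * N))
    (dA : A.natDegree ≤ a) (dB : B.natDegree + 2 ≤ a) (j : ℕ) :
    ∃ W₁ W₂ : K[X], W₁.natDegree ≤ a + N * j ∧ W₂.natDegree + 2 ≤ a + N * j ∧
      ((W₁ : PowerSeries K) - (W₂ : PowerSeries K) * Sq =
        ((A : PowerSeries K) - (B : PowerSeries K) * Sq) *
          ((u : PowerSeries K) + (v : PowerSeries K) * Sq) ^ j) ∧
      ((W₁ : PowerSeries K) + (W₂ : PowerSeries K) * Sq =
        ((A : PowerSeries K) + (B : PowerSeries K) * Sq) *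
          ((u : PowerSeries K) - (v : PowerSeries K) * Sq) ^ j) ∧
      W₁ ^ 2 - H * W₂ ^ 2 = (A ^ 2 - H * B ^ 2) * X ^ (2 * (N * j)) := by
  induction j with
  | zero =>
    refine ⟨A, B, by simpa using dA, by simpa using dB, ?_, ?_, ?_⟩
    · rw [pow_zero, mul_one]
    · rw [pow_zero, mul_one]
    · simp
  | succ j ih =>
    obtain ⟨P, Q, dP, dQ, e1, e2, e3⟩ := ih
    refine ⟨P * u - H * (Q * v), Q * u - P * v, ?_, ?_, ?_, ?_, ?_⟩
    · have h1 : (P * u).natDegree ≤ a + N * j + N :=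
        (Polynomial.natDegree_mul_le).trans (by omega)
      have h2 : (H * (Q * v)).natDegree ≤ a + N * j + N := by
        have h3 : (Q * v).natDegree ≤ Q.natDegree + v.natDegree := Polynomial.natDegree_mul_le
        have h4 : (H * (Q * v)).natDegree ≤ H.natDegree + (Q * v).natDegree :=
          Polynomial.natDegree_mul_le
        omega
      have h5 : a + N * (j + 1) = a + N * j + N := by ring
      rw [h5]
      exact (Polynomial.natDegree_sub_le _ _).trans (max_le h1 h2)
    · have h1 : (Q * u).natDegree ≤ a + N * j + N - 2 :=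
        (Polynomial.natDegree_mul_le).trans (by omega)
      have h2 : (P * v).natDegree ≤ a + N * j + N - 2 :=
        (Polynomial.natDegree_mul_le).trans (by omega)
      have h3 := (Polynomial.natDegree_sub_le (Q * u) (P * v)).trans (max_le h1 h2)
      have h5 : a + N * (j + 1) = a + N * j + N := by ring
      rw [h5]
      omega
    · have h1 : (((P * u - H * (Q * v) : K[X]) : PowerSeries K)) -
          ((Q * u - P * v : K[X]) : PowerSeries K) * Sq =
          ((P : PowerSeries K) - (Q : PowerSeries K) * Sq) *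
            ((u : PowerSeries K) + (v : PowerSeries K) * Sq) := by
        push_cast
        rw [← hSq]
        ring
      rw [h1, e1]
      ring
    · have h1 : (((P * u - H * (Q * v) : K[X]) : PowerSeries K)) +
          ((Q * u - P * v : K[X]) : PowerSeries K) * Sq =
          ((P : PowerSeries K) + (Q : PowerSeries K) * Sq) *
            ((u : PowerSeries K) - (v : PowerSeries K) * Sq) := by
        push_cast
        rw [← hSq]
        ring
      rw [h1, e2]
      ring
    · have h1 : (P * u - H * (Q * v)) ^ 2 - H * (Q * u - P * v) ^ 2 =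
          (P ^ 2 - H * Q ^ 2) * (u ^ 2 - H * v ^ 2) := by ring
      rw [h1, e3, norm]
      ring

theorem pade_pell {K : Type} [Field K] (h2 : (2 : K) ≠ 0) (H : K[X])
    (hH : ¬ IsSquare H) (hd : H.natDegree ≤ 4) (h1 : H.coeff 0 = 1) (Sq : PowerSeries K)
    (hSq : Sq ^ 2 = (H : PowerSeries K)) (hc : PowerSeries.constantCoeff Sq = 1)
    {N : ℕ} {u v : K[X]} (hu : PellU H Sq N u v) {j : ℕ} (hj : 1 ≤ j) {A B : K[X]}
    (h : A ≠ 0 ∨ B ≠ 0) (hP : Pade Sq (N * j) A B) :
    (∃ c : K, c ≠ 0 ∧ A ^ 2 - H * B ^ 2 = C c * X ^ (2 * (N * j) + 2)) ∧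
      PowerSeries.coeff (2 * (N * j) + 1) ((A : PowerSeries K) - (B : PowerSeries K) * Sq) ≠ 0 := by
  have hB : B.natDegree + 2 ≤ N * j + 1 := by
    have := hP.degB
    omega
  obtain ⟨W₁, W₂, d1, d2, e1, e2, e3⟩ := B3_rec (a := N * j + 1) hd hSq hu.degu hu.degv hu.norm
    hP.degA hB j
  have hN : 0 < N * j := Nat.mul_pos hu.pos hj
  obtain ⟨n, hn⟩ : ∃ n, n = N * j := ⟨_, rfl⟩
  rw [← hn] at d1 d2 e3 hP hN ⊢
  -- divisibility
  have hdm : (PowerSeries.X : PowerSeries K) ^ (2 * n + 1) ∣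
      (W₁ : PowerSeries K) - (W₂ : PowerSeries K) * Sq := by
    rw [e1]; exact Dvd.dvd.mul_right hP.dvd _
  have hdp : (PowerSeries.X : PowerSeries K) ^ (2 * n) ∣
      (W₁ : PowerSeries K) + (W₂ : PowerSeries K) * Sq := by
    rw [e2, hn, show 2 * (N * j) = (2 * N) * j by ring, pow_mul]
    exact Dvd.dvd.mul_left (pow_dvd_pow_of_dvd hu.dvd j) _
  have hunit2 : IsUnit (2 * Sq) := by
    rw [PowerSeries.isUnit_iff_constantCoeff, map_mul, hc, mul_one, map_ofNat]
    exact isUnit_iff_ne_zero.2 h2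
  have hdW : (PowerSeries.X : PowerSeries K) ^ (2 * n) ∣ (W₂ : PowerSeries K) := by
    have h3 : (PowerSeries.X : PowerSeries K) ^ (2 * n) ∣ (W₂ : PowerSeries K) * (2 * Sq) := by
      have h4 : (W₂ : PowerSeries K) * (2 * Sq) =
          ((W₁ : PowerSeries K) + (W₂ : PowerSeries K) * Sq) -
            ((W₁ : PowerSeries K) - (W₂ : PowerSeries K) * Sq) := by ring
      rw [h4]
      exact dvd_sub hdp ((pow_dvd_pow _ (by omega)).trans hdm)
    exact (hunit2.dvd_mul_right).1 h3
  have hW2 : W₂ = 0 := by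
    by_contra hne
    have h3 := Polynomial.natDegree_le_of_dvd (B3_dvd hdW) hne
    rw [Polynomial.natDegree_X_pow] at h3
    omega
  rw [hW2] at e1 e3 hdm
  have hdm' : (PowerSeries.X : PowerSeries K) ^ (2 * n + 1) ∣ (W₁ : PowerSeries K) := by
    simpa using hdm
  obtain ⟨w, hw⟩ := B3_dvd hdm'
  have hnz := norm_ne_zero hH h
  have hW1 : W₁ ≠ 0 := by
    intro h0
    rw [h0] at e3
    have h3 : (A ^ 2 - H * B ^ 2) * X ^ (2 * n) = 0 := by rw [← e3]; ring
    rcases mul_eq_zero.1 h3 with h4 | h4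
    · exact hnz h4
    · exact (pow_ne_zero _ Polynomial.X_ne_zero) h4
  have hw0 : w ≠ 0 := by
    intro h0
    exact hW1 (by rw [hw, h0, mul_zero])
  have hwd : w.natDegree = 0 := by
    have h3 : W₁.natDegree = 2 * n + 1 + w.natDegree := by
      rw [hw, Polynomial.natDegree_mul (pow_ne_zero _ Polynomial.X_ne_zero) hw0,
        Polynomial.natDegree_X_pow]
    omega
  obtain ⟨c, hcw⟩ : ∃ c : K, w = C c := ⟨w.coeff 0, Polynomial.eq_C_of_natDegree_eq_zero hwd⟩
  have hc0 : c ≠ 0 := by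
    intro h0
    exact hw0 (by rw [hcw, h0, map_zero])
  refine ⟨⟨c ^ 2, pow_ne_zero _ hc0, ?_⟩, ?_⟩
  · have h3 : (A ^ 2 - H * B ^ 2) * X ^ (2 * n) = (C (c ^ 2) * X ^ (2 * n + 2)) * X ^ (2 * n) := by
      rw [← e3, hw, hcw, map_pow]
      ring
    exact mul_right_cancel₀ (pow_ne_zero _ Polynomial.X_ne_zero) h3
  · -- the leading coefficient of `A - B Sq`
    obtain ⟨G, hG⟩ := hP.dvd
    obtain ⟨E, hE⟩ := hu.dvd
    have h3 : ((u : PowerSeries K) - (v : PowerSeries K) * Sq) *
        ((u : PowerSeries K) + (v : PowerSeries K) * Sq) = PowerSeries.X ^ (2 * N) := by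
      have h4 := congrArg (fun P : K[X] => (P : PowerSeries K)) hu.norm
      simp only [Polynomial.coe_sub, Polynomial.coe_mul, Polynomial.coe_pow, Polynomial.coe_X] at h4
      rw [← h4, ← hSq]
      ring
    have h5 : E * ((u : PowerSeries K) + (v : PowerSeries K) * Sq) = 1 := by
      rw [hE] at h3
      have h6 : (PowerSeries.X : PowerSeries K) ^ (2 * N) *
          (E * ((u : PowerSeries K) + (v : PowerSeries K) * Sq)) = PowerSeries.X ^ (2 * N) * 1 := by
        rw [mul_one, ← mul_assoc]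
        exact h3
      exact mul_left_cancel₀ (pow_ne_zero _ PowerSeries.X_ne_zero) h6
    have h7 : G * ((u : PowerSeries K) + (v : PowerSeries K) * Sq) ^ j = PowerSeries.C c := by
      have h8 : (PowerSeries.X : PowerSeries K) ^ (2 * n + 1) *
          (G * ((u : PowerSeries K) + (v : PowerSeries K) * Sq) ^ j) =
          PowerSeries.X ^ (2 * n + 1) * PowerSeries.C c := by
        rw [← mul_assoc, ← hG, ← e1, hw, hcw]
        simp
        ring
      exact mul_left_cancel₀ (pow_ne_zero _ PowerSeries.X_ne_zero) h8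
    have h9 : PowerSeries.constantCoeff G ≠ 0 := by
      intro h0
      have h10 := congrArg (fun P : PowerSeries K => PowerSeries.constantCoeff P) h7
      simp only [map_mul, h0, zero_mul, PowerSeries.constantCoeff_C] at h10
      exact hc0 h10.symm
    have h11 : PowerSeries.coeff (2 * n + 1) ((PowerSeries.X : PowerSeries K) ^ (2 * n + 1) * G) =
        PowerSeries.constantCoeff G := by
      have h12 := PowerSeries.coeff_X_pow_mul G (2 * n + 1) 0
      rw [zero_add] at h12
      rw [h12, PowerSeries.coeff_zero_eq_constantCoeff_apply]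
    rw [hG, h11]
    exact h9

end Pool.Agent.LibT62
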