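import Pool.Agent.LibT62.Defs

/-!
Row B4: the sign. `S ^ 2 = H(e)` is congruent to `H(0) = 1`, so `S` is congruent to `1` or `-1`.
Suppose `S` is congruent to `-1`. Let `T` be the truncation of `Sq` at `2 n + 2` (a polynomial,
`PowerSeries.trunc`). Then `A - B T = X ^ (2 n + 1) R` with `R(0)` = the coefficient `2 n + 1` of
`A - B Sq` (a unit), and `T ^ 2 - H = X ^ (2 n + 2) E` (polynomials over `V`). At `e`:
`T(e) - S` is a unit (`T(e)` is congruent to `T(0) = 1`, `2 ≠ 0`), so
`T(e) + S = e ^ (2 n + 2) r`, `r ∈ V`. As `A(e) = - B(e) S = B(e) (T(e) - e ^ (2 n + 2) r)`,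
`e ^ (2 n + 1) R(e) = A(e) - B(e) T(e) = - B(e) e ^ (2 n + 2) r`; cancel `e ^ (2 n + 1)`:
`R(e) = - B(e) e r` is in the maximal ideal, but `R(e)` is congruent to `R(0)`, a unit.
-/

open scoped Classical
open Polynomial IsLocalRing

namespace Pool.Agent.LibT62

open Pool.Agent.LibBH2 Pool.Agent.LibJac77

lemma B4_residue_eval {K : Type} [Field K] (V : ValuationSubring K) (P : V[X]) {e : V}
    (he : residue V e = 0) : residue V (P.eval e) = residue V (P.coeff 0) := by
  have h1 : residue V (P.eval e) = (P.map (residue V)).eval (residue V e) := by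
    rw [Polynomial.eval_map, Polynomial.eval₂_hom]
  rw [h1, he, ← Polynomial.coeff_zero_eq_eval_zero, Polynomial.coeff_map]

lemma B4_dvd {R : Type} [CommRing R] {P : R[X]} {k : ℕ}
    (h : (PowerSeries.X : PowerSeries R) ^ k ∣ (P : PowerSeries R)) : (X : R[X]) ^ k ∣ P := by
  rw [Polynomial.X_pow_dvd_iff]
  intro i hi
  rw [PowerSeries.X_pow_dvd_iff] at h
  have := h i hi
  rwa [Polynomial.coeff_coe] at this

lemma B4_trunc {R : Type} [CommRing R] (Sq : PowerSeries R) (k : ℕ) :
    (PowerSeries.X : PowerSeries R) ^ k ∣ Sq - ((PowerSeries.trunc k Sq : R[X]) : PowerSeries R) := by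
  rw [PowerSeries.X_pow_dvd_iff]
  intro i hi
  rw [map_sub, Polynomial.coeff_coe, PowerSeries.coeff_trunc, if_pos hi, sub_self]

theorem sign_pos {K : Type} [Field K] (V : ValuationSubring K) (h2 : (2 : RF V) ≠ 0)
    (H : V[X]) (h1 : H.coeff 0 = 1) (Sq : PowerSeries V) (hSq : Sq ^ 2 = (H : PowerSeries V))
    (hc : PowerSeries.constantCoeff Sq = 1) {n : ℕ} {A B : V[X]} (hP : Pade Sq n A B)
    (hunit : residue V (PowerSeries.coeff (2 * n + 1)
      ((A : PowerSeries V) - (B : PowerSeries V) * Sq)) ≠ 0)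
    {e S : V} (he : residue V e = 0) (he0 : e ≠ 0) (hS : S ^ 2 = H.eval e)
    (hAB : A.eval e + B.eval e * S = 0) : residue V S = 1 := by
  by_contra hne
  have hS1 : residue V S ^ 2 = 1 := by
    rw [← map_pow, hS, B4_residue_eval V H he, h1, map_one]
  have hSm : residue V S = -1 := by
    have h3 : (residue V S - 1) * (residue V S + 1) = 0 := by
      have : (residue V S - 1) * (residue V S + 1) = residue V S ^ 2 - 1 := by ring
      rw [this, hS1, sub_self]
    rcases mul_eq_zero.1 h3 with h | h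
    · exact absurd (sub_eq_zero.1 h) hne
    · exact eq_neg_of_add_eq_zero_left h
  -- the truncation
  obtain ⟨T, hT⟩ : ∃ T : V[X], T = PowerSeries.trunc (2 * n + 2) Sq := ⟨_, rfl⟩
  have hTd : (PowerSeries.X : PowerSeries V) ^ (2 * n + 2) ∣ Sq - (T : PowerSeries V) := by
    rw [hT]; exact B4_trunc Sq _
  have hT0 : T.coeff 0 = 1 := by
    rw [hT, PowerSeries.coeff_trunc, if_pos (by omega), PowerSeries.coeff_zero_eq_constantCoeff_apply,
      hc]
  -- `A - B T`
  have e1 : ((A - B * T : V[X]) : PowerSeries V) =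
      ((A : PowerSeries V) - (B : PowerSeries V) * Sq) +
        (B : PowerSeries V) * (Sq - (T : PowerSeries V)) := by
    push_cast
    ring
  have hd1 : (X : V[X]) ^ (2 * n + 1) ∣ A - B * T := by
    refine B4_dvd ?_
    rw [e1]
    exact dvd_add hP.dvd (Dvd.dvd.mul_left ((pow_dvd_pow _ (by omega)).trans hTd) _)
  obtain ⟨R, hR⟩ := hd1
  have hR0 : R.coeff 0 = PowerSeries.coeff (2 * n + 1)
      ((A : PowerSeries V) - (B : PowerSeries V) * Sq) := by
    have h3 : (A - B * T).coeff (2 * n + 1) = R.coeff 0 := by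
      have h3' := Polynomial.coeff_X_pow_mul R (2 * n + 1) 0
      rw [zero_add] at h3'
      rw [hR, h3']
    have h4 : (A - B * T).coeff (2 * n + 1) = PowerSeries.coeff (2 * n + 1)
        ((A - B * T : V[X]) : PowerSeries V) := (Polynomial.coeff_coe _ _).symm
    have h5 : PowerSeries.coeff (2 * n + 1)
        ((B : PowerSeries V) * (Sq - (T : PowerSeries V))) = 0 :=
      (PowerSeries.X_pow_dvd_iff.1 (Dvd.dvd.mul_left hTd _)) (2 * n + 1) (by omega)
    rw [← h3, h4, e1, map_add, h5, add_zero]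
  -- `T ^ 2 - H`
  have hd2 : (X : V[X]) ^ (2 * n + 2) ∣ T ^ 2 - H := by
    refine B4_dvd ?_
    have e2 : ((T ^ 2 - H : V[X]) : PowerSeries V) =
        -((Sq + (T : PowerSeries V)) * (Sq - (T : PowerSeries V))) := by
      push_cast
      rw [← hSq]
      ring
    rw [e2]
    exact (dvd_neg).2 (Dvd.dvd.mul_left hTd _)
  obtain ⟨E, hE⟩ := hd2
  have hTe : residue V (T.eval e) = 1 := by
    rw [B4_residue_eval V T he, hT0, map_one]
  have hu : IsUnit (T.eval e - S) := by
    rw [← IsLocalRing.residue_ne_zero_iff_isUnit, map_sub, hTe, hSm]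
    rw [show (1 : RF V) - -1 = 2 by ring]
    exact h2
  obtain ⟨w, hw⟩ := hu
  have h6 : (T.eval e - S) * (T.eval e + S) = e ^ (2 * n + 2) * E.eval e := by
    have h7 := congrArg (fun P : V[X] => P.eval e) hE
    simp only [Polynomial.eval_sub, Polynomial.eval_pow, Polynomial.eval_mul, Polynomial.eval_X] at h7
    rw [← h7, ← hS]
    ring
  have h8 : T.eval e + S = e ^ (2 * n + 2) * (E.eval e * ((w⁻¹ : Vˣ) : V)) := by
    have h9 : ((w⁻¹ : Vˣ) : V) * (T.eval e - S) = 1 := by rw [← hw]; exact w.inv_mul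
    calc T.eval e + S = (((w⁻¹ : Vˣ) : V) * (T.eval e - S)) * (T.eval e + S) := by rw [h9, one_mul]
      _ = ((w⁻¹ : Vˣ) : V) * ((T.eval e - S) * (T.eval e + S)) := by ring
      _ = _ := by rw [h6]; ring
  have h10 : e ^ (2 * n + 1) * R.eval e = A.eval e - B.eval e * T.eval e := by
    have h7 := congrArg (fun P : V[X] => P.eval e) hR
    simp only [Polynomial.eval_sub, Polynomial.eval_pow, Polynomial.eval_mul, Polynomial.eval_X] at h7
    rw [← h7]
  have h11 : e ^ (2 * n + 1) * R.eval e =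
      e ^ (2 * n + 1) * (-(B.eval e * (e * (E.eval e * ((w⁻¹ : Vˣ) : V))))) := by
    rw [h10]
    calc A.eval e - B.eval e * T.eval e = (A.eval e + B.eval e * S) - B.eval e * (T.eval e + S) := by
          ring
      _ = _ := by rw [hAB, h8]; ring
  have h12 := mul_left_cancel₀ (pow_ne_zero _ he0) h11
  have h13 : residue V (R.eval e) = 0 := by
    rw [h12, map_neg, map_mul, map_mul, he]
    ring
  rw [B4_residue_eval V R he, hR0] at h13
  exact hunit h13

end Pool.Agent.LibT62
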