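import Pool.Agent.LibT62.D0
import Pool.Agent.LibT62.B3
import Pool.Agent.LibT62.B4

/-!
Row B5: integral data at a good place. `(A, B) = l (A', B')` with `A', B'` over `V`, not both zero
modulo the maximal ideal (`exists_scale`). The reduction of `(A', B')` is a Pade approximant over
`RF V` for `Sq mod` (map the divisibility: `X ^ m ∣ φ` is a statement on coefficients), so by
`pade_pell` the norm of the reduction is `c X ^ (2 n + 2)` with `c ≠ 0`, and over `K` it is
`X ^ (2 n + 1) (c₁' + c₀' X)`, hence `c₀' ∈ V` is a unit, `c₁' ∈ V` is in the maximal ideal,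
`c₁' ≠ 0`. `e = - c₁' / c₀'`, `c = c₀'`. `B'(e) ≠ 0` (otherwise `A'(e) = 0` and `(X - e) ^ 2` divides
the norm, but `e ≠ 0` is a simple zero). `S = - A'(e) / B'(e)` in `K`; `S ^ 2 = H(e)` is a unit of `V`,
so `S ∈ V`. `sgn` by `sign_pos`. The last claims: `eOf`, `SOf` do not change when `(A, B)` is scaled.
-/

open scoped Classical
open Polynomial IsLocalRing

namespace Pool.Agent.LibT62

open Pool.Agent.LibBH2 Pool.Agent.LibJac77

/-- a Pade approximant over `K` with coefficients in `V` is one over `V` -/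
theorem B5_pade {K : Type} [Field K] (V : ValuationSubring K) (Sq : PowerSeries V) {n : ℕ}
    {A B : K[X]} (hP : Pade (Sq.map (algebraMap V K)) n A B) {l : K} (hl : l ≠ 0) {A' B' : V[X]}
    (hA : A = C l * A'.map (algebraMap V K)) (hB : B = C l * B'.map (algebraMap V K)) :
    Pade Sq n A' B' := by
  have hinj : Function.Injective (algebraMap V K) := Subtype.val_injective
  have hdA : A.natDegree = A'.natDegree := by
    rw [hA, natDegree_C_mul hl, natDegree_map_eq_of_injective hinj]
  have hdB : B.natDegree = B'.natDegree := by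
    rw [hB, natDegree_C_mul hl, natDegree_map_eq_of_injective hinj]
  refine ⟨hdA ▸ hP.degA, hdB ▸ hP.degB, ?_⟩
  rw [PowerSeries.X_pow_dvd_iff]
  intro i hi
  have h1 := PowerSeries.X_pow_dvd_iff.1 hP.dvd i hi
  have h2 : (A : PowerSeries K) - (B : PowerSeries K) * Sq.map (algebraMap V K) =
      PowerSeries.C l * (((A' : PowerSeries V) - (B' : PowerSeries V) * Sq).map (algebraMap V K)) := by
    rw [hA, hB, map_sub, map_mul, Polynomial.coe_mul, Polynomial.coe_mul, Polynomial.coe_C,
      Polynomial.polynomial_map_coe, Polynomial.polynomial_map_coe]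
    ring
  rw [h2, PowerSeries.coeff_C_mul, PowerSeries.coeff_map] at h1
  rcases mul_eq_zero.1 h1 with h | h
  · exact absurd h hl
  · exact hinj (by rw [h, map_zero])

/-- the reduction of a Pade approximant -/
theorem B5_map {R F : Type} [CommRing R] [CommRing F] (φ : R →+* F) (Sq : PowerSeries R) {n : ℕ}
    {A B : R[X]} (hP : Pade Sq n A B) : Pade (Sq.map φ) n (A.map φ) (B.map φ) := by
  refine ⟨natDegree_map_le.trans hP.degA, ?_, ?_⟩
  · have := natDegree_map_le (f := φ) (p := B)
    have := hP.degB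
    omega
  · rw [PowerSeries.X_pow_dvd_iff]
    intro i hi
    have h1 := PowerSeries.X_pow_dvd_iff.1 hP.dvd i hi
    have h2 : ((A.map φ : F[X]) : PowerSeries F) - ((B.map φ : F[X]) : PowerSeries F) * Sq.map φ =
        ((A : PowerSeries R) - (B : PowerSeries R) * Sq).map φ := by
      rw [map_sub, map_mul, Polynomial.polynomial_map_coe, Polynomial.polynomial_map_coe]
    rw [h2, PowerSeries.coeff_map, h1, map_zero]

theorem exists_intPt {K : Type} [Field K] (V : ValuationSubring K) (h2 : (2 : RF V) ≠ 0)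
    (H : V[X]) (hd : H.natDegree ≤ 4) (h1 : H.coeff 0 = 1) (hH : ¬ IsSquare (H.map (residue V)))
    (Sq : PowerSeries V) (hSq : Sq ^ 2 = (H : PowerSeries V))
    (hc : PowerSeries.constantCoeff Sq = 1) {N : ℕ} {u v : (RF V)[X]}
    (hu : PellU (H.map (residue V)) (Sq.map (residue V)) N u v) {j : ℕ} (hj : 1 ≤ j) {A B : K[X]}
    (h : A ≠ 0 ∨ B ≠ 0) (hP : Pade (Sq.map (algebraMap V K)) (N * j) A B) {c₀ c₁ : K}
    (hc₁ : c₁ ≠ 0) (hN : A ^ 2 - H.map (algebraMap V K) * B ^ 2 =
      X ^ (2 * (N * j) + 1) * (C c₁ + C c₀ * X)) :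
    ∃ (A' B' : V[X]) (c e S : V), IntPt V H Sq (N * j) A' B' c e S ∧
      (e : K) = eOf (H.map (algebraMap V K)) (N * j) A B ∧
      (S : K) = SOf (H.map (algebraMap V K)) (N * j) A B ∧
      B.eval (e : K) ≠ 0 := by
  have hinj : Function.Injective (algebraMap V K) := Subtype.val_injective
  obtain ⟨l, A', B', hl, hA, hB, hAB⟩ := exists_scale V A B h
  have hP' : Pade Sq (N * j) A' B' := B5_pade V Sq hP hl hA hB
  have hPr := B5_map (residue V) Sq hP'
  set n := N * j with hn
  -- reduction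
  have hHd : (H.map (residue V)).natDegree ≤ 4 := natDegree_map_le.trans hd
  have hH1 : (H.map (residue V)).coeff 0 = 1 := by rw [coeff_map, h1, map_one]
  have hSqr : (Sq.map (residue V)) ^ 2 = ((H.map (residue V) : (RF V)[X]) : PowerSeries (RF V)) := by
    rw [← map_pow, hSq, Polynomial.polynomial_map_coe]
  have hcr : PowerSeries.constantCoeff (Sq.map (residue V)) = 1 := by
    rw [← PowerSeries.coeff_zero_eq_constantCoeff_apply, PowerSeries.coeff_map,
      PowerSeries.coeff_zero_eq_constantCoeff_apply, hc, map_one]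
  obtain ⟨⟨c, hc0, hcN⟩, hcoef⟩ := pade_pell h2 (H.map (residue V)) hH hHd hH1 (Sq.map (residue V))
    hSqr hcr hu hj hAB (by rw [← hn]; exact hPr)
  rw [← hn] at hcN hcoef
  -- the norm over V
  set Nn : V[X] := A' ^ 2 - H * B' ^ 2 with hNn
  have hNK : C (l ^ 2) * Nn.map (algebraMap V K) = X ^ (2 * n + 1) * (C c₁ + C c₀ * X) := by
    rw [← hN, hA, hB, hNn]
    simp only [Polynomial.map_sub, Polynomial.map_mul, Polynomial.map_pow, C_pow]
    ring
  have hNr : Nn.map (residue V) = C c * X ^ (2 * n + 2) := by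
    rw [← hcN, hNn]
    simp only [Polynomial.map_sub, Polynomial.map_mul, Polynomial.map_pow]
  set d₁ : V := Nn.coeff (2 * n + 1) with hd₁
  set d₀ : V := Nn.coeff (2 * n + 2) with hd₀
  have hX : (X ^ (2 * n + 1) * (C c₁ + C c₀ * X) : K[X]) =
      C c₁ * X ^ (2 * n + 1) + C c₀ * X ^ (2 * n + 2) := by ring
  have hl2 : l ^ 2 ≠ 0 := pow_ne_zero 2 hl
  have hco : ∀ i, l ^ 2 * ((Nn.coeff i : V) : K) =
      (C c₁ * X ^ (2 * n + 1) + C c₀ * X ^ (2 * n + 2) : K[X]).coeff i := by
    intro i
    rw [← hX, ← hNK, coeff_C_mul, coeff_map]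
    rfl
  have e1 : l ^ 2 * (d₁ : K) = c₁ := by
    rw [hd₁, hco, coeff_add, coeff_C_mul_X_pow, coeff_C_mul_X_pow, if_pos rfl, if_neg (by omega),
      add_zero]
  have e0 : l ^ 2 * (d₀ : K) = c₀ := by
    rw [hd₀, hco, coeff_add, coeff_C_mul_X_pow, coeff_C_mul_X_pow, if_neg (by omega), if_pos rfl,
      zero_add]
  have hd1ne : d₁ ≠ 0 := by
    intro h0
    rw [h0] at e1
    apply hc₁
    rw [← e1]
    simp
  have hd1r : residue V d₁ = 0 := by
    have := congrArg (fun P => P.coeff (2 * n + 1)) hNr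
    simp only [coeff_map] at this
    rw [hd₁, this, coeff_C_mul_X_pow, if_neg (by omega)]
  have hd0r : residue V d₀ = c := by
    have := congrArg (fun P => P.coeff (2 * n + 2)) hNr
    simp only [coeff_map] at this
    rw [hd₀, this, coeff_C_mul_X_pow, if_pos rfl]
  have hd0u : IsUnit d₀ := by
    by_contra hcon
    have : residue V d₀ = 0 := by
      rw [residue_eq_zero_iff]
      exact (mem_maximalIdeal _).2 hcon
    exact hc0 (hd0r ▸ this)
  have hNn' : Nn = C d₁ * X ^ (2 * n + 1) + C d₀ * X ^ (2 * n + 2) := by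
    apply map_injective _ hinj
    have h3 : C (l ^ 2) ≠ (0 : K[X]) := by rwa [Ne, C_eq_zero]
    apply mul_left_cancel₀ h3
    rw [hNK, hX, ← e1, ← e0]
    simp only [Polynomial.map_add, Polynomial.map_mul, Polynomial.map_pow, map_C, map_X, C_mul, C_pow]
    change _ = C l ^ 2 * (C (d₁ : K) * X ^ (2 * n + 1) + C (d₀ : K) * X ^ (2 * n + 2))
    ring
  obtain ⟨w, hw⟩ := hd0u
  set e : V := -(d₁ * ((w⁻¹ : Vˣ) : V)) with he
  have hde : d₀ * e = -d₁ := by
    rw [he, ← hw]
    have := w.mul_inv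
    calc (w : V) * -(d₁ * ((w⁻¹ : Vˣ) : V)) = -(d₁ * ((w : V) * ((w⁻¹ : Vˣ) : V))) := by ring
      _ = -d₁ := by rw [this, mul_one]
  have hNe : Nn = C d₀ * X ^ (2 * n + 1) * (X - C e) := by
    rw [hNn']
    have : (C d₁ : V[X]) = - (C d₀ * C e) := by rw [← C_mul, hde, C_neg, neg_neg]
    rw [this]
    ring
  have hene : e ≠ 0 := by
    intro h0
    rw [h0, mul_zero] at hde
    exact hd1ne (neg_eq_zero.1 hde.symm)
  have her : residue V e = 0 := by rw [he, map_neg, map_mul, hd1r, zero_mul, neg_zero]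
  have hw0 : d₀ ≠ 0 := by rw [← hw]; exact w.ne_zero
  have hd0K : (d₀ : K) ≠ 0 := by
    intro h0
    exact hw0 (hinj (by rw [map_zero]; exact h0))
  have hev : A'.eval e ^ 2 - H.eval e * B'.eval e ^ 2 = 0 := by
    have := congrArg (eval e) hNe
    rw [hNn] at this
    simpa using this
  have hBe : B'.eval e ≠ 0 := by
    intro h0
    rw [h0] at hev
    have hA0 : A'.eval e = 0 := by
      have : A'.eval e ^ 2 = 0 := by simpa using hev
      exact pow_eq_zero_iff (two_ne_zero) |>.1 this
    obtain ⟨a, ha⟩ := dvd_iff_isRoot.2 hA0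
    obtain ⟨b, hb⟩ := dvd_iff_isRoot.2 h0
    have h3 : (X - C e) * (C d₀ * X ^ (2 * n + 1)) = (X - C e) * ((X - C e) * (a ^ 2 - H * b ^ 2)) := by
      have : Nn = (X - C e) * ((X - C e) * (a ^ 2 - H * b ^ 2)) := by
        rw [hNn, ha, hb]; ring
      rw [← this, hNe]; ring
    have h4 := mul_left_cancel₀ (X_sub_C_ne_zero e) h3
    have h5 := congrArg (eval e) h4
    simp only [eval_mul, eval_C, eval_pow, eval_X, eval_sub, sub_self, zero_mul] at h5
    exact (mul_ne_zero hw0 (pow_ne_zero _ hene)) h5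
  have hBK : ((B'.eval e : V) : K) ≠ 0 := by
    intro h0
    exact hBe (hinj (by rw [map_zero]; exact h0))
  set s : K := -((A'.eval e : V) : K) / ((B'.eval e : V) : K) with hs
  have hs2 : s ^ 2 = ((H.eval e : V) : K) := by
    rw [hs, div_pow, div_eq_iff (pow_ne_zero 2 hBK)]
    have := congrArg (fun x : V => (x : K)) hev
    push_cast at this
    linear_combination this
  have hsV : s ∈ V := by
    rcases V.mem_or_inv_mem s with h3 | h3
    · exact h3
    · have h4 : s = ((H.eval e : V) : K) * s⁻¹ := by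
        rcases eq_or_ne s 0 with h0 | h0
        · rw [h0]; simp
        · rw [← hs2]; field_simp
      rw [h4]
      exact V.mul_mem _ _ (H.eval e).2 h3
  set S : V := ⟨s, hsV⟩ with hS
  have hSS : S ^ 2 = H.eval e := by
    apply hinj
    rw [map_pow]
    exact hs2
  have hvan : A'.eval e + B'.eval e * S = 0 := by
    apply hinj
    rw [map_add, map_mul, map_zero]
    change ((A'.eval e : V) : K) + ((B'.eval e : V) : K) * s = 0
    rw [hs]
    field_simp
    ring
  have hcoefV : residue V (PowerSeries.coeff (2 * n + 1)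
      ((A' : PowerSeries V) - (B' : PowerSeries V) * Sq)) ≠ 0 := by
    rw [← PowerSeries.coeff_map, map_sub, map_mul, ← Polynomial.polynomial_map_coe,
      ← Polynomial.polynomial_map_coe]
    exact hcoef
  have hsgn := sign_pos V h2 H h1 Sq hSq hc hP' hcoefV her hene hSS hvan
  have heK : (e : K) = eOf (H.map (algebraMap V K)) n A B := by
    unfold eOf
    rw [hN, hX, coeff_add, coeff_add, coeff_C_mul_X_pow, coeff_C_mul_X_pow, coeff_C_mul_X_pow,
      coeff_C_mul_X_pow, if_pos rfl, if_neg (by omega), if_neg (by omega), if_pos rfl, add_zero,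
      zero_add, ← e1, ← e0]
    have h3 : (d₀ : K) * (e : K) = -(d₁ : K) := by
      have := congrArg (fun x : V => (x : K)) hde
      push_cast at this
      exact this
    rw [eq_div_iff (mul_ne_zero hl2 hd0K)]
    linear_combination (l ^ 2) * h3
  have hevA : A.eval (e : K) = l * ((A'.eval e : V) : K) := by
    rw [hA, eval_mul, eval_C, eval_map]
    congr 1
    exact (hom_eval₂ A' (RingHom.id V) (algebraMap V K) e).symm
  have hevB : B.eval (e : K) = l * ((B'.eval e : V) : K) := by
    rw [hB, eval_mul, eval_C, eval_map]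
    congr 1
    exact (hom_eval₂ B' (RingHom.id V) (algebraMap V K) e).symm
  refine ⟨A', B', d₀, e, S, ⟨hP', ?_, ⟨w, hw⟩, hene, her, hSS, hvan, hsgn⟩, heK, ?_, ?_⟩
  · rw [← hNe]
  · unfold SOf
    rw [← heK, hevA, hevB, hS]
    change s = _
    rw [hs]
    field_simp
  · rw [hevB]
    exact mul_ne_zero hl hBK

end Pool.Agent.LibT62
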