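import Pool.Agent.LibT62.Defs

/-!
Row C1: the chord lemma (pure algebra in the valuation ring `V`, `2` a unit).
`e, e', e''` in the maximal ideal, not zero; `S, S', S''` congruent to `1`.
If `e ≠ e'`: subtract `h₁`, `h₂`: `al (e - e') + f0 (e^2 - e'^2) + f2 (S - S') = 0`, and
`S - S' = (e - e') σ`, `σ = (H(e) - H(e')) / (e - e') / (S + S') ∈ V` (`Polynomial.sub_dvd_eval_sub`,
`S + S'` is congruent to `2`). So `al = - f0 (e + e') - f2 σ` (*).
If `e = e'`: then `S' = S` (both are congruent to `1`, equal squares). The derivative of the identity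
`hid` at `e` (double zero): `2 (f2 + al e + f0 e^2) (al + 2 f0 e) - f2^2 H'(e) = 0`; with
`f2 + al e + f0 e^2 = - f2 S`: `f2 (2 S (al + 2 f0 e) + f2 H'(e)) = 0`. `f2 ≠ 0`, otherwise `hid` at
order one: `(al X + f0 X^2)^2` has no `X`-coefficient but the right side has `- cc e^2 e'' ≠ 0`.
So (*) holds with `σ = H'(e) / (2 S)`.
Now `h₁`: `f2 (1 + S) = - al e - f0 e^2 = f0 e e' + f2 σ e`, `f2 (1 + S - σ e) = f0 e e'`, so
`f2 = f0 e e' w`, `w ∈ V`. `h₃`: `al e'' + f0 e''^2 = f2 (S'' - 1)` and `S'' - 1 = e'' τ` with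
`τ = ((H(e'') - H(0)) / e'') / (S'' + 1)`; divide by `e''`: `al + f0 e'' = f2 τ`, so
`f0 (e'' - e - e') = f2 (τ + σ) = f0 e e' w (τ + σ)`. `f0` is a unit: `hid` at `X^4`:
`f0^2 - f2^2 H.coeff 4 = cc`, `cc` a unit, and `f2` is in the maximal ideal by `h₁`
(`f2 (1 + S)` is, `1 + S` is a unit).
-/

open scoped Classical
open Polynomial IsLocalRing

namespace Pool.Agent.LibT62

open Pool.Agent.LibBH2 Pool.Agent.LibJac77

theorem C1_sq {R : Type} [CommRing R] (f2 al f0 : R) :
    (C f2 + C al * X + C f0 * X ^ 2) ^ 2 =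
      C (f2 ^ 2) + C (2 * f2 * al) * X + C (al ^ 2 + 2 * f2 * f0) * X ^ 2 + C (2 * al * f0) * X ^ 3 + C (f0 ^ 2) * X ^ 4 := by
  simp only [C_mul, C_add, C_pow, map_ofNat]
  ring

theorem C1_cub {R : Type} [CommRing R] (cc e e' e'' : R) :
    C cc * (X * (X - C e) * (X - C e') * (X - C e'')) =
      C (-(cc * e * e' * e'')) * X + C (cc * (e * e' + e * e'' + e' * e'')) * X ^ 2 + C (-(cc * (e + e' + e''))) * X ^ 3 +
        C cc * X ^ 4 := by
  simp only [C_mul, C_add, C_neg]
  ring

theorem C1_four {R : Type} [CommRing R] {H : R[X]} {f2 al f0 cc e e' e'' : R}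
    (hid : (C f2 + C al * X + C f0 * X ^ 2) ^ 2 - H * C (f2 ^ 2) =
      C cc * (X * (X - C e) * (X - C e') * (X - C e''))) : f0 ^ 2 - H.coeff 4 * f2 ^ 2 = cc := by
  have h := congrArg (fun P => P.coeff 4) hid
  rw [C1_sq, C1_cub] at h
  simp only [coeff_sub, coeff_add, coeff_C_mul, coeff_mul_C, coeff_X_pow, coeff_X, coeff_C] at h
  norm_num at h
  exact h

theorem C1_one {R : Type} [CommRing R] {H : R[X]} {al f0 cc e e' e'' : R}
    (hid : (C 0 + C al * X + C f0 * X ^ 2) ^ 2 - H * C (0 ^ 2) =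
      C cc * (X * (X - C e) * (X - C e') * (X - C e''))) : cc * e * e' * e'' = 0 := by
  have h := congrArg (fun P => P.coeff 1) hid
  rw [C1_sq, C1_cub] at h
  simp only [coeff_sub, coeff_add, coeff_C_mul, coeff_mul_C, coeff_X_pow, coeff_X, coeff_C] at h
  norm_num at h
  exact h

theorem C1_der {R : Type} [CommRing R] {H : R[X]} {f2 al f0 cc e e'' : R}
    (hid : (C f2 + C al * X + C f0 * X ^ 2) ^ 2 - H * C (f2 ^ 2) =
      C cc * (X * (X - C e) * (X - C e) * (X - C e''))) :
    2 * (f2 + al * e + f0 * e ^ 2) * (al + 2 * f0 * e) - (derivative H).eval e * f2 ^ 2 = 0 := by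
  have h := congrArg (fun P => (derivative P).eval e) hid
  have h1 : C cc * (X * (X - C e) * (X - C e) * (X - C e'')) = (X - C e) ^ 2 * (C cc * (X * (X - C e''))) := by ring
  rw [h1] at h
  simp only [derivative_sub, derivative_mul, derivative_pow, derivative_add, derivative_C, derivative_X, eval_sub, eval_mul,
    eval_add, eval_pow, eval_C, eval_X, sub_self] at h
  simp at h
  linear_combination h

/-- the generic statement -/
theorem C1_chord {R : Type} [CommRing R] [IsDomain R] [IsLocalRing R] (h2 : (2 : ResidueField R) ≠ 0) (H : R[X])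
    (h1 : H.coeff 0 = 1) {f2 al f0 cc e e' e'' S S' S'' : R} (hcc : IsUnit cc)
    (hid : (C f2 + C al * X + C f0 * X ^ 2) ^ 2 - H * C (f2 ^ 2) =
      C cc * (X * (X - C e) * (X - C e') * (X - C e'')))
    (he : residue R e = 0)
    (e0 : e ≠ 0) (e0' : e' ≠ 0) (e0'' : e'' ≠ 0)
    (hS : S ^ 2 = H.eval e) (hS' : S' ^ 2 = H.eval e') (hS'' : S'' ^ 2 = H.eval e'')
    (s : residue R S = 1) (s' : residue R S' = 1) (s'' : residue R S'' = 1)
    (h₁ : f2 + al * e + f0 * e ^ 2 + f2 * S = 0)
    (h₂ : f2 + al * e' + f0 * e' ^ 2 + f2 * S' = 0)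
    (h₃ : f2 + al * e'' + f0 * e'' ^ 2 - f2 * S'' = 0) :
    ∃ r : R, e'' = e + e' + e * e' * r := by
  have hu : ∀ x : R, residue R x ≠ 0 → IsUnit x := fun x hx => residue_ne_zero_iff_isUnit x |>.1 hx
  have u1 : IsUnit (1 + S) := hu _ (by rw [map_add, map_one, s, one_add_one_eq_two]; exact h2)
  have u2 : IsUnit (S + S') := hu _ (by rw [map_add, s, s', one_add_one_eq_two]; exact h2)
  have u3 : IsUnit (S'' + 1) := hu _ (by rw [map_add, map_one, s'', one_add_one_eq_two]; exact h2)
  have u4 : IsUnit (2 * S) := hu _ (by rw [map_mul, s, mul_one, map_ofNat]; exact h2)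
  -- the slope
  have hσ : ∃ σ : R, al = -f0 * (e + e') - f2 * σ := by
    by_cases hee : e = e'
    · subst hee
      have hf2 : f2 ≠ 0 := by
        rintro rfl
        have := C1_one hid
        rcases mul_eq_zero.1 this with h | h
        · rcases mul_eq_zero.1 h with h | h
          · rcases mul_eq_zero.1 h with h | h
            · exact hcc.ne_zero h
            · exact e0 h
          · exact e0 h
        · exact e0'' h
      have hd := C1_der hid
      obtain ⟨v, hv⟩ := u4.exists_left_inv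
      refine ⟨v * (derivative H).eval e, ?_⟩
      have h3 : f2 * (2 * S * (al + 2 * f0 * e) + f2 * (derivative H).eval e) = 0 := by
        linear_combination -hd + 2 * (al + 2 * f0 * e) * h₁
      have h4 := (mul_eq_zero.1 h3).resolve_left hf2
      linear_combination v * h4 - (al + 2 * f0 * e) * hv
    · obtain ⟨q, hq⟩ := sub_dvd_eval_sub e e' H
      obtain ⟨v, hv⟩ := u2.exists_left_inv
      refine ⟨q * v, ?_⟩
      have h3 : S - S' = (e - e') * (q * v) := by
        have h4 : (S - S') * (S + S') = (e - e') * q := by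
          rw [← hq, ← hS, ← hS']
          ring
        linear_combination v * h4 - (S - S') * hv
      have h5 : (e - e') * (al + f0 * (e + e') + f2 * (q * v)) = 0 := by
        linear_combination h₁ - h₂ - f2 * h3
      have h6 := (mul_eq_zero.1 h5).resolve_left (sub_ne_zero.2 hee)
      linear_combination h6
  obtain ⟨σ, hσ⟩ := hσ
  -- f2
  have u5 : IsUnit (1 + S - σ * e) := hu _ (by
    rw [map_sub, map_add, map_one, s, map_mul, he, mul_zero, sub_zero, one_add_one_eq_two]
    exact h2)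
  obtain ⟨w, hw⟩ := u5.exists_left_inv
  have hf2 : f2 = f0 * e * e' * w := by
    linear_combination -f2 * hw + w * h₁ - w * e * hσ
  -- the third point
  obtain ⟨q, hq⟩ := sub_dvd_eval_sub e'' 0 H
  obtain ⟨v, hv⟩ := u3.exists_left_inv
  have hH0 : H.eval 0 = 1 := by rw [← coeff_zero_eq_eval_zero, h1]
  have h4 : S'' - 1 = e'' * (q * v) := by
    have h5 : (S'' - 1) * (S'' + 1) = e'' * q := by
      rw [hH0, sub_zero, ← hS''] at hq
      linear_combination hq
    linear_combination v * h5 - (S'' - 1) * hv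
  have h5 : al + f0 * e'' = f2 * (q * v) := by
    have h6 : e'' * (al + f0 * e'' - f2 * (q * v)) = 0 := by
      linear_combination h₃ + f2 * h4
    have h7 := (mul_eq_zero.1 h6).resolve_left e0''
    linear_combination h7
  -- f0 is a unit
  have hf2m : residue R f2 = 0 := by
    have h6 : residue R (f2 * (1 + S)) = 0 := by
      have h7 : f2 * (1 + S) = -(al + f0 * e) * e := by linear_combination h₁
      rw [h7, map_mul, he, mul_zero]
    rw [map_mul] at h6
    exact (mul_eq_zero.1 h6).resolve_right ((residue_ne_zero_iff_isUnit _).2 u1)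
  have u6 : IsUnit f0 := by
    have h6 := C1_four hid
    have h7 : IsUnit (f0 ^ 2) := by
      apply hu
      have h8 : f0 ^ 2 = cc + H.coeff 4 * f2 ^ 2 := by linear_combination h6
      rw [h8, map_add, map_mul, map_pow, hf2m]
      have := (residue_ne_zero_iff_isUnit cc).2 hcc
      simpa using this
    exact (isUnit_pow_iff two_ne_zero).1 h7
  refine ⟨w * (q * v + σ), ?_⟩
  have h6 : f0 * (e'' - e - e' - e * e' * (w * (q * v + σ))) = 0 := by
    linear_combination h5 + (q * v + σ) * hf2 - hσ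
  have h7 := (mul_eq_zero.1 h6).resolve_left u6.ne_zero
  linear_combination h7

theorem chord {K : Type} [Field K] (V : ValuationSubring K) (h2 : (2 : RF V) ≠ 0) (H : V[X])
    (hd : H.natDegree ≤ 4) (h1 : H.coeff 0 = 1) {f2 al f0 cc e e' e'' S S' S'' : V}
    (hcc : IsUnit cc)
    (hid : (C f2 + C al * X + C f0 * X ^ 2) ^ 2 - H * C (f2 ^ 2) =
      C cc * (X * (X - C e) * (X - C e') * (X - C e'')))
    (he : residue V e = 0) (he' : residue V e' = 0) (he'' : residue V e'' = 0)
    (e0 : e ≠ 0) (e0' : e' ≠ 0) (e0'' : e'' ≠ 0)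
    (hS : S ^ 2 = H.eval e) (hS' : S' ^ 2 = H.eval e') (hS'' : S'' ^ 2 = H.eval e'')
    (s : residue V S = 1) (s' : residue V S' = 1) (s'' : residue V S'' = 1)
    (h₁ : f2 + al * e + f0 * e ^ 2 + f2 * S = 0)
    (h₂ : f2 + al * e' + f0 * e' ^ 2 + f2 * S' = 0)
    (h₃ : f2 + al * e'' + f0 * e'' ^ 2 - f2 * S'' = 0) :
    ∃ r : V, e'' = e + e' + e * e' * r := by
  exact C1_chord h2 H h1 hcc hid he e0 e0' e0'' hS hS' hS'' s s' s'' h₁ h₂ h₃

end Pool.Agent.LibT62
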