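import Pool.Agent.LibT62.C1

/-!
Row C2: the addition law `e_{n+m} = e_n + e_m mod e_n e_m`.
`(F₁, F₂) = (A₁, B₁) (A₂, B₂) (A₃, - B₃)` in `V[X][s]`, `s ^ 2 = H`. `L = 2 (n + m) + 1`.
`F₁ - F₂ Sq = (A₁ - B₁ Sq) (A₂ - B₂ Sq) (A₃ + B₃ Sq)` is divisible by `X ^ (2n+1+2m+1) = X ^ (L + 1)`,
`F₁ + F₂ Sq = (A₁ + B₁ Sq) (A₂ + B₂ Sq) (A₃ - B₃ Sq)` by `X ^ L`. `2` and `Sq` are units, so
`F₁ = X ^ L G₁`, `F₂ = X ^ L G₂`; degrees: `F₁` at most `(n+1)+(m+1)+(n+m+1) = L + 2`, `F₂` at most `L`,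
so `G₁ = g + al X + f0 X ^ 2`, `G₂ = f2` constant; `G₁ - G₂ Sq` is divisible by `X`, so `g = f2`.
Norms: `X ^ (2 L) (G₁ ^ 2 - H f2 ^ 2) = c₁ c₂ c₃ X ^ (2 L + 1) (X - e₁) (X - e₂) (X - e₃)`; cancel.
Values: `F₁(e₁) + F₂(e₁) S₁ = 0` since `A₁(e₁) + B₁(e₁) S₁ = 0`, `S₁ ^ 2 = H(e₁)`; cancel `e₁ ^ L`; the
same at `e₂`; `F₁(e₃) - F₂(e₃) S₃ = 0`. Then `chord`.
-/

open scoped Classical
open Polynomial IsLocalRing

namespace Pool.Agent.LibT62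

open Pool.Agent.LibBH2 Pool.Agent.LibJac77

theorem C2_dvd {R : Type} [CommRing R] {L : ℕ} {F : R[X]} (h : (PowerSeries.X : PowerSeries R) ^ L ∣ (F : PowerSeries R)) :
    (X : R[X]) ^ L ∣ F := by
  rw [X_pow_dvd_iff]
  intro d hd
  have := PowerSeries.X_pow_dvd_iff.1 h d hd
  rwa [coeff_coe] at this

theorem C2_quad {R : Type} [CommRing R] {G : R[X]} (h : G.natDegree ≤ 2) :
    G = C (G.coeff 0) + C (G.coeff 1) * X + C (G.coeff 2) * X ^ 2 := by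
  conv_lhs => rw [G.as_sum_range_C_mul_X_pow' (n := 3) (by omega)]
  rw [Finset.sum_range_succ, Finset.sum_range_succ, Finset.sum_range_succ, Finset.sum_range_zero]
  simp

/-- degree of the cofactor of a power of `X` -/
theorem C2_deg {R : Type} [CommRing R] [IsDomain R] {L k : ℕ} {F G : R[X]} (h : F = X ^ L * G) (hF : F.natDegree ≤ L + k) :
    G.natDegree ≤ k := by
  by_cases hG : G = 0
  · rw [hG]
    simp
  · rw [h, natDegree_mul (pow_ne_zero _ X_ne_zero) hG, natDegree_X_pow] at hF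
    omega

theorem C2_core {R : Type} [CommRing R] [IsDomain R] (u2 : IsUnit (2 : R)) (H : R[X]) (hd : H.natDegree ≤ 4)
    (Sq : PowerSeries R) (hSq : Sq ^ 2 = (H : PowerSeries R)) (hc : PowerSeries.constantCoeff Sq = 1)
    {n m : ℕ} {A₁ B₁ A₂ B₂ A₃ B₃ : R[X]} {c₁ e₁ S₁ c₂ e₂ S₂ c₃ e₃ S₃ : R}
    (a₁ : A₁.natDegree ≤ n + 1) (b₁ : B₁.natDegree + 1 ≤ n)
    (v₁ : (PowerSeries.X : PowerSeries R) ^ (2 * n + 1) ∣ (A₁ : PowerSeries R) - (B₁ : PowerSeries R) * Sq)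
    (N₁ : A₁ ^ 2 - H * B₁ ^ 2 = C c₁ * X ^ (2 * n + 1) * (X - C e₁)) (ne₁ : e₁ ≠ 0) (q₁ : S₁ ^ 2 = H.eval e₁)
    (z₁ : A₁.eval e₁ + B₁.eval e₁ * S₁ = 0)
    (a₂ : A₂.natDegree ≤ m + 1) (b₂ : B₂.natDegree + 1 ≤ m)
    (v₂ : (PowerSeries.X : PowerSeries R) ^ (2 * m + 1) ∣ (A₂ : PowerSeries R) - (B₂ : PowerSeries R) * Sq)
    (N₂ : A₂ ^ 2 - H * B₂ ^ 2 = C c₂ * X ^ (2 * m + 1) * (X - C e₂)) (ne₂ : e₂ ≠ 0) (q₂ : S₂ ^ 2 = H.eval e₂)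
    (z₂ : A₂.eval e₂ + B₂.eval e₂ * S₂ = 0)
    (a₃ : A₃.natDegree ≤ n + m + 1) (b₃ : B₃.natDegree + 1 ≤ n + m)
    (v₃ : (PowerSeries.X : PowerSeries R) ^ (2 * (n + m) + 1) ∣ (A₃ : PowerSeries R) - (B₃ : PowerSeries R) * Sq)
    (N₃ : A₃ ^ 2 - H * B₃ ^ 2 = C c₃ * X ^ (2 * (n + m) + 1) * (X - C e₃)) (ne₃ : e₃ ≠ 0) (q₃ : S₃ ^ 2 = H.eval e₃)
    (z₃ : A₃.eval e₃ + B₃.eval e₃ * S₃ = 0) :
    ∃ f2 al f0 : R, (C f2 + C al * X + C f0 * X ^ 2) ^ 2 - H * C (f2 ^ 2) =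
      C (c₁ * c₂ * c₃) * (X * (X - C e₁) * (X - C e₂) * (X - C e₃)) ∧
      f2 + al * e₁ + f0 * e₁ ^ 2 + f2 * S₁ = 0 ∧ f2 + al * e₂ + f0 * e₂ ^ 2 + f2 * S₂ = 0 ∧
      f2 + al * e₃ + f0 * e₃ ^ 2 - f2 * S₃ = 0 := by
  obtain ⟨L, hL⟩ : ∃ L, L = 2 * (n + m) + 1 := ⟨_, rfl⟩
  obtain ⟨P, hP⟩ : ∃ P, P = A₁ * A₂ + H * (B₁ * B₂) := ⟨_, rfl⟩
  obtain ⟨Q, hQ⟩ : ∃ Q, Q = A₁ * B₂ + A₂ * B₁ := ⟨_, rfl⟩
  obtain ⟨F₁, hF₁⟩ : ∃ F₁, F₁ = P * A₃ - H * (Q * B₃) := ⟨_, rfl⟩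
  obtain ⟨F₂, hF₂⟩ : ∃ F₂, F₂ = Q * A₃ - P * B₃ := ⟨_, rfl⟩
  -- divisibility of the power series
  have e1 : (F₁ : PowerSeries R) - (F₂ : PowerSeries R) * Sq =
      ((A₁ : PowerSeries R) - B₁ * Sq) * ((A₂ : PowerSeries R) - B₂ * Sq) * ((A₃ : PowerSeries R) + B₃ * Sq) := by
    rw [hF₁, hF₂, hP, hQ]
    push_cast
    rw [← hSq]
    ring
  have e2 : (F₁ : PowerSeries R) + (F₂ : PowerSeries R) * Sq =
      ((A₁ : PowerSeries R) + B₁ * Sq) * ((A₂ : PowerSeries R) + B₂ * Sq) * ((A₃ : PowerSeries R) - B₃ * Sq) := by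
    rw [hF₁, hF₂, hP, hQ]
    push_cast
    rw [← hSq]
    ring
  have d1 : (PowerSeries.X : PowerSeries R) ^ (L + 1) ∣ (F₁ : PowerSeries R) - (F₂ : PowerSeries R) * Sq := by
    rw [e1]
    have : L + 1 = (2 * n + 1) + (2 * m + 1) := by omega
    rw [this, pow_add]
    exact Dvd.dvd.mul_right (mul_dvd_mul v₁ v₂) _
  have d2 : (PowerSeries.X : PowerSeries R) ^ L ∣ (F₁ : PowerSeries R) + (F₂ : PowerSeries R) * Sq := by
    rw [e2, hL]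
    exact Dvd.dvd.mul_left v₃ _
  have d1' : (PowerSeries.X : PowerSeries R) ^ L ∣ (F₁ : PowerSeries R) - (F₂ : PowerSeries R) * Sq :=
    (pow_dvd_pow _ (Nat.le_succ L)).trans d1
  have u2' : IsUnit (2 : PowerSeries R) := by
    have := u2.map (PowerSeries.C (R := R))
    rwa [map_ofNat] at this
  have uSq : IsUnit Sq := by
    rw [PowerSeries.isUnit_iff_constantCoeff, hc]
    exact isUnit_one
  have d3 : (PowerSeries.X : PowerSeries R) ^ L ∣ (F₁ : PowerSeries R) := by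
    have h := dvd_add d1' d2
    have h' : (F₁ : PowerSeries R) - (F₂ : PowerSeries R) * Sq + ((F₁ : PowerSeries R) + (F₂ : PowerSeries R) * Sq) =
        2 * (F₁ : PowerSeries R) := by ring
    rw [h'] at h
    exact (u2'.dvd_mul_left).1 h
  have d4 : (PowerSeries.X : PowerSeries R) ^ L ∣ (F₂ : PowerSeries R) := by
    have h := dvd_sub d2 d1'
    have h' : (F₁ : PowerSeries R) + (F₂ : PowerSeries R) * Sq - ((F₁ : PowerSeries R) - (F₂ : PowerSeries R) * Sq) =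
        2 * ((F₂ : PowerSeries R) * Sq) := by ring
    rw [h'] at h
    exact (uSq.dvd_mul_right).1 ((u2'.dvd_mul_left).1 h)
  obtain ⟨G₁, hG₁⟩ := C2_dvd d3
  obtain ⟨G₂, hG₂⟩ := C2_dvd d4
  -- degrees
  have dP : P.natDegree ≤ n + m + 2 := by
    rw [hP]
    refine (natDegree_add_le _ _).trans (max_le ?_ ?_)
    · exact natDegree_mul_le.trans (by omega)
    · refine natDegree_mul_le.trans ?_
      have := natDegree_mul_le (p := B₁) (q := B₂)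
      omega
  have dQ : Q.natDegree ≤ n + m := by
    rw [hQ]
    refine (natDegree_add_le _ _).trans (max_le ?_ ?_)
    · exact natDegree_mul_le.trans (by omega)
    · exact natDegree_mul_le.trans (by omega)
  have dF₁ : F₁.natDegree ≤ L + 2 := by
    rw [hF₁]
    refine (natDegree_sub_le _ _).trans (max_le ?_ ?_)
    · exact natDegree_mul_le.trans (by omega)
    · refine natDegree_mul_le.trans ?_
      have := natDegree_mul_le (p := Q) (q := B₃)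
      omega
  have dF₂ : F₂.natDegree ≤ L + 0 := by
    rw [hF₂]
    refine (natDegree_sub_le _ _).trans (max_le ?_ ?_)
    · exact natDegree_mul_le.trans (by omega)
    · exact natDegree_mul_le.trans (by omega)
  have dG₁ := C2_deg hG₁ dF₁
  have dG₂ := C2_deg hG₂ dF₂
  have g1 := C2_quad dG₁
  have g2 : G₂ = C (G₂.coeff 0) := eq_C_of_natDegree_le_zero dG₂
  generalize G₁.coeff 0 = g at g1
  generalize G₁.coeff 1 = al at g1
  generalize G₁.coeff 2 = f0 at g1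
  generalize G₂.coeff 0 = f2 at g2
  -- the constant coefficient
  have hg : g = f2 := by
    have h1 : (PowerSeries.X : PowerSeries R) ∣ (G₁ : PowerSeries R) - (G₂ : PowerSeries R) * Sq := by
      obtain ⟨T, hT⟩ := d1
      refine ⟨T, ?_⟩
      have h2 : (PowerSeries.X : PowerSeries R) ^ L * ((G₁ : PowerSeries R) - (G₂ : PowerSeries R) * Sq) =
          (PowerSeries.X : PowerSeries R) ^ L * (PowerSeries.X * T) := by
        rw [← mul_assoc, ← pow_succ, ← hT, hG₁, hG₂]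
        push_cast
        ring
      exact mul_left_cancel₀ (pow_ne_zero _ PowerSeries.X_ne_zero) h2
    have h2 := PowerSeries.X_dvd_iff.1 h1
    rw [g1, g2] at h2
    push_cast at h2
    simp [hc] at h2
    linear_combination h2
  subst hg
  refine ⟨g, al, f0, ?_, ?_, ?_, ?_⟩
  · have h1 : (X : R[X]) ^ (2 * L) * ((C g + C al * X + C f0 * X ^ 2) ^ 2 - H * C (g ^ 2)) =
        X ^ (2 * L) * (C (c₁ * c₂ * c₃) * (X * (X - C e₁) * (X - C e₂) * (X - C e₃))) := by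
      have h2 : (X : R[X]) ^ (2 * L) * ((C g + C al * X + C f0 * X ^ 2) ^ 2 - H * C (g ^ 2)) = F₁ ^ 2 - H * F₂ ^ 2 := by
        rw [hG₁, hG₂, ← g1, g2, C_pow]
        ring
      have h3 : F₁ ^ 2 - H * F₂ ^ 2 = (A₁ ^ 2 - H * B₁ ^ 2) * (A₂ ^ 2 - H * B₂ ^ 2) * (A₃ ^ 2 - H * B₃ ^ 2) := by
        rw [hF₁, hF₂, hP, hQ]
        ring
      rw [h2, h3, N₁, N₂, N₃, hL]
      simp only [C_mul]
      ring
    exact mul_left_cancel₀ (pow_ne_zero _ X_ne_zero) h1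
  · have h1 : e₁ ^ L * (g + al * e₁ + f0 * e₁ ^ 2 + g * S₁) = 0 := by
      have h2 : e₁ ^ L * (g + al * e₁ + f0 * e₁ ^ 2 + g * S₁) = F₁.eval e₁ + F₂.eval e₁ * S₁ := by
        rw [hG₁, hG₂, g1, g2]
        simp
        ring
      have h3 : F₁.eval e₁ + F₂.eval e₁ * S₁ = (A₁.eval e₁ + B₁.eval e₁ * S₁) *
          (A₂.eval e₁ + B₂.eval e₁ * S₁) * (A₃.eval e₁ - B₃.eval e₁ * S₁) := by
        rw [hF₁, hF₂, hP, hQ]
        simp only [eval_sub, eval_mul, eval_add, ← q₁]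
        ring
      rw [h2, h3, z₁, zero_mul, zero_mul]
    exact (mul_eq_zero.1 h1).resolve_left (pow_ne_zero _ ne₁)
  · have h1 : e₂ ^ L * (g + al * e₂ + f0 * e₂ ^ 2 + g * S₂) = 0 := by
      have h2 : e₂ ^ L * (g + al * e₂ + f0 * e₂ ^ 2 + g * S₂) = F₁.eval e₂ + F₂.eval e₂ * S₂ := by
        rw [hG₁, hG₂, g1, g2]
        simp
        ring
      have h3 : F₁.eval e₂ + F₂.eval e₂ * S₂ = (A₁.eval e₂ + B₁.eval e₂ * S₂) *
          (A₂.eval e₂ + B₂.eval e₂ * S₂) * (A₃.eval e₂ - B₃.eval e₂ * S₂) := by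
        rw [hF₁, hF₂, hP, hQ]
        simp only [eval_sub, eval_mul, eval_add, ← q₂]
        ring
      rw [h2, h3, z₂, mul_zero, zero_mul]
    exact (mul_eq_zero.1 h1).resolve_left (pow_ne_zero _ ne₂)
  · have h1 : e₃ ^ L * (g + al * e₃ + f0 * e₃ ^ 2 - g * S₃) = 0 := by
      have h2 : e₃ ^ L * (g + al * e₃ + f0 * e₃ ^ 2 - g * S₃) = F₁.eval e₃ - F₂.eval e₃ * S₃ := by
        rw [hG₁, hG₂, g1, g2]
        simp
        ring
      have h3 : F₁.eval e₃ - F₂.eval e₃ * S₃ = (A₁.eval e₃ - B₁.eval e₃ * S₃) *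
          (A₂.eval e₃ - B₂.eval e₃ * S₃) * (A₃.eval e₃ + B₃.eval e₃ * S₃) := by
        rw [hF₁, hF₂, hP, hQ]
        simp only [eval_sub, eval_mul, eval_add, ← q₃]
        ring
      rw [h2, h3, z₃, mul_zero]
    exact (mul_eq_zero.1 h1).resolve_left (pow_ne_zero _ ne₃)

theorem add_law {K : Type} [Field K] (V : ValuationSubring K) (h2 : (2 : RF V) ≠ 0) (H : V[X])
    (hd : H.natDegree ≤ 4) (h1 : H.coeff 0 = 1) (Sq : PowerSeries V)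
    (hSq : Sq ^ 2 = (H : PowerSeries V)) (hc : PowerSeries.constantCoeff Sq = 1)
    {n m : ℕ} (hn : 1 ≤ n) (hm : 1 ≤ m)
    {A₁ B₁ A₂ B₂ A₃ B₃ : V[X]} {c₁ e₁ S₁ c₂ e₂ S₂ c₃ e₃ S₃ : V}
    (i₁ : IntPt V H Sq n A₁ B₁ c₁ e₁ S₁) (i₂ : IntPt V H Sq m A₂ B₂ c₂ e₂ S₂)
    (i₃ : IntPt V H Sq (n + m) A₃ B₃ c₃ e₃ S₃) :
    ∃ r : V, e₃ = e₁ + e₂ + e₁ * e₂ * r := by
  have hu2 : IsUnit (2 : V) := by
    rw [← residue_ne_zero_iff_isUnit]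
    rw [map_ofNat]
    exact h2
  obtain ⟨f2, al, f0, hid, k1, k2, k3⟩ := C2_core hu2 H hd Sq hSq hc i₁.pade.degA i₁.pade.degB i₁.pade.dvd i₁.norm i₁.ne
    i₁.sqS i₁.van i₂.pade.degA i₂.pade.degB i₂.pade.dvd i₂.norm i₂.ne i₂.sqS i₂.van i₃.pade.degA i₃.pade.degB
    i₃.pade.dvd i₃.norm i₃.ne i₃.sqS i₃.van
  exact chord V h2 H hd h1 ((i₁.unit.mul i₂.unit).mul i₃.unit) hid i₁.small i₂.small i₃.small i₁.ne i₂.ne i₃.ne
    i₁.sqS i₂.sqS i₃.sqS i₁.sgn i₂.sgn i₃.sgn k1 k2 k3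

end Pool.Agent.LibT62
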