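import Pool.Agent.LibT62.Defs

/-!
Row C3: for a number field `K₁` in `Qb`, almost all primes `p` are unramified: every `z ∈ K₁` is a
power of `p` times a unit at every place of `Qb` above `p`.

`K₁ = ℚ(θ)`, `θ` integral over `ℤ`, `m` = `minpoly ℤ θ`, `m` separable over `ℚ`, so
`A m + B m' = D` with `A, B ∈ ℤ[X]`, `0 ≠ D ∈ ℤ`. Take `M = |D|`. Let `p ∤ M`, `V` above `p`. If
`P(θ)` is in the maximal ideal then `P(θ) h(θ) = p P₁(θ)` with a fixed `h`, `h(θ)` a unit
(`m = g h + p T'`, `g` a lift of the minimal polynomial of the residue of `θ`). This stops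
after finitely many steps by Krull's intersection theorem in `ℤ[θ, 1 / h(θ)]`.
-/

open scoped Classical
open Polynomial IsLocalRing

namespace Pool.Agent.LibT62

open Pool.Agent.LibBH2 Pool.Agent.LibJac77

/-- clearing denominators of a rational polynomial -/
theorem c3_clear (a : ℚ[X]) : ∃ (n : ℤ) (b : ℤ[X]), n ≠ 0 ∧
    b.map (Int.castRingHom ℚ) = C (n : ℚ) * a := by
  induction a using Polynomial.induction_on' with
  | add p q hp hq =>
    obtain ⟨n, b, hn, hb⟩ := hp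
    obtain ⟨n', b', hn', hb'⟩ := hq
    refine ⟨n * n', C n' * b + C n * b', mul_ne_zero hn hn', ?_⟩
    simp only [Polynomial.map_add, Polynomial.map_mul, Polynomial.map_C, hb, hb',
      Int.coe_castRingHom, Int.cast_mul, C_mul]
    ring
  | monomial k r =>
    refine ⟨(r.den : ℤ), monomial k r.num, by exact_mod_cast r.den_nz, ?_⟩
    rw [Polynomial.map_monomial, C_mul_monomial, eq_intCast]
    congr 1
    have h1 := Rat.den_mul_eq_num r
    push_cast
    exact h1.symm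

/-- the discriminant -/
theorem c3_bezout {m : ℤ[X]} (hm : (m.map (Int.castRingHom ℚ)).Separable) :
    ∃ (D : ℤ) (A B : ℤ[X]), D ≠ 0 ∧ A * m + B * derivative m = C D := by
  obtain ⟨a, b, hab⟩ := hm
  obtain ⟨n, A, hn, hA⟩ := c3_clear a
  obtain ⟨n', B, hn', hB⟩ := c3_clear b
  refine ⟨n * n', C n' * A, C n * B, mul_ne_zero hn hn', ?_⟩
  have hinj : Function.Injective (Polynomial.map (Int.castRingHom ℚ)) :=
    Polynomial.map_injective _ (RingHom.injective_int (Int.castRingHom ℚ))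
  apply hinj
  rw [Polynomial.derivative_map] at hab
  simp only [Polynomial.map_add, Polynomial.map_mul, Polynomial.map_C, hA, hB,
    Int.coe_castRingHom, Int.cast_mul, C_mul]
  linear_combination (C (n : ℚ) * C (n' : ℚ)) * hab

section core

variable {L : Type} [Field L]

theorem c3_mem {θ : L} (hθ : IsIntegral ℤ θ) (V : ValuationSubring L) : θ ∈ V := by
  have h1 : IsIntegral V θ := hθ.tower_top
  obtain ⟨y, hy⟩ := IsIntegrallyClosed.isIntegral_iff.1 h1
  rw [← hy]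
  exact y.2

/-- lifts modulo `p` -/
theorem c3_lift {p : ℕ} (P : ℤ[X]) (h : P.map (Int.castRingHom (ZMod p)) = 0) :
    ∃ T : ℤ[X], P = C (p : ℤ) * T := by
  have h1 : C (p : ℤ) ∣ P := by
    rw [Polynomial.C_dvd_iff_dvd_coeff]
    intro i
    have h2 := congrArg (fun q => Polynomial.coeff q i) h
    simp only [Polynomial.coeff_map, Polynomial.coeff_zero, eq_intCast] at h2
    exact (ZMod.intCast_zmod_eq_zero_iff_dvd _ _).1 h2
  obtain ⟨T, hT⟩ := h1
  exact ⟨T, hT⟩

theorem c3_surj (p : ℕ) (P : (ZMod p)[X]) : ∃ Q : ℤ[X], Q.map (Int.castRingHom (ZMod p)) = P :=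
  Polynomial.map_surjective _ (ZMod.ringHom_surjective (Int.castRingHom (ZMod p))) P

theorem c3_core {m A B : ℤ[X]} {D : ℤ} (hD : A * m + B * derivative m = C D) {p : ℕ}
    (hp : p.Prime) (hpD : ¬ (p : ℤ) ∣ D) (V : ValuationSubring L) (hc : CharP (ResidueField V) p)
    (t : V) (ht : aeval t m = 0) (hmon : m.Monic) (P : ℤ[X]) (hP : aeval t P ≠ 0) :
    ∃ (j : ℕ) (u : V), IsUnit u ∧ aeval t P = (p : V) ^ j * u := by
  have : Fact p.Prime := ⟨hp⟩
  letI := ZMod.algebra (ResidueField V) p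
  -- the residue of `θ`
  set α : ResidueField V := residue V t with hα
  have hres : ∀ Q : ℤ[X], residue V (aeval t Q) =
      aeval α (Q.map (Int.castRingHom (ZMod p))) := by
    intro Q
    rw [aeval_def, aeval_def, hom_eval₂, eval₂_map]
    congr 1
    exact RingHom.ext_int _ _
  have hm0 : aeval α (m.map (Int.castRingHom (ZMod p))) = 0 := by
    rw [← hres, ht, map_zero]
  have hint : IsIntegral (ZMod p) α := ⟨m.map (Int.castRingHom (ZMod p)), hmon.map _, by
    rw [← aeval_def]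
    exact hm0⟩
  obtain ⟨g, hg⟩ := c3_surj p (minpoly (ZMod p) α)
  have hker : ∀ Q : ℤ[X], residue V (aeval t Q) = 0 →
      ∃ Q' T : ℤ[X], Q = g * Q' + C (p : ℤ) * T := by
    intro Q hQ
    rw [hres] at hQ
    obtain ⟨q, hq⟩ := minpoly.dvd (ZMod p) α hQ
    obtain ⟨Q', hQ'⟩ := c3_surj p q
    obtain ⟨T, hT⟩ := c3_lift (p := p) (Q - g * Q') (by
      rw [Polynomial.map_sub, Polynomial.map_mul, hg, hQ', hq, sub_self])
    exact ⟨Q', T, by rw [← hT]; ring⟩
  obtain ⟨h, T', hmh⟩ := hker m (by rw [ht, map_zero])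
  have hg0 : residue V (aeval t g) = 0 := by
    rw [hres, hg]
    exact minpoly.aeval _ _
  have hpres : residue V ((p : ℤ) : V) = 0 := by
    rw [Int.cast_natCast, map_natCast]
    exact CharP.cast_eq_zero _ _
  have hh0 : residue V (aeval t h) ≠ 0 := by
    intro h0
    have h1 : residue V (aeval t (derivative m)) = 0 := by
      rw [hmh]
      simp only [derivative_add, derivative_mul, derivative_C, zero_mul, zero_add, map_add,
        map_mul, hg0, h0, mul_zero, aeval_C]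
      have h2 : residue V (algebraMap ℤ V (p : ℤ)) = 0 := hpres
      rw [h2]
      simp
    have h3 := congrArg (fun q => residue V (aeval t q)) hD
    simp only [map_add, map_mul, ht, h1, map_zero, mul_zero, add_zero, aeval_C] at h3
    have h4 : ((D : ℤ) : ResidueField V) = 0 := by
      have h5 : residue V (algebraMap ℤ V D) = ((D : ℤ) : ResidueField V) := by
        rw [eq_intCast, map_intCast]
      rw [← h5, ← h3]
    exact hpD ((CharP.intCast_eq_zero_iff (ResidueField V) p D).1 h4)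
  have hhu : IsUnit (aeval t h) := (residue_ne_zero_iff_isUnit _).1 hh0
  -- one step
  have hstep : ∀ Q : ℤ[X], residue V (aeval t Q) = 0 →
      ∃ Q₁ : ℤ[X], aeval t Q * aeval t h = (p : V) * aeval t Q₁ := by
    intro Q hQ
    obtain ⟨Q', T, hQ'⟩ := hker Q hQ
    refine ⟨T * h - T' * Q', ?_⟩
    have e1 : aeval t Q = aeval t g * aeval t Q' + (p : V) * aeval t T := by
      conv_lhs => rw [hQ']
      simp
    have e2 : aeval t g * aeval t h + (p : V) * aeval t T' = 0 := by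
      have e3 := ht
      conv_lhs at e3 => rw [hmh]
      simpa using e3
    rw [map_sub, map_mul, map_mul]
    linear_combination (aeval t h) * e1 + (aeval t Q') * e2
  by_contra hcon
  push Not at hcon
  -- all powers of `p` divide
  have hall : ∀ k : ℕ, ∃ Q : ℤ[X], aeval t P * (aeval t h) ^ k = (p : V) ^ k * aeval t Q ∧
      residue V (aeval t Q) = 0 := by
    intro k
    induction k with
    | zero =>
      refine ⟨P, by simp, ?_⟩
      by_contra h0
      exact hcon 0 (aeval t P) ((residue_ne_zero_iff_isUnit _).1 h0) (by simp)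
    | succ k ih =>
      obtain ⟨Q, h1, h2⟩ := ih
      obtain ⟨Q₁, h3⟩ := hstep Q h2
      have h4 : aeval t P * (aeval t h) ^ (k + 1) = (p : V) ^ (k + 1) * aeval t Q₁ := by
        rw [pow_succ, pow_succ, ← mul_assoc, h1, mul_assoc, h3]
        ring
      refine ⟨Q₁, h4, ?_⟩
      by_contra h0
      obtain ⟨w, hw⟩ := hhu
      have hQ1 : IsUnit (aeval t Q₁) := (residue_ne_zero_iff_isUnit _).1 h0
      refine hcon (k + 1) (aeval t Q₁ * ((w⁻¹ : Vˣ) : V) ^ (k + 1))
        (hQ1.mul ((w⁻¹).isUnit.pow _)) ?_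
      rw [← hw] at h4
      have h5 : ((w : V) * ((w⁻¹ : Vˣ) : V)) ^ (k + 1) = 1 := by
        rw [Units.mul_inv, one_pow]
      calc aeval t P = aeval t P * ((w : V) * ((w⁻¹ : Vˣ) : V)) ^ (k + 1) := by
            rw [h5, mul_one]
        _ = aeval t P * (w : V) ^ (k + 1) * ((w⁻¹ : Vˣ) : V) ^ (k + 1) := by
            rw [mul_pow, mul_assoc]
        _ = _ := by
            rw [h4]
            ring
  -- Krull
  obtain ⟨w, hw⟩ := hhu
  let R : Subalgebra ℤ V := Algebra.adjoin ℤ {t, ((w⁻¹ : Vˣ) : V)}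
  have hRfg : R.FG := ⟨{t, ((w⁻¹ : Vˣ) : V)}, by simp [R]⟩
  have hft : Algebra.FiniteType ℤ R := Subalgebra.fg_iff_finiteType R |>.1 hRfg
  have hN : IsNoetherianRing R := Algebra.FiniteType.isNoetherianRing ℤ R
  have htR : t ∈ R := Algebra.subset_adjoin (by simp)
  have hwR : ((w⁻¹ : Vˣ) : V) ∈ R := Algebra.subset_adjoin (by simp)
  have hQR : ∀ Q : ℤ[X], aeval t Q ∈ R := by
    intro Q
    have h1 : aeval t Q ∈ Algebra.adjoin ℤ {t} := Polynomial.aeval_mem_adjoin_singleton ℤ t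
    exact Algebra.adjoin_mono (by simp) h1
  have hI : Ideal.span {((p : ℕ) : R)} ≠ ⊤ := by
    intro h0
    rw [Ideal.span_singleton_eq_top] at h0
    have h1 : IsUnit ((p : ℕ) : V) := by
      have h2 := h0.map R.val.toRingHom
      simpa using h2
    have h2 : residue V ((p : ℕ) : V) ≠ 0 := (residue_ne_zero_iff_isUnit _).2 h1
    apply h2
    rw [map_natCast]
    exact CharP.cast_eq_zero _ _
  have hbot := Ideal.iInf_pow_eq_bot_of_isDomain _ hI
  have hmem : (⟨aeval t P, hQR P⟩ : R) ∈ ⨅ i : ℕ, Ideal.span {((p : ℕ) : R)} ^ i := by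
    rw [Ideal.mem_iInf]
    intro k
    obtain ⟨Q, h1, -⟩ := hall k
    rw [Ideal.span_singleton_pow, Ideal.mem_span_singleton']
    refine ⟨⟨aeval t Q, hQR Q⟩ * ⟨((w⁻¹ : Vˣ) : V), hwR⟩ ^ k, ?_⟩
    apply Subtype.ext
    simp only [MulMemClass.coe_mul, SubmonoidClass.coe_pow]
    have hpc : (((p : ℕ) : R) : V) = (p : V) := map_natCast R.val p
    rw [hpc]
    rw [← hw] at h1
    have h5 : ((w : V) * ((w⁻¹ : Vˣ) : V)) ^ k = 1 := by
      rw [Units.mul_inv, one_pow]
    calc aeval t Q * ((w⁻¹ : Vˣ) : V) ^ k * (p : V) ^ k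
        = ((p : V) ^ k * aeval t Q) * ((w⁻¹ : Vˣ) : V) ^ k := by ring
      _ = aeval t P * ((w : V) * ((w⁻¹ : Vˣ) : V)) ^ k := by
          rw [← h1, mul_pow, mul_assoc]
      _ = aeval t P := by rw [h5, mul_one]
  rw [hbot, Ideal.mem_bot] at hmem
  exact hP (congrArg Subtype.val hmem)

end core

theorem unramified (K₁ : IntermediateField ℚ Qb) [FiniteDimensional ℚ K₁] :
    ∃ M : ℕ, M ≠ 0 ∧ ∀ p : ℕ, p.Prime → ¬ p ∣ M → ∀ V : ValuationSubring Qb, CharP (RF V) p →
      ∀ z : Qb, z ∈ K₁ → z ≠ 0 → ∃ (j : ℤ) (u : V), IsUnit u ∧ z = (p : Qb) ^ j * (u : Qb) := by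
  obtain ⟨θ₀, hθ₀⟩ := Field.exists_primitive_element ℚ K₁
  have halg : Algebra.IsAlgebraic ℚ (AlgebraicClosure ℚ) := AlgebraicClosure.isAlgebraic ℚ
  -- make it integral
  obtain ⟨n, hn, hθint⟩ := IsAlgebraic.exists_integral_multiple (R := ℤ) (z := (θ₀ : Qb)) (by
    have h1 : IsAlgebraic ℚ (θ₀ : Qb) := halg.isAlgebraic _
    exact (IsFractionRing.isAlgebraic_iff ℤ ℚ Qb).2 h1)
  set θ : Qb := n • (θ₀ : Qb) with hθ
  have hnQ : (n : ℚ) ≠ 0 := by exact_mod_cast hn
  -- the field generated by `θ`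
  have hK : ∀ z ∈ K₁, ∃ P Q : ℤ[X], z = aeval θ P / aeval θ Q := by
    intro z hz
    have h1 : (⟨z, hz⟩ : K₁) ∈ IntermediateField.adjoin ℚ {θ₀} := by
      rw [hθ₀]
      trivial
    obtain ⟨r, s, hrs⟩ := (IntermediateField.mem_adjoin_simple_iff ℚ _).1 h1
    have h2 : z = aeval (θ₀ : Qb) r / aeval (θ₀ : Qb) s := by
      have h3 := congrArg (algebraMap K₁ Qb) hrs
      rw [map_div₀, ← aeval_algebraMap_apply, ← aeval_algebraMap_apply] at h3
      exact h3
    have h4 : ∀ r : ℚ[X], aeval (θ₀ : Qb) r = aeval θ (r.comp (C ((n : ℚ)⁻¹) * X)) := by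
      intro r
      rw [aeval_comp]
      congr 2
      simp only [map_mul, aeval_C, aeval_X, hθ]
      rw [zsmul_eq_mul, ← mul_assoc]
      have h5 : algebraMap ℚ Qb ((n : ℚ)⁻¹) * (n : Qb) = 1 := by
        rw [map_inv₀, map_intCast, inv_mul_cancel₀]
        exact_mod_cast hn
      rw [h5, one_mul]
    have h6 : ∀ r : ℚ[X], ∃ (k : ℤ) (b : ℤ[X]), k ≠ 0 ∧ (k : Qb) * aeval θ r = aeval θ b := by
      intro r
      obtain ⟨k, b, hk, hb⟩ := c3_clear r
      refine ⟨k, b, hk, ?_⟩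
      have h7 := congrArg (aeval θ) hb
      rw [map_mul, aeval_C] at h7
      have h8 : aeval θ (b.map (Int.castRingHom ℚ)) = aeval θ b := by
        rw [aeval_def, aeval_def, eval₂_map]
        congr 1
      rw [h8] at h7
      rw [h7, map_intCast]
    rw [h4, h4] at h2
    obtain ⟨k, b, hk, hb⟩ := h6 (r.comp (C ((n : ℚ)⁻¹) * X))
    obtain ⟨k', b', hk', hb'⟩ := h6 (s.comp (C ((n : ℚ)⁻¹) * X))
    refine ⟨C k' * b, C k * b', ?_⟩
    have hkQ : (k : Qb) ≠ 0 := by exact_mod_cast hk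
    have hkQ' : (k' : Qb) ≠ 0 := by exact_mod_cast hk'
    rw [map_mul, map_mul, ← hb, ← hb', aeval_C, aeval_C, h2, eq_intCast, eq_intCast]
    rw [← mul_assoc, ← mul_assoc, mul_comm (k : Qb) (k' : Qb)]
    rw [mul_div_mul_left _ _ (mul_ne_zero hkQ' hkQ)]
  -- the discriminant
  have hmon : (minpoly ℤ θ).Monic := minpoly.monic hθint
  have hsep : ((minpoly ℤ θ).map (Int.castRingHom ℚ)).Separable := by
    have h1 : (minpoly ℤ θ).map (algebraMap ℤ ℚ) = minpoly ℚ θ :=
      (minpoly.isIntegrallyClosed_eq_field_fractions' ℚ hθint).symm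
    have h2 : (minpoly ℤ θ).map (Int.castRingHom ℚ) = minpoly ℚ θ := h1
    rw [h2]
    exact (minpoly.irreducible (halg.isAlgebraic θ).isIntegral).separable
  obtain ⟨D, A, B, hD0, hD⟩ := c3_bezout hsep
  refine ⟨D.natAbs, Int.natAbs_ne_zero.2 hD0, ?_⟩
  intro p hp hpM V hV z hz hz0
  have hpD : ¬ (p : ℤ) ∣ D := fun h => hpM (Int.natCast_dvd.1 h)
  have hθV : θ ∈ V := c3_mem hθint V
  let t : V := ⟨θ, hθV⟩
  have hco : ∀ P : ℤ[X], ((aeval t P : V) : Qb) = aeval θ P := by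
    intro P
    have h1 := aeval_algebraMap_apply Qb t P
    exact h1.symm
  have ht : aeval t (minpoly ℤ θ) = 0 := by
    apply Subtype.ext
    rw [hco, minpoly.aeval]
    rfl
  have key : ∀ P : ℤ[X], aeval θ P ≠ 0 → ∃ (j : ℕ) (u : V), IsUnit u ∧
      aeval θ P = (p : Qb) ^ j * (u : Qb) := by
    intro P hP
    obtain ⟨j, u, hu, he⟩ := c3_core hD hp hpD V hV t ht hmon P (by
      intro h0
      apply hP
      rw [← hco, h0]
      rfl)
    refine ⟨j, u, hu, ?_⟩
    rw [← hco, he]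
    simp
  obtain ⟨P, Q, hPQ⟩ := hK z hz
  have hP : aeval θ P ≠ 0 := by
    intro h0
    rw [h0, zero_div] at hPQ
    exact hz0 hPQ
  have hQ : aeval θ Q ≠ 0 := by
    intro h0
    rw [h0, div_zero] at hPQ
    exact hz0 hPQ
  obtain ⟨j, u, hu, he⟩ := key P hP
  obtain ⟨j', u', hu', he'⟩ := key Q hQ
  obtain ⟨w, hw⟩ := hu'
  have hpQ : (p : Qb) ≠ 0 := by exact_mod_cast hp.ne_zero
  refine ⟨(j : ℤ) - j', u * ((w⁻¹ : Vˣ) : V), hu.mul (w⁻¹).isUnit, ?_⟩
  have hww : ((w : V) : Qb) * (((w⁻¹ : Vˣ) : V) : Qb) = 1 := by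
    have h1 : (w : V) * ((w⁻¹ : Vˣ) : V) = 1 := Units.mul_inv w
    exact_mod_cast congrArg (fun x : V => (x : Qb)) h1
  have hw0 : ((w : V) : Qb) ≠ 0 := left_ne_zero_of_mul_eq_one hww
  rw [hPQ, he, he', ← hw, zpow_sub₀ hpQ, zpow_natCast, zpow_natCast]
  have h2 : ((u * ((w⁻¹ : Vˣ) : V) : V) : Qb) = (u : Qb) * (((w : V) : Qb))⁻¹ := by
    have h3 : (((w⁻¹ : Vˣ) : V) : Qb) = (((w : V) : Qb))⁻¹ := by
      rw [eq_comm, inv_eq_of_mul_eq_one_right hww]
    rw [← h3]
    rfl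
  rw [h2]
  field_simp

end Pool.Agent.LibT62
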