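import Pool.Agent.LibT62.Defs

/-!
Row C4: parity. By induction `e_k = k e_1 + e_1 ^ 2 r_k`, `r_k ∈ V` (`hadd` with `(k, 1)`).
Suppose for all `k ≥ 1` there is `z ∈ K₁` with `z ^ 2 = f(1 / e_k)`. As
`f(1/e) = e ^ (-5) (1 - a e) (1 - b e) (1 - c e) (1 - d e)` is `e ^ (-5)` times a unit of `V`
(`e` in the maximal ideal), and `z = p ^ j u`, `e_k = p ^ i u'` (`hur`), we get `2 j = - 5 i`
(`p` is in the maximal ideal and not zero, so powers of `p` are units only for exponent `0`), `i` is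
even. So the exponent `i₁ ≥ 1` of `e_1` is even, `i₁ ≥ 2`, and
`e_p = p e_1 + e_1 ^ 2 r = p ^ (i₁ + 1) (u + p ^ (i₁ - 1) u ^ 2 r)` has the odd exponent `i₁ + 1`.
-/

open scoped Classical
open Polynomial IsLocalRing

namespace Pool.Agent.LibT62

open Pool.Agent.LibBH2 Pool.Agent.LibJac77

private theorem C4_vF5 (V : ValuationSubring Qb) (x a b c d : Qb) (hx : 1 < V.valuation x)
    (ha : a ∈ V) (hb : b ∈ V) (hc : c ∈ V) (hd : d ∈ V) :
    V.valuation ((F5 a b c d).eval x) = V.valuation x ^ 5 := by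
  have h : ∀ y ∈ V, V.valuation (x - y) = V.valuation x := fun y hy =>
    Valuation.map_sub_eq_of_lt_left _ (lt_of_le_of_lt ((V.valuation_le_one_iff y).2 hy) hx)
  unfold F5
  simp only [eval_mul, eval_sub, eval_X, eval_C, map_mul, h a ha, h b hb, h c hc, h d hd]
  simp only [pow_succ, pow_zero, one_mul]

private theorem C4_formula (V : ValuationSubring Qb) (e : ℕ → V)
    (hadd : ∀ i j, 1 ≤ i → 1 ≤ j → ∃ r : V, e (i + j) = e i + e j + e i * e j * r) :
    ∀ k, 1 ≤ k → ∃ r : V, e k = (k : V) * e 1 + e 1 ^ 2 * r := by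
  intro k hk
  induction k, hk using Nat.le_induction with
  | base => exact ⟨0, by push_cast; ring⟩
  | succ k hk ih =>
    obtain ⟨r, hr⟩ := ih
    obtain ⟨s, hs⟩ := hadd k 1 hk le_rfl
    refine ⟨r + ((k : V) + e 1 * r) * s, ?_⟩
    rw [hs, hr]
    push_cast
    ring

theorem parity (V : ValuationSubring Qb) (p : ℕ) (hp : p.Prime) (hchar : CharP (RF V) p)
    (K₁ : IntermediateField ℚ Qb)
    (hur : ∀ z : Qb, z ∈ K₁ → z ≠ 0 → ∃ (j : ℤ) (u : V), IsUnit u ∧ z = (p : Qb) ^ j * (u : Qb))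
    (e : ℕ → V) (he : ∀ k, 1 ≤ k → residue V (e k) = 0) (he0 : ∀ k, 1 ≤ k → e k ≠ 0)
    (heK : ∀ k, 1 ≤ k → (e k : Qb) ∈ K₁)
    (hadd : ∀ i j, 1 ≤ i → 1 ≤ j → ∃ r : V, e (i + j) = e i + e j + e i * e j * r)
    (a b c d : Qb) (ha : a ∈ V) (hb : b ∈ V) (hc : c ∈ V) (hd : d ∈ V) :
    ∃ k, 1 ≤ k ∧ ∀ z : Qb, z ∈ K₁ → z ^ 2 ≠ (F5 a b c d).eval ((e k : Qb)⁻¹) := by
  by_contra hcon
  push Not at hcon
  have hp0 : (p : Qb) ≠ 0 := by exact_mod_cast hp.ne_zero
  have hpV : V.valuation (p : Qb) < 1 := by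
    have h1 : (p : V) ∈ maximalIdeal V := by
      rw [← residue_eq_zero_iff, map_natCast]
      exact CharP.cast_eq_zero (RF V) p
    have h2 := (V.valuation_lt_one_iff (p : V)).1 h1
    simpa using h2
  have hpos : 0 < V.valuation (p : Qb) := by
    rw [zero_lt_iff]
    exact (Valuation.ne_zero_iff _).2 hp0
  have hanti : StrictAnti (fun n : ℤ => V.valuation (p : Qb) ^ n) :=
    zpow_right_strictAnti₀ hpos hpV
  have hval : ∀ z : Qb, z ∈ K₁ → z ≠ 0 → ∃ j : ℤ, V.valuation z = V.valuation (p : Qb) ^ j := by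
    intro z hz hz0
    obtain ⟨j, u, hu, rfl⟩ := hur z hz hz0
    refine ⟨j, ?_⟩
    rw [map_mul, map_zpow₀, (V.valuation_eq_one_iff u).1 hu, mul_one]
  have hlt : ∀ k, 1 ≤ k → V.valuation (e k : Qb) < 1 := by
    intro k hk
    rw [← V.valuation_lt_one_iff, ← residue_eq_zero_iff]
    exact he k hk
  have hne : ∀ k, 1 ≤ k → (e k : Qb) ≠ 0 := by
    intro k hk h
    exact he0 k hk (Subtype.ext h)
  -- all exponents are even
  have heven : ∀ k, 1 ≤ k → ∀ i : ℤ, V.valuation (e k : Qb) = V.valuation (p : Qb) ^ i →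
      Even i := by
    intro k hk i hi
    obtain ⟨z, hz, hz2⟩ := hcon k hk
    have hx : 1 < V.valuation ((e k : Qb)⁻¹) := by
      rw [map_inv₀]
      have h0 : 0 < V.valuation (e k : Qb) := by
        rw [zero_lt_iff]
        exact (Valuation.ne_zero_iff _).2 (hne k hk)
      exact (one_lt_inv₀ h0).2 (hlt k hk)
    have hF := C4_vF5 V ((e k : Qb)⁻¹) a b c d hx ha hb hc hd
    rw [← hz2, map_pow, map_inv₀, hi] at hF
    have hz0 : z ≠ 0 := by
      rintro rfl
      rw [map_zero] at hF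
      have h1 : (0 : V.ValueGroup) ^ 2 = 0 := zero_pow two_ne_zero
      rw [h1] at hF
      exact (pow_ne_zero 5 (inv_ne_zero (zpow_ne_zero i hpos.ne'))) hF.symm
    obtain ⟨j, hj⟩ := hval z hz hz0
    rw [hj, ← zpow_natCast, ← zpow_mul, ← zpow_neg, ← zpow_natCast, ← zpow_mul] at hF
    have h2 := hanti.injective hF
    push_cast at h2
    have h3 : j * 2 = -i * 5 := h2
    rcases Int.even_or_odd i with h | h
    · exact h
    · exfalso
      obtain ⟨t, ht⟩ := h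
      omega
  obtain ⟨i1, hi1⟩ := hval (e 1 : Qb) (heK 1 le_rfl) (hne 1 le_rfl)
  have hev1 := heven 1 le_rfl i1 hi1
  have hi1pos : 0 < i1 := by
    have h1 := hlt 1 le_rfl
    rw [hi1] at h1
    have h2 : V.valuation (p : Qb) ^ i1 < V.valuation (p : Qb) ^ (0 : ℤ) := by
      rw [zpow_zero]
      exact h1
    exact hanti.lt_iff_gt.1 h2
  have hi1two : 2 ≤ i1 := by
    obtain ⟨t, ht⟩ := hev1
    omega
  obtain ⟨r, hr⟩ := C4_formula V e hadd p hp.one_lt.le
  have hvp : V.valuation (e p : Qb) = V.valuation (p : Qb) ^ (i1 + 1) := by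
    have h1 : (e p : Qb) = (p : Qb) * (e 1 : Qb) + (e 1 : Qb) ^ 2 * (r : Qb) := by
      have := congrArg (fun t : V => (t : Qb)) hr
      simpa using this
    have h2 : V.valuation ((p : Qb) * (e 1 : Qb)) = V.valuation (p : Qb) ^ (i1 + 1) := by
      rw [map_mul, hi1, zpow_add_one₀ hpos.ne', mul_comm]
    have h3 : V.valuation ((e 1 : Qb) ^ 2 * (r : Qb)) < V.valuation ((p : Qb) * (e 1 : Qb)) := by
      rw [h2, map_mul, map_pow, hi1, ← zpow_natCast, ← zpow_mul]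
      calc V.valuation (p : Qb) ^ (i1 * ((2 : ℕ) : ℤ)) * V.valuation (r : Qb) ≤
          V.valuation (p : Qb) ^ (i1 * ((2 : ℕ) : ℤ)) * 1 := by
            gcongr
            exact V.valuation_le_one r
        _ = V.valuation (p : Qb) ^ (i1 * ((2 : ℕ) : ℤ)) := mul_one _
        _ < V.valuation (p : Qb) ^ (i1 + 1) := hanti (by push_cast; omega)
    rw [h1, Valuation.map_add_eq_of_lt_left _ h3, h2]
  have hevp := heven p hp.one_lt.le (i1 + 1) hvp
  obtain ⟨t, ht⟩ := hev1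
  obtain ⟨s, hs⟩ := hevp
  omega

end Pool.Agent.LibT62
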