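import Pool.Agent.LibT62.Defs

/-!
Row D0: polynomials over a valuation ring.
(i) scale two polynomials so that the coefficients are in `V` and not all in the maximal ideal
(choose a coefficient of largest valuation among the finitely many and divide by it);
(ii) Gauss: if `P Q = π E` and `Q` is not zero modulo the maximal ideal then `P = π P'` (if `P ≠ 0`
write `P = ρ P₁` with `P₁` primitive by (i), `P₁ Q` is not zero modulo the maximal ideal
(`V[X] → (RF V)[X]`, a domain), hence `π ∣ ρ`: otherwise `ρ ∣ π`, `ρ P₁ Q = π E`, `P₁ Q = (π/ρ) E` with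
`π/ρ` in the maximal ideal);
(iii) the content.
-/

open scoped Classical
open Polynomial IsLocalRing

namespace Pool.Agent.LibT62

open Pool.Agent.LibBH2 Pool.Agent.LibJac77

variable {K : Type} [Field K] (V : ValuationSubring K)

theorem D0_lift {l : K} (hl : l ≠ 0) (P : K[X])
    (h : ∀ n, V.valuation (P.coeff n) ≤ V.valuation l) :
    ∃ P' : V[X], P = C l * P'.map (algebraMap V K) := by
  have h1 : C l⁻¹ * P ∈ lifts (algebraMap V K) := by
    rw [lifts_iff_coeff_lifts]
    intro n
    rw [coeff_C_mul]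
    have h2 : l⁻¹ * P.coeff n ∈ V := by
      rw [← V.valuation_le_one_iff, map_mul, map_inv₀]
      have hv : V.valuation l ≠ 0 := (Valuation.ne_zero_iff _).2 hl
      have := mul_le_mul_right (h n) (V.valuation l)⁻¹
      rwa [inv_mul_cancel₀ hv] at this
    exact ⟨⟨_, h2⟩, rfl⟩
  obtain ⟨P', hP'⟩ := (mem_lifts _).1 h1
  refine ⟨P', ?_⟩
  rw [hP', ← mul_assoc, ← C_mul, mul_inv_cancel₀ hl, C_1, one_mul]

theorem D0_ne {l : K} (hl : l ≠ 0) (P : K[X]) (P' : V[X])
    (h : P = C l * P'.map (algebraMap V K)) (n : ℕ) (hn : P.coeff n = l) :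
    P'.map (residue V) ≠ 0 := by
  intro h0
  have h1 := congrArg (fun q => q.coeff n) h0
  simp only [coeff_map, coeff_zero] at h1
  have h2 := congrArg (fun q => q.coeff n) h
  simp only [coeff_C_mul, coeff_map] at h2
  rw [hn] at h2
  have h3 : algebraMap V K (P'.coeff n) = algebraMap V K 1 := by
    rw [map_one]
    exact mul_left_cancel₀ hl (by rw [← h2, mul_one])
  have h4 : P'.coeff n = 1 := (FaithfulSMul.algebraMap_injective V K) h3
  rw [h4, map_one] at h1
  exact one_ne_zero h1

theorem exists_scale (P Q : K[X]) (h : P ≠ 0 ∨ Q ≠ 0) :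
    ∃ (l : K) (P' Q' : V[X]), l ≠ 0 ∧ P = C l * P'.map (algebraMap V K) ∧
      Q = C l * Q'.map (algebraMap V K) ∧ (P'.map (residue V) ≠ 0 ∨ Q'.map (residue V) ≠ 0) := by
  set s : Finset K := P.support.image P.coeff ∪ Q.support.image Q.coeff with hs
  have hne : s.Nonempty := by
    rcases h with h | h
    · obtain ⟨n, hn⟩ := support_nonempty.2 h
      exact ⟨P.coeff n, Finset.mem_union_left _ (Finset.mem_image_of_mem _ hn)⟩
    · obtain ⟨n, hn⟩ := support_nonempty.2 h
      exact ⟨Q.coeff n, Finset.mem_union_right _ (Finset.mem_image_of_mem _ hn)⟩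
  obtain ⟨l, hls, hlmax⟩ := s.exists_max_image (fun x => V.valuation x) hne
  have hl0 : l ≠ 0 := by
    rcases Finset.mem_union.1 hls with h1 | h1
    · obtain ⟨n, hn, rfl⟩ := Finset.mem_image.1 h1
      exact mem_support_iff.1 hn
    · obtain ⟨n, hn, rfl⟩ := Finset.mem_image.1 h1
      exact mem_support_iff.1 hn
  have hP : ∀ n, V.valuation (P.coeff n) ≤ V.valuation l := by
    intro n
    by_cases h0 : P.coeff n = 0
    · rw [h0, map_zero]; exact zero_le
    · exact hlmax _ (Finset.mem_union_left _ (Finset.mem_image_of_mem _ (mem_support_iff.2 h0)))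
  have hQ : ∀ n, V.valuation (Q.coeff n) ≤ V.valuation l := by
    intro n
    by_cases h0 : Q.coeff n = 0
    · rw [h0, map_zero]; exact zero_le
    · exact hlmax _ (Finset.mem_union_right _ (Finset.mem_image_of_mem _ (mem_support_iff.2 h0)))
  obtain ⟨P', hP'⟩ := D0_lift V hl0 P hP
  obtain ⟨Q', hQ'⟩ := D0_lift V hl0 Q hQ
  refine ⟨l, P', Q', hl0, hP', hQ', ?_⟩
  rcases Finset.mem_union.1 hls with h1 | h1
  · obtain ⟨n, _, hn⟩ := Finset.mem_image.1 h1
    exact Or.inl (D0_ne V hl0 P P' hP' n hn)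
  · obtain ⟨n, _, hn⟩ := Finset.mem_image.1 h1
    exact Or.inr (D0_ne V hl0 Q Q' hQ' n hn)

theorem exists_content (W : V[X]) (h : W ≠ 0) :
    ∃ (r : V) (W' : V[X]), r ≠ 0 ∧ W = C r * W' ∧ W'.map (residue V) ≠ 0 := by
  have hinj : Function.Injective (algebraMap V K) := FaithfulSMul.algebraMap_injective V K
  have hmapne : W.map (algebraMap V K) ≠ 0 := (Polynomial.map_ne_zero_iff hinj).2 h
  obtain ⟨l, P', Q', hl, hP, hQ, hor⟩ := exists_scale V (W.map (algebraMap V K)) 0 (Or.inl hmapne)
  have hQ0 : Q' = 0 := by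
    have h1 : C l * Q'.map (algebraMap V K) = 0 := hQ.symm
    rcases mul_eq_zero.1 h1 with h2 | h2
    · exact absurd (C_eq_zero.1 h2) hl
    · exact (Polynomial.map_eq_zero_iff hinj).1 h2
  have hP' : P'.map (residue V) ≠ 0 := by
    rcases hor with h1 | h1
    · exact h1
    · rw [hQ0, Polynomial.map_zero] at h1
      exact absurd rfl h1
  obtain ⟨n, hn⟩ := support_nonempty.2 hP'
  have hn1 : residue V (P'.coeff n) ≠ 0 := by
    have := mem_support_iff.1 hn
    rwa [coeff_map] at this
  have hu : IsUnit (P'.coeff n) := by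
    by_contra hc
    exact hn1 ((residue_eq_zero_iff _).2 ((mem_maximalIdeal _).2 hc))
  obtain ⟨u, hu⟩ := hu
  have hcoef := congrArg (fun q => q.coeff n) hP
  simp only [coeff_C_mul, coeff_map] at hcoef
  rw [← hu] at hcoef
  have hl' : l = algebraMap V K (W.coeff n * ((u⁻¹ : Vˣ) : V)) := by
    rw [map_mul, hcoef, mul_assoc, ← map_mul, Units.mul_inv, map_one, mul_one]
  refine ⟨W.coeff n * ((u⁻¹ : Vˣ) : V), P', ?_, ?_, hP'⟩
  · intro h0
    rw [h0, map_zero] at hl'
    exact hl hl'
  · apply Polynomial.map_injective _ hinj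
    rw [Polynomial.map_mul, map_C, ← hl']
    exact hP

theorem gauss_dvd {P Q E : V[X]} {r : V} (h : P * Q = C r * E) (hQ : Q.map (residue V) ≠ 0) :
    ∃ P' : V[X], P = C r * P' := by
  by_cases hP : P = 0
  · exact ⟨0, by rw [hP, mul_zero]⟩
  obtain ⟨ρ, P₁, hρ, hP₁, hprim⟩ := exists_content V P hP
  have key : r ∣ ρ := by
    rcases ValuationRing.dvd_total r ρ with h1 | h1
    · exact h1
    · obtain ⟨t, ht⟩ := h1
      by_cases hu : IsUnit t
      · obtain ⟨u, hu⟩ := hu
        refine ⟨((u⁻¹ : Vˣ) : V), ?_⟩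
        rw [ht, ← hu, mul_assoc, Units.mul_inv, mul_one]
      · exfalso
        have hcancel : P₁ * Q = C t * E := by
          have h2 : C ρ * (P₁ * Q) = C ρ * (C t * E) := by
            rw [← mul_assoc, ← hP₁, h, ht, C_mul, mul_assoc]
          exact mul_left_cancel₀ (C_ne_zero.2 hρ) h2
        have h3 := congrArg (Polynomial.map (residue V)) hcancel
        rw [Polynomial.map_mul, Polynomial.map_mul, map_C,
          (residue_eq_zero_iff t).2 ((mem_maximalIdeal _).2 hu), C_0, zero_mul] at h3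
        rcases mul_eq_zero.1 h3 with h4 | h4
        · exact hprim h4
        · exact hQ h4
  obtain ⟨s, hs⟩ := key
  refine ⟨C s * P₁, ?_⟩
  rw [← mul_assoc, ← C_mul, ← hs]
  exact hP₁

end Pool.Agent.LibT62
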