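import Pool.Agent.LibT62.Defs

/-!
Row D1: divisibility. `mulY f y (U, W)` is `(U + W w) (w + y)` in `R[X][w]`, `w ^ 2 = f`.
Claim for all `j ≤ n`: the pair `mulY^[j] (U, W)` is `(X - δ) ^ j` times a pair `(U_j, W_j)`.
Step `j < n`: multiply `g (w + y) ^ j = (X - δ) ^ j g_j` by the conjugate `U - W w` of `g = U + W w`:
`(X - δ) ^ (n - j) N₁ (w + y) ^ j = g_j (U - W w)` (cancel `(X - δ) ^ j`), and evaluate at
`X = δ`, `w = y`: `0 = (U_j(δ) + W_j(δ) y) (U(δ) - W(δ) y)`, where `U(δ) - W(δ) y = 2 U(δ) ≠ 0`. So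
`U_j(δ) + W_j(δ) y = 0`, and the next pair `(y U_j + f W_j, U_j + y W_j)` vanishes at `δ`
(`f(δ) = y ^ 2`), hence is divisible by `X - δ` (`dvd_iff_isRoot`).
To work with pairs one may use the ring hom `R[X][w] → R`, `X ↦ δ, w ↦ y`, or prove the needed
identities by hand for pairs (`P, Q`) with `(w + y) ^ j = P + Q w`.
-/

open scoped Classical
open Polynomial IsLocalRing

namespace Pool.Agent.LibT62

open Pool.Agent.LibBH2 Pool.Agent.LibJac77

/-- multiplication by `w + y` in `R[X][w]`, `w ^ 2 = f` -/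
noncomputable def mulY {R : Type} [CommRing R] (f : R[X]) (y : R) (g : R[X] × R[X]) : R[X] × R[X] :=
  (C y * g.1 + f * g.2, g.1 + C y * g.2)

private theorem D1_step {R : Type} [CommRing R] [IsDomain R] (f U W N₁ : R[X]) (n : ℕ) (y δ : R)
    (hy : y ^ 2 = f.eval δ) (hN : U ^ 2 - f * W ^ 2 = (X - C δ) ^ n * N₁)
    (h1 : U.eval δ + W.eval δ * y = 0) (h1' : 2 * U.eval δ ≠ 0) (j : ℕ) (hj : j ≤ n) :
    ∃ A B P Q : R[X], (mulY f y)^[j] (U, W) = ((X - C δ) ^ j * A, (X - C δ) ^ j * B) ∧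
      (X - C δ) ^ j * A = U * P + f * W * Q ∧ (X - C δ) ^ j * B = U * Q + W * P := by
  induction j with
  | zero => exact ⟨U, W, 1, 0, by simp, by simp, by simp⟩
  | succ j ih =>
    obtain ⟨A, B, P, Q, h2, h3, h4⟩ := ih (Nat.le_of_succ_le hj)
    have hX : (X - C δ : R[X]) ^ j ≠ 0 := pow_ne_zero _ (X_sub_C_ne_zero δ)
    obtain ⟨k, hk⟩ : ∃ k, n = j + (k + 1) := ⟨n - j - 1, by omega⟩
    have h5 : A * U - f * B * W = (X - C δ) ^ (k + 1) * N₁ * P := by
      apply mul_left_cancel₀ hX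
      have h6 : (X - C δ) ^ j * (A * U - f * B * W) = (U ^ 2 - f * W ^ 2) * P := by
        linear_combination U * h3 - f * W * h4
      rw [h6, hN, hk, pow_add]
      ring
    have h7 : B * U - A * W = (X - C δ) ^ (k + 1) * N₁ * Q := by
      apply mul_left_cancel₀ hX
      have h6 : (X - C δ) ^ j * (B * U - A * W) = (U ^ 2 - f * W ^ 2) * Q := by
        linear_combination U * h4 - W * h3
      rw [h6, hN, hk, pow_add]
      ring
    have h8 := congrArg (Polynomial.eval δ) h5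
    have h9 := congrArg (Polynomial.eval δ) h7
    simp only [eval_sub, eval_mul, eval_pow, eval_X, eval_C, sub_self, zero_pow (Nat.succ_ne_zero k),
      zero_mul, ← hy] at h8 h9
    have h10 : A.eval δ + B.eval δ * y = 0 := by
      have h11 : (A.eval δ + B.eval δ * y) * (2 * U.eval δ) = 0 := by
        linear_combination h8 + y * h9 + (A.eval δ + B.eval δ * y) * h1
      exact (mul_eq_zero.1 h11).resolve_right h1'
    have h12 : (X - C δ) ∣ C y * A + f * B := by
      rw [dvd_iff_isRoot, IsRoot.def]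
      simp only [eval_add, eval_mul, eval_C, ← hy]
      linear_combination y * h10
    have h13 : (X - C δ) ∣ A + C y * B := by
      rw [dvd_iff_isRoot, IsRoot.def]
      simp only [eval_add, eval_mul, eval_C]
      linear_combination h10
    obtain ⟨A', hA'⟩ := h12
    obtain ⟨B', hB'⟩ := h13
    refine ⟨A', B', C y * P + f * Q, P + C y * Q, ?_, ?_, ?_⟩
    · rw [Function.iterate_succ_apply', h2]
      unfold mulY
      refine Prod.ext ?_ ?_
      · show C y * ((X - C δ) ^ j * A) + f * ((X - C δ) ^ j * B) = (X - C δ) ^ (j + 1) * A'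
        rw [pow_succ]
        linear_combination (X - C δ) ^ j * hA'
      · show (X - C δ) ^ j * A + C y * ((X - C δ) ^ j * B) = (X - C δ) ^ (j + 1) * B'
        rw [pow_succ]
        linear_combination (X - C δ) ^ j * hB'
    · rw [pow_succ]
      linear_combination C y * h3 + f * h4 - (X - C δ) ^ j * hA'
    · rw [pow_succ]
      linear_combination h3 + C y * h4 - (X - C δ) ^ j * hB'

theorem mulY_dvd {R : Type} [CommRing R] [IsDomain R] (f U W N₁ : R[X]) (n : ℕ) (y δ : R)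
    (hy : y ^ 2 = f.eval δ) (hN : U ^ 2 - f * W ^ 2 = (X - C δ) ^ n * N₁)
    (h1 : U.eval δ + W.eval δ * y = 0) (h1' : 2 * U.eval δ ≠ 0) :
    (X - C δ) ^ n ∣ ((mulY f y)^[n] (U, W)).1 ∧ (X - C δ) ^ n ∣ ((mulY f y)^[n] (U, W)).2 := by
  obtain ⟨A, B, P, Q, h2, -, -⟩ := D1_step f U W N₁ n y δ hy hN h1 h1' n le_rfl
  rw [h2]
  exact ⟨dvd_mul_right _ _, dvd_mul_right _ _⟩

end Pool.Agent.LibT62
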