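import Pool.Agent.LibT62.D1

/-!
Row D2: the local lemma at a Weierstrass point. Everything modulo `y ^ 2`.
(1) For `j ≥ 1`: `mulY^[2 j] (U, W) = (f^j U + 2 j y f^j W + y^2 (..), f^j W + 2 j y f^(j-1) U + y^2 (..))`
(induction on `j`, two steps at once: `(w + y)^2 = f + 2 y w + y^2`).
(2) `mulY_dvd` with `n = 2 b`: the second component is `(X - δ)^(2b) W₂`, and
`(X - δ)^(2b) = X^(2b) + y^2 (..)` since `δ = y^2 g`. So, with `f = X f1`,
`X^(b-1) f1^(b-1) (W f + 2 b y U) = X^(2b) W₂ + y^2 E₁`. `X^(b-1)` divides `y^2 E₁`, hence `E₁`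
(domain, `y ≠ 0`), cancel: `f1^(b-1) (W f + 2 b y U) = X^(b+1) W₂ + y^2 E₂`.
(3) `f1(0)` is a unit, so `f1^(b-1)` and `X^(b+1)` are coprime (`IsCoprime f1 X`: `f1 = f1(0) + X (..)`,
`IsCoprime.pow`): `s f1^(b-1) + t X^(b+1) = 1`; multiply.
-/

open scoped Classical
open Polynomial IsLocalRing

namespace Pool.Agent.LibT62

open Pool.Agent.LibBH2 Pool.Agent.LibJac77

private theorem D2_iter {R : Type} [CommRing R] (f U W : R[X]) (y : R) (i : ℕ) :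
    ∃ E₁ E₂ : R[X], (mulY f y)^[2 * (i + 1)] (U, W) =
      (f ^ (i + 1) * U + 2 * (i + 1 : R[X]) * C y * f ^ (i + 1) * W + C y ^ 2 * E₁,
        f ^ (i + 1) * W + 2 * (i + 1 : R[X]) * C y * f ^ i * U + C y ^ 2 * E₂) := by
  induction i with
  | zero =>
    refine ⟨U, W, ?_⟩
    change mulY f y (mulY f y (U, W)) = _
    unfold mulY
    apply Prod.ext
    · simp only [Nat.cast_zero, zero_add, pow_one]
      ring
    · simp only [Nat.cast_zero, zero_add, pow_one, pow_zero]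
      ring
  | succ i ih =>
    obtain ⟨E₁, E₂, h⟩ := ih
    have h2 : (mulY f y)^[2 * (i + 1 + 1)] (U, W) =
        mulY f y (mulY f y ((mulY f y)^[2 * (i + 1)] (U, W))) := by
      have e : 2 * (i + 1 + 1) = (2 * (i + 1)).succ.succ := by omega
      rw [e, Function.iterate_succ_apply', Function.iterate_succ_apply']
    refine ⟨f * E₁ + 4 * (i + 1 : R[X]) * f ^ (i + 1) * U + 2 * C y * f * E₂ +
      (f ^ (i + 1) * U + 2 * (i + 1 : R[X]) * C y * f ^ (i + 1) * W + C y ^ 2 * E₁),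
      f * E₂ + 4 * (i + 1 : R[X]) * f ^ (i + 1) * W + 2 * C y * E₁ +
      (f ^ (i + 1) * W + 2 * (i + 1 : R[X]) * C y * f ^ i * U + C y ^ 2 * E₂), ?_⟩
    rw [h2, h]
    unfold mulY
    apply Prod.ext
    · simp only
      push_cast
      ring
    · simp only
      push_cast
      ring

theorem local_zero {R : Type} [CommRing R] [IsDomain R] (f f1 U W N₁ : R[X]) (b : ℕ) (hb : 1 ≤ b)
    (y δ g : R) (hf : f = X * f1) (hf1 : IsUnit (f1.eval 0)) (hy : y ^ 2 = f.eval δ) (hy0 : y ≠ 0)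
    (hδ : δ = y ^ 2 * g) (hN : U ^ 2 - f * W ^ 2 = (X - C δ) ^ (2 * b) * N₁)
    (h1 : U.eval δ + W.eval δ * y = 0) (h1' : 2 * U.eval δ ≠ 0) :
    ∃ Q E : R[X], W * f + C (2 * (b : R) * y) * U = X ^ (b + 1) * Q + C (y ^ 2) * E := by
  obtain ⟨i, rfl⟩ : ∃ i, b = i + 1 := ⟨b - 1, by omega⟩
  obtain ⟨E₁, E₂, hit⟩ := D2_iter f U W y i
  obtain ⟨W₂, hW₂⟩ := (mulY_dvd f U W N₁ (2 * (i + 1)) y δ hy hN h1 h1').2
  rw [hit] at hW₂
  simp only at hW₂
  -- `(X - δ) ^ (2 b) = X ^ (2 b) + y ^ 2 D`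
  obtain ⟨D, hD⟩ := sub_dvd_pow_sub_pow (X - C δ) (X : R[X]) (2 * (i + 1))
  have hD' : (X - C δ) ^ (2 * (i + 1)) = X ^ (2 * (i + 1)) + C y ^ 2 * (-(C g * D)) := by
    have h3 : (X - C δ - X : R[X]) = -(C y ^ 2 * C g) := by
      rw [hδ, C_mul, C_pow]; ring
    rw [h3] at hD
    linear_combination hD
  set Z : R[X] := W * f + C (2 * ((i + 1 : ℕ) : R) * y) * U with hZ
  have hZ' : Z = f * W + 2 * (i + 1 : R[X]) * C y * U := by
    rw [hZ]
    have h3 : (C (2 * ((i + 1 : ℕ) : R) * y) : R[X]) = 2 * (i + 1 : R[X]) * C y := by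
      rw [C_mul, C_mul]
      have h4 : (C (2 : R) : R[X]) = 2 := map_ofNat C 2
      have h5 : (C (((i + 1 : ℕ) : R)) : R[X]) = (i + 1 : R[X]) := by
        rw [map_natCast C (i + 1)]
        push_cast
        rfl
      rw [h4, h5]
    rw [h3]
    ring
  set E₃ : R[X] := -(C g * D) * W₂ - E₂ with hE₃
  have hmain : X ^ i * (f1 ^ i * Z) = X ^ i * (X ^ (i + 2) * W₂) + C y ^ 2 * E₃ := by
    have h3 : X ^ i * (f1 ^ i * Z) = f ^ (i + 1) * W + 2 * (i + 1 : R[X]) * C y * f ^ i * U := by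
      rw [hZ', ← mul_assoc, ← mul_pow, ← hf]
      ring
    have h4 : (X : R[X]) ^ (2 * (i + 1)) = X ^ i * X ^ (i + 2) := by
      rw [← pow_add]; congr 1; omega
    rw [hD', h4] at hW₂
    rw [h3, hE₃]
    linear_combination hW₂
  have hdvd : (X : R[X]) ^ i ∣ E₃ := by
    have h3 : (X : R[X]) ^ i ∣ C y ^ 2 * E₃ := by
      refine (Dvd.intro (f1 ^ i * Z - X ^ (i + 2) * W₂) ?_)
      linear_combination hmain
    rw [X_pow_dvd_iff] at h3 ⊢
    intro d hd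
    have h4 := h3 d hd
    rw [← C_pow, coeff_C_mul] at h4
    rcases mul_eq_zero.1 h4 with h5 | h5
    · exact absurd (pow_eq_zero_iff (by norm_num) |>.1 h5) hy0
    · exact h5
  obtain ⟨E₄, hE₄⟩ := hdvd
  have hmain2 : f1 ^ i * Z = X ^ (i + 2) * W₂ + C y ^ 2 * E₄ := by
    have hX : (X : R[X]) ^ i ≠ 0 := pow_ne_zero _ X_ne_zero
    apply mul_left_cancel₀ hX
    rw [hmain, hE₄]
    ring
  have hcop : IsCoprime (f1 ^ i) ((X : R[X]) ^ (i + 2)) := by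
    apply IsCoprime.pow
    obtain ⟨u, hu⟩ := hf1
    have h3 : (f1 - C (f1.eval 0)).coeff 0 = 0 := by
      rw [coeff_sub, coeff_C_zero, coeff_zero_eq_eval_zero, sub_self]
    obtain ⟨h4, hh4⟩ := X_dvd_iff.2 h3
    refine ⟨C (↑u⁻¹ : R), -(C (↑u⁻¹ : R) * h4), ?_⟩
    have h5 : (C (↑u⁻¹ : R) : R[X]) * C (f1.eval 0) = 1 := by
      rw [← C_mul, ← hu, Units.inv_mul, C_1]
    have h6 : f1 = C (f1.eval 0) + X * h4 := by linear_combination hh4
    calc C (↑u⁻¹ : R) * f1 + -(C (↑u⁻¹ : R) * h4) * X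
        = C (↑u⁻¹ : R) * (C (f1.eval 0) + X * h4) + -(C (↑u⁻¹ : R) * h4) * X := by rw [← h6]
      _ = 1 := by linear_combination h5
  obtain ⟨s, t, hst⟩ := hcop
  refine ⟨s * W₂ + t * Z, s * E₄, ?_⟩
  rw [C_pow]
  calc Z = (s * f1 ^ i + t * X ^ (i + 2)) * Z := by rw [hst, one_mul]
    _ = s * (f1 ^ i * Z) + t * X ^ (i + 2) * Z := by ring
    _ = s * (X ^ (i + 2) * W₂ + C y ^ 2 * E₄) + t * X ^ (i + 2) * Z := by rw [hmain2]
    _ = X ^ (i + 1 + 1) * (s * W₂ + t * Z) + C y ^ 2 * (s * E₄) := by ring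

end Pool.Agent.LibT62
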