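import Pool.Agent.LibT62.Defs

/-!
Row D3: over a field, `f = X f1` of degree 5, `f1(0) ≠ 0`: `U ^ 2 - f W ^ 2 = c X ^ (2 n)` implies
`W = 0`. Induction on `n`. `n = 0` (or `c = 0`): if `W ≠ 0` then `f W ^ 2` has odd degree, `U ^ 2` even
degree, so the difference has degree `≥ 5` (compare `natDegree`), impossible. `n ≥ 1`: `X ∣ U ^ 2`, so
`X ∣ U`, `X ^ 2 ∣ f W ^ 2 = X f1 W ^ 2`, `X ∣ f1 W ^ 2`, `X ∣ W`; divide by `X ^ 2`.
-/

open scoped Classical
open Polynomial IsLocalRing

namespace Pool.Agent.LibT62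

open Pool.Agent.LibBH2 Pool.Agent.LibJac77

theorem norm_pow {F : Type} [Field F] (f f1 : F[X]) (hf : f = X * f1) (hf1 : f1.eval 0 ≠ 0)
    (hd : f.natDegree = 5) (n : ℕ) (c : F) (U W : F[X])
    (h : U ^ 2 - f * W ^ 2 = C c * X ^ (2 * n)) : W = 0 := by
  have hf0 : f ≠ 0 := by
    intro h0
    rw [h0, natDegree_zero] at hd
    omega
  induction n generalizing U W with
  | zero =>
    by_contra hW
    have h1 : U ^ 2 = f * W ^ 2 + C c := by
      rw [mul_zero, pow_zero, mul_one] at h
      linear_combination h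
    have h2 : (U ^ 2).natDegree = (f * W ^ 2).natDegree := by rw [h1, natDegree_add_C]
    rw [natDegree_pow, natDegree_mul hf0 (pow_ne_zero 2 hW), natDegree_pow, hd] at h2
    omega
  | succ n ih =>
    have hU0 : U.coeff 0 = 0 := by
      rw [coeff_zero_eq_eval_zero]
      have h1 := congrArg (eval 0) h
      rw [hf] at h1
      simp only [eval_sub, eval_pow, eval_mul, eval_X, eval_C, zero_mul, sub_zero] at h1
      rw [zero_pow (by omega), mul_zero] at h1
      exact pow_eq_zero_iff (by norm_num) |>.1 h1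
    obtain ⟨U', hU'⟩ := X_dvd_iff.2 hU0
    have h2 : f1 * W ^ 2 = X * (U' ^ 2 - C c * X ^ (2 * n)) := by
      have h3 : (X : F[X]) * (f1 * W ^ 2) = X * (X * (U' ^ 2 - C c * X ^ (2 * n))) := by
        rw [hU', hf] at h
        have h4 : (X : F[X]) ^ (2 * (n + 1)) = X ^ 2 * X ^ (2 * n) := by
          rw [← pow_add]; congr 1; ring
        rw [h4] at h
        linear_combination -h
      exact mul_left_cancel₀ X_ne_zero h3
    have hW0 : W.coeff 0 = 0 := by
      rw [coeff_zero_eq_eval_zero]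
      have h1 := congrArg (eval 0) h2
      simp only [eval_pow, eval_mul, eval_X, zero_mul] at h1
      rcases mul_eq_zero.1 h1 with h5 | h5
      · exact absurd h5 hf1
      · exact pow_eq_zero_iff (by norm_num) |>.1 h5
    obtain ⟨W', hW'⟩ := X_dvd_iff.2 hW0
    have h3 : U' ^ 2 - f * W' ^ 2 = C c * X ^ (2 * n) := by
      have h4 : (X : F[X]) * (f * W' ^ 2) = X * (U' ^ 2 - C c * X ^ (2 * n)) := by
        rw [← h2, hW', hf]
        ring
      have h5 := mul_left_cancel₀ X_ne_zero h4
      linear_combination -h5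
    rw [hW', ih U' W' h3, mul_zero]

end Pool.Agent.LibT62
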