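import Pool.Agent.LibT62.D0
import Pool.Agent.LibT62.D2
import Pool.Agent.LibT62.D3

/-!
Row D4: transversality, integral form (the hard row; 150 lines). `f = X f1` with
`f1 = (X - a)(X - b)(X - c)(X - d)`, `δ = a b e`, `fr = X (1 - a X)(1 - b X)(1 - c X)(1 - d X)` is
`f.reflect 6`. `α, β` are the exponents.
Put `y = y2` and note: `y2 ^ 2 = f(δ)` and `y1 ^ 2 = fr(e)` are both `e` times a unit, so `e = y ^ 2 g`,
`δ = y ^ 2 g'`, `e = y1 ^ 2 g''`, `δ = y1^2 g'''`, and `y1`, `y2` differ by a unit.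
(1) reduction: `norm_pow` for the reductions (`e`, `δ` reduce to `0`): `W` reduces to `0`,
`U` to `± (cu X ^ β)`; replacing `cu` by `- cu` we may assume `U` reduces to `cu X ^ β`.
(2) `W = r W'`, `W'` primitive (`exists_content`), `r` in the maximal ideal. Let `μ ∈ V` generate the
ideal `(r, y)`: `μ = r` if `r ∣ y`, `μ = y` otherwise (`V` is a valuation ring).
(3) `U ^ 2 - cu ^ 2 X ^ (2 β) = f W ^ 2 + cu^2 ((1 - e X)^(2α) (X - δ)^(2β) - X^(2β))` is `μ ^ 2` times a
polynomial; it is `(U - cu X^β) (U + cu X^β)` and the second factor reduces to `2 cu X^β ≠ 0`, so by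
`gauss_dvd` `U = cu X ^ β + μ ^ 2 (..)`.
(4) `local_zero` (chart 0, `b = β`, `y = y2`): `W f + 2 β y2 U = X ^ (β+1) Q + y2 ^ 2 E`. With (3):
modulo `μ ^ 2`: `X (W f1 + 2 β y2 cu X^(β-1)) = X^(β+1) Q`, cancel `X`: `W f1 = - 2 β y2 cu X^(β-1) +
X^β Q`. `f1(0)` is a unit: by induction `W.coeff i ∈ μ^2 V` for `i + 2 ≤ β`, and
`f1(0) W.coeff (β-1) + 2 β y2 cu ∈ μ^2 V`.
(5) chart infinity: `Ur = U.reflect (α+β)`, `Wr = W.reflect (α+β-3)`:
`Ur ^ 2 - fr Wr ^ 2 = cu^2 (X - e)^(2α) (1 - δ X)^(2β)` (`reflect_mul`), `Ur(e) + Wr(e) y1 = 0` is `hU1`.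
`local_zero` with `b = α`, `y = y1`: `Wr.coeff j ∈ μ^2 V` for `j + 2 ≤ α` and
`fr1(0) Wr.coeff (α-1) + 2 α y1 cu ∈ μ^2 V` (`Ur = cu X^α + μ^2 (..)`, `fr1(0) = 1`).
`Wr.coeff j = W.coeff (α+β-3-j)`: so `W.coeff i ∈ μ^2 V` for all `i ≥ β - 1`, and for `i ≤ β - 2` by (4):
all coefficients. (`Wr.coeff (α-1)` is `W.coeff (β-2)`, or zero if `β = 1`.)
(6) So `r ∈ μ^2 V` (`W'` is primitive). If `μ = r`: `r ∣ 1`, contradiction. So `μ = y2`, and (4), (5)
give `2 β y2 cu ∈ y2^2 V`, `2 α y1 cu ∈ y2^2 V`; `2`, `cu` are units, so `β, α ∈ y V`: zero in `RF V`.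
-/

open scoped Classical
open Polynomial IsLocalRing

namespace Pool.Agent.LibT62

open Pool.Agent.LibBH2 Pool.Agent.LibJac77

theorem D4_aux {R : Type} [CommRing R] {m : R} {f1 W : R[X]} {i : ℕ} (h : ∀ a < i, m ∣ W.coeff a) :
    m ∣ (W * f1).coeff i - f1.coeff 0 * W.coeff i := by
  rw [coeff_mul, Finset.Nat.sum_antidiagonal_eq_sum_range_succ (fun a b => W.coeff a * f1.coeff b),
    Finset.sum_range_succ, Nat.sub_self]
  have : ∑ k ∈ Finset.range i, W.coeff k * f1.coeff (i - k) + W.coeff i * f1.coeff 0 -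
      f1.coeff 0 * W.coeff i = ∑ k ∈ Finset.range i, W.coeff k * f1.coeff (i - k) := by ring
  rw [this]
  exact Finset.dvd_sum fun k hk => Dvd.dvd.mul_right (h k (Finset.mem_range.1 hk)) _

theorem D4_chart {R : Type} [CommRing R] {m κ : R} {f1 W Q : R[X]} {b : ℕ} (hb : 1 ≤ b)
    (hf1 : IsUnit (f1.coeff 0))
    (h : C m ∣ X * (W * f1) + C κ * X ^ b - X ^ (b + 1) * Q) :
    (∀ i, i + 2 ≤ b → m ∣ W.coeff i) ∧ m ∣ f1.coeff 0 * W.coeff (b - 1) + κ := by
  obtain ⟨n, rfl⟩ : ∃ n, b = n + 1 := ⟨b - 1, by omega⟩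
  rw [Polynomial.C_dvd_iff_dvd_coeff] at h
  have hc : ∀ i, i ≤ n → m ∣ (W * f1).coeff i + (if i = n then κ else 0) := by
    intro i hi
    have h1 := h (i + 1)
    rw [coeff_sub, coeff_add, coeff_X_mul, coeff_C_mul, coeff_X_pow, coeff_X_pow_mul',
      if_neg (by omega : ¬ (n + 1 + 1 ≤ i + 1)), sub_zero] at h1
    by_cases hin : i = n
    · simpa [hin] using h1
    · simpa [hin] using h1
  have hw : ∀ i, i < n → m ∣ W.coeff i := by
    intro i
    induction i using Nat.strong_induction_on with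
    | _ i ih =>
      intro hi
      have h1 := hc i hi.le
      rw [if_neg hi.ne, add_zero] at h1
      have h2 := D4_aux (f1 := f1) (fun a ha => ih a ha (by omega))
      have h3 : m ∣ f1.coeff 0 * W.coeff i := by
        have := dvd_sub h1 h2
        rwa [sub_sub_cancel] at this
      exact (hf1.dvd_mul_left).1 h3
  refine ⟨fun i hi => hw i (by omega), ?_⟩
  have h1 := hc n le_rfl
  rw [if_pos rfl] at h1
  have h2 := D4_aux (f1 := f1) hw
  have h3 := dvd_sub h1 h2
  have e : (W * f1).coeff n + κ - ((W * f1).coeff n - f1.coeff 0 * W.coeff n) =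
    f1.coeff 0 * W.coeff n + κ := by ring
  rw [e] at h3
  simpa using h3

theorem D4_reflect_pow {R : Type} [CommRing R] {p : R[X]} {N : ℕ} (h : p.natDegree ≤ N) (n : ℕ) :
    (p ^ n).reflect (n * N) = (p.reflect N) ^ n := by
  induction n with
  | zero => simp
  | succ n ih =>
    rw [pow_succ, pow_succ, ← ih, Nat.succ_mul]
    exact reflect_mul _ _ (natDegree_pow_le_of_le n h) h

theorem D4_reflect_lin {R : Type} [CommRing R] (a : R) :
    (X - C a : R[X]).reflect 1 = 1 - C a * X := by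
  rw [reflect_sub, reflect_C, pow_one, ← pow_one (X : R[X]), reflect_monomial]
  simp [revAt_le]

theorem D4_reflect_lin' {R : Type} [CommRing R] (a : R) :
    (1 - C a * X : R[X]).reflect 1 = X - C a := by
  rw [reflect_sub, reflect_C_mul, ← pow_one (X : R[X]), reflect_monomial, ← C_1, reflect_C]
  simp [revAt_le]

theorem D4_reflect_quart {R : Type} [CommRing R] [Nontrivial R] (a b c d : R) :
    ((X - C a) * (X - C b) * (X - C c) * (X - C d) : R[X]).reflect 4 =
      (1 - C a * X) * (1 - C b * X) * (1 - C c * X) * (1 - C d * X) := by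
  rw [show (4 : ℕ) = 1 + 1 + 1 + 1 from rfl,
    reflect_mul _ _ (by compute_degree) (by compute_degree),
    reflect_mul _ _ (by compute_degree) (by compute_degree),
    reflect_mul _ _ (by compute_degree) (by compute_degree)]
  simp only [D4_reflect_lin]

theorem D4_reflect_f {R : Type} [CommRing R] [Nontrivial R] (a b c d : R) :
    (X * ((X - C a) * (X - C b) * (X - C c) * (X - C d)) : R[X]).reflect 6 =
      X * ((1 - C a * X) * (1 - C b * X) * (1 - C c * X) * (1 - C d * X)) := by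
  rw [show (6 : ℕ) = 2 + 4 from rfl, reflect_mul _ _ (by compute_degree!) (by compute_degree),
    D4_reflect_quart]
  congr 1
  rw [← pow_one (X : R[X]), reflect_monomial]
  simp [revAt_le]

theorem D4_sub_pow {R : Type} [CommRing R] {m : R} {p q : R[X]} (h : C m ∣ p - q) (n : ℕ) :
    C m ∣ p ^ n - q ^ n := h.trans (sub_dvd_pow_sub_pow p q n)

/-- the reduction of the norm -/
theorem D4_dvd_norm {R : Type} [CommRing R] {m e δ cu cu' r : R} {α β : ℕ} {f U W W' : R[X]}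
    (hN : U ^ 2 - f * W ^ 2 = C (cu ^ 2) * (1 - C e * X) ^ (2 * α) * (X - C δ) ^ (2 * β))
    (hcu : cu' ^ 2 = cu ^ 2) (hr : m ∣ r ^ 2) (he : m ∣ e) (hδ : m ∣ δ) (hW : W = C r * W') :
    C m ∣ (U - C cu' * X ^ β) * (U + C cu' * X ^ β) := by
  have h1 : C m ∣ f * W ^ 2 := by
    rw [hW, mul_pow, ← C_pow]
    exact Dvd.dvd.mul_left (Dvd.dvd.mul_right (map_dvd C hr) _) _
  have h2 : C m ∣ (1 - C e * X) ^ (2 * α) - 1 ^ (2 * α) := by
    apply D4_sub_pow
    have : (1 - C e * X - 1 : R[X]) = C e * (-X) := by ring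
    rw [this]
    exact Dvd.dvd.mul_right (map_dvd C he) _
  have h3 : C m ∣ (X - C δ) ^ (2 * β) - X ^ (2 * β) := by
    apply D4_sub_pow
    have : (X - C δ - X : R[X]) = C δ * (-1) := by ring
    rw [this]
    exact Dvd.dvd.mul_right (map_dvd C hδ) _
  have e1 : (U - C cu' * X ^ β) * (U + C cu' * X ^ β) = f * W ^ 2 +
      (C (cu ^ 2) * (X - C δ) ^ (2 * β) * ((1 - C e * X) ^ (2 * α) - 1 ^ (2 * α)) +
        C (cu ^ 2) * ((X - C δ) ^ (2 * β) - X ^ (2 * β))) := by
    have e2 : (U - C cu' * X ^ β) * (U + C cu' * X ^ β) = U ^ 2 - C (cu' ^ 2) * X ^ (2 * β) := by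
      rw [C_pow]; ring
    rw [e2, hcu, ← sub_eq_zero]
    have e3 : U ^ 2 = f * W ^ 2 + C (cu ^ 2) * (1 - C e * X) ^ (2 * α) * (X - C δ) ^ (2 * β) := by
      rw [← hN]; ring
    rw [e3, one_pow]
    ring
  rw [e1]
  exact dvd_add h1 (dvd_add (Dvd.dvd.mul_left h2 _) (Dvd.dvd.mul_left h3 _))

/-- one chart -/
theorem D4_local {R : Type} [CommRing R] [IsDomain R] {m : R} (f f1 U W N₁ P' : R[X]) (b : ℕ)
    (hb : 1 ≤ b) (y δ g cu : R) (hf : f = X * f1) (hf1 : IsUnit (f1.coeff 0))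
    (hy : y ^ 2 = f.eval δ) (hy0 : y ≠ 0) (hm : m ∣ y ^ 2)
    (hδ : δ = y ^ 2 * g) (hN : U ^ 2 - f * W ^ 2 = (X - C δ) ^ (2 * b) * N₁)
    (h1 : U.eval δ + W.eval δ * y = 0) (h1' : 2 * U.eval δ ≠ 0)
    (hU : U - C cu * X ^ b = C m * P') :
    (∀ i, i + 2 ≤ b → m ∣ W.coeff i) ∧ m ∣ f1.coeff 0 * W.coeff (b - 1) + 2 * (b : R) * y * cu := by
  obtain ⟨Q, E, hQE⟩ := local_zero f f1 U W N₁ b hb y δ g hf
    (by rwa [← coeff_zero_eq_eval_zero]) hy hy0 hδ hN h1 h1'
  apply D4_chart (Q := Q) hb hf1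
  have e1 : X * (W * f1) + C (2 * (b : R) * y * cu) * X ^ b - X ^ (b + 1) * Q =
      C (y ^ 2) * E - C (2 * (b : R) * y) * (C m * P') := by
    rw [← hU]
    have : C (y ^ 2) * E = W * f + C (2 * (b : R) * y) * U - X ^ (b + 1) * Q := by
      rw [hQE]; ring
    rw [this, hf, C_mul (a := 2 * (b : R) * y) (b := cu)]
    ring
  rw [e1]
  exact dvd_sub (Dvd.dvd.mul_right (map_dvd C hm) _) (Dvd.dvd.mul_left (Dvd.intro _ rfl) _)

theorem transv_int {K : Type} [Field K] (V : ValuationSubring K) (h2 : (2 : RF V) ≠ 0)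
    {a b c d : V} (ha : IsUnit a) (hb : IsUnit b) (hc : IsUnit c) (hd : IsUnit d)
    {e y1 y2 cu : V} (he : residue V e = 0) (he0 : e ≠ 0) (hcu : IsUnit cu)
    {α β : ℕ} (hα : 1 ≤ α) (hβ : 1 ≤ β) (f U W : V[X])
    (hf : f = X * ((X - C a) * (X - C b) * (X - C c) * (X - C d)))
    (hy1 : y1 ^ 2 = e * ((1 - a * e) * (1 - b * e) * (1 - c * e) * (1 - d * e)))
    (hy2 : y2 ^ 2 = f.eval (a * b * e))
    (hdU : U.natDegree ≤ α + β) (hdW : W.natDegree + 3 ≤ α + β) (hW : W ≠ 0)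
    (hN : U ^ 2 - f * W ^ 2 =
      C (cu ^ 2) * (1 - C e * X) ^ (2 * α) * (X - C (a * b * e)) ^ (2 * β))
    (hU1 : (U.reflect (α + β)).eval e + (W.reflect (α + β - 3)).eval e * y1 = 0)
    (hU1' : (U.reflect (α + β)).eval e ≠ 0)
    (hU2 : U.eval (a * b * e) + W.eval (a * b * e) * y2 = 0)
    (hU2' : U.eval (a * b * e) ≠ 0) :
    (α : RF V) = 0 ∧ (β : RF V) = 0 := by
  have ures : ∀ x : V, IsUnit x ↔ residue V x ≠ 0 := fun x =>
    (IsLocalRing.residue_ne_zero_iff_isUnit x).symm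
  have h2u : IsUnit (2 : V) := by
    rw [ures, map_ofNat]; exact h2
  have h20 : (2 : V) ≠ 0 := h2u.ne_zero
  set δ : V := a * b * e with hδdef
  have hδ : residue V δ = 0 := by rw [hδdef, map_mul, he, mul_zero]
  set f1 : V[X] := (X - C a) * (X - C b) * (X - C c) * (X - C d) with hf1def
  set fr1 : V[X] := (1 - C a * X) * (1 - C b * X) * (1 - C c * X) * (1 - C d * X) with hfr1def
  have hf10 : f1.coeff 0 = a * b * c * d := by
    rw [coeff_zero_eq_eval_zero, hf1def]; simp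
  have hf1u : IsUnit (f1.coeff 0) := by
    rw [hf10]; exact ((ha.mul hb).mul hc).mul hd
  have hfr10 : fr1.coeff 0 = 1 := by
    rw [coeff_zero_eq_eval_zero, hfr1def]; simp
  -- y1, y2
  have hu1 : IsUnit ((1 - a * e) * (1 - b * e) * (1 - c * e) * (1 - d * e)) := by
    rw [ures]; simp [he]
  have hu2 : IsUnit (a * b * f1.eval δ) := by
    refine (ha.mul hb).mul ?_
    rw [ures, hf1def]
    simp only [eval_mul, eval_sub, eval_X, eval_C, map_mul, map_sub, hδ]
    simp only [zero_sub]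
    exact mul_ne_zero (mul_ne_zero (mul_ne_zero (neg_ne_zero.2 ((ures _).1 ha))
      (neg_ne_zero.2 ((ures _).1 hb))) (neg_ne_zero.2 ((ures _).1 hc)))
      (neg_ne_zero.2 ((ures _).1 hd))
  have hy2' : y2 ^ 2 = e * (a * b * f1.eval δ) := by
    rw [hy2, hf, eval_mul, eval_X, hδdef]; ring
  obtain ⟨v1, hv1⟩ := hu1.exists_right_inv
  obtain ⟨v2, hv2⟩ := hu2.exists_right_inv
  have hg1 : e = y1 ^ 2 * v1 := by
    rw [hy1, mul_assoc, hv1, mul_one]
  have hg2 : e = y2 ^ 2 * v2 := by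
    rw [hy2', mul_assoc, hv2, mul_one]
  have hy10 : y1 ≠ 0 := by
    rintro rfl
    apply he0; rw [hg1]; ring
  have hy20 : y2 ≠ 0 := by
    rintro rfl
    apply he0; rw [hg2]; ring
  have hy21 : y2 ^ 2 ∣ y1 ^ 2 := ⟨v2 * ((1 - a * e) * (1 - b * e) * (1 - c * e) * (1 - d * e)), by
    rw [← mul_assoc, ← hg2]; exact hy1⟩
  have hy12 : y1 ^ 2 ∣ y2 ^ 2 := ⟨v1 * (a * b * f1.eval δ), by
    rw [← mul_assoc, ← hg1]; exact hy2'⟩
  have hry1 : residue V y1 = 0 := by
    have : residue V (y1 ^ 2) = 0 := by rw [hy1, map_mul, he, zero_mul]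
    rw [map_pow] at this
    exact pow_eq_zero_iff (two_ne_zero) |>.1 this
  have hry2 : residue V y2 = 0 := by
    have : residue V (y2 ^ 2) = 0 := by rw [hy2', map_mul, he, zero_mul]
    rw [map_pow] at this
    exact pow_eq_zero_iff (two_ne_zero) |>.1 this
  -- (1)
  have hW0 : W.map (residue V) = 0 := by
    refine norm_pow (f.map (residue V)) (f1.map (residue V)) ?_ ?_ ?_ β (residue V (cu ^ 2))
      (U.map (residue V)) (W.map (residue V)) ?_
    · rw [hf]; simp
    · rw [← coeff_zero_eq_eval_zero, coeff_map]; exact (ures _).1 hf1u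
    · rw [hf, hf1def]
      simp only [Polynomial.map_mul, Polynomial.map_sub, map_X, map_C]
      compute_degree!
    · have := congrArg (Polynomial.map (residue V)) hN
      simp only [Polynomial.map_mul, Polynomial.map_sub, Polynomial.map_pow, map_X, map_C,
        Polynomial.map_one, he, hδ, C_0, zero_mul, sub_zero, one_pow, mul_one] at this
      exact this
  have hUsq : (U.map (residue V)) ^ 2 = (C (residue V cu) * X ^ β) ^ 2 := by
    have := congrArg (Polynomial.map (residue V)) hN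
    simp only [Polynomial.map_mul, Polynomial.map_sub, Polynomial.map_pow, map_X, map_C,
        Polynomial.map_one, he, hδ, C_0, zero_mul, sub_zero, one_pow, mul_one, hW0] at this
    rw [zero_pow two_ne_zero, mul_zero, sub_zero] at this
    rw [this, mul_pow, ← pow_mul, map_pow, C_pow, mul_comm 2 β]
  obtain ⟨cu', hcu', hsq, hUbar⟩ : ∃ cu' : V, IsUnit cu' ∧ cu' ^ 2 = cu ^ 2 ∧
      U.map (residue V) = C (residue V cu') * X ^ β := by
    rcases sq_eq_sq_iff_eq_or_eq_neg.1 hUsq with h | h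
    · exact ⟨cu, hcu, rfl, h⟩
    · refine ⟨-cu, hcu.neg, by ring, ?_⟩
      rw [h, map_neg, C_neg]; ring
  -- (2)
  obtain ⟨r, W', hr0, hWr, hW'⟩ := exists_content V W hW
  have hrres : residue V r = 0 := by
    have h := hW0
    rw [hWr, Polynomial.map_mul, map_C, mul_eq_zero, C_eq_zero] at h
    exact h.resolve_right hW'
  obtain ⟨μ, hμr, hμy, hμ⟩ : ∃ μ : V, μ ∣ r ∧ μ ∣ y2 ∧ (μ = r ∨ μ = y2) := by
    rcases ValuationRing.dvd_total r y2 with h | h
    · exact ⟨r, dvd_rfl, h, Or.inl rfl⟩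
    · exact ⟨y2, h, dvd_rfl, Or.inr rfl⟩
  have hμr2 : μ ^ 2 ∣ r ^ 2 := pow_dvd_pow_of_dvd hμr 2
  have hμy2 : μ ^ 2 ∣ y2 ^ 2 := pow_dvd_pow_of_dvd hμy 2
  have hμe : μ ^ 2 ∣ e := hg2 ▸ Dvd.dvd.mul_right hμy2 v2
  have hμδ : μ ^ 2 ∣ δ := Dvd.dvd.mul_left hμe _
  have hμy1 : μ ^ 2 ∣ y1 ^ 2 := hμy2.trans hy21
  -- (3)
  obtain ⟨E0, hE0⟩ := D4_dvd_norm hN hsq hμr2 hμe hμδ hWr
  obtain ⟨P', hP'⟩ := gauss_dvd V hE0 (by
    rw [Polynomial.map_add, hUbar, Polynomial.map_mul, Polynomial.map_pow, map_C, map_X]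
    intro h0
    have : C (2 * residue V cu') * X ^ β = (0 : (RF V)[X]) := by
      rw [← h0, C_mul]
      simp only [C_ofNat]
      ring
    rw [mul_eq_zero, C_eq_zero] at this
    rcases this with h | h
    · exact (mul_ne_zero h2 ((ures _).1 hcu')) h
    · exact pow_ne_zero β X_ne_zero h)
  -- (4)
  obtain ⟨c4, c4'⟩ := D4_local f f1 U W (C (cu ^ 2) * (1 - C e * X) ^ (2 * α)) P' β hβ y2 δ
    (a * b * v2) cu' hf hf1u hy2 hy20 hμy2 (by rw [hδdef]; nth_rewrite 1 [hg2]; ring)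
    (by rw [hN]; ring) hU2 (mul_ne_zero h20 hU2') hP'
  -- (5)
  have hrefN : (U.reflect (α + β)) ^ 2 - (X * fr1) * (W.reflect (α + β - 3)) ^ 2 =
      (X - C e) ^ (2 * α) * (C (cu ^ 2) * (1 - C δ * X) ^ (2 * β)) := by
    have h := congrArg (Polynomial.reflect (2 * (α + β))) hN
    rw [reflect_sub, D4_reflect_pow hdU 2] at h
    have hW2 : (f * W ^ 2).reflect (2 * (α + β)) = (X * fr1) * (W.reflect (α + β - 3)) ^ 2 := by
      rw [show 2 * (α + β) = 6 + 2 * (α + β - 3) by omega, reflect_mul, D4_reflect_pow, hf,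
        hf1def, D4_reflect_f]
      · omega
      · rw [hf, hf1def]; compute_degree!
      · exact natDegree_pow_le_of_le 2 (by omega)
    have hR : (C (cu ^ 2) * (1 - C e * X) ^ (2 * α) * (X - C δ) ^ (2 * β)).reflect (2 * (α + β)) =
        (X - C e) ^ (2 * α) * (C (cu ^ 2) * (1 - C δ * X) ^ (2 * β)) := by
      have d1 : (1 - C e * X : V[X]).natDegree ≤ 1 := by compute_degree
      have d2 : (X - C δ : V[X]).natDegree ≤ 1 := by compute_degree
      have p1 := D4_reflect_pow d1 (2 * α)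
      have p2 := D4_reflect_pow d2 (2 * β)
      rw [mul_one, D4_reflect_lin'] at p1
      rw [mul_one, D4_reflect_lin] at p2
      rw [mul_assoc, reflect_C_mul, show 2 * (α + β) = 2 * α + 2 * β by ring, reflect_mul, p1, p2]
      · ring
      · simpa using natDegree_pow_le_of_le (2 * α) d1
      · simpa using natDegree_pow_le_of_le (2 * β) d2
    rw [hW2, hR] at h
    exact h
  have hUr : (U.reflect (α + β)) - C cu' * X ^ α = C (μ ^ 2) * P'.reflect (α + β) := by
    have h := congrArg (Polynomial.reflect (α + β)) hP'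
    rw [reflect_sub, reflect_C_mul, reflect_C_mul, reflect_monomial, revAt_le (by omega)] at h
    rwa [Nat.add_sub_cancel] at h
  have hfre : y1 ^ 2 = (X * fr1).eval e := by
    rw [hy1, hfr1def]; simp
  obtain ⟨c5, c5'⟩ := D4_local (X * fr1) fr1 (U.reflect (α + β)) (W.reflect (α + β - 3))
    (C (cu ^ 2) * (1 - C δ * X) ^ (2 * β)) (P'.reflect (α + β)) α hα y1 e v1 cu' rfl
    (by rw [hfr10]; exact isUnit_one) hfre hy10 hμy1 hg1 hrefN hU1 (mul_ne_zero h20 hU1') hUr
  -- all coefficients of W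
  have hall : ∀ i, μ ^ 2 ∣ W.coeff i := by
    intro i
    by_cases h1 : i + 2 ≤ β
    · exact c4 i h1
    · by_cases h3 : i ≤ α + β - 3
      · have := c5 (α + β - 3 - i) (by omega)
        rw [coeff_reflect, revAt_le (by omega)] at this
        rwa [show α + β - 3 - (α + β - 3 - i) = i by omega] at this
      · rw [coeff_eq_zero_of_natDegree_lt (by omega)]
        exact dvd_zero _
  have hr2 : μ ^ 2 ∣ r := by
    have : ∃ i, residue V (W'.coeff i) ≠ 0 := by
      by_contra hcon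
      push Not at hcon
      apply hW'
      ext i
      rw [coeff_map, hcon i, coeff_zero]
    obtain ⟨i, hi⟩ := this
    have h1 := hall i
    rw [hWr, coeff_C_mul] at h1
    exact (((ures _).2 hi).dvd_mul_right).1 h1
  have hμ2 : μ = y2 := by
    rcases hμ with h | h
    · exfalso
      rw [h] at hr2
      obtain ⟨s, hs⟩ := hr2
      have : r * (r * s) = r * 1 := by rw [mul_one]; nth_rewrite 3 [hs]; ring
      have h1 : r * s = 1 := mul_left_cancel₀ hr0 this
      have h2' := congrArg (residue V) h1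
      rw [map_mul, hrres, zero_mul, map_one] at h2'
      exact zero_ne_one h2'
    · exact h
  rw [hμ2] at c4' c5' hall
  have hfin : ∀ (n : ℕ) (y : V), y ≠ 0 → residue V y = 0 → y ^ 2 ∣ 2 * (n : V) * y * cu' →
      (n : RF V) = 0 := by
    intro n y hy0 hyr ⟨s, hs⟩
    have h1 : y * (2 * (n : V) * cu') = y * (y * s) := by
      calc y * (2 * (n : V) * cu') = 2 * (n : V) * y * cu' := by ring
        _ = y ^ 2 * s := hs
        _ = y * (y * s) := by ring
    have h2' := congrArg (residue V) (mul_left_cancel₀ hy0 h1)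
    rw [map_mul, map_mul, map_mul, hyr, zero_mul, map_natCast, map_ofNat] at h2'
    rcases mul_eq_zero.1 h2' with h | h
    · rcases mul_eq_zero.1 h with h | h
      · exact absurd h h2
      · exact h
    · exact absurd h ((ures _).1 hcu')
  constructor
  · apply hfin α y1 hy10 hry1
    have h1 : y2 ^ 2 ∣ fr1.coeff 0 * (W.reflect (α + β - 3)).coeff (α - 1) := by
      apply Dvd.dvd.mul_left
      rw [coeff_reflect]
      exact hall _
    have h3 : y2 ^ 2 ∣ 2 * (α : V) * y1 * cu' := (dvd_add_right h1).1 c5'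
    exact hy12.trans h3
  · apply hfin β y2 hy20 hry2
    exact (dvd_add_right (Dvd.dvd.mul_left (hall _) _)).1 c4'

end Pool.Agent.LibT62
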