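import Pool.Agent.LibT62.D4

/-!
Row D5: transversality over `K`. `e = x⁻¹` is in the maximal ideal of `V` (`x ∉ V`), `e ≠ 0`,
`x' = a b e`. Rewrite `(X - x)^(2α) = e^(-2α) (1 - e X)^(2α)`. Scale `(U, W) = l (U', W')`
(`exists_scale`). Then `U'^2 - f W'^2 = c' (1 - e X)^(2α) (X - δ)^(2β)` with `c' ∈ K`; the right factor
is primitive over `V` (it reduces to `X^(2β)`), so `c' ∈ V`; if `c'` is in the maximal ideal then the
reductions satisfy `U'^2 = f W'^2`, so both vanish (`norm_pow` with `c = 0`), contradiction. So `c'` is a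
unit; `c' = cu ^ 2` (`K` algebraically closed), `cu ∈ V` a unit. Degrees from the norm identity:
`natDegree (U^2 - f W^2) = 2 α + 2 β`, `f` of odd degree 5: `2 deg U ≤ 2α + 2β`,
`2 deg W + 5 ≤ 2 α + 2 β`. `y1 = y e ^ 3` (`y1 ^ 2 = e ^ 6 f(1/e)`, so `y1 ∈ V`), `y2 = y'` (in `V` because
its square is). `(U.reflect n).eval e = e ^ n U(1/e)` for `natDegree U ≤ n`
(`Polynomial.eval₂_reflect_mul_pow`).
-/

open scoped Classical
open Polynomial IsLocalRing

namespace Pool.Agent.LibT62

open Pool.Agent.LibBH2 Pool.Agent.LibJac77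

section

variable {K : Type} [Field K] (V : ValuationSubring K)

theorem D5_unit {a : K} (ha0 : a ≠ 0) (ha : a ∈ V) (ha' : a⁻¹ ∈ V) : IsUnit (⟨a, ha⟩ : V) := by
  have h : (⟨a, ha⟩ : V) * ⟨a⁻¹, ha'⟩ = 1 := by
    apply Subtype.ext
    exact mul_inv_cancel₀ ha0
  exact IsUnit.of_mul_eq_one _ h

theorem D5_sq_mem {z : K} (h : z ^ 2 ∈ V) : z ∈ V := by
  rcases V.mem_or_inv_mem z with h1 | h1
  · exact h1
  · by_cases hz : z = 0
    · rw [hz]; exact V.zero_mem
    · have h2 : z = z ^ 2 * z⁻¹ := by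
        rw [sq, mul_assoc, mul_inv_cancel₀ hz, mul_one]
      rw [h2]
      exact V.mul_mem _ _ h h1

theorem D5_inv {x : K} (hx : x ∉ V) (he : x⁻¹ ∈ V) : residue V (⟨x⁻¹, he⟩ : V) = 0 := by
  rw [residue_eq_zero_iff, mem_maximalIdeal]
  intro hu
  obtain ⟨u, hu⟩ := hu
  apply hx
  have hx0 : x ≠ 0 := fun h => hx (h ▸ V.zero_mem)
  have h1 : (((u : V) : K)) = x⁻¹ := by rw [hu]
  have h2 : (((u : V) : K)) * (((u⁻¹ : Vˣ) : V) : K) = 1 := by
    have : (u : V) * ((u⁻¹ : Vˣ) : V) = 1 := Units.mul_inv u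
    exact_mod_cast congrArg (fun z : V => (z : K)) this
  have h3 : x = (((u⁻¹ : Vˣ) : V) : K) := by
    rw [h1] at h2
    calc x = x * (x⁻¹ * (((u⁻¹ : Vˣ) : V) : K)) := by rw [h2, mul_one]
      _ = _ := by rw [← mul_assoc, mul_inv_cancel₀ hx0, one_mul]
  rw [h3]
  exact ((u⁻¹ : Vˣ) : V).2

/-- a polynomial over `V` that is a multiple over `K` of a primitive one is a multiple over `V` -/
theorem D5_prim {N R : V[X]} {c : K} (h : N.map (algebraMap V K) = C c * R.map (algebraMap V K))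
    (hR : R.map (residue V) ≠ 0) : ∃ c' : V, algebraMap V K c' = c ∧ N = C c' * R := by
  have hinj : Function.Injective (algebraMap V K) := FaithfulSMul.algebraMap_injective V K
  obtain ⟨n, hn⟩ := support_nonempty.2 hR
  have hn1 : residue V (R.coeff n) ≠ 0 := by
    have := mem_support_iff.1 hn
    rwa [coeff_map] at this
  have hu : IsUnit (R.coeff n) := by
    by_contra hc
    exact hn1 ((residue_eq_zero_iff _).2 ((mem_maximalIdeal _).2 hc))
  obtain ⟨u, hu⟩ := hu
  have hcoef := congrArg (fun q => q.coeff n) h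
  simp only [coeff_C_mul, coeff_map] at hcoef
  rw [← hu] at hcoef
  have hl' : algebraMap V K (N.coeff n * ((u⁻¹ : Vˣ) : V)) = c := by
    rw [map_mul, hcoef, mul_assoc, ← map_mul, Units.mul_inv, map_one, mul_one]
  refine ⟨_, hl', ?_⟩
  apply Polynomial.map_injective _ hinj
  rw [Polynomial.map_mul, map_C, hl']
  exact h

end

/-- the reflected polynomial -/
theorem D5_reflect {K : Type} [Field K] (V : ValuationSubring K) {x : K} (hx0 : x ≠ 0)
    (he : x⁻¹ ∈ V) (n : ℕ) (P : V[X]) (hP : P.natDegree ≤ n) :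
    algebraMap V K ((P.reflect n).eval ⟨x⁻¹, he⟩) * x ^ n = (P.map (algebraMap V K)).eval x := by
  letI : Invertible x := invertibleOfNonzero hx0
  have h := eval₂_reflect_mul_pow (algebraMap V K) x n P hP
  rw [eval_map, ← h]
  congr 1
  rw [invOf_eq_inv, ← eval₂_at_apply]
  rfl

theorem D5_deg {R : Type} [CommRing R] [IsDomain R] {f U W : R[X]} (hf : f.natDegree = 5)
    (hW : W ≠ 0) {n : ℕ} (h : (U ^ 2 - f * W ^ 2).natDegree ≤ 2 * n) :
    U.natDegree ≤ n ∧ W.natDegree + 3 ≤ n := by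
  have hf0 : f ≠ 0 := by
    intro h0
    rw [h0, natDegree_zero] at hf
    exact absurd hf (by norm_num)
  have h1 : (U ^ 2).natDegree = 2 * U.natDegree := natDegree_pow U 2
  have h2 : (f * W ^ 2).natDegree = 5 + 2 * W.natDegree := by
    rw [natDegree_mul hf0 (pow_ne_zero 2 hW), hf, natDegree_pow]
  rcases lt_or_gt_of_ne (show (U ^ 2).natDegree ≠ (f * W ^ 2).natDegree by
    rw [h1, h2]; omega) with h3 | h3
  · have h4 := natDegree_sub_eq_right_of_natDegree_lt h3
    rw [h4, h2] at h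
    rw [h1, h2] at h3
    constructor <;> omega
  · have h4 := natDegree_sub_eq_left_of_natDegree_lt h3
    rw [h4, h1] at h
    rw [h1, h2] at h3
    constructor <;> omega

theorem transv {K : Type} [Field K] [IsAlgClosed K] (V : ValuationSubring K)
    (h2 : (2 : RF V) ≠ 0) {a b c d : K} (ha0 : a ≠ 0) (hb0 : b ≠ 0) (hc0 : c ≠ 0) (hd0 : d ≠ 0)
    (ha : a ∈ V) (hb : b ∈ V) (hc : c ∈ V) (hd : d ∈ V)
    (ha' : a⁻¹ ∈ V) (hb' : b⁻¹ ∈ V) (hc' : c⁻¹ ∈ V) (hd' : d⁻¹ ∈ V)
    {x y x' y' : K} (hx : x ∉ V) (hxx : x * x' = a * b)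
    (hy : y ^ 2 = (F5 a b c d).eval x) (hy' : y' ^ 2 = (F5 a b c d).eval x')
    {α β : ℕ} (hα : 1 ≤ α) (hβ : 1 ≤ β) (U W : K[X]) (cc : K) (hW : W ≠ 0)
    (hN : U ^ 2 - F5 a b c d * W ^ 2 = C cc * (X - C x) ^ (2 * α) * (X - C x') ^ (2 * β))
    (hU1 : U.eval x + W.eval x * y = 0) (hU1' : U.eval x ≠ 0)
    (hU2 : U.eval x' + W.eval x' * y' = 0) (hU2' : U.eval x' ≠ 0) :
    (α : RF V) = 0 ∧ (β : RF V) = 0 := by
  have hinj : Function.Injective (algebraMap V K) := FaithfulSMul.algebraMap_injective V K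
  have hx0 : x ≠ 0 := fun h => hx (h ▸ V.zero_mem)
  have heV : x⁻¹ ∈ V := (V.mem_or_inv_mem x).resolve_left hx
  set e : V := ⟨x⁻¹, heV⟩ with he
  have hemap : algebraMap V K e = x⁻¹ := rfl
  have he0 : e ≠ 0 := by
    intro h
    have : algebraMap V K e = 0 := by rw [h, map_zero]
    rw [hemap] at this
    exact inv_ne_zero hx0 this
  have hres : residue V e = 0 := D5_inv V hx heV
  set aV : V := ⟨a, ha⟩ with haV
  set bV : V := ⟨b, hb⟩ with hbV
  set cV : V := ⟨c, hc⟩ with hcV
  set dV : V := ⟨d, hd⟩ with hdV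
  have hma : algebraMap V K aV = a := rfl
  have hmb : algebraMap V K bV = b := rfl
  have hmc : algebraMap V K cV = c := rfl
  have hmd : algebraMap V K dV = d := rfl
  have hua : IsUnit aV := D5_unit V ha0 ha ha'
  have hub : IsUnit bV := D5_unit V hb0 hb hb'
  have huc : IsUnit cV := D5_unit V hc0 hc hc'
  have hud : IsUnit dV := D5_unit V hd0 hd hd'
  set f : V[X] := X * ((X - C aV) * (X - C bV) * (X - C cV) * (X - C dV)) with hf
  have hfmap : f.map (algebraMap V K) = F5 a b c d := by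
    rw [hf]
    unfold F5
    simp only [Polynomial.map_mul, Polynomial.map_sub, Polynomial.map_X, Polynomial.map_C, hma, hmb,
      hmc, hmd]
    ring
  have hfmon : f.Monic := by
    rw [hf]
    exact monic_X.mul ((((monic_X_sub_C _).mul (monic_X_sub_C _)).mul (monic_X_sub_C _)).mul
      (monic_X_sub_C _))
  have hfdeg : f.natDegree = 5 := by
    rw [hf, monic_X.natDegree_mul ((((monic_X_sub_C _).mul (monic_X_sub_C _)).mul
      (monic_X_sub_C _)).mul (monic_X_sub_C _)),
      (((monic_X_sub_C _).mul (monic_X_sub_C _)).mul (monic_X_sub_C _)).natDegree_mul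
      (monic_X_sub_C _), ((monic_X_sub_C _).mul (monic_X_sub_C _)).natDegree_mul (monic_X_sub_C _),
      (monic_X_sub_C _).natDegree_mul (monic_X_sub_C _)]
    simp only [natDegree_X, natDegree_X_sub_C]
  set δ : V := aV * bV * e with hδ
  have hx' : x' = a * b * x⁻¹ := by
    rw [← hxx, mul_comm x x', mul_assoc, mul_inv_cancel₀ hx0, mul_one]
  have hδmap : algebraMap V K δ = x' := by
    rw [hδ, map_mul, map_mul, hma, hmb, hemap, hx']
  have hδres : residue V δ = 0 := by
    rw [hδ, map_mul, hres, mul_zero]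
  -- scaling
  obtain ⟨l, U', W', hl, hUU, hWW, hor⟩ := exists_scale V U W (Or.inr hW)
  have hW' : W' ≠ 0 := by
    intro h0
    rw [h0, Polynomial.map_zero, mul_zero] at hWW
    exact hW hWW
  set R : V[X] := (1 - C e * X) ^ (2 * α) * (X - C δ) ^ (2 * β) with hR
  have hRres : R.map (residue V) = X ^ (2 * β) := by
    rw [hR]
    simp only [Polynomial.map_mul, Polynomial.map_pow, Polynomial.map_sub, Polynomial.map_X,
      Polynomial.map_C, Polynomial.map_one, hres, hδres, C_0, zero_mul, sub_zero, one_pow, one_mul]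
  have hRne : R.map (residue V) ≠ 0 := by
    rw [hRres]; exact pow_ne_zero _ X_ne_zero
  set c' : K := cc * x ^ (2 * α) / l ^ 2 with hc'd
  have hNmap : (U' ^ 2 - f * W' ^ 2).map (algebraMap V K) = C c' * R.map (algebraMap V K) := by
    have h1 : C (l ^ 2) * (U' ^ 2 - f * W' ^ 2).map (algebraMap V K) =
        C (l ^ 2) * (C c' * R.map (algebraMap V K)) := by
      have h3 : C (l ^ 2) * (U' ^ 2 - f * W' ^ 2).map (algebraMap V K) =
          U ^ 2 - F5 a b c d * W ^ 2 := by
        rw [Polynomial.map_sub, Polynomial.map_mul, Polynomial.map_pow, Polynomial.map_pow, hfmap,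
          hUU, hWW, C_pow]
        ring
      rw [h3, hN, hR]
      simp only [Polynomial.map_mul, Polynomial.map_pow, Polynomial.map_sub, Polynomial.map_X,
        Polynomial.map_C, Polynomial.map_one, hemap, hδmap]
      have h4 : (X - C x : K[X]) = -(C x) * (1 - C x⁻¹ * X) := by
        have : C x * C x⁻¹ = (1 : K[X]) := by rw [← C_mul, mul_inv_cancel₀ hx0, C_1]
        linear_combination (-X : K[X]) * this
      have h5 : (X - C x : K[X]) ^ (2 * α) = C (x ^ (2 * α)) * (1 - C x⁻¹ * X) ^ (2 * α) := by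
        rw [h4, mul_pow, Even.neg_pow (even_two_mul α), C_pow]
      have h6 : l ^ 2 * c' = cc * x ^ (2 * α) := by
        rw [hc'd, mul_div_cancel₀]
        exact pow_ne_zero 2 hl
      rw [h5, ← mul_assoc (C (l ^ 2)), ← C_mul, h6, C_mul]
      ring
    exact mul_left_cancel₀ (C_ne_zero.2 (pow_ne_zero 2 hl)) h1
  obtain ⟨c'', hc''map, hNV⟩ := D5_prim V hNmap hRne
  -- residue of the quintic
  have hfres : f.map (residue V) = X * ((X - C (residue V aV)) * (X - C (residue V bV)) *
      (X - C (residue V cV)) * (X - C (residue V dV))) := by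
    rw [hf]
    simp only [Polynomial.map_mul, Polynomial.map_sub, Polynomial.map_X, Polynomial.map_C]
  have hures : ∀ z : V, IsUnit z → residue V z ≠ 0 := by
    intro z hz h0
    exact (mem_maximalIdeal z).1 ((residue_eq_zero_iff z).1 h0) hz
  have hunit : IsUnit c'' := by
    by_contra hcon
    have hc0' : residue V c'' = 0 := (residue_eq_zero_iff _).2 ((mem_maximalIdeal _).2 hcon)
    have h1 : (U'.map (residue V)) ^ 2 - f.map (residue V) * (W'.map (residue V)) ^ 2 = 0 := by
      rw [← Polynomial.map_pow, ← Polynomial.map_pow, ← Polynomial.map_mul, ← Polynomial.map_sub,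
        hNV, Polynomial.map_mul, map_C, hc0', C_0, zero_mul]
    have h3 : W'.map (residue V) = 0 := by
      apply norm_pow (f.map (residue V)) _ hfres _ _ 0 0 (U'.map (residue V))
      · rw [h1, C_0, zero_mul]
      · simp only [eval_mul, eval_sub, eval_X, eval_C, zero_sub]
        exact mul_ne_zero (mul_ne_zero (mul_ne_zero (neg_ne_zero.2 (hures _ hua))
          (neg_ne_zero.2 (hures _ hub))) (neg_ne_zero.2 (hures _ huc))) (neg_ne_zero.2 (hures _ hud))
      · rw [hfmon.natDegree_map, hfdeg]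
    rw [h3, zero_pow two_ne_zero, mul_zero, sub_zero] at h1
    have h4 : U'.map (residue V) = 0 := pow_eq_zero_iff two_ne_zero |>.1 h1
    rcases hor with h5 | h5
    · exact h5 h4
    · exact h5 h3
  obtain ⟨cu, hcu⟩ := IsAlgClosed.exists_pow_nat_eq c' (n := 2) (by norm_num)
  have hcuV : cu ∈ V := by
    apply D5_sq_mem
    rw [hcu, ← hc''map]
    exact c''.2
  set cuV : V := ⟨cu, hcuV⟩ with hcuVd
  have hcusq : cuV ^ 2 = c'' := by
    apply hinj
    rw [map_pow, hc''map]
    exact hcu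
  have hcuU : IsUnit cuV := by
    have h1 : IsUnit (cuV ^ 2) := by rw [hcusq]; exact hunit
    exact (isUnit_pow_iff two_ne_zero).1 h1
  have hNV' : U' ^ 2 - f * W' ^ 2 =
      C (cuV ^ 2) * (1 - C e * X) ^ (2 * α) * (X - C δ) ^ (2 * β) := by
    rw [hNV, hcusq, hR]; ring
  have hdegN : (U' ^ 2 - f * W' ^ 2).natDegree ≤ 2 * (α + β) := by
    rw [hNV']
    have d1 : (C (cuV ^ 2) : V[X]).natDegree ≤ 0 := (natDegree_C _).le
    have d2 : ((1 - C e * X : V[X]) ^ (2 * α)).natDegree ≤ 2 * α := by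
      have : (1 - C e * X : V[X]).natDegree ≤ 1 := by
        refine (natDegree_sub_le _ _).trans (max_le ?_ ?_)
        · rw [natDegree_one]; exact Nat.zero_le _
        · exact (natDegree_C_mul_le _ _).trans natDegree_X_le
      calc _ ≤ 2 * α * (1 - C e * X : V[X]).natDegree := natDegree_pow_le
        _ ≤ 2 * α * 1 := Nat.mul_le_mul_left _ this
        _ = 2 * α := mul_one _
    have d3 : ((X - C δ : V[X]) ^ (2 * β)).natDegree ≤ 2 * β := by
      calc _ ≤ 2 * β * (X - C δ : V[X]).natDegree := natDegree_pow_le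
        _ ≤ 2 * β * 1 := Nat.mul_le_mul_left _ (natDegree_X_sub_C_le _)
        _ = 2 * β := mul_one _
    have := natDegree_mul_le_of_le (natDegree_mul_le_of_le d1 d2) d3
    omega
  obtain ⟨hdU, hdW⟩ := D5_deg hfdeg hW' hdegN
  -- the ordinates
  have hy1sq : (y * x⁻¹ ^ 3) ^ 2 = algebraMap V K (e * ((1 - aV * e) * (1 - bV * e) *
      (1 - cV * e) * (1 - dV * e))) := by
    rw [mul_pow, hy]
    unfold F5
    simp only [eval_mul, eval_sub, eval_X, eval_C, map_mul, map_sub, map_one, hma, hmb, hmc, hmd,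
      hemap]
    field_simp
  have hy1V : y * x⁻¹ ^ 3 ∈ V := by
    apply D5_sq_mem
    rw [hy1sq]
    exact (e * ((1 - aV * e) * (1 - bV * e) * (1 - cV * e) * (1 - dV * e))).2
  have hy2sq : y' ^ 2 = algebraMap V K (f.eval δ) := by
    rw [hy', ← hfmap, eval_map, ← hδmap, eval₂_at_apply]
  have hy2V : y' ∈ V := by
    apply D5_sq_mem
    rw [hy2sq]
    exact (f.eval δ).2
  have hl1 : U.eval x = l * (U'.map (algebraMap V K)).eval x := by
    rw [hUU, eval_mul, eval_C]
  have hl2 : W.eval x = l * (W'.map (algebraMap V K)).eval x := by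
    rw [hWW, eval_mul, eval_C]
  have hl3 : U.eval x' = l * algebraMap V K (U'.eval δ) := by
    rw [hUU, eval_mul, eval_C, eval_map, ← hδmap, eval₂_at_apply]
  have hl4 : W.eval x' = l * algebraMap V K (W'.eval δ) := by
    rw [hWW, eval_mul, eval_C, eval_map, ← hδmap, eval₂_at_apply]
  have hr1 := D5_reflect V hx0 heV (α + β) U' hdU
  have hr2 := D5_reflect V hx0 heV (α + β - 3) W' (by omega)
  have hxn : x ^ (α + β) = x ^ (α + β - 3) * x ^ 3 := by
    rw [← pow_add]; congr 1; omega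
  refine transv_int V h2 hua hub huc hud (e := e) (y1 := ⟨y * x⁻¹ ^ 3, hy1V⟩) (y2 := ⟨y', hy2V⟩)
    (cu := cuV) hres he0 hcuU hα hβ f U' W' hf ?_ ?_ hdU hdW hW' ?_ ?_ ?_ ?_ ?_
  · apply hinj
    rw [map_pow]
    exact hy1sq
  · apply hinj
    rw [map_pow]
    exact hy2sq
  · rw [← hδ]; exact hNV'
  · apply hinj
    rw [map_add, map_mul, map_zero]
    show algebraMap V K ((U'.reflect (α + β)).eval e) +
      algebraMap V K ((W'.reflect (α + β - 3)).eval e) * (y * x⁻¹ ^ 3) = 0
    rw [hl1, hl2, ← hr1, ← hr2, hxn] at hU1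
    have hxk : x ^ (α + β - 3) * x ^ 3 ≠ 0 := mul_ne_zero (pow_ne_zero _ hx0) (pow_ne_zero _ hx0)
    have h7 : (l * (x ^ (α + β - 3) * x ^ 3)) * (algebraMap V K ((U'.reflect (α + β)).eval e) +
      algebraMap V K ((W'.reflect (α + β - 3)).eval e) * (y * x⁻¹ ^ 3)) = 0 := by
      rw [← hU1]
      have hx3 : x ^ 3 * x⁻¹ ^ 3 = 1 := by rw [← mul_pow, mul_inv_cancel₀ hx0, one_pow]
      linear_combination (l * x ^ (α + β - 3) *
        algebraMap V K ((W'.reflect (α + β - 3)).eval e) * y) * hx3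
    exact (mul_eq_zero.1 h7).resolve_left (mul_ne_zero hl hxk)
  · intro h0
    apply hU1'
    rw [hl1, ← hr1]
    have : algebraMap V K ((U'.reflect (α + β)).eval e) = 0 := by rw [h0, map_zero]
    rw [this, zero_mul, mul_zero]
  · apply hinj
    rw [map_add, map_mul, map_zero]
    show algebraMap V K (U'.eval δ) + algebraMap V K (W'.eval δ) * y' = 0
    rw [hl3, hl4] at hU2
    have h7 : l * (algebraMap V K (U'.eval δ) + algebraMap V K (W'.eval δ) * y') = 0 := by
      rw [← hU2]; ring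
    exact (mul_eq_zero.1 h7).resolve_left hl
  · intro h0
    apply hU2'
    rw [hl3]
    have : algebraMap V K (U'.eval δ) = 0 := by rw [hδ, h0, map_zero]
    rw [this, mul_zero]

end Pool.Agent.LibT62
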