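import Pool.Agent.LibJac77.Stmt

/-!
LibT62 (MP_29b22a_nt, result FULL): definitions.

`C : y ^ 2 = f(x)`, `f = x (x - a) (x - b) (x - c) (x - d)`, `M(x) = a b / x`,
`H(t) = t ^ 4 h(1 / t)` with `h = (x - c) (x - d) (x - ab/c) (x - ab/d)`.
-/

open scoped Classical
open Polynomial IsLocalRing

namespace Pool.Agent.LibT62

open Pool.Agent.LibBH2 Pool.Agent.LibJac77

section

variable {k : Type} [Field k]

/-- the quintic `x (x - a) (x - b) (x - c) (x - d)` -/
noncomputable def F5 (a b c d : k) : k[X] := X * (X - C a) * (X - C b) * (X - C c) * (X - C d)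

/-- the quartic `(x - c) (x - d) (x - ab/c) (x - ab/d)` -/
noncomputable def H4 (a b c d : k) : k[X] :=
  (X - C c) * (X - C d) * (X - C (a * b / c)) * (X - C (a * b / d))

/-- the quartic `H4` in the coordinate `t = 1 / x` -/
noncomputable def Ht (a b c d : k) : k[X] :=
  (1 - C c * X) * (1 - C d * X) * (1 - C (a * b / c) * X) * (1 - C (a * b / d) * X)

/-- no solution of the Pell equation (in the coordinate `t`) -/
def NoPell (H : k[X]) : Prop :=
  ∀ (m : ℕ) (P Q : k[X]), P.natDegree ≤ m → Q.natDegree + 2 ≤ m →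
    P ^ 2 - H * Q ^ 2 = X ^ (2 * m) → Q = 0

end

/-- `A - B √H` vanishes to the order `2 n + 1` at `t = 0` (`Sq = √H`) -/
structure Pade {R : Type} [CommRing R] (Sq : PowerSeries R) (n : ℕ) (A B : R[X]) : Prop where
  degA : A.natDegree ≤ n + 1
  degB : B.natDegree + 1 ≤ n
  dvd : (PowerSeries.X : PowerSeries R) ^ (2 * n + 1) ∣
    (A : PowerSeries R) - (B : PowerSeries R) * Sq

/-- a solution of the Pell equation, with its expansion at `t = 0` -/
structure PellU {R : Type} [CommRing R] (H : R[X]) (Sq : PowerSeries R) (N : ℕ) (u v : R[X]) :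
    Prop where
  pos : 0 < N
  degu : u.natDegree ≤ N
  degv : v.natDegree + 2 ≤ N
  norm : u ^ 2 - H * v ^ 2 = X ^ (2 * N)
  dvd : (PowerSeries.X : PowerSeries R) ^ (2 * N) ∣
    (u : PowerSeries R) - (v : PowerSeries R) * Sq

/-- the `n`-th point, integral at the place `V`: `A + B s` vanishes at `(e, S)`, `e` is small and
`S` is congruent to `1` -/
structure IntPt {K : Type} [Field K] (V : ValuationSubring K) (H : V[X]) (Sq : PowerSeries V)
    (n : ℕ) (A B : V[X]) (c e S : V) : Prop where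
  pade : Pade Sq n A B
  norm : A ^ 2 - H * B ^ 2 = C c * X ^ (2 * n + 1) * (X - C e)
  unit : IsUnit c
  ne : e ≠ 0
  small : residue V e = 0
  sqS : S ^ 2 = H.eval e
  van : A.eval e + B.eval e * S = 0
  sgn : residue V S = 1

/-- the places we use: good reduction, `a b c d` units, `H` not a square modulo the place -/
structure GoodPl (a b c d : Qb) (p : ℕ) (V : ValuationSubring Qb) : Prop where
  good : Good V (F5 a b c d)
  char : CharP (RF V) p
  ma : a ∈ V
  mb : b ∈ V
  mc : c ∈ V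
  md : d ∈ V
  ma' : a⁻¹ ∈ V
  mb' : b⁻¹ ∈ V
  mc' : c⁻¹ ∈ V
  md' : d⁻¹ ∈ V
  nsq : ∃ HV : V[X], HV.map (algebraMap V Qb) = Ht a b c d ∧ ¬ IsSquare (HV.map (residue V))

/-- the zero `e` of the norm `A ^ 2 - H B ^ 2 = X ^ (2 n + 1) (c₁ + c₀ X)` -/
noncomputable def eOf {k : Type} [Field k] (H : k[X]) (n : ℕ) (A B : k[X]) : k :=
  - (A ^ 2 - H * B ^ 2).coeff (2 * n + 1) / (A ^ 2 - H * B ^ 2).coeff (2 * n + 2)

/-- the value `S` with `A(e) + B(e) S = 0` -/
noncomputable def SOf {k : Type} [Field k] (H : k[X]) (n : ℕ) (A B : k[X]) : k :=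
  - A.eval (eOf H n A B) / B.eval (eOf H n A B)

end Pool.Agent.LibT62
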