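import Pool.Agent.LibT62.Defs

/-!
Row E1: a relation between two points is given by polynomials. Apply `rr` (LibJac77/A9.lean) to the
multiset `replicate i P + replicate j Q`: `el f A B ≠ 0` with order `i` at `P`, `j` at `Q`, `0` at the
other affine points. So `A(x) + B(x) y = 0` (positive order at `P`), `A(x) - B(x) y ≠ 0` (order zero at
`neg P ≠ P, Q`), hence `A(x) ≠ 0`; the same at `Q`. The norm `A ^ 2 - B ^ 2 f` (`Nm`) has at `x` the
multiplicity `ord_P + ord_{neg P} = i` (see the lemmas on `ord_pos`, `rootMultiplicity`, `Nm` in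
LibJac77/A*.lean), at `x'` `j`, and no other root, so it is `c (X - x)^i (X - x')^j`
(algebraically closed field: `Polynomial.eq_prod_roots_of_splits`). `B ≠ 0` since otherwise
`A(x) + 0 = 0`.
-/

open scoped Classical
open Polynomial IsLocalRing

namespace Pool.Agent.LibT62

open Pool.Agent.LibBH2 Pool.Agent.LibJac77

theorem E1_at {k : Type} [Field k] [CharZero k] [IsAlgClosed k] {f : k[X]} [Genus2 f]
    {x y : k} (h : y ^ 2 = f.eval x) {A B : k[X]} (hne : el f A B ≠ 0)
    (h1 : 0 < (vp (.aff x y h : Pt f)).ord (el f A B))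
    (h2 : (vp (neg (.aff x y h : Pt f))).ord (el f A B) = 0) :
    A.eval x + B.eval x * y = 0 ∧ A.eval x ≠ 0 := by
  have e1 := (ord_pos_iff h hne).1 h1
  refine ⟨e1, fun h0 => ?_⟩
  have hB : B.eval x * y = 0 := by rw [h0, zero_add] at e1; exact e1
  have h3 : 0 < (vp (neg (.aff x y h : Pt f))).ord (el f A B) := by
    refine (ord_pos_iff (f := f) (y := -y) _ hne).2 ?_
    rw [h0, mul_neg, hB]
    simp
  omega

theorem E1_other {k : Type} [Field k] [CharZero k] [IsAlgClosed k] {f : k[X]} [Genus2 f]
    {A B : k[X]} (hne : el f A B ≠ 0) (z : k)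
    (h1 : ∀ (t : k) (ht : t ^ 2 = f.eval z), (vp (.aff z t ht : Pt f)).ord (el f A B) = 0) :
    (Nm f A B).rootMultiplicity z = 0 := by
  obtain ⟨t, ht⟩ := IsAlgClosed.exists_pow_nat_eq (f.eval z) (n := 2) (by norm_num)
  by_cases h0 : t = 0
  · subst h0
    have := ord_weier ht hne
    rw [h1] at this
    exact_mod_cast this.symm
  · have := ord_add_neg (P := .aff z t ht) rfl h0 hne
    have e : (vp (neg (.aff z t ht : Pt f))).ord (el f A B) = 0 := h1 (-t) _
    rw [h1, e] at this
    exact_mod_cast this.symm

theorem rel_poly {k : Type} [Field k] [CharZero k] [IsAlgClosed k] {f : k[X]} [Genus2 f]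
    {x y x' y' : k} (h : y ^ 2 = f.eval x) (h' : y' ^ 2 = f.eval x') (hx : x ≠ x') (hy : y ≠ 0)
    (hy' : y' ≠ 0) {i j : ℕ} (hi : 1 ≤ i) (hj : 1 ≤ j)
    (hrel : i • jP (.aff x y h : Pt f) + j • jP (.aff x' y' h' : Pt f) = 0) :
    ∃ (U W : k[X]) (cc : k), W ≠ 0 ∧
      U ^ 2 - f * W ^ 2 = C cc * (X - C x) ^ i * (X - C x') ^ j ∧
      U.eval x + W.eval x * y = 0 ∧ U.eval x ≠ 0 ∧
      U.eval x' + W.eval x' * y' = 0 ∧ U.eval x' ≠ 0 := by
  set P : Pt f := .aff x y h with hP
  set Q : Pt f := .aff x' y' h' with hQ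
  have hPQ : P ≠ Q := by
    rw [hP, hQ]
    intro e
    injection e with e1 e2
    exact hx e1
  obtain ⟨A, B, hne, hord, -, -, -⟩ := rr (Multiset.replicate i P + Multiset.replicate j Q) (by
    rw [Multiset.map_add, Multiset.sum_add, Multiset.map_replicate, Multiset.map_replicate,
      Multiset.sum_replicate, Multiset.sum_replicate]
    exact hrel)
  have cnt : ∀ T : Pt f, T ≠ P → T ≠ Q → T ≠ .inf → (vp T).ord (el f A B) = 0 := by
    intro T h1 h2 h3
    rw [hord T h3, Multiset.count_add, Multiset.count_replicate, Multiset.count_replicate,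
      if_neg (Ne.symm h1), if_neg (Ne.symm h2)]
    rfl
  have oP : (vp P).ord (el f A B) = i := by
    rw [hord P (by rw [hP]; simp), Multiset.count_add, Multiset.count_replicate,
      Multiset.count_replicate, if_pos rfl, if_neg hPQ.symm, add_zero]
  have oQ : (vp Q).ord (el f A B) = j := by
    rw [hord Q (by rw [hQ]; simp), Multiset.count_add, Multiset.count_replicate,
      Multiset.count_replicate, if_pos rfl, if_neg hPQ, zero_add]
  have hyn : -y ≠ y := fun e => hy (by
    have : (2 : k) * y = 0 := by linear_combination -e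
    simpa using this)
  have hyn' : -y' ≠ y' := fun e => hy' (by
    have : (2 : k) * y' = 0 := by linear_combination -e
    simpa using this)
  have nP : (vp (neg P)).ord (el f A B) = 0 := by
    refine cnt _ ?_ ?_ ?_
    · rw [hP, neg]
      intro e
      injection e with e1 e2
      exact hyn e2
    · rw [hP, hQ, neg]
      intro e
      injection e with e1 e2
      exact hx e1
    · rw [hP, neg]
      simp
  have nQ : (vp (neg Q)).ord (el f A B) = 0 := by
    refine cnt _ ?_ ?_ ?_
    · rw [hP, hQ, neg]
      intro e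
      injection e with e1 e2
      exact hx e1.symm
    · rw [hQ, neg]
      intro e
      injection e with e1 e2
      exact hyn' e2
    · rw [hQ, neg]
      simp
  obtain ⟨a1, a2⟩ := E1_at h hne (by rw [← hP, oP]; exact_mod_cast hi) nP
  obtain ⟨b1, b2⟩ := E1_at h' hne (by rw [← hQ, oQ]; exact_mod_cast hj) nQ
  have mP : (Nm f A B).rootMultiplicity x = i := by
    have := ord_add_neg (P := P) hP hy hne
    rw [oP, nP, add_zero] at this
    exact_mod_cast this.symm
  have mQ : (Nm f A B).rootMultiplicity x' = j := by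
    have := ord_add_neg (P := Q) hQ hy' hne
    rw [oQ, nQ, add_zero] at this
    exact_mod_cast this.symm
  have mO : ∀ z, z ≠ x → z ≠ x' → (Nm f A B).rootMultiplicity z = 0 := by
    intro z h1 h2
    refine E1_other hne z fun t ht => cnt _ ?_ ?_ ?_
    · rw [hP]
      intro e
      injection e with e1 e2
      exact h1 e1
    · rw [hQ]
      intro e
      injection e with e1 e2
      exact h2 e1
    · simp
  have hroots : (Nm f A B).roots = Multiset.replicate i x + Multiset.replicate j x' := by
    ext z
    rw [count_roots, Multiset.count_add, Multiset.count_replicate, Multiset.count_replicate]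
    by_cases h1 : z = x
    · subst h1
      rw [mP, if_pos rfl, if_neg hx.symm, add_zero]
    · by_cases h2 : z = x'
      · subst h2
        rw [mQ, if_pos rfl, if_neg hx, zero_add]
      · rw [mO z h1 h2, if_neg (Ne.symm h1), if_neg (Ne.symm h2)]
  have hN : Nm f A B = C (Nm f A B).leadingCoeff * (X - C x) ^ i * (X - C x') ^ j := by
    have hs := (IsAlgClosed.splits (Nm f A B)).eq_prod_roots
    rw [hroots, Multiset.map_add, Multiset.prod_add, Multiset.map_replicate,
      Multiset.map_replicate, Multiset.prod_replicate, Multiset.prod_replicate] at hs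
    rw [mul_assoc]
    exact hs
  refine ⟨A, B, (Nm f A B).leadingCoeff, ?_, ?_, a1, a2, b1, b2⟩
  · rintro rfl
    apply a2
    simpa using a1
  · rw [← hN, Nm]
    ring

end Pool.Agent.LibT62
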