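import Pool.Agent.LibT62.A4
import Pool.Agent.LibT62.D5
import Pool.Agent.LibT62.E1

/-!
Row E2: the two classes are independent. Let `P = (x, y)`, `Q = (x', y')`, `x ∉ V`, `x ∉ V'`.
`redu V P = none = redu V ∞`; `x' = a b / x` is in the maximal ideal, so is `y'`, and
`redu V Q = some (0, 0) = redu V (0, 0)` where `(0, 0)` is the Weierstrass point. So `jP P` and
`2 jP Q = 2 (jP Q - jP (0,0))` (`jP (0,0)` has order 2: `jP_neg`) are in `ker V` and in `ker V'`: every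
element of the group they generate of finite order is zero (`two_places`).
`y ≠ 0`, `y' ≠ 0`: the roots `0, a, b, c, d` of `f` are in `V` and `x ∉ V`; `x' ≠ 0` is in the maximal
ideal and `a, b, c, d` are units. `x ≠ x'`.
Claim: `α jP P + β (2 jP Q) = 0` (`α, β ∈ ℤ`) implies `α = β = 0`: strong induction on `|α| + |β|`. Using
`neg P`, `neg Q` instead of `P`, `Q` we may assume `α, β ≥ 0`. If `α = 0 < β`: `2 jP Q` has finite order,
so `2 jP Q = 0`, `jP Q = jP (neg Q)`, `Q = neg Q` (`two_unique` with `∞`), `y' = 0`, contradiction; the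
same for `β = 0`. If both are positive: `(2 α) jP P + (2 (2 β)) jP Q = 0`, `rel_poly` and `transv` give
`(α : RF V) = 0`, `((2 β : ℕ) : RF V) = 0`, so `p ∣ α`, `p ∣ β` and `p (α/p jP P + β/p (2 jP Q)) = 0`:
the bracket is zero by `two_places`, smaller relation. Finally `α jP P + β jP Q = 0` gives
`2 α jP P + β (2 jP Q) = 0`.
-/

open scoped Classical
open Polynomial IsLocalRing

namespace Pool.Agent.LibT62

open Pool.Agent.LibBH2 Pool.Agent.LibJac77

private theorem E2_eval (a b c d x : Qb) :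
    (F5 a b c d).eval x = x * ((x - a) * (x - b) * (x - c) * (x - d)) := by
  simp only [F5, eval_mul, eval_X, eval_sub, eval_C]
  ring

private theorem E2_small {V : ValuationSubring Qb} {a b x x' : Qb} (ha : a ∈ V) (hb : b ∈ V)
    (hx : x ∉ V) (hxx : x * x' = a * b) : ∃ h : x' ∈ V, residue V ⟨x', h⟩ = 0 := by
  have hx0 : x ≠ 0 := fun h => hx (h ▸ V.zero_mem)
  have hinv : x⁻¹ ∈ V := (V.mem_or_inv_mem x).resolve_left hx
  have hxe : x' = x⁻¹ * (a * b) := by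
    rw [← hxx, ← mul_assoc, inv_mul_cancel₀ hx0, one_mul]
  have hab : a * b ∈ V := V.mul_mem _ _ ha hb
  have hmem : x' ∈ V := by
    rw [hxe]
    exact V.mul_mem _ _ hinv hab
  refine ⟨hmem, ?_⟩
  have h1 : residue V ⟨x⁻¹, hinv⟩ = 0 := by
    rw [residue_eq_zero_iff, mem_maximalIdeal, mem_nonunits_iff]
    intro hu
    obtain ⟨u, hu⟩ := hu.exists_right_inv
    have h2 : x⁻¹ * (u : Qb) = 1 := congrArg Subtype.val hu
    have h3 : (u : Qb) = x := by
      have h4 : x * (x⁻¹ * (u : Qb)) = x * 1 := by rw [h2]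
      rwa [← mul_assoc, mul_inv_cancel₀ hx0, one_mul, mul_one] at h4
    exact hx (h3 ▸ u.2)
  have h5 : (⟨x', hmem⟩ : V) = ⟨x⁻¹, hinv⟩ * ⟨a * b, hab⟩ := Subtype.ext hxe
  rw [h5, map_mul, h1, zero_mul]

private theorem E2_unit {V : ValuationSubring Qb} {a : Qb} (ha0 : a ≠ 0) (ha : a ∈ V) (ha' : a⁻¹ ∈ V) :
    residue V ⟨a, ha⟩ ≠ 0 := by
  intro h0
  have h1 : (⟨a, ha⟩ : V) * ⟨a⁻¹, ha'⟩ = 1 := Subtype.ext (mul_inv_cancel₀ ha0)
  have h2 := congrArg (residue V) h1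
  rw [map_mul, h0, zero_mul, map_one] at h2
  exact zero_ne_one h2

private theorem E2_ne {V : ValuationSubring Qb} {a x' : Qb} (ha0 : a ≠ 0) (ha : a ∈ V) (ha' : a⁻¹ ∈ V)
    (hs : ∃ h : x' ∈ V, residue V ⟨x', h⟩ = 0) : x' - a ≠ 0 := by
  intro h
  obtain ⟨hm, hr⟩ := hs
  have h1 : x' = a := sub_eq_zero.1 h
  subst h1
  exact E2_unit ha0 ha ha' hr

private theorem E2_ysmall {V : ValuationSubring Qb} {a b c d x' y' : Qb} (hV : Good V (F5 a b c d))
    (ha : a ∈ V) (hb : b ∈ V) (hc : c ∈ V) (hd : d ∈ V)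
    (h' : y' ^ 2 = (F5 a b c d).eval x') (hs : ∃ h : x' ∈ V, residue V ⟨x', h⟩ = 0) :
    ∃ h : y' ∈ V, residue V ⟨y', h⟩ = 0 := by
  obtain ⟨hm, hr⟩ := hs
  have hy := redu_aff hV h' hm
  refine ⟨hy, ?_⟩
  have e : (⟨y', hy⟩ : V) ^ 2 = ⟨x', hm⟩ * ((⟨x', hm⟩ - ⟨a, ha⟩) * (⟨x', hm⟩ - ⟨b, hb⟩) *
      (⟨x', hm⟩ - ⟨c, hc⟩) * (⟨x', hm⟩ - ⟨d, hd⟩)) := by
    apply Subtype.ext
    change y' ^ 2 = x' * ((x' - a) * (x' - b) * (x' - c) * (x' - d))
    rw [h', E2_eval]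
  have e2 := congrArg (residue V) e
  rw [map_mul, hr, zero_mul, map_pow] at e2
  exact pow_eq_zero_iff (two_ne_zero) |>.1 e2

private theorem E2_redu {V : ValuationSubring Qb} {f : Qb[X]} {x y : Qb} (h : y ^ 2 = f.eval x)
    (hs : ∃ h : x ∈ V, residue V ⟨x, h⟩ = 0) (hs' : ∃ h : y ∈ V, residue V ⟨y, h⟩ = 0) :
    redu V (.aff x y h : Pt f) = some (0, 0) := by
  obtain ⟨hm, hr⟩ := hs
  obtain ⟨hm', hr'⟩ := hs'
  change (if h : x ∈ V ∧ y ∈ V then some (residue V ⟨x, h.1⟩, residue V ⟨y, h.2⟩) else none) = _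
  rw [dif_pos ⟨hm, hm'⟩, hr, hr']

private theorem E2_P_mem {a b c d : Qb} [Genus2 (F5 a b c d)] {V : ValuationSubring Qb}
    (hV : Good V (F5 a b c d)) {x y : Qb} (h : y ^ 2 = (F5 a b c d).eval x) (hx : x ∉ V) :
    jP (.aff x y h : Pt (F5 a b c d)) ∈ ker V hV := by
  refine mem_ker.2 ⟨.aff x y h, .inf, ?_, ?_⟩
  · rw [(redu_eq_none_iff hV h).2 hx]
    rfl
  · rw [jP_inf, sub_zero]

private theorem E2_Q_mem {a b c d : Qb} [Genus2 (F5 a b c d)] {V : ValuationSubring Qb}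
    (hV : Good V (F5 a b c d)) {x y : Qb} (h : y ^ 2 = (F5 a b c d).eval x)
    (hs : ∃ h : x ∈ V, residue V ⟨x, h⟩ = 0) (hs' : ∃ h : y ∈ V, residue V ⟨y, h⟩ = 0) :
    2 • jP (.aff x y h : Pt (F5 a b c d)) ∈ ker V hV := by
  have h0 : (0 : Qb) ^ 2 = (F5 a b c d).eval 0 := by
    rw [E2_eval]
    ring
  have e1 : 2 • jP (.aff 0 0 h0 : Pt (F5 a b c d)) = 0 := by
    have h1 := jP_neg (.aff 0 0 h0 : Pt (F5 a b c d))
    have h2 : neg (.aff 0 0 h0 : Pt (F5 a b c d)) = .aff 0 0 h0 := by simp [neg]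
    rw [h2] at h1
    rw [two_nsmul]
    nth_rewrite 1 [h1]
    exact neg_add_cancel _
  have hz : ∃ h : (0 : Qb) ∈ V, residue V ⟨0, h⟩ = 0 := ⟨V.zero_mem, map_zero (residue V)⟩
  have e2 : jP (.aff x y h : Pt (F5 a b c d)) - jP (.aff 0 0 h0 : Pt (F5 a b c d)) ∈ ker V hV :=
    mem_ker.2 ⟨_, _, by rw [E2_redu h hs hs', E2_redu h0 hz hz], rfl⟩
  have e3 : 2 • jP (.aff x y h : Pt (F5 a b c d)) =
      2 • (jP (.aff x y h : Pt (F5 a b c d)) - jP (.aff 0 0 h0 : Pt (F5 a b c d))) := by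
    rw [smul_sub, e1, sub_zero]
  rw [e3]
  exact AddSubgroup.nsmul_mem _ e2 2

private theorem E2_inf {f : Qb[X]} [Genus2 f] {P : Pt f} (h : jP P = 0) : P = .inf := by
  have h1 : jP P + jP (.inf : Pt f) = jP (.inf : Pt f) + jP (.inf : Pt f) := by
    rw [jP_inf, h]
  rcases two_unique h1 with h2 | h2 | h2
  · exact h2.1
  · exact h2.1
  · exact neg_eq_inf.1 h2.1.symm

private theorem E2_neg {f : Qb[X]} [Genus2 f] {x y : Qb} (h : y ^ 2 = f.eval x)
    (h2 : 2 • jP (.aff x y h : Pt f) = 0) : y = 0 := by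
  have h1 : jP (.aff x y h : Pt f) + jP (.inf : Pt f) =
      jP (neg (.aff x y h : Pt f)) + jP (.inf : Pt f) := by
    rw [jP_neg]
    congr 1
    rw [two_nsmul] at h2
    exact eq_neg_of_add_eq_zero_left h2
  have h3 : neg (.aff x y h : Pt f) = .aff x y h → y = 0 := by
    intro h4
    simp only [neg, Pt.aff.injEq, true_and] at h4
    have h5 : y + y = 0 := by
      nth_rewrite 1 [← h4]
      exact neg_add_cancel _
    have h6 : (2 : Qb) * y = 0 := by rw [two_mul, h5]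
    exact (mul_eq_zero.1 h6).resolve_left two_ne_zero
  rcases two_unique h1 with h4 | h4 | h4
  · exact h3 h4.1.symm
  · exact absurd h4.1 (by simp)
  · exact absurd (neg_eq_inf.1 h4.1.symm) (by simp)

private theorem E2_nat {a b c d : Qb} [Genus2 (F5 a b c d)] (hsq : Squarefree (F5 a b c d))
    {p p' : ℕ} (hp : p.Prime) (hp' : p'.Prime) (hpp : p ≠ p') {V V' : ValuationSubring Qb}
    (hV : GoodPl a b c d p V) (hV' : GoodPl a b c d p' V') {x y x' y' : Qb}
    (h : y ^ 2 = (F5 a b c d).eval x) (h' : y' ^ 2 = (F5 a b c d).eval x')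
    (hx : x ∉ V) (hx' : x ∉ V') (hxx : x * x' = a * b) :
    ∀ n α β : ℕ, α + β ≤ n → α • jP (.aff x y h : Pt (F5 a b c d)) +
      (2 * β) • jP (.aff x' y' h' : Pt (F5 a b c d)) = 0 → α = 0 ∧ β = 0 := by
  obtain ⟨ha0, hb0, hc0, hd0, -⟩ := ne_of_F5 hsq
  have hs := E2_small hV.ma hV.mb hx hxx
  have hs' := E2_small hV'.ma hV'.mb hx' hxx
  have hys := E2_ysmall hV.good hV.ma hV.mb hV.mc hV.md h' hs
  have hys' := E2_ysmall hV'.good hV'.ma hV'.mb hV'.mc hV'.md h' hs'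
  have hP := E2_P_mem hV.good h hx
  have hP' := E2_P_mem hV'.good h hx'
  have hQ := E2_Q_mem hV.good h' hs hys
  have hQ' := E2_Q_mem hV'.good h' hs' hys'
  have hx0 : x ≠ 0 := fun h0 => hx (h0 ▸ V.zero_mem)
  have hx'0 : x' ≠ 0 := by
    intro h0
    rw [h0, mul_zero] at hxx
    exact mul_ne_zero ha0 hb0 hxx.symm
  have hne : x ≠ x' := fun h0 => hx (h0 ▸ hs.1)
  have hmem : ∀ {r : Qb}, r ∈ V → x - r ≠ 0 := fun hr h0 => hx (sub_eq_zero.1 h0 ▸ hr)
  have hy0 : y ≠ 0 := by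
    intro h0
    rw [h0, E2_eval] at h
    have h1 : x * ((x - a) * (x - b) * (x - c) * (x - d)) ≠ 0 :=
      mul_ne_zero hx0 (mul_ne_zero (mul_ne_zero (mul_ne_zero (hmem hV.ma) (hmem hV.mb)) (hmem hV.mc))
        (hmem hV.md))
    exact h1 (by rw [← h]; ring)
  have hy'0 : y' ≠ 0 := by
    intro h0
    rw [h0, E2_eval] at h'
    have h1 : x' * ((x' - a) * (x' - b) * (x' - c) * (x' - d)) ≠ 0 :=
      mul_ne_zero hx'0 (mul_ne_zero (mul_ne_zero (mul_ne_zero (E2_ne ha0 hV.ma hV.ma' hs)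
        (E2_ne hb0 hV.mb hV.mb' hs)) (E2_ne hc0 hV.mc hV.mc' hs)) (E2_ne hd0 hV.md hV.md' hs))
    exact h1 (by rw [← h']; ring)
  have h2 : (2 : RF V) ≠ 0 := by
    obtain ⟨_, _, _, h2⟩ := hV.good
    exact h2
  have : Fact p.Prime := ⟨hp⟩
  have : Fact p'.Prime := ⟨hp'⟩
  have : CharP (RF V) p := hV.char
  have : CharP (RF V') p' := hV'.char
  obtain ⟨A, hA⟩ : ∃ A : Pic (F5 a b c d), A = jP (.aff x y h : Pt (F5 a b c d)) := ⟨_, rfl⟩
  obtain ⟨B, hB⟩ : ∃ B : Pic (F5 a b c d), B = jP (.aff x' y' h' : Pt (F5 a b c d)) := ⟨_, rfl⟩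
  intro n
  induction n with
  | zero =>
    intro α β hn _
    omega
  | succ n ih =>
    intro α β hn hrel
    rcases Nat.eq_zero_or_pos α with hα | hα
    · rcases Nat.eq_zero_or_pos β with hβ | hβ
      · exact ⟨hα, hβ⟩
      · exfalso
        rw [hα, zero_smul, zero_add, mul_comm, mul_smul] at hrel
        have h3 := two_places (hV := hV.good) (hV' := hV'.good) hpp hQ hQ' β hβ.ne' hrel
        exact hy'0 (E2_neg h' h3)
    · rcases Nat.eq_zero_or_pos β with hβ | hβ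
      · exfalso
        rw [hβ, mul_zero, zero_smul, add_zero] at hrel
        have h3 := two_places (hV := hV.good) (hV' := hV'.good) hpp hP hP' α hα.ne' hrel
        exact absurd (E2_inf h3) (by simp)
      · exfalso
        have hrel2 : (2 * α) • jP (.aff x y h : Pt (F5 a b c d)) +
            (2 * (2 * β)) • jP (.aff x' y' h' : Pt (F5 a b c d)) = 0 := by
          rw [mul_smul, mul_smul 2 (2 * β), ← smul_add, hrel, smul_zero]
        obtain ⟨U, W, cc, hW, hN, hU1, hU1', hU2, hU2'⟩ :=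
          rel_poly h h' hne hy0 hy'0 (by omega) (by omega) hrel2
        obtain ⟨hα1, hβ1⟩ := transv V h2 ha0 hb0 hc0 hd0 hV.ma hV.mb hV.mc hV.md hV.ma' hV.mb' hV.mc'
          hV.md' hx hxx h h' (by omega : 1 ≤ α) (by omega : 1 ≤ 2 * β) U W cc hW hN hU1 hU1' hU2 hU2'
        rw [CharP.cast_eq_zero_iff (RF V) p] at hα1 hβ1
        have hp2 : ¬ p ∣ 2 := by
          intro hd
          apply h2
          have h3 := (CharP.cast_eq_zero_iff (RF V) p 2).2 hd
          exact_mod_cast h3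
        have hβ2 : p ∣ β := (hp.dvd_mul.1 hβ1).resolve_left hp2
        obtain ⟨α', rfl⟩ := hα1
        obtain ⟨β', rfl⟩ := hβ2
        have hp0 : 0 < p := hp.pos
        have hα' : 0 < α' := Nat.pos_of_mul_pos_left hα
        have hβ' : 0 < β' := Nat.pos_of_mul_pos_left hβ
        have hrel3 : p • (α' • jP (.aff x y h : Pt (F5 a b c d)) +
            (2 * β') • jP (.aff x' y' h' : Pt (F5 a b c d))) = 0 := by
          rw [smul_add, ← mul_smul, ← mul_smul]
          have e : p * (2 * β') = 2 * (p * β') := by ring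
          rw [e]
          exact hrel
        have hc : ∀ (V₀ : ValuationSubring Qb) (hV₀ : Good V₀ (F5 a b c d)),
            jP (.aff x y h : Pt (F5 a b c d)) ∈ ker V₀ hV₀ →
            2 • jP (.aff x' y' h' : Pt (F5 a b c d)) ∈ ker V₀ hV₀ →
            α' • jP (.aff x y h : Pt (F5 a b c d)) +
            (2 * β') • jP (.aff x' y' h' : Pt (F5 a b c d)) ∈ ker V₀ hV₀ := by
          intro V₀ hV₀ hA hB
          rw [mul_comm 2 β', mul_smul]
          exact AddSubgroup.add_mem _ (AddSubgroup.nsmul_mem _ hA _) (AddSubgroup.nsmul_mem _ hB _)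
        have h3 := two_places (hV := hV.good) (hV' := hV'.good) hpp (hc V hV.good hP hQ)
          (hc V' hV'.good hP' hQ') p hp0.ne' hrel3
        have hp1 := hp.two_le
        have h4 : α' + β' ≤ n := by nlinarith
        have h5 := ih α' β' h4 h3
        omega

theorem rank_two {a b c d : Qb} [Genus2 (F5 a b c d)] (hsq : Squarefree (F5 a b c d))
    {p p' : ℕ} (hp : p.Prime) (hp' : p'.Prime) (hpp : p ≠ p') {V V' : ValuationSubring Qb}
    (hV : GoodPl a b c d p V) (hV' : GoodPl a b c d p' V') {x y x' y' : Qb}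
    (h : y ^ 2 = (F5 a b c d).eval x) (h' : y' ^ 2 = (F5 a b c d).eval x')
    (hx : x ∉ V) (hx' : x ∉ V') (hxx : x * x' = a * b) (α β : ℤ)
    (hrel : α • jP (.aff x y h : Pt (F5 a b c d)) + β • jP (.aff x' y' h' : Pt (F5 a b c d)) = 0) :
    α = 0 ∧ β = 0 := by
  have key : ∀ (γ : ℤ) {u v : Qb} (hu : v ^ 2 = (F5 a b c d).eval u), ∃ (w : Qb)
      (hw : w ^ 2 = (F5 a b c d).eval u), γ • jP (.aff u v hu : Pt (F5 a b c d)) =
        γ.natAbs • jP (.aff u w hw : Pt (F5 a b c d)) := by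
    intro γ u v hu
    rcases le_total 0 γ with hγ | hγ
    · refine ⟨v, hu, ?_⟩
      rw [← natCast_zsmul, Int.natAbs_of_nonneg hγ]
    · refine ⟨-v, by rw [neg_sq, hu], ?_⟩
      have h1 := jP_neg (.aff u v hu : Pt (F5 a b c d))
      have h2 : neg (.aff u v hu : Pt (F5 a b c d)) = .aff u (-v) (by rw [neg_sq, hu]) := rfl
      rw [h2] at h1
      rw [h1, ← natCast_zsmul, Int.ofNat_natAbs_of_nonpos hγ, neg_smul, smul_neg, neg_neg]
  obtain ⟨w, hw, e1⟩ := key α h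
  obtain ⟨w', hw', e2⟩ := key β h'
  rw [e1, e2] at hrel
  have hrel2 : (2 * α.natAbs) • jP (.aff x w hw : Pt (F5 a b c d)) +
      (2 * β.natAbs) • jP (.aff x' w' hw' : Pt (F5 a b c d)) = 0 := by
    rw [mul_smul, mul_smul, ← smul_add, hrel, smul_zero]
  obtain ⟨h3, h4⟩ := E2_nat hsq hp hp' hpp hV hV' hw hw' hx hx' hxx _ _ _ le_rfl hrel2
  constructor
  · have : α.natAbs = 0 := by omega
    exact Int.natAbs_eq_zero.1 this
  · exact Int.natAbs_eq_zero.1 h4

end Pool.Agent.LibT62
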