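import Pool.Agent.LibT62.Defs

/-!
Row G1: weak approximation for places (`Place` = normalised discrete valuation trivial on `k`,
LibBH2/Place.lean).
(1) If `v ≠ w` there is `g ≠ 0` with `0 ≤ v.ord g`, `w.ord g < 0`: otherwise `O_v ⊆ O_w`, then units of
`O_v` are units of `O_w`, a uniformizer `π` of `v` has `w.ord π = e ≥ 0`, `w.ord = e * v.ord`, and
`e = 1` as `w` has a uniformizer; `Place.ext'`.
(2) So for `v ≠ w` there is `z ≠ 0` with `0 < v.ord z`, `w.ord z < 0` (quotient of two such `g`).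
(3) Induction on the finite set `S`: there is `z` with `v.ord z < 0` and `0 < w.ord z` for all `w ∈ S`
(the classical argument with `z ^ m * y` and `z ^ m / (1 + z ^ m) * y`).
(4) `e = z / (1 + z)`: `v.ord e = 0`, `w.ord e = w.ord z ≥ 1`.
-/

open scoped Classical
open Polynomial IsLocalRing

namespace Pool.Agent.LibT62

open Pool.Agent.LibBH2 Pool.Agent.LibJac77

private theorem G1_one {k K : Type} [Field k] [Field K] [Algebra k K] {v w : Place k K}
    (h : v ≠ w) : ∃ g : K, g ≠ 0 ∧ 0 ≤ v.ord g ∧ w.ord g < 0 := by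
  by_contra hcon
  push Not at hcon
  apply h
  obtain ⟨π, hπ⟩ := v.exists_uniformizer
  obtain ⟨t, ht⟩ := w.exists_uniformizer
  have hπ0 : π ≠ 0 := by rintro rfl; rw [v.ord_zero] at hπ; omega
  have ht0 : t ≠ 0 := by rintro rfl; rw [w.ord_zero] at ht; omega
  have h1 : ∀ g : K, g ≠ 0 → v.ord g = 0 → w.ord g = 0 := by
    intro g hg hg0
    have h2 := hcon g hg hg0.ge
    have h3 := hcon g⁻¹ (inv_ne_zero hg) (by rw [v.ord_inv, hg0]; simp)
    rw [w.ord_inv] at h3
    omega
  have h2 : ∀ g : K, g ≠ 0 → w.ord g = v.ord g * w.ord π := by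
    intro g hg
    have h3 := h1 (g * π ^ (-v.ord g)) (mul_ne_zero hg (zpow_ne_zero _ hπ0)) (by
      rw [v.ord_mul _ _ hg (zpow_ne_zero _ hπ0), v.ord_zpow, hπ]; ring)
    rw [w.ord_mul _ _ hg (zpow_ne_zero _ hπ0), w.ord_zpow] at h3
    linarith
  have h3 := h2 t ht0
  rw [ht] at h3
  have h4 : 0 ≤ w.ord π := hcon π hπ0 (by rw [hπ]; norm_num)
  have h5 : w.ord π = 1 := by
    rcases Int.isUnit_iff.1 (IsUnit.of_mul_eq_one_right (v.ord t) h3.symm) with h5 | h5
    · exact h5
    · omega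
  refine Place.ext' fun g => ?_
  by_cases hg : g = 0
  · rw [hg, v.ord_zero, w.ord_zero]
  · rw [h2 g hg, h5, mul_one]

private theorem G1_two {k K : Type} [Field k] [Field K] [Algebra k K] {v w : Place k K}
    (h : v ≠ w) : ∃ z : K, z ≠ 0 ∧ v.ord z < 0 ∧ 0 < w.ord z := by
  obtain ⟨g, hg, h1, h2⟩ := G1_one h
  obtain ⟨g', hg', h3, h4⟩ := G1_one h.symm
  refine ⟨g' / g, div_ne_zero hg' hg, ?_, ?_⟩
  · rw [v.ord_div _ _ hg' hg]; omega
  · rw [w.ord_div _ _ hg' hg]; omega

private theorem G1_neg {k K : Type} [Field k] [Field K] [Algebra k K] (v : Place k K) {z : K}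
    (h : v.ord z < 0) : 1 + z ≠ 0 ∧ v.ord (1 + z) = v.ord z := by
  have hz : z ≠ 0 := by rintro rfl; rw [v.ord_zero] at h; omega
  have h1 := Place.ord_add_of_lt hz one_ne_zero (by rw [v.ord_one]; exact h)
  rwa [add_comm] at h1

private theorem G1_pos {k K : Type} [Field k] [Field K] [Algebra k K] (v : Place k K) {z : K}
    (h : 0 < v.ord z) : 1 + z ≠ 0 ∧ v.ord (1 + z) = 0 := by
  have hz : z ≠ 0 := by rintro rfl; rw [v.ord_zero] at h; omega
  have h1 := Place.ord_add_of_lt (v := v) one_ne_zero hz (by rw [v.ord_one]; exact h)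
  rwa [v.ord_one] at h1

private theorem G1_three {k K : Type} [Field k] [Field K] [Algebra k K] (v : Place k K)
    (S : Finset (Place k K)) (hv : v ∉ S) :
    ∃ z : K, z ≠ 0 ∧ v.ord z < 0 ∧ ∀ w ∈ S, 0 < w.ord z := by
  induction S using Finset.induction_on with
  | empty =>
    obtain ⟨t, ht⟩ := v.exists_uniformizer
    have ht0 : t ≠ 0 := by rintro rfl; rw [v.ord_zero] at ht; omega
    exact ⟨t⁻¹, inv_ne_zero ht0, by rw [v.ord_inv, ht]; norm_num, by simp⟩
  | insert u S' hu ih =>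
    rw [Finset.mem_insert, not_or] at hv
    obtain ⟨z, hz, h1, h2⟩ := ih hv.2
    obtain ⟨y, hy, h3, h4⟩ := G1_two hv.1
    obtain ⟨m, hm, hm1⟩ : ∃ m : ℕ, 1 ≤ m ∧ ∀ w ∈ S', 0 < m * w.ord z + w.ord y := by
      refine ⟨1 + ∑ w ∈ S', (w.ord y).natAbs, by omega, fun w hw => ?_⟩
      have h5 : (w.ord y).natAbs ≤ ∑ w ∈ S', (w.ord y).natAbs :=
        Finset.single_le_sum (f := fun w : Place k K => (w.ord y).natAbs) (fun _ _ => Nat.zero_le _) hw
      have h6 := h2 w hw
      have h7 : ((1 + ∑ w ∈ S', (w.ord y).natAbs : ℕ) : ℤ) ≤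
          ((1 + ∑ w ∈ S', (w.ord y).natAbs : ℕ) : ℤ) * w.ord z :=
        le_mul_of_one_le_right (by positivity) (by omega)
      have h8 : -((w.ord y).natAbs : ℤ) ≤ w.ord y := by omega
      have h9 : (((w.ord y).natAbs : ℕ) : ℤ) ≤ ((∑ w ∈ S', (w.ord y).natAbs : ℕ) : ℤ) := by
        exact_mod_cast h5
      have h10 : ((1 + ∑ w ∈ S', (w.ord y).natAbs : ℕ) : ℤ) =
          1 + ((∑ w ∈ S', (w.ord y).natAbs : ℕ) : ℤ) := by push_cast; ring
      linarith
    have hmv : (m : ℤ) * v.ord z < 0 := by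
      have : (0 : ℤ) < m := by omega
      exact mul_neg_of_pos_of_neg this h1
    by_cases h5 : u.ord z < 0
    · have hmu : (m : ℤ) * u.ord z < 0 := by
        have : (0 : ℤ) < m := by omega
        exact mul_neg_of_pos_of_neg this h5
      have hzm : z ^ m ≠ 0 := pow_ne_zero _ hz
      have h6 := G1_neg v (z := z ^ m) (by rw [v.ord_pow]; exact hmv)
      have h7 := G1_neg u (z := z ^ m) (by rw [u.ord_pow]; exact hmu)
      refine ⟨z ^ m / (1 + z ^ m) * y, mul_ne_zero (div_ne_zero hzm h6.1) hy, ?_, ?_⟩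
      · rw [v.ord_mul _ _ (div_ne_zero hzm h6.1) hy, v.ord_div _ _ hzm h6.1, h6.2, sub_self,
          zero_add]
        exact h3
      · intro w hw
        rw [Finset.mem_insert] at hw
        rw [w.ord_mul _ _ (div_ne_zero hzm h6.1) hy, w.ord_div _ _ hzm h6.1]
        rcases hw with rfl | hw
        · rw [h7.2, sub_self, zero_add]
          exact h4
        · have h8 := G1_pos w (z := z ^ m) (by
            rw [w.ord_pow]
            have h9 := h2 w hw
            have : (0 : ℤ) < m := by omega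
            exact mul_pos this h9)
          rw [h8.2, sub_zero, w.ord_pow]
          exact hm1 w hw
    · have hzm : z ^ m ≠ 0 := pow_ne_zero _ hz
      refine ⟨z ^ m * y, mul_ne_zero hzm hy, ?_, ?_⟩
      · rw [v.ord_mul _ _ hzm hy, v.ord_pow]
        omega
      · intro w hw
        rw [Finset.mem_insert] at hw
        rw [w.ord_mul _ _ hzm hy, w.ord_pow]
        rcases hw with rfl | hw
        · have : 0 ≤ (m : ℤ) * w.ord z := mul_nonneg (by positivity) (by omega)
          omega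
        · exact hm1 w hw

theorem exists_sep {k K : Type} [Field k] [Field K] [Algebra k K] (v : Place k K)
    (S : Finset (Place k K)) (hv : v ∉ S) :
    ∃ e : K, e ≠ 0 ∧ v.ord e = 0 ∧ ∀ w ∈ S, 1 ≤ w.ord e := by
  obtain ⟨z, hz, h1, h2⟩ := G1_three v S hv
  have h3 := G1_neg v h1
  refine ⟨z / (1 + z), div_ne_zero hz h3.1, ?_, fun w hw => ?_⟩
  · rw [v.ord_div _ _ hz h3.1, h3.2, sub_self]
  · have h4 := G1_pos w (h2 w hw)
    rw [w.ord_div _ _ hz h3.1, h4.2, sub_zero]
    exact h2 w hw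

end Pool.Agent.LibT62
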