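import Pool.Agent.LibT62.G1

/-!
Row G2: finitely many places above a point. `K` is finite over `k(x)`, `x = ι X`. Let `φ = x - x₀`
(or `φ = x⁻¹`), transcendental over `k`, `K` finite over `k(φ) = k(x)`, of degree `d`. If `v_1, ..., v_r`
are distinct places with `0 < v_i.ord φ`, take `e_i` by `exists_sep` (`v_i.ord e_i = 0`,
`v_j.ord e_i ≥ 1` for `j ≠ i`). They are linearly independent over `k(φ)`: clear denominators and common
factors `φ` in a relation `∑ P_i(φ) e_i = 0`, `P_i ∈ k[X]`, not all `P_i(0) = 0`; at `v_i` with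
`P_i(0) ≠ 0` the term `i` has order `0` and the others positive order. So `r ≤ d`. A set all of whose
finite subsets have at most `d` elements is finite (`Set.infinite...exists_subset_card_eq`).
-/

open scoped Classical
open Polynomial IsLocalRing

namespace Pool.Agent.LibT62

open Pool.Agent.LibBH2 Pool.Agent.LibJac77

theorem G2_sum {k K : Type} [Field k] [Field K] [Algebra k K] (v : Place k K) {n : ℤ} {J : Type}
    (s : Finset J) (f : J → K) (h : ∀ i ∈ s, f i = 0 ∨ n ≤ v.ord (f i)) :
    (∑ i ∈ s, f i) = 0 ∨ n ≤ v.ord (∑ i ∈ s, f i) := by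
  induction s using Finset.induction_on with
  | empty => left; simp
  | insert a s ha ih =>
    rw [Finset.sum_insert ha]
    have h1 := ih fun i hi => h i (Finset.mem_insert_of_mem hi)
    have h2 := h a (Finset.mem_insert_self a s)
    by_cases h0 : f a + ∑ i ∈ s, f i = 0
    · exact Or.inl h0
    right
    by_cases ha0 : f a = 0
    · rw [ha0, zero_add] at h0 ⊢
      exact h1.resolve_left h0
    by_cases hs0 : ∑ i ∈ s, f i = 0
    · rw [hs0, add_zero] at h0 ⊢
      exact h2.resolve_left h0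
    exact le_trans (le_min (h2.resolve_left ha0) (h1.resolve_left hs0)) (v.ord_add _ _ ha0 hs0 h0)

theorem G2_aeval {k K : Type} [Field k] [Field K] [Algebra k K] (ι : RatFunc k →ₐ[k] K) (P : k[X]) :
    ι (algebraMap k[X] (RatFunc k) P) = aeval (ι RatFunc.X) P := by
  rw [Polynomial.aeval_algHom_apply, RatFunc.aeval_X_left_eq_algebraMap]

theorem G2_aeval_ne {k K : Type} [Field k] [Field K] [Algebra k K] (ι : RatFunc k →ₐ[k] K) {P : k[X]}
    (hP : P ≠ 0) : aeval (ι RatFunc.X) P ≠ 0 := by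
  rw [← G2_aeval]
  intro h
  have h1 : algebraMap k[X] (RatFunc k) P = 0 := by
    apply ι.toRingHom.injective
    rw [map_zero]
    exact h
  exact hP (RatFunc.algebraMap_injective k (by rw [h1, map_zero]))

theorem G2_card {k K : Type} [Field k] [Field K] [Algebra k K] (ι : RatFunc k →ₐ[k] K)
    (hι : ι.toRingHom.Finite) : ∃ d : ℕ, ∀ S : Finset (Place k K),
      (∀ P : S → k[X], (∃ i, P i ≠ 0) → ∃ i₀, P i₀ ≠ 0 ∧ ∀ i, P i ≠ 0 →
        (i₀ : Place k K).ord (aeval (ι RatFunc.X) (P i₀)) ≤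
          (i₀ : Place k K).ord (aeval (ι RatFunc.X) (P i))) → S.card ≤ d := by
  let _ : Algebra (RatFunc k) K := ι.toRingHom.toAlgebra
  have : Module.Finite (RatFunc k) K := hι
  refine ⟨Module.finrank (RatFunc k) K, fun S hS => ?_⟩
  choose e he0 hev hew using fun v : S => exists_sep (v : Place k K) (S.erase v) (Finset.notMem_erase _ _)
  have hli : LinearIndependent (RatFunc k) e := by
    by_contra hcon
    rw [Fintype.not_linearIndependent_iff] at hcon
    obtain ⟨g, hg, i1, hi1⟩ := hcon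
    obtain ⟨b, hb⟩ := IsLocalization.exist_integer_multiples (nonZeroDivisors k[X]) (Finset.univ : Finset S) g
    choose P hP using fun i : S => hb i (Finset.mem_univ i)
    have hb0 : (b : k[X]) ≠ 0 := nonZeroDivisors.ne_zero b.2
    have hP' : ∀ i, algebraMap k[X] (RatFunc k) (P i) = algebraMap k[X] (RatFunc k) b * g i := by
      intro i
      rw [hP i, Algebra.smul_def]
    have hsum : ∑ i : S, aeval (ι RatFunc.X) (P i) * e i = 0 := by
      have h1 : ∀ i : S, aeval (ι RatFunc.X) (P i) * e i =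
          ι (algebraMap k[X] (RatFunc k) b) * (g i • e i) := by
        intro i
        rw [← G2_aeval, hP' i, map_mul, Algebra.smul_def, mul_assoc]
        rfl
      simp only [h1]
      rw [← Finset.mul_sum, hg, mul_zero]
    have hPi1 : P i1 ≠ 0 := by
      intro h
      have h1 := hP' i1
      rw [h, map_zero] at h1
      rcases mul_eq_zero.1 h1.symm with h2 | h2
      · exact hb0 (RatFunc.algebraMap_injective k (by rw [h2, map_zero]))
      · exact hi1 h2
    obtain ⟨i₀, h0, hmin⟩ := hS P ⟨i1, hPi1⟩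
    set v : Place k K := (i₀ : Place k K) with hv
    have hA : aeval (ι RatFunc.X) (P i₀) ≠ 0 := G2_aeval_ne ι h0
    have hsplit : aeval (ι RatFunc.X) (P i₀) * e i₀ +
        ∑ i ∈ Finset.univ.erase i₀, aeval (ι RatFunc.X) (P i) * e i = 0 := by
      exact (Finset.add_sum_erase Finset.univ (fun i : S => aeval (ι RatFunc.X) (P i) * e i)
        (Finset.mem_univ i₀)).trans hsum
    have hoth := G2_sum v (n := v.ord (aeval (ι RatFunc.X) (P i₀)) + 1) (Finset.univ.erase i₀)
      (fun i => aeval (ι RatFunc.X) (P i) * e i) (by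
        intro i hi
        by_cases hPi : P i = 0
        · left; simp [hPi]
        right
        have h2 := hmin i hPi
        have hne : (i₀ : Place k K) ∈ S.erase (i : Place k K) := by
          rw [Finset.mem_erase]
          exact ⟨fun h => (Finset.mem_erase.1 hi).1 (Subtype.ext h.symm), i₀.2⟩
        have h3 := hew i _ hne
        rw [v.ord_mul _ _ (G2_aeval_ne ι hPi) (he0 i)]
        linarith)
    have hterm : v.ord (aeval (ι RatFunc.X) (P i₀) * e i₀) = v.ord (aeval (ι RatFunc.X) (P i₀)) := by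
      rw [v.ord_mul _ _ hA (he0 i₀), hev i₀, add_zero]
    have hneg : ∑ i ∈ Finset.univ.erase i₀, aeval (ι RatFunc.X) (P i) * e i =
        -(aeval (ι RatFunc.X) (P i₀) * e i₀) := by
      rw [eq_neg_iff_add_eq_zero, add_comm]
      exact hsplit
    rw [hneg] at hoth
    rcases hoth with h4 | h4
    · rw [neg_eq_zero] at h4
      exact mul_ne_zero hA (he0 i₀) h4
    · rw [v.ord_neg, hterm] at h4
      linarith
  have := hli.fintype_card_le_finrank
  simpa using this

theorem G2_fin {k K : Type} [Field k] [Field K] [Algebra k K] (ι : RatFunc k →ₐ[k] K)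
    (hι : ι.toRingHom.Finite) (s : Set (Place k K))
    (hs : ∀ S : Finset (Place k K), (↑S : Set (Place k K)) ⊆ s →
      (∀ P : S → k[X], (∃ i, P i ≠ 0) → ∃ i₀, P i₀ ≠ 0 ∧ ∀ i, P i ≠ 0 →
        (i₀ : Place k K).ord (aeval (ι RatFunc.X) (P i₀)) ≤
          (i₀ : Place k K).ord (aeval (ι RatFunc.X) (P i)))) : s.Finite := by
  obtain ⟨d, hd⟩ := G2_card ι hι
  by_contra hinf
  obtain ⟨t, ht, hc⟩ := Set.Infinite.exists_subset_card_eq (s := s) hinf (d + 1)
  have := hd t (hs t ht)
  omega

theorem G2_ord_zero {k K : Type} [Field k] [Field K] [Algebra k K] (ι : RatFunc k →ₐ[k] K) (x₀ : k)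
    (v : Place k K) (hv : v.Zer (ι RatFunc.X - algebraMap k K x₀)) {P : k[X]} (hP : P ≠ 0) :
    v.ord (aeval (ι RatFunc.X) P) = P.rootMultiplicity x₀ * v.ord (ι RatFunc.X - algebraMap k K x₀) := by
  obtain ⟨q, hq, hnd⟩ := Polynomial.exists_eq_pow_rootMultiplicity_mul_and_not_dvd P hP x₀
  have hq0 : q.eval x₀ ≠ 0 := by
    intro h
    exact hnd (Polynomial.dvd_iff_isRoot.2 h)
  have h1 := Place.ord_eq_zero_of_val (Place.val_aeval hv q) hq0
  have h2 : aeval (ι RatFunc.X) (X - C x₀) = ι RatFunc.X - algebraMap k K x₀ := by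
    simp
  have hne : aeval (ι RatFunc.X) (X - C x₀) ≠ 0 := G2_aeval_ne ι (Polynomial.X_sub_C_ne_zero x₀)
  have hqne : aeval (ι RatFunc.X) q ≠ 0 := G2_aeval_ne ι (by rintro rfl; simp at hq0)
  conv_lhs => rw [hq]
  rw [map_mul, map_pow, v.ord_mul _ _ (pow_ne_zero _ hne) hqne, v.ord_pow, h1, add_zero, h2]

theorem G2_ord_inf {k K : Type} [Field k] [Field K] [Algebra k K] (ι : RatFunc k →ₐ[k] K)
    (v : Place k K) (hv : v.ord (ι RatFunc.X) < 0) {P : k[X]} (hP : P ≠ 0) :
    v.ord (aeval (ι RatFunc.X) P) = P.natDegree * v.ord (ι RatFunc.X) := by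
  set x := ι RatFunc.X with hx
  have hx0 : x ≠ 0 := by
    intro h
    rw [h, v.ord_zero] at hv
    exact lt_irrefl _ hv
  let _ : Invertible x := invertibleOfNonzero hx0
  have h1 : aeval x⁻¹ P.reverse * x ^ P.natDegree = aeval x P := by
    have h := Polynomial.eval₂_reverse_mul_pow (algebraMap k K) x P
    rw [invOf_eq_inv] at h
    exact h
  have h2 : v.Zer (x⁻¹ - algebraMap k K 0) := by
    rw [map_zero, sub_zero]
    right
    rw [v.ord_inv]
    linarith
  have h3 : (P.reverse).eval 0 ≠ 0 := by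
    rw [← Polynomial.coeff_zero_eq_eval_zero, Polynomial.coeff_zero_reverse]
    exact Polynomial.leadingCoeff_ne_zero.2 hP
  have h4 := Place.ord_eq_zero_of_val (Place.val_aeval h2 P.reverse) h3
  have h5 := Place.ne_zero_of_val (Place.val_aeval h2 P.reverse) h3
  rw [← h1, v.ord_mul _ _ h5 (pow_ne_zero _ hx0), h4, v.ord_pow, zero_add]

theorem finite_places {k K : Type} [Field k] [Field K] [Algebra k K] (ι : RatFunc k →ₐ[k] K)
    (hι : ι.toRingHom.Finite) :
    (∀ x₀ : k, {v : Place k K | v.Zer (ι RatFunc.X - algebraMap k K x₀)}.Finite) ∧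
      {v : Place k K | v.ord (ι RatFunc.X) < 0}.Finite := by
  constructor
  · intro x₀
    refine G2_fin ι hι _ fun S hS P hP => ?_
    obtain ⟨i1, hi1⟩ := hP
    obtain ⟨i₀, h1, h2⟩ := Finset.exists_min_image (Finset.univ.filter fun i : S => P i ≠ 0)
      (fun i => (P i).rootMultiplicity x₀) ⟨i1, by simp [hi1]⟩
    rw [Finset.mem_filter] at h1
    refine ⟨i₀, h1.2, fun i hi => ?_⟩
    have hz : (i₀ : Place k K).Zer (ι RatFunc.X - algebraMap k K x₀) := hS i₀.2
    rw [G2_ord_zero ι x₀ _ hz h1.2, G2_ord_zero ι x₀ _ hz hi]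
    have h3 := h2 i (by simp [hi])
    have h4 : 0 ≤ (i₀ : Place k K).ord (ι RatFunc.X - algebraMap k K x₀) := by
      rcases hz with h | h
      · rw [h, (i₀ : Place k K).ord_zero]
      · exact h.le
    exact mul_le_mul_of_nonneg_right (by exact_mod_cast h3) h4
  · refine G2_fin ι hι _ fun S hS P hP => ?_
    obtain ⟨i1, hi1⟩ := hP
    obtain ⟨i₀, h1, h2⟩ := Finset.exists_max_image (Finset.univ.filter fun i : S => P i ≠ 0)
      (fun i => (P i).natDegree) ⟨i1, by simp [hi1]⟩
    rw [Finset.mem_filter] at h1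
    refine ⟨i₀, h1.2, fun i hi => ?_⟩
    have hz : (i₀ : Place k K).ord (ι RatFunc.X) < 0 := hS i₀.2
    rw [G2_ord_inf ι _ hz h1.2, G2_ord_inf ι _ hz hi]
    have h3 := h2 i (by simp [hi])
    exact mul_le_mul_of_nonpos_right (by exact_mod_cast h3) hz.le

end Pool.Agent.LibT62
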