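import Pool.Agent.LibT62.Defs

/-!
Row G3: a field `K` finite over `k(x)` containing square roots of `f(x)` and `g(x)`, with a place above
`x₀` where `f(x₀) ≠ 0`, `g(x₀) ≠ 0`. `K` = splitting field of `(Y^2 - f)(Y^2 - g)` over `RatFunc k`
(`Polynomial.SplittingField`), `ι` = the algebra map. The place: `RatFunc k → LaurentSeries k`,
`x ↦ x₀ + t` (`ratHom` in LibBH2/Exist.lean), both factors split there
(`exists_sqrt_powerSeries`, LibBH2/Exist.lean), so it extends to `K`
(`Polynomial.SplittingField.lift`), then `Place.ofHom` (LibBH2/Exist.lean) with the uniformizer `x - x₀`.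
-/

open scoped Classical
open Polynomial IsLocalRing

namespace Pool.Agent.LibT62

open Pool.Agent.LibBH2 Pool.Agent.LibJac77

theorem exists_ext_splitting {F L : Type} [Field F] [Field L] (p : F[X]) (φ : F →+* L)
    (h : (p.map φ).Splits) :
    ∃ ψ : p.SplittingField →+* L, ∀ r, ψ (algebraMap F _ r) = φ r := by
  let _ := φ.toAlgebra
  exact ⟨(SplittingField.lift p h).toRingHom, fun r => AlgHom.commutes _ r⟩

theorem splits_X_sq_sub {L : Type} [Field L] {A W : L} (h : W ^ 2 = A) :
    (X ^ 2 - C A : L[X]).Splits := by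
  have : (X ^ 2 - C A : L[X]) = (X - C W) * (X + C W) := by
    rw [← h, C_pow]; ring
  rw [this]
  exact (Splits.X_sub_C W).mul (Splits.X_add_C W)

theorem exists_root_X_sq_sub {F : Type} [Field F] (p : F[X]) (A : F) (hp : p ≠ 0)
    (hpq : (X ^ 2 - C A) ∣ p) :
    ∃ w : p.SplittingField, w ^ 2 = algebraMap F _ A := by
  have h1 : ((X ^ 2 - C A : F[X]).map (algebraMap F p.SplittingField)).Splits := by
    refine Splits.of_dvd (SplittingField.splits p) ?_ ?_
    · exact (Polynomial.map_ne_zero_iff (algebraMap F p.SplittingField).injective).2 hp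
    · exact Polynomial.map_dvd _ hpq
  obtain ⟨w, hw⟩ := h1.exists_eval_eq_zero (by
    rw [Polynomial.degree_map, degree_X_pow_sub_C two_pos]
    norm_num)
  refine ⟨w, ?_⟩
  simpa [sub_eq_zero] using hw

theorem exists_cover {k : Type} [Field k] [CharZero k] [IsAlgClosed k] (f g : k[X]) (x₀ : k)
    (hf : f.eval x₀ ≠ 0) (hg : g.eval x₀ ≠ 0) :
    ∃ (K : Type) (_ : Field K) (_ : Algebra k K) (ι : RatFunc k →ₐ[k] K) (w w' : K),
      ι.toRingHom.Finite ∧ w ^ 2 = aeval (ι RatFunc.X) f ∧ w' ^ 2 = aeval (ι RatFunc.X) g ∧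
      ∃ v : Place k K, v.Zer (ι RatFunc.X - algebraMap k K x₀) := by
  -- the field
  let F : RatFunc k := algebraMap k[X] (RatFunc k) f
  let G : RatFunc k := algebraMap k[X] (RatFunc k) g
  let p : (RatFunc k)[X] := (X ^ 2 - C F) * (X ^ 2 - C G)
  have hp : p ≠ 0 := mul_ne_zero (X_pow_sub_C_ne_zero two_pos _) (X_pow_sub_C_ne_zero two_pos _)
  obtain ⟨w, hw⟩ := exists_root_X_sq_sub p F hp (dvd_mul_right _ _)
  obtain ⟨w', hw'⟩ := exists_root_X_sq_sub p G hp (dvd_mul_left _ _)
  -- the place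
  have key : ∀ h : k[X], h.eval x₀ ≠ 0 → ∃ W : LaurentSeries k,
      W ^ 2 = ratHom x₀ 1 one_pos (algebraMap k[X] (RatFunc k) h) := by
    intro h hh
    obtain ⟨y, hy⟩ := IsAlgClosed.exists_pow_nat_eq (h.eval x₀) two_pos
    have hy0 : y ≠ 0 := by rintro rfl; exact hh (by rw [← hy]; norm_num)
    obtain ⟨W, hW, -⟩ := exists_sqrt_powerSeries
      ((h.comp (C x₀ + X ^ 1) : k[X]) : PowerSeries k) y hy0 (by
        rw [Polynomial.constantCoeff_coe, coeff_zero_eq_eval_zero, eval_comp]; simp [hy])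
    refine ⟨HahnSeries.ofPowerSeries ℤ k W, ?_⟩
    rw [ratHom_poly, polyHom_apply, ← map_pow, hW]
  obtain ⟨W, hW⟩ := key f hf
  obtain ⟨W', hW'⟩ := key g hg
  obtain ⟨ψ, hψ⟩ := exists_ext_splitting p (ratHom x₀ 1 one_pos) (by
    have : p.map (ratHom x₀ 1 one_pos) = (X ^ 2 - C (ratHom x₀ 1 one_pos F)) *
        (X ^ 2 - C (ratHom x₀ 1 one_pos G)) := by simp [p]
    rw [this]
    exact (splits_X_sq_sub hW).mul (splits_X_sq_sub hW'))
  have hX : ∀ h : k[X], aeval (algebraMap (RatFunc k) p.SplittingField RatFunc.X) h =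
      algebraMap (RatFunc k) p.SplittingField (algebraMap k[X] (RatFunc k) h) := by
    intro h
    rw [Polynomial.aeval_algebraMap_apply]
    congr 1
    rw [← RatFunc.algebraMap_X, Polynomial.aeval_algebraMap_apply]
    simp
  have hconst : ∀ c : k, ψ (algebraMap k p.SplittingField c) = HahnSeries.C c := by
    intro c
    have h1 : algebraMap k p.SplittingField c =
        algebraMap (RatFunc k) p.SplittingField (algebraMap k[X] (RatFunc k) (C c)) := by
      rw [IsScalarTower.algebraMap_apply k (RatFunc k) p.SplittingField]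
      congr 1
    rw [h1, hψ, ratHom_poly, polyHom_apply]
    simp
  have hs : ψ (algebraMap (RatFunc k) p.SplittingField RatFunc.X - algebraMap k _ x₀) =
      HahnSeries.single 1 1 := by
    have h1 : algebraMap (RatFunc k) p.SplittingField RatFunc.X - algebraMap k _ x₀ =
        algebraMap (RatFunc k) p.SplittingField (algebraMap k[X] (RatFunc k) (X - C x₀)) := by
      rw [← hX]; simp
    rw [h1, hψ, ratHom_poly, polyHom_apply]
    have h2 : ((X - C x₀ : k[X]).comp (C x₀ + X ^ 1) : k[X]) = X := by simp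
    rw [h2, Polynomial.coe_X, HahnSeries.ofPowerSeries_X]
  have hord : (ψ (algebraMap (RatFunc k) p.SplittingField RatFunc.X - algebraMap k _ x₀)).order
      = 1 := by
    rw [hs, HahnSeries.order_single one_ne_zero]
  refine ⟨p.SplittingField, inferInstance, inferInstance,
    IsScalarTower.toAlgHom k (RatFunc k) p.SplittingField, w, w', ?_, ?_, ?_,
    Place.ofHom ψ hconst ⟨_, hord⟩, Or.inr ?_⟩
  · exact RingHom.finite_algebraMap.2 inferInstance
  · rw [hw]; exact (hX f).symm
  · rw [hw']; exact (hX g).symm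
  · rw [Place.ofHom_ord]
    exact hord.symm ▸ one_pos

end Pool.Agent.LibT62
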