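import Pool.Agent.LibT62.A4

/-!
Row M1: good places exist. Follow the proof of `exists_good` (LibJac77/D1a.lean) with
`exists_place_above T`, `T` = coefficients of `f`, of the Bezout polynomials of `f, f'`, the numbers
`a, b, c, d` and their inverses, `c⁻¹ * ..`: the coefficients of `Ht`, and: `H = Ht a b c d` is not a
square; let `G = 1 + g₁ X + g₂ X^2` be the polynomial with `H - G^2 = r₃ X^3 + r₄ X^4`
(`g₁ = h₁ / 2`, ...); `r₃` or `r₄` is not zero; put `g₁`, `g₂`, `1/2` and the inverse of the nonzero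
`r_i` into `T` too. Modulo `V`: if the reduction of `H` is a square `G'^2`, `G'(0) = ± 1`,
`natDegree G' ≤ 2`, then `G' = ±` the reduction of `G` (compare coefficients, `2 ≠ 0`), so
`r₃, r₄` reduce to `0`, contradiction.
-/

open scoped Classical
open Polynomial IsLocalRing

namespace Pool.Agent.LibT62

open Pool.Agent.LibBH2 Pool.Agent.LibJac77

/-- `8 r₃` -/
private def M1_r3 {R : Type} [CommRing R] (H : R[X]) : R :=
  8 * H.coeff 3 - H.coeff 1 * (4 * H.coeff 2 - H.coeff 1 ^ 2)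

/-- `64 r₄` -/
private def M1_r4 {R : Type} [CommRing R] (H : R[X]) : R :=
  64 * H.coeff 4 - (4 * H.coeff 2 - H.coeff 1 ^ 2) ^ 2

private theorem M1_r3_map {R S : Type} [CommRing R] [CommRing S] (φ : R →+* S) (H : R[X]) :
    M1_r3 (H.map φ) = φ (M1_r3 H) := by
  simp [M1_r3, map_ofNat φ 8, map_ofNat φ 4]

private theorem M1_r4_map {R S : Type} [CommRing R] [CommRing S] (φ : R →+* S) (H : R[X]) :
    M1_r4 (H.map φ) = φ (M1_r4 H) := by
  simp [M1_r4, map_ofNat φ 64, map_ofNat φ 4]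

/-- squares have `r₃ = r₄ = 0` -/
private theorem M1_of_sq {k : Type} [Field k] {H : k[X]} (hd : H.natDegree ≤ 4)
    (h0 : H.coeff 0 = 1) (hs : IsSquare H) : M1_r3 H = 0 ∧ M1_r4 H = 0 := by
  obtain ⟨P, rfl⟩ := hs
  have hP : P.natDegree ≤ 2 := by
    rw [natDegree_mul' ?_] at hd
    · omega
    · intro h
      have h1 : P.leadingCoeff = 0 := by simpa using h
      rw [leadingCoeff_eq_zero] at h1
      rw [h1] at h0
      simp at h0
  have p3 : P.coeff 3 = 0 := coeff_eq_zero_of_natDegree_lt (by omega)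
  have p4 : P.coeff 4 = 0 := coeff_eq_zero_of_natDegree_lt (by omega)
  have e0 : P.coeff 0 * P.coeff 0 = 1 := by rw [← mul_coeff_zero]; exact h0
  have e1 : (P * P).coeff 1 = P.coeff 0 * P.coeff 1 + P.coeff 1 * P.coeff 0 := by
    simp [coeff_mul, Finset.Nat.antidiagonal_succ]
  have e2 : (P * P).coeff 2 = P.coeff 0 * P.coeff 2 + (P.coeff 1 * P.coeff 1 +
      P.coeff 2 * P.coeff 0) := by
    simp [coeff_mul, Finset.Nat.antidiagonal_succ]
  have e3 : (P * P).coeff 3 = 2 * (P.coeff 1 * P.coeff 2) := by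
    simp [coeff_mul, Finset.Nat.antidiagonal_succ, p3]
    ring
  have e4 : (P * P).coeff 4 = P.coeff 2 * P.coeff 2 := by
    simp [coeff_mul, Finset.Nat.antidiagonal_succ, p3, p4]
  constructor
  · unfold M1_r3
    rw [e1, e2, e3]
    linear_combination (-16 * P.coeff 1 * P.coeff 2 + 8 * P.coeff 0 * P.coeff 1 ^ 3) * e0
  · unfold M1_r4
    rw [e1, e2, e4]
    linear_combination (-64 * P.coeff 2 ^ 2 - 16 * P.coeff 1 ^ 4 * (P.coeff 0 ^ 2 - 1) +
      64 * P.coeff 0 * P.coeff 1 ^ 2 * P.coeff 2) * e0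

/-- `r₃ = r₄ = 0` implies square -/
private theorem M1_sq_of {k : Type} [Field k] (h2 : (2 : k) ≠ 0) {H : k[X]} (hd : H.natDegree ≤ 4)
    (h0 : H.coeff 0 = 1) (h3 : M1_r3 H = 0) (h4 : M1_r4 H = 0) : IsSquare H := by
  unfold M1_r3 at h3
  unfold M1_r4 at h4
  have h8 : (8 : k) ≠ 0 := by
    have : (8 : k) = 2 ^ 3 := by norm_num
    rw [this]; exact pow_ne_zero _ h2
  have h64 : (64 : k) ≠ 0 := by
    have : (64 : k) = 2 ^ 6 := by norm_num
    rw [this]; exact pow_ne_zero _ h2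
  obtain ⟨g1, hg1⟩ : ∃ g : k, H.coeff 1 = 2 * g := ⟨H.coeff 1 / 2, by field_simp⟩
  obtain ⟨g2, hg2⟩ : ∃ g : k, 4 * H.coeff 2 - H.coeff 1 ^ 2 = 8 * g :=
    ⟨(4 * H.coeff 2 - H.coeff 1 ^ 2) / 8, by field_simp⟩
  have h4' : (4 : k) ≠ 0 := by
    have : (4 : k) = 2 ^ 2 := by norm_num
    rw [this]; exact pow_ne_zero _ h2
  have c2 : H.coeff 2 = g1 ^ 2 + 2 * g2 := by
    apply mul_left_cancel₀ h4'
    rw [hg1] at hg2
    linear_combination hg2
  have c3 : H.coeff 3 = 2 * g1 * g2 := by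
    apply mul_left_cancel₀ h8
    rw [hg2, hg1] at h3
    linear_combination h3
  have c4 : H.coeff 4 = g2 ^ 2 := by
    apply mul_left_cancel₀ h64
    rw [hg2] at h4
    linear_combination h4
  refine ⟨1 + C g1 * X + C g2 * X ^ 2, ?_⟩
  have hH := as_sum_range_C_mul_X_pow' (p := H) (n := 5) (by omega)
  rw [hH]
  simp only [Finset.sum_range_succ, Finset.sum_range_zero, h0, hg1, c2, c3, c4, C_mul, C_add,
    C_pow, C_1]
  have hC2 : (C (2 : k) : k[X]) = 2 := map_ofNat C 2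
  rw [hC2]
  ring

private theorem M1_lift {K : Type} [Field K] (V : ValuationSubring K) {c1 c2 c3 c4 : K}
    (h1 : c1 ∈ V) (h2 : c2 ∈ V) (h3 : c3 ∈ V) (h4 : c4 ∈ V) :
    ∃ HV : V[X], HV.map (algebraMap V K) =
      (1 - C c1 * X) * (1 - C c2 * X) * (1 - C c3 * X) * (1 - C c4 * X) ∧
      HV.natDegree ≤ 4 ∧ HV.coeff 0 = 1 := by
  refine ⟨(1 - C (⟨c1, h1⟩ : V) * X) * (1 - C (⟨c2, h2⟩ : V) * X) * (1 - C (⟨c3, h3⟩ : V) * X) *
    (1 - C (⟨c4, h4⟩ : V) * X), ?_, ?_, ?_⟩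
  · simp only [Polynomial.map_mul, Polynomial.map_sub, Polynomial.map_one, map_C, map_X]
    rfl
  · compute_degree
  · simp [mul_coeff_zero]

theorem exists_goodPl {a b c d : Qb} (hsq : Squarefree (F5 a b c d))
    (hH : ¬ IsSquare (Ht a b c d)) :
    ∃ M : ℕ, M ≠ 0 ∧ ∀ p : ℕ, p.Prime → ¬ p ∣ M → ∃ V : ValuationSubring Qb,
      GoodPl a b c d p V := by
  have hsep : (F5 a b c d).Separable := (PerfectField.separable_iff_squarefree).mpr hsq
  obtain ⟨A, B, hab⟩ := hsep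
  obtain ⟨M, hM, h⟩ := exists_place_above ((F5 a b c d).coeffs ∪ A.coeffs ∪ B.coeffs ∪
    {a, b, c, d, a⁻¹, b⁻¹, c⁻¹, d⁻¹} ∪ {(M1_r3 (Ht a b c d))⁻¹, (M1_r4 (Ht a b c d))⁻¹})
  refine ⟨2 * M, by positivity, ?_⟩
  intro p hp hpM
  obtain ⟨V, hV, hchar⟩ := h p hp (fun hd => hpM (hd.mul_left 2))
  have hco : ∀ g : (AlgebraicClosure ℚ)[X], (∀ x ∈ g.coeffs, x ∈ V) → ∀ n, g.coeff n ∈ V := by
    intro g hg n
    by_cases h0 : g.coeff n = 0
    · rw [h0]; exact zero_mem V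
    · exact hg _ (coeff_mem_coeffs h0)
  obtain ⟨F, hF⟩ := exists_lift_poly V (F5 a b c d)
    (hco (F5 a b c d) fun x hx => hV x (by simp [hx]))
  obtain ⟨A', hA⟩ := exists_lift_poly V A (hco A fun x hx => hV x (by simp [hx]))
  obtain ⟨B', hB⟩ := exists_lift_poly V B (hco B fun x hx => hV x (by simp [hx]))
  have hinj : Function.Injective (algebraMap V (AlgebraicClosure ℚ)) := Subtype.val_injective
  have h1 : A' * F + B' * derivative F = 1 := by
    apply map_injective _ hinj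
    rw [Polynomial.map_add, Polynomial.map_mul, Polynomial.map_mul, ← derivative_map, hA, hB, hF,
      Polynomial.map_one]
    exact hab
  have h2 : (2 : RF V) ≠ 0 := by
    intro h2
    have h3 : ((2 : ℕ) : RF V) = 0 := by exact_mod_cast h2
    rw [CharP.cast_eq_zero_iff (RF V) p] at h3
    exact hpM (h3.mul_right M)
  have ma : a ∈ V := hV a (by simp)
  have mb : b ∈ V := hV b (by simp)
  have mc : c ∈ V := hV c (by simp)
  have md : d ∈ V := hV d (by simp)
  have ma' : a⁻¹ ∈ V := hV a⁻¹ (by simp)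
  have mb' : b⁻¹ ∈ V := hV b⁻¹ (by simp)
  have mc' : c⁻¹ ∈ V := hV c⁻¹ (by simp)
  have md' : d⁻¹ ∈ V := hV d⁻¹ (by simp)
  have m3 : (M1_r3 (Ht a b c d))⁻¹ ∈ V := hV _ (by simp)
  have m4 : (M1_r4 (Ht a b c d))⁻¹ ∈ V := hV _ (by simp)
  have mabc : a * b / c ∈ V := by
    rw [div_eq_mul_inv]
    exact mul_mem (mul_mem ma mb) mc'
  have mabd : a * b / d ∈ V := by
    rw [div_eq_mul_inv]
    exact mul_mem (mul_mem ma mb) md'
  obtain ⟨HV, hHV, hHd, hH0⟩ : ∃ HV : V[X], HV.map (algebraMap V (AlgebraicClosure ℚ)) =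
      Ht a b c d ∧ HV.natDegree ≤ 4 ∧ HV.coeff 0 = 1 := M1_lift V mc md mabc mabd
  -- the residue of an element whose inverse in `Qb` lies in `V` is not zero
  have hunit : ∀ x : V, (x : AlgebraicClosure ℚ) ≠ 0 → ((x : AlgebraicClosure ℚ))⁻¹ ∈ V →
      residue V x ≠ 0 := by
    intro x hx0 hx hres
    have e : x * ⟨_, hx⟩ = 1 := Subtype.ext (mul_inv_cancel₀ hx0)
    have := congrArg (residue V) e
    rw [map_mul, hres, zero_mul, map_one] at this
    exact zero_ne_one this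
  refine ⟨V, ⟨⟨F, hF, ⟨A'.map (residue V), B'.map (residue V), ?_⟩, h2⟩, hchar, ma, mb, mc, md,
    ma', mb', mc', md', HV, hHV, ?_⟩⟩
  · rw [derivative_map, ← Polynomial.map_mul, ← Polynomial.map_mul, ← Polynomial.map_add, h1,
      Polynomial.map_one]
  · intro hs
    obtain ⟨e3, e4⟩ := M1_of_sq (le_trans natDegree_map_le hHd)
      (by rw [coeff_map, hH0, map_one]) hs
    rw [M1_r3_map] at e3
    rw [M1_r4_map] at e4
    have k3 : algebraMap V (AlgebraicClosure ℚ) (M1_r3 HV) = M1_r3 (Ht a b c d) := by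
      rw [← hHV, M1_r3_map]
    have k4 : algebraMap V (AlgebraicClosure ℚ) (M1_r4 HV) = M1_r4 (Ht a b c d) := by
      rw [← hHV, M1_r4_map]
    have z3 : M1_r3 (Ht a b c d) = 0 := by
      by_contra hne
      refine hunit (M1_r3 HV) ?_ ?_ e3
      · intro h0
        apply hne
        rw [← k3]
        exact h0
      · have : ((M1_r3 HV : V) : AlgebraicClosure ℚ) = M1_r3 (Ht a b c d) := k3
        rw [this]
        exact m3
    have z4 : M1_r4 (Ht a b c d) = 0 := by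
      by_contra hne
      refine hunit (M1_r4 HV) ?_ ?_ e4
      · intro h0
        apply hne
        rw [← k4]
        exact h0
      · have : ((M1_r4 HV : V) : AlgebraicClosure ℚ) = M1_r4 (Ht a b c d) := k4
        rw [this]
        exact m4
    exact hH (M1_sq_of two_ne_zero (Ht_natDegree a b c d) (Ht_coeff_zero a b c d) z3 z4)

end Pool.Agent.LibT62
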