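import Pool.Agent.LibT62.A0
import Pool.Agent.LibT62.A1
import Pool.Agent.LibT62.A4

/-!
Row M2: the approximants over a field `K` containing `a, b, c, d`. Over the
field `K` there is `H₀` with `H₀.map = Ht` (`Ht` of the elements of `K`), `exists_sqrt`
gives `Sq₀`, `exists_pade Sq₀ n`; map to `Qb`: `Pade` maps (coefficients), and `Sq₀.map = Sq` by
`sqrt_unique`.
-/

open scoped Classical
open Polynomial IsLocalRing

namespace Pool.Agent.LibT62

open Pool.Agent.LibBH2 Pool.Agent.LibJac77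

private theorem M2_Ht_map {k K : Type} [Field k] [Field K] (φ : k →+* K) (a b c d : k) :
    (Ht a b c d).map φ = Ht (φ a) (φ b) (φ c) (φ d) := by
  simp [Ht, Polynomial.map_mul, Polynomial.map_sub]

private theorem M2_Pade_map {k K : Type} [Field k] [Field K] (φ : k →+* K) {Sq : PowerSeries k}
    {n : ℕ} {A B : k[X]} (h : Pade Sq n A B) :
    Pade (PowerSeries.map φ Sq) n (A.map φ) (B.map φ) := by
  refine ⟨le_trans natDegree_map_le h.degA, ?_, ?_⟩
  · rw [natDegree_map]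
    exact h.degB
  · obtain ⟨r, hr⟩ := h.dvd
    refine ⟨PowerSeries.map φ r, ?_⟩
    have := congrArg (PowerSeries.map φ) hr
    rw [map_sub, map_mul, map_mul, map_pow, PowerSeries.map_X] at this
    rw [Polynomial.polynomial_map_coe, Polynomial.polynomial_map_coe]
    exact this

theorem exists_family {a b c d : Qb} {K : IntermediateField ℚ Qb} (ha : a ∈ K) (hb : b ∈ K)
    (hc' : c ∈ K) (hd : d ∈ K) (Sq : PowerSeries Qb)
    (hSq : Sq ^ 2 = (Ht a b c d : PowerSeries Qb)) (hc : PowerSeries.constantCoeff Sq = 1) :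
    ∃ A B : ℕ → Qb[X], ∀ n, 1 ≤ n → (A n ≠ 0 ∨ B n ≠ 0) ∧ Pade Sq n (A n) (B n) ∧
      ∀ i, (A n).coeff i ∈ K ∧ (B n).coeff i ∈ K := by
  have h2 : IsUnit (2 : K) := IsUnit.mk0 _ two_ne_zero
  set φ : K →+* AlgebraicClosure ℚ := (algebraMap K (AlgebraicClosure ℚ)) with hφ
  set H₀ : K[X] := Ht ⟨a, ha⟩ ⟨b, hb⟩ ⟨c, hc'⟩ ⟨d, hd⟩ with hH₀
  have hHmap : H₀.map φ = Ht a b c d := by
    rw [hH₀, M2_Ht_map]
    rfl
  obtain ⟨S₀, hS₀, hS₀c⟩ := exists_sqrt h2 (H₀ : PowerSeries K) (by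
    rw [← PowerSeries.coeff_zero_eq_constantCoeff_apply, Polynomial.coeff_coe, hH₀, Ht_coeff_zero])
  have hS : PowerSeries.map φ S₀ = Sq := by
    refine sqrt_unique two_ne_zero _ _ ?_ ?_ hc
    · rw [← map_pow, hS₀, ← Polynomial.polynomial_map_coe, hHmap, hSq]
    · rw [← PowerSeries.coeff_zero_eq_constantCoeff_apply, PowerSeries.coeff_map,
        PowerSeries.coeff_zero_eq_constantCoeff_apply, hS₀c, map_one]
  have hex : ∀ n : ℕ, ∃ A B : K[X], 1 ≤ n → (A ≠ 0 ∨ B ≠ 0) ∧ Pade S₀ n A B := by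
    intro n
    by_cases hn : 1 ≤ n
    · obtain ⟨A, B, h1, h2⟩ := exists_pade S₀ n hn
      exact ⟨A, B, fun _ => ⟨h1, h2⟩⟩
    · exact ⟨0, 0, fun h => absurd h hn⟩
  choose A₀ B₀ hAB using hex
  have hinj : Function.Injective φ := φ.injective
  refine ⟨fun n => (A₀ n).map φ, fun n => (B₀ n).map φ, ?_⟩
  intro n hn
  obtain ⟨h1, h3⟩ := hAB n hn
  refine ⟨?_, ?_, ?_⟩
  · rcases h1 with h1 | h1
    · left
      rwa [Ne, Polynomial.map_eq_zero_iff hinj]
    · right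
      rwa [Ne, Polynomial.map_eq_zero_iff hinj]
  · rw [← hS]
    exact M2_Pade_map φ h3
  · intro i
    simp only [coeff_map]
    exact ⟨((A₀ n).coeff i).2, ((B₀ n).coeff i).2⟩

end Pool.Agent.LibT62
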