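import Pool.Agent.LibT62.A0
import Pool.Agent.LibT62.A3
import Pool.Agent.LibT62.A4
import Pool.Agent.LibT62.B2
import Pool.Agent.LibT62.B5

/-!
Row M3: the integral points at a good place. `HV` from `hV.nsq` (`natDegree`, `coeff 0` by injectivity
of `V → Qb`), `SqV` by `exists_sqrt` over `V` (`2` is a unit of `V`: `hV.good`), `SqV.map = Sq` by
`sqrt_unique`; the reductions; `residue_pell` gives `N, u, v`; for `n = N j`: `norm_form`, `no_pell`
(`c₁ ≠ 0`) and `exists_intPt`.
-/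

open scoped Classical
open Polynomial IsLocalRing

namespace Pool.Agent.LibT62

open Pool.Agent.LibBH2 Pool.Agent.LibJac77

theorem good_points {a b c d : Qb} (hH : ¬ IsSquare (Ht a b c d)) (hNP : NoPell (Ht a b c d))
    (Sq : PowerSeries Qb) (hSq : Sq ^ 2 = (Ht a b c d : PowerSeries Qb))
    (hc : PowerSeries.constantCoeff Sq = 1) {p : ℕ} (hp : p.Prime) {V : ValuationSubring Qb}
    (hV : GoodPl a b c d p V) :
    ∃ (HV : V[X]) (SqV : PowerSeries V) (N : ℕ), 1 ≤ N ∧ HV.natDegree ≤ 4 ∧ HV.coeff 0 = 1 ∧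
      SqV ^ 2 = (HV : PowerSeries V) ∧ PowerSeries.constantCoeff SqV = 1 ∧ (2 : RF V) ≠ 0 ∧
      HV.map (algebraMap V Qb) = Ht a b c d ∧
      ∀ n, 1 ≤ n → N ∣ n → ∀ A B : Qb[X], (A ≠ 0 ∨ B ≠ 0) → Pade Sq n A B →
        ∃ (A' B' : V[X]) (cc e S : V), IntPt V HV SqV n A' B' cc e S ∧
          (e : Qb) = eOf (Ht a b c d) n A B ∧ (S : Qb) = SOf (Ht a b c d) n A B ∧
          B.eval (e : Qb) ≠ 0 := by
  obtain ⟨HV, hmap, hns⟩ := hV.nsq
  obtain ⟨_, _, _, h2⟩ := hV.good
  have hinj : Function.Injective (algebraMap V Qb) := fun x y h => Subtype.ext h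
  have h2u : IsUnit (2 : V) := by
    rw [← residue_ne_zero_iff_isUnit, map_ofNat]
    exact h2
  have hdV : HV.natDegree ≤ 4 := by
    rw [← Polynomial.natDegree_map_eq_of_injective hinj, hmap]
    exact Ht_natDegree a b c d
  have h0V : HV.coeff 0 = 1 := by
    apply hinj
    rw [← Polynomial.coeff_map, hmap, Ht_coeff_zero, map_one]
  obtain ⟨SqV, hSqV, hcV⟩ := exists_sqrt h2u (HV : PowerSeries V)
    (by rw [Polynomial.constantCoeff_coe, h0V])
  have h2Q : (2 : Qb) ≠ 0 := two_ne_zero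
  have hSm : PowerSeries.map (algebraMap V Qb) SqV = Sq := by
    refine sqrt_unique h2Q _ _ ?_ ?_ hc
    · rw [← map_pow, hSqV, ← Polynomial.polynomial_map_coe, hmap, hSq]
    · rw [← PowerSeries.coeff_zero_eq_constantCoeff_apply, PowerSeries.coeff_map,
        PowerSeries.coeff_zero_eq_constantCoeff_apply, hcV, map_one]
  have : Fact p.Prime := ⟨hp⟩
  have : CharP (RF V) p := hV.char
  obtain ⟨N, u, v, hu⟩ := residue_pell V p h2 (HV.map (residue V)) hns
    (Polynomial.natDegree_map_le.trans hdV) (by rw [Polynomial.coeff_map, h0V, map_one])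
    (PowerSeries.map (residue V) SqV)
    (by rw [← map_pow, hSqV, ← Polynomial.polynomial_map_coe])
    (by rw [← PowerSeries.coeff_zero_eq_constantCoeff_apply, PowerSeries.coeff_map,
        PowerSeries.coeff_zero_eq_constantCoeff_apply, hcV, map_one])
  refine ⟨HV, SqV, N, hu.pos, hdV, h0V, hSqV, hcV, h2, hmap, ?_⟩
  intro n hn hNn A B h hP
  obtain ⟨j, rfl⟩ := hNn
  have hj : 1 ≤ j := by
    rcases Nat.eq_zero_or_pos j with h0 | h0
    · subst h0
      simp at hn
    · exact h0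
  obtain ⟨c₀, c₁, _, hN⟩ := norm_form hH (Ht_natDegree a b c d) hSq h hP
  have hc₁ := no_pell h2Q hH (Ht_natDegree a b c d) (Ht_coeff_zero a b c d) hNP hSq hn h hP hN
  have key := exists_intPt V h2 HV hdV h0V hns SqV hSqV hcV hu hj h (c₀ := c₀) (c₁ := c₁)
    (by rw [show SqV.map (algebraMap V Qb) = Sq from hSm]; exact hP) hc₁ (by rw [hmap]; exact hN)
  rw [hmap] at key
  exact key

end Pool.Agent.LibT62
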