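import Pool.Agent.LibT62.C2
import Pool.Agent.LibT62.C3
import Pool.Agent.LibT62.C4
import Pool.Agent.LibT62.M1
import Pool.Agent.LibT62.M3

/-!
Row M4: for every number field `K₁ ⊇ K₀` and every `m₀` there is a multiple `n` of `m₀` such that
`f(x_n)`, `x_n = 1 / e_n`, is not a square in `K₁`. Take a prime `p` dividing neither the `M` of
`exists_goodPl` nor the `M` of `unramified K₁` (`Nat.exists_infinite_primes`), `V` above it,
`N` of `good_points`. Apply `parity` to `e k := ` the integral `e` of `n = m₀ N k` (`k ≥ 1`, chosen by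
`choose`; `e 0 := 1`): `e k ∈ K₀` because `eOf` is a quotient of coefficients in `K₀`; the addition law
by `add_law`.
-/

open scoped Classical
open Polynomial IsLocalRing

namespace Pool.Agent.LibT62

open Pool.Agent.LibBH2 Pool.Agent.LibJac77

theorem exists_map_of_coeff_mem {K₀ : IntermediateField ℚ Qb} (A : Qb[X])
    (hA : ∀ i, A.coeff i ∈ K₀) : ∃ A₀ : K₀[X], A₀.map (algebraMap K₀ Qb) = A := by
  have h : A ∈ Polynomial.lifts (algebraMap K₀ Qb) := by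
    rw [Polynomial.lifts_iff_coeff_lifts]
    intro i
    exact ⟨⟨A.coeff i, hA i⟩, rfl⟩
  rw [Polynomial.mem_lifts] at h
  exact h

theorem eOf_mem {a b c d : Qb} {K₀ : IntermediateField ℚ Qb}
    (ha0 : a ∈ K₀) (hb0 : b ∈ K₀) (hc0 : c ∈ K₀) (hd0 : d ∈ K₀) {A B : Qb[X]} (n : ℕ)
    (hA : ∀ i, A.coeff i ∈ K₀) (hB : ∀ i, B.coeff i ∈ K₀) :
    eOf (Ht a b c d) n A B ∈ K₀ := by
  obtain ⟨A₀, hA₀⟩ := exists_map_of_coeff_mem A hA
  obtain ⟨B₀, hB₀⟩ := exists_map_of_coeff_mem B hB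
  have hH : (Ht (⟨a, ha0⟩ : K₀) ⟨b, hb0⟩ ⟨c, hc0⟩ ⟨d, hd0⟩).map (algebraMap K₀ Qb) =
      Ht a b c d := by
    have h1 : algebraMap K₀ Qb (⟨a, ha0⟩ * ⟨b, hb0⟩ / ⟨c, hc0⟩) = a * b / c := rfl
    have h2 : algebraMap K₀ Qb (⟨a, ha0⟩ * ⟨b, hb0⟩ / ⟨d, hd0⟩) = a * b / d := rfl
    have h3 : algebraMap K₀ Qb ⟨c, hc0⟩ = c := rfl
    have h4 : algebraMap K₀ Qb ⟨d, hd0⟩ = d := rfl
    simp only [Ht, Polynomial.map_mul, Polynomial.map_sub, Polynomial.map_one,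
      Polynomial.map_C, Polynomial.map_X, h1, h2, h3, h4]
  have h : A ^ 2 - Ht a b c d * B ^ 2 =
      (A₀ ^ 2 - Ht (⟨a, ha0⟩ : K₀) ⟨b, hb0⟩ ⟨c, hc0⟩ ⟨d, hd0⟩ * B₀ ^ 2).map
        (algebraMap K₀ Qb) := by
    rw [Polynomial.map_sub, Polynomial.map_mul, Polynomial.map_pow, Polynomial.map_pow, hA₀, hB₀,
      hH]
  rw [eOf, h, Polynomial.coeff_map, Polynomial.coeff_map]
  exact K₀.div_mem (K₀.neg_mem (SetLike.coe_mem _)) (SetLike.coe_mem _)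

theorem exists_nonsquare {a b c d : Qb} (hsq : Squarefree (F5 a b c d))
    (hH : ¬ IsSquare (Ht a b c d)) (hNP : NoPell (Ht a b c d))
    (Sq : PowerSeries Qb) (hSq : Sq ^ 2 = (Ht a b c d : PowerSeries Qb))
    (hc : PowerSeries.constantCoeff Sq = 1) {K₀ : IntermediateField ℚ Qb}
    (ha0 : a ∈ K₀) (hb0 : b ∈ K₀) (hc0 : c ∈ K₀) (hd0 : d ∈ K₀) {A B : ℕ → Qb[X]}
    (hAB : ∀ n, 1 ≤ n → (A n ≠ 0 ∨ B n ≠ 0) ∧ Pade Sq n (A n) (B n) ∧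
      ∀ i, (A n).coeff i ∈ K₀ ∧ (B n).coeff i ∈ K₀)
    (K₁ : IntermediateField ℚ Qb) [FiniteDimensional ℚ K₁] (hK : K₀ ≤ K₁) (m₀ : ℕ)
    (hm₀ : 1 ≤ m₀) :
    ∃ n, 1 ≤ n ∧ m₀ ∣ n ∧
      ∀ z : Qb, z ∈ K₁ → z ^ 2 ≠ (F5 a b c d).eval (eOf (Ht a b c d) n (A n) (B n))⁻¹ := by
  obtain ⟨M, hM, hgood⟩ := exists_goodPl hsq hH
  obtain ⟨M', hM', hur⟩ := unramified K₁
  obtain ⟨p, hple, hp⟩ := Nat.exists_infinite_primes (M * M' + 1)
  have hMM : 0 < M * M' := Nat.pos_of_ne_zero (mul_ne_zero hM hM')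
  have hpMM : ¬ p ∣ M * M' := fun h => by
    have := Nat.le_of_dvd hMM h
    omega
  have hpM : ¬ p ∣ M := fun h => hpMM (h.mul_right _)
  have hpM' : ¬ p ∣ M' := fun h => hpMM (h.mul_left _)
  obtain ⟨V, hV⟩ := hgood p hp hpM
  obtain ⟨HV, SqV, N, hN, hHd, hH0, hSqV, hcV, h2, -, hpts⟩ :=
    good_points hH hNP Sq hSq hc hp hV
  have hmN : 1 ≤ m₀ * N := Nat.mul_pos hm₀ hN
  have hk1 : ∀ k, 1 ≤ k → 1 ≤ m₀ * N * k := fun k hk => Nat.mul_pos hmN hk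
  have hex : ∀ k : ℕ, ∃ (A' B' : V[X]) (cc e S : V), 1 ≤ k →
      (IntPt V HV SqV (m₀ * N * k) A' B' cc e S ∧
        (e : Qb) = eOf (Ht a b c d) (m₀ * N * k) (A (m₀ * N * k)) (B (m₀ * N * k))) := by
    intro k
    by_cases hk : 1 ≤ k
    · obtain ⟨h1, h3, -⟩ := hAB _ (hk1 k hk)
      obtain ⟨A', B', cc, e, S, hI, he, -, -⟩ :=
        hpts (m₀ * N * k) (hk1 k hk) (Dvd.intro _ (by ring : N * (m₀ * k) = m₀ * N * k)) _ _ h1 h3
      exact ⟨A', B', cc, e, S, fun _ => ⟨hI, he⟩⟩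
    · exact ⟨0, 0, 0, 0, 0, fun h => absurd h hk⟩
  choose A' B' cc e S he using hex
  obtain ⟨k, hk, hz⟩ := parity V p hp hV.char K₁ (hur p hp hpM' V hV.char) e
    (fun k hk => (he k hk).1.small) (fun k hk => (he k hk).1.ne)
    (fun k hk => by
      rw [(he k hk).2]
      obtain ⟨-, -, h4⟩ := hAB _ (hk1 k hk)
      exact hK (eOf_mem ha0 hb0 hc0 hd0 _ (fun i => (h4 i).1) (fun i => (h4 i).2)))
    (fun i j hi hj => by
      have h5 := (he (i + j) (by omega)).1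
      rw [mul_add] at h5
      exact add_law V h2 HV hHd hH0 SqV hSqV hcV (hk1 i hi) (hk1 j hj) (he i hi).1 (he j hj).1 h5)
    a b c d hV.ma hV.mb hV.mc hV.md
  refine ⟨m₀ * N * k, hk1 k hk, Dvd.intro _ (by ring : m₀ * (N * k) = m₀ * N * k), ?_⟩
  intro z hzK
  rw [← (he k hk).2]
  exact hz z hzK

end Pool.Agent.LibT62
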