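import Pool.Agent.LibT62.Defs

/-!
Row M5: the flip. `y ∉ K₁`, so some `σ` fixing `K₁` moves `y` (`mem_of_fixed`, LibJac77/D1c.lean);
`σ(y)^2 = f(x) = y^2`, so `σ(y) = - y`; `y y' ∈ K₁` and `y ≠ 0` give `σ(y') = - y'`. `pact_jP`, `act`,
`jP_neg`.
-/

open scoped Classical
open Polynomial IsLocalRing

namespace Pool.Agent.LibT62

open Pool.Agent.LibBH2 Pool.Agent.LibJac77

theorem M5_aff {k : Type} [Field k] {f : k[X]} {x y x' y' : k} (h : y ^ 2 = f.eval x)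
    (h' : y' ^ 2 = f.eval x') (hx : x = x') (hy : y = y') :
    (Pt.aff x y h : Pt f) = Pt.aff x' y' h' := by
  subst hx
  subst hy
  rfl

/-- an automorphism fixing `x` and changing the sign of `y` acts as `-1` -/
theorem M5_flip {f : Qb[X]} [Genus2 f] (σ : Qb ≃+* Qb) (hσ : f.map (σ : Qb →+* Qb) = f)
    {x y : Qb} (h : y ^ 2 = f.eval x) (hx : σ x = x) (hy : σ y = -y) :
    pact σ hσ (jP (.aff x y h : Pt f)) = - jP (.aff x y h : Pt f) := by
  rw [pact_jP, ← jP_neg]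
  exact congrArg jP (M5_aff _ _ hx hy)

/-- an automorphism fixing `x` and `y` fixes the class -/
theorem M5_fix {f : Qb[X]} [Genus2 f] (σ : Qb ≃+* Qb) (hσ : f.map (σ : Qb →+* Qb) = f)
    {x y : Qb} (h : y ^ 2 = f.eval x) (hx : σ x = x) (hy : σ y = y) :
    pact σ hσ (jP (.aff x y h : Pt f)) = jP (.aff x y h : Pt f) := by
  rw [pact_jP]
  exact congrArg jP (M5_aff _ _ hx hy)

theorem exists_flip {f : Qb[X]} [Genus2 f] (K₁ : IntermediateField ℚ Qb) (hK : RatF f K₁)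
    {x y x' y' : Qb} (h : y ^ 2 = f.eval x) (h' : y' ^ 2 = f.eval x') (hx : x ∈ K₁)
    (hx' : x' ∈ K₁) (hyy : y * y' ∈ K₁) (hy : y ∉ K₁) :
    ∃ (σ : Qb ≃ₐ[ℚ] Qb) (hσ : σ ∈ K₁.fixingSubgroup),
      pact (σ : Qb ≃+* Qb) (hK.map hσ) (jP (.aff x y h : Pt f)) = - jP (.aff x y h : Pt f) ∧
      pact (σ : Qb ≃+* Qb) (hK.map hσ) (jP (.aff x' y' h' : Pt f)) =
        - jP (.aff x' y' h' : Pt f) := by
  obtain ⟨σ, hσ, hm⟩ : ∃ σ : Qb ≃ₐ[ℚ] Qb, σ ∈ K₁.fixingSubgroup ∧ σ y ≠ y := by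
    by_contra hno
    push Not at hno
    exact hy (mem_of_fixed K₁ y hno)
  have hfix := (IntermediateField.mem_fixingSubgroup_iff K₁ σ).1 hσ
  have ex : σ x = x := hfix x hx
  have ex' : σ x' = x' := hfix x' hx'
  have eyy : σ (y * y') = y * y' := hfix _ hyy
  have hfx : f.eval x ∈ K₁ := by
    rw [eval_eq_sum_range]
    exact sum_mem fun n _ => mul_mem (hK n) (pow_mem hx n)
  have ey2 : σ y ^ 2 = y ^ 2 := by
    rw [← map_pow, h]
    exact hfix _ hfx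
  have ey : σ y = -y := by
    rcases sq_eq_sq_iff_eq_or_eq_neg.1 ey2 with h1 | h1
    · exact absurd h1 hm
    · exact h1
  have hy0 : y ≠ 0 := by
    rintro rfl
    exact hm (map_zero σ)
  have ey' : σ y' = -y' := by
    rw [map_mul, ey] at eyy
    have h1 : y * (σ y' + y') = 0 := by
      have h2 : -y * σ y' = -(y * σ y') := by ring
      rw [h2] at eyy
      rw [mul_add, ← eyy]
      ring
    rcases mul_eq_zero.1 h1 with h2 | h2
    · exact absurd h2 hy0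
    · exact eq_neg_of_add_eq_zero_left h2
  exact ⟨σ, hσ, M5_flip _ _ h ex ey, M5_flip _ _ h' ex' ey'⟩

/-- the class of a point with coordinates in `K₁` is fixed -/
theorem pact_fixed {f : Qb[X]} [Genus2 f] (K₁ : IntermediateField ℚ Qb) (hK : RatF f K₁)
    {x y : Qb} (h : y ^ 2 = f.eval x) (hx : x ∈ K₁) (hy : y ∈ K₁) (σ : Qb ≃ₐ[ℚ] Qb)
    (hσ : σ ∈ K₁.fixingSubgroup) :
    pact (σ : Qb ≃+* Qb) (hK.map hσ) (jP (.aff x y h : Pt f)) = jP (.aff x y h : Pt f) := by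
  have hfix := (IntermediateField.mem_fixingSubgroup_iff K₁ σ).1 hσ
  exact M5_fix _ _ h (hfix x hx) (hfix y hy)

end Pool.Agent.LibT62
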