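import Pool.Agent.LibT62.Defs

/-!
Row M6: joint independence (abstract). `G` an abelian group, `p, q : ℕ → G`; for every `i` there is an
endomorphism `α i` of `G` fixing `p j, q j` for `j < i` and sending `p i, q i` to their negatives; and
`m p i + n q i = 0` implies `m = n = 0`. Then all `p i, q i` are independent.
Proof: suppose `∑ u_i p_i + ∑ v_i q_i = 0` with `(u, v) ≠ 0`, `i` the largest index with
`(u_i, v_i) ≠ 0`; apply `α i` and subtract: `2 (u_i p_i + v_i q_i) = 0`, contradiction.
-/

open scoped Classical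
open Polynomial IsLocalRing

namespace Pool.Agent.LibT62

theorem M6_range {G : Type} [AddCommGroup G] (p : ℕ → G) (u : ℕ →₀ ℤ) (n : ℕ)
    (hn : ∀ i, n ≤ i → u i = 0) :
    (u.sum fun i m => m • p i) = ∑ i ∈ Finset.range n, u i • p i := by
  refine Finsupp.sum_of_support_subset u ?_ _ ?_
  · intro i hi
    rw [Finsupp.mem_support_iff] at hi
    rw [Finset.mem_range]
    by_contra h
    exact hi (hn i (not_lt.1 h))
  · intro i _
    exact zero_smul ℤ (p i)

theorem M6_step {G : Type} [AddCommGroup G] (p q : ℕ → G) (α : ℕ → G →+ G)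
    (hfix : ∀ i j, j < i → α i (p j) = p j ∧ α i (q j) = q j)
    (hneg : ∀ i, α i (p i) = - p i ∧ α i (q i) = - q i)
    (hind : ∀ (i : ℕ) (m n : ℤ), m • p i + n • q i = 0 → m = 0 ∧ n = 0)
    (u v : ℕ → ℤ) : ∀ n : ℕ,
    (∑ i ∈ Finset.range n, u i • p i) + (∑ i ∈ Finset.range n, v i • q i) = 0 →
      ∀ i, i < n → u i = 0 ∧ v i = 0 := by
  intro n
  induction n with
  | zero => intro _ i hi; omega
  | succ n ih =>
    intro h
    rw [Finset.sum_range_succ, Finset.sum_range_succ] at h
    have h1 := congrArg (α n) h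
    rw [map_zero, map_add, map_add, map_add, map_sum, map_sum, map_zsmul, map_zsmul,
      (hneg n).1, (hneg n).2] at h1
    have e1 : ∑ i ∈ Finset.range n, α n (u i • p i) = ∑ i ∈ Finset.range n, u i • p i := by
      refine Finset.sum_congr rfl fun i hi => ?_
      rw [map_zsmul, (hfix n i (Finset.mem_range.1 hi)).1]
    have e2 : ∑ i ∈ Finset.range n, α n (v i • q i) = ∑ i ∈ Finset.range n, v i • q i := by
      refine Finset.sum_congr rfl fun i hi => ?_
      rw [map_zsmul, (hfix n i (Finset.mem_range.1 hi)).2]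
    rw [e1, e2, smul_neg, smul_neg] at h1
    have h2 : (2 * u n) • p n + (2 * v n) • q n = 0 := by
      have h3 := congrArg₂ (fun a b => a - b) h h1
      simp only [sub_zero] at h3
      rw [two_mul, two_mul, add_smul, add_smul, ← h3]
      abel
    have h4 := hind n _ _ h2
    have hu : u n = 0 := by omega
    have hv : v n = 0 := by omega
    rw [hu, hv, zero_smul, zero_smul, add_zero, add_zero] at h
    intro i hi
    rcases Nat.lt_succ_iff_lt_or_eq.1 hi with h5 | h5
    · exact ih h i h5
    · subst h5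
      exact ⟨hu, hv⟩

theorem joint_indep {G : Type} [AddCommGroup G] (p q : ℕ → G) (α : ℕ → G →+ G)
    (hfix : ∀ i j, j < i → α i (p j) = p j ∧ α i (q j) = q j)
    (hneg : ∀ i, α i (p i) = - p i ∧ α i (q i) = - q i)
    (hind : ∀ (i : ℕ) (m n : ℤ), m • p i + n • q i = 0 → m = 0 ∧ n = 0)
    (u v : ℕ →₀ ℤ) (h : (u.sum fun i m => m • p i) + (v.sum fun i m => m • q i) = 0) :
    u = 0 ∧ v = 0 := by
  obtain ⟨n, hn⟩ : ∃ n : ℕ, ∀ i, n ≤ i → u i = 0 ∧ v i = 0 := by
    refine ⟨(u.support ∪ v.support).sup id + 1, fun i hi => ?_⟩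
    have h0 : i ∉ u.support ∪ v.support := by
      intro h1
      have h2 : i ≤ (u.support ∪ v.support).sup id := Finset.le_sup (f := id) h1
      omega
    rw [Finset.mem_union, Finsupp.mem_support_iff, Finsupp.mem_support_iff] at h0
    push Not at h0
    exact h0
  rw [M6_range p u n (fun i hi => (hn i hi).1), M6_range q v n (fun i hi => (hn i hi).2)] at h
  have h1 := M6_step p q α hfix hneg hind u v n h
  constructor
  · ext i
    rcases lt_or_ge i n with hi | hi
    · exact (h1 i hi).1
    · exact (hn i hi).1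
  · ext i
    rcases lt_or_ge i n with hi | hi
    · exact (h1 i hi).2
    · exact (hn i hi).2

end Pool.Agent.LibT62
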