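import Pool.Agent.LibT62.A4
import Pool.Agent.LibT62.G2
import Pool.Agent.LibT62.G3

/-!
The vanishing lemma for an arbitrary odd function of two points which kills the push-forwards of
principal divisors. `f = F5 a b c d`, `x₀ = e⁻¹`, `x₀' = a b e`; on a curve with functions
`x, w, w'` such that `w ^ 2 = f(x)`, `w' ^ 2 = f(a b / x)` we use the function
`(A(t) + B(t) s) / (A(t) - B(t) s)`, `t = 1 / x`, `s = w w' / (κ a b (x - a) (x - b))`.
-/

open scoped Classical
open Polynomial IsLocalRing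

namespace Pool.Agent.LibT62

open Pool.Agent.LibBH2 Pool.Agent.LibJac77

/-- odd functions of two points of the curve which kill the push-forwards of principal divisors
under pairs of non-constant maps -/
structure PushFun {k : Type} [Field k] (f : k[X]) {R : Type} [AddCommGroup R]
    (V : Pt f → Pt f → R) : Prop where
  neg_left : ∀ p q, V (neg p) q = - V p q
  neg_right : ∀ p q, V p (neg q) = - V p q
  inf_left : ∀ q, V .inf q = 0
  inf_right : ∀ p, V p .inf = 0
  push : ∀ (K : Type) [Field K] [Algebra k K] (ι : RatFunc k →ₐ[k] K), ι.toRingHom.Finite →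
    ∀ (x w x' w' : K) (hw : w ^ 2 = (f.map (algebraMap k K)).eval x)
      (hw' : w' ^ 2 = (f.map (algebraMap k K)).eval x'), Transcendental k x →
      Transcendental k x' → ∀ (φ : K), φ ≠ 0 → ∀ (S : Finset (Place k K)),
      (∀ v, v.ord φ ≠ 0 → v ∈ S) → ∀ (p q : Place k K → Pt f),
      (∀ v ∈ S, Sp v (.aff x w hw) (p v) ∧ Sp v (.aff x' w' hw') (q v)) →
      ∑ v ∈ S, v.ord φ • V (p v) (q v) = 0

private theorem V1_zer_mul {k K : Type} [Field k] [Field K] [Algebra k K] {v : Place k K}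
    {f g : K} (h : v.Zer (f * g)) : v.Zer f ∨ v.Zer g := by
  by_cases hf : f = 0
  · left; left; exact hf
  by_cases hg : g = 0
  · right; left; exact hg
  rcases h with h | h
  · rcases mul_eq_zero.1 h with h | h
    · exact absurd h hf
    · exact absurd h hg
  · rw [v.ord_mul _ _ hf hg] at h
    by_cases h1 : 0 < v.ord f
    · left; right; exact h1
    · right; right; omega

private theorem V1_sqrt_val {k K : Type} [Field k] [Field K] [Algebra k K] {v : Place k K}
    {w : K} {z y : k} (h : v.Zer (w ^ 2 - algebraMap k K z)) (hy : y ^ 2 = z) :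
    v.Zer (w - algebraMap k K y) ∨ v.Zer (w - algebraMap k K (-y)) := by
  apply V1_zer_mul
  convert h using 1
  rw [← hy, map_neg, map_pow]
  ring

private theorem V1_reg_sq {k K : Type} [Field k] [Field K] [Algebra k K] {v : Place k K}
    {f : K} (h : v.Reg (f ^ 2)) : v.Reg f := by
  by_cases hf : f = 0
  · left; exact hf
  right
  have h1 := h.resolve_left (pow_ne_zero 2 hf)
  rw [v.ord_pow] at h1
  push_cast at h1
  omega

private theorem V1_zer_sq {k K : Type} [Field k] [Field K] [Algebra k K] {v : Place k K}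
    {f : K} (h : v.Zer (f ^ 2)) : v.Zer f := by
  rw [pow_two] at h
  rcases V1_zer_mul h with h | h <;> exact h

private theorem V1_reg_aeval {k K : Type} [Field k] [Field K] [Algebra k K] {v : Place k K}
    {t : K} (h : v.Reg t) (P : k[X]) : v.Reg (aeval t P) := by
  induction P using Polynomial.induction_on' with
  | add p q hp hq =>
    rw [map_add]
    exact hp.add hq
  | monomial n a =>
    rw [Polynomial.aeval_monomial]
    exact (v.reg_const a).mul (h.pow n)

private theorem V1_core {k K : Type} [Field k] [CharZero k] [Field K] [Algebra k K]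
    (v : Place k K) {A B : k[X]} {t s : K} {e S : k} (ht : v.Zer (t - algebraMap k K e))
    (hs : v.Zer (s - algebraMap k K S)) (hAB : A.eval e + B.eval e * S = 0)
    (h2 : A.eval e ≠ 0) (hne : aeval t A + aeval t B * s ≠ 0) :
    0 < v.ord ((aeval t A + aeval t B * s) / (aeval t A - aeval t B * s)) := by
  have hA := Place.val_aeval ht A
  have hB := Place.val_aeval ht B
  have h3 := Place.val_add hA (Place.val_mul hB hs)
  rw [hAB, map_zero, sub_zero] at h3
  have h4 := Place.val_sub hA (Place.val_mul hB hs)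
  have h5 : A.eval e - B.eval e * S ≠ 0 := by
    intro h
    apply h2
    have : 2 * A.eval e = 0 := by linear_combination hAB + h
    simpa using this
  have h6 := Place.ord_eq_zero_of_val h4 h5
  have h7 := Place.ne_zero_of_val h4 h5
  rw [v.ord_div _ _ hne h7, h6, sub_zero]
  exact h3.resolve_left hne

private theorem V1_F5_map {k K : Type} [Field k] [Field K] [Algebra k K] (a b c d : k) :
    (F5 a b c d).map (algebraMap k K) =
      F5 (algebraMap k K a) (algebraMap k K b) (algebraMap k K c) (algebraMap k K d) := by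
  simp [F5, Polynomial.map_mul, Polynomial.map_sub]

private theorem V1_Ht_map {k K : Type} [Field k] [Field K] [Algebra k K] (a b c d : k) :
    (Ht a b c d).map (algebraMap k K) =
      Ht (algebraMap k K a) (algebraMap k K b) (algebraMap k K c) (algebraMap k K d) := by
  simp [Ht, Polynomial.map_mul, Polynomial.map_sub]

/-- the polynomial `x ^ 6 f(ab / x)` -/
private noncomputable def V1_g {k : Type} [Field k] (a b c d : k) : k[X] :=
  C (a * b) * X * (C a * (C b - X)) * (C b * (C a - X)) * (C (a * b) - C c * X) *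
    (C (a * b) - C d * X)

private theorem V1_g_eval {k K : Type} [Field k] [Field K] [Algebra k K] (a b c d : k) {x : K}
    (hx : x ≠ 0) : aeval x (V1_g a b c d) =
      x ^ 6 * ((F5 a b c d).map (algebraMap k K)).eval (algebraMap k K (a * b) / x) := by
  rw [V1_F5_map]
  simp only [V1_g, F5, map_mul, map_sub, aeval_X, aeval_C, eval_mul, eval_sub, eval_X, eval_C]
  field_simp

private theorem V1_x_ne {k K : Type} [Field k] [Field K] [Algebra k K] (ι : RatFunc k →ₐ[k] K)
    (z : k) : ι RatFunc.X ≠ algebraMap k K z := by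
  intro h
  exact transcendental_ι ι (h ▸ isAlgebraic_algebraMap z)

/-- the local statement at a place -/
private theorem V1_local {k : Type} [Field k] [CharZero k] [IsAlgClosed k] {a b c d κ : k}
    {R : Type} [AddCommGroup R] {V : Pt (F5 a b c d) → Pt (F5 a b c d) → R}
    (hV : PushFun (F5 a b c d) V) (hsq : Squarefree (F5 a b c d)) (hκ : κ ^ 2 = c * d)
    {A B : k[X]} {m : ℕ} {c₀ e S : k} (hc₀ : c₀ ≠ 0) (he : e ≠ 0)
    (hS : S ^ 2 = (Ht a b c d).eval e) (hS0 : S ≠ 0) (hAB : A.eval e + B.eval e * S = 0)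
    (hB : B.eval e ≠ 0) {y y' : k} (hy : y ^ 2 = (F5 a b c d).eval e⁻¹)
    (hy' : y' ^ 2 = (F5 a b c d).eval (a * b * e)) (hy0 : y ≠ 0) (hy0' : y' ≠ 0)
    (hyy : y * y' = κ * (a * b * (e⁻¹ - a) * (e⁻¹ - b)) * S)
    {K : Type} [Field K] [Algebra k K] (v : Place k K) {x w w' s : K} (hx : x ≠ 0)
    (hw : w ^ 2 = ((F5 a b c d).map (algebraMap k K)).eval x)
    (hw' : w' ^ 2 = ((F5 a b c d).map (algebraMap k K)).eval (algebraMap k K (a * b) / x))
    (hs : s = w * w' / algebraMap k K κ /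
      (algebraMap k K (a * b) * (x - algebraMap k K a) * (x - algebraMap k K b)))
    (hs2 : s ^ 2 = aeval x⁻¹ (Ht a b c d))
    (hprod : (aeval x⁻¹ A + aeval x⁻¹ B * s) * (aeval x⁻¹ A - aeval x⁻¹ B * s) =
      algebraMap k K c₀ * x⁻¹ ^ m * (x⁻¹ - algebraMap k K e))
    (hxe : x⁻¹ - algebraMap k K e ≠ 0)
    (hv : v.Zer (x - algebraMap k K e⁻¹)) :
    v.ord ((aeval x⁻¹ A + aeval x⁻¹ B * s) / (aeval x⁻¹ A - aeval x⁻¹ B * s)) ≠ 0 ∧
    ∃ p₁ p₂ : Pt (F5 a b c d), Sp v (.aff x w hw) p₁ ∧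
      Sp v (.aff (algebraMap k K (a * b) / x) w' hw') p₂ ∧
      v.ord ((aeval x⁻¹ A + aeval x⁻¹ B * s) / (aeval x⁻¹ A - aeval x⁻¹ B * s)) •
        V p₁ p₂ =
      (v.ord ((aeval x⁻¹ A + aeval x⁻¹ B * s) / (aeval x⁻¹ A - aeval x⁻¹ B * s))).natAbs •
        V (.aff e⁻¹ y hy) (.aff (a * b * e) y' hy') := by
  obtain ⟨ha0, hb0, hc0, hd0, -⟩ := ne_of_F5 hsq
  have hκ0 : κ ≠ 0 := by
    rintro rfl
    rw [zero_pow two_ne_zero] at hκ
    exact mul_ne_zero hc0 hd0 hκ.symm
  have hei : e⁻¹ ≠ 0 := inv_ne_zero he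
  -- the product of the two functions is not zero
  have hne : algebraMap k K c₀ * x⁻¹ ^ m * (x⁻¹ - algebraMap k K e) ≠ 0 := by
    refine mul_ne_zero (mul_ne_zero ?_ (pow_ne_zero _ (inv_ne_zero hx))) hxe
    simpa using hc₀
  have hne1 : aeval x⁻¹ A + aeval x⁻¹ B * s ≠ 0 := by
    intro h; rw [h, zero_mul] at hprod; exact hne hprod.symm
  have hne2 : aeval x⁻¹ A - aeval x⁻¹ B * s ≠ 0 := by
    intro h; rw [h, mul_zero] at hprod; exact hne hprod.symm
  have hAe : A.eval e ≠ 0 := by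
    intro h
    rw [h, zero_add] at hAB
    exact mul_ne_zero hB hS0 hAB
  have ht : v.Zer (x⁻¹ - algebraMap k K e) := by
    have := Place.val_inv hv hei
    rwa [inv_inv] at this
  have hx2 : v.Zer (algebraMap k K (a * b) / x - algebraMap k K (a * b * e)) := by
    have := Place.val_div (Place.val_const (v := v) (a * b)) hv hei
    rwa [div_inv_eq_mul] at this
  have hwv : v.Zer (w - algebraMap k K y) ∨ v.Zer (w - algebraMap k K (-y)) := by
    apply V1_sqrt_val _ hy
    rw [hw, eval_map_algebraMap]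
    exact Place.val_aeval hv _
  have hwv' : v.Zer (w' - algebraMap k K y') ∨ v.Zer (w' - algebraMap k K (-y')) := by
    apply V1_sqrt_val _ hy'
    rw [hw', eval_map_algebraMap]
    exact Place.val_aeval hx2 _
  -- the value of `s`
  have hea : e⁻¹ - a ≠ 0 := by
    intro h
    apply hy0
    rw [sub_eq_zero] at h
    rw [h] at hy
    simpa [F5] using hy
  have heb : e⁻¹ - b ≠ 0 := by
    intro h
    apply hy0
    rw [sub_eq_zero] at h
    rw [h] at hy
    simpa [F5] using hy
  have hden : v.Zer ((algebraMap k K (a * b) * (x - algebraMap k K a) * (x - algebraMap k K b)) -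
      algebraMap k K (a * b * (e⁻¹ - a) * (e⁻¹ - b))) :=
    Place.val_mul (Place.val_mul (Place.val_const _) (Place.val_sub hv (Place.val_const _)))
      (Place.val_sub hv (Place.val_const _))
  have hden0 : a * b * (e⁻¹ - a) * (e⁻¹ - b) ≠ 0 :=
    mul_ne_zero (mul_ne_zero (mul_ne_zero ha0 hb0) hea) heb
  have hsval : ∀ z z' : k, v.Zer (w - algebraMap k K z) → v.Zer (w' - algebraMap k K z') →
      v.Zer (s - algebraMap k K (z * z' / κ / (a * b * (e⁻¹ - a) * (e⁻¹ - b)))) := by
    intro z z' hz hz'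
    rw [hs]
    exact Place.val_div (Place.val_div (Place.val_mul hz hz') (Place.val_const _) hκ0) hden hden0
  have hyS : y * y' / κ / (a * b * (e⁻¹ - a) * (e⁻¹ - b)) = S := by
    rw [hyy, div_div, div_eq_iff (mul_ne_zero hκ0 hden0)]
    ring
  -- positive sign
  have hpos : v.Zer (s - algebraMap k K S) →
      0 < v.ord ((aeval x⁻¹ A + aeval x⁻¹ B * s) / (aeval x⁻¹ A - aeval x⁻¹ B * s)) :=
    fun h => V1_core v ht h hAB hAe hne1
  have hnegs : v.Zer (s - algebraMap k K (-S)) →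
      v.ord ((aeval x⁻¹ A + aeval x⁻¹ B * s) / (aeval x⁻¹ A - aeval x⁻¹ B * s)) < 0 := by
    intro h
    have h1 : v.Zer (-s - algebraMap k K S) := by
      have := Place.val_neg h
      rwa [neg_neg] at this
    have h2 := V1_core v ht h1 hAB hAe (by
      rw [mul_neg, ← sub_eq_add_neg]; exact hne2)
    rw [mul_neg, ← sub_eq_add_neg, sub_neg_eq_add, v.ord_div _ _ hne2 hne1] at h2
    rw [v.ord_div _ _ hne1 hne2]
    omega
  set P : Pt (F5 a b c d) := .aff e⁻¹ y hy with hP
  set Q : Pt (F5 a b c d) := .aff (a * b * e) y' hy' with hQ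
  set o := v.ord ((aeval x⁻¹ A + aeval x⁻¹ B * s) / (aeval x⁻¹ A - aeval x⁻¹ B * s)) with ho
  have hnatP : 0 < o → o • V P Q = o.natAbs • V P Q := by
    intro h
    rw [← natCast_zsmul, Int.natAbs_of_nonneg h.le]
  have hnatN : o < 0 → o • -V P Q =
      o.natAbs • V P Q := by
    intro h
    rw [← natCast_zsmul, Int.ofNat_natAbs_of_nonpos h.le, neg_smul, smul_neg]
  rcases hwv with h1 | h1 <;> rcases hwv' with h2 | h2
  · have h3 := hsval _ _ h1 h2
    rw [hyS] at h3
    refine ⟨(hpos h3).ne', P, Q, ⟨hv, h1⟩, ⟨hx2, h2⟩, hnatP (hpos h3)⟩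
  · have h3 := hsval _ _ h1 h2
    rw [mul_neg, neg_div, neg_div, hyS] at h3
    refine ⟨(hnegs h3).ne, P, neg Q, ⟨hv, h1⟩, ⟨hx2, h2⟩, ?_⟩
    rw [hV.neg_right]
    exact hnatN (hnegs h3)
  · have h3 := hsval _ _ h1 h2
    rw [neg_mul, neg_div, neg_div, hyS] at h3
    refine ⟨(hnegs h3).ne, neg P, Q, ⟨hv, h1⟩, ⟨hx2, h2⟩, ?_⟩
    rw [hV.neg_left]
    exact hnatN (hnegs h3)
  · have h3 := hsval _ _ h1 h2
    rw [neg_mul_neg, hyS] at h3
    refine ⟨(hpos h3).ne', neg P, neg Q, ⟨hv, h1⟩, ⟨hx2, h2⟩, ?_⟩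
    rw [hV.neg_left, hV.neg_right, neg_neg]
    exact hnatP (hpos h3)

theorem vanish_push {k : Type} [Field k] [CharZero k] [IsAlgClosed k] {a b c d κ : k}
    {R : Type} [AddCommGroup R] {V : Pt (F5 a b c d) → Pt (F5 a b c d) → R}
    (hV : PushFun (F5 a b c d) V) (hsq : Squarefree (F5 a b c d)) (hκ : κ ^ 2 = c * d)
    {A B : k[X]} {m : ℕ} {c₀ e S : k} (hc₀ : c₀ ≠ 0) (he : e ≠ 0)
    (hN : A ^ 2 - Ht a b c d * B ^ 2 = C c₀ * X ^ m * (X - C e))
    (hS : S ^ 2 = (Ht a b c d).eval e) (hS0 : S ≠ 0) (hAB : A.eval e + B.eval e * S = 0)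
    (hB : B.eval e ≠ 0) {y y' : k} (hy : y ^ 2 = (F5 a b c d).eval e⁻¹)
    (hy' : y' ^ 2 = (F5 a b c d).eval (a * b * e)) (hy0 : y ≠ 0) (hy0' : y' ≠ 0)
    (hyy : y * y' = κ * (a * b * (e⁻¹ - a) * (e⁻¹ - b)) * S) :
    ∃ n : ℕ, n ≠ 0 ∧ n • V (.aff e⁻¹ y hy) (.aff (a * b * e) y' hy') = 0 := by
  obtain ⟨ha0, hb0, hc0, hd0, -⟩ := ne_of_F5 hsq
  have hκ0 : κ ≠ 0 := by
    rintro rfl
    rw [zero_pow two_ne_zero] at hκ
    exact mul_ne_zero hc0 hd0 hκ.symm
  have hei : e⁻¹ ≠ 0 := inv_ne_zero he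
  have hf0 : (F5 a b c d).eval e⁻¹ ≠ 0 := by
    rw [← hy]; exact pow_ne_zero 2 hy0
  have hg0 : (V1_g a b c d).eval e⁻¹ ≠ 0 := by
    have h1 := V1_g_eval (K := k) a b c d hei
    rw [← coe_aeval_eq_eval, h1]
    refine mul_ne_zero (pow_ne_zero _ hei) ?_
    rw [Algebra.algebraMap_self, Polynomial.map_id, RingHom.id_apply, div_inv_eq_mul, ← hy']
    exact pow_ne_zero 2 hy0'
  obtain ⟨K, _, _, ι, w, w₂, hι, hw, hw₂, v₀, hv₀⟩ :=
    exists_cover (F5 a b c d) (V1_g a b c d) e⁻¹ hf0 hg0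
  set x : K := ι RatFunc.X with hxdef
  have hx : x ≠ 0 := by
    have := V1_x_ne ι 0
    rwa [map_zero] at this
  have hxz : ∀ z : k, x - algebraMap k K z ≠ 0 := fun z => sub_ne_zero.2 (V1_x_ne ι z)
  have hxe : x⁻¹ - algebraMap k K e ≠ 0 := by
    intro h
    rw [sub_eq_zero] at h
    apply hxz e⁻¹
    rw [map_inv₀, ← h, inv_inv, sub_self]
  obtain ⟨w', hw'⟩ : ∃ w' : K, w' ^ 2 =
      ((F5 a b c d).map (algebraMap k K)).eval (algebraMap k K (a * b) / x) := by
    refine ⟨w₂ / x ^ 3, ?_⟩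
    rw [div_pow, hw₂, V1_g_eval a b c d hx]
    field_simp
  have hw1 : w ^ 2 = ((F5 a b c d).map (algebraMap k K)).eval x := by
    rw [hw, eval_map_algebraMap]
  obtain ⟨s, hs⟩ : ∃ s : K, s = w * w' / algebraMap k K κ /
      (algebraMap k K (a * b) * (x - algebraMap k K a) * (x - algebraMap k K b)) := ⟨_, rfl⟩
  have hκK : algebraMap k K κ ≠ 0 := by simpa using hκ0
  have habK : algebraMap k K (a * b) ≠ 0 := by
    simpa using And.intro ha0 hb0
  have hs2 : s ^ 2 = aeval x⁻¹ (Ht a b c d) := by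
    have h1 := F5_mul (algebraMap k K a) (algebraMap k K b) (algebraMap k K c) (algebraMap k K d)
      (by simpa using hc0) (by simpa using hd0) (inv_ne_zero hx)
    rw [inv_inv, ← V1_F5_map, ← V1_Ht_map, ← hw1, ← map_mul, ← div_eq_mul_inv, ← hw',
      eval_map_algebraMap, ← map_mul, ← hκ, map_pow] at h1
    have h3 := hxz a
    have h4 := hxz b
    rw [hs, div_pow, div_pow, mul_pow, h1]
    field_simp
  have hprod : (aeval x⁻¹ A + aeval x⁻¹ B * s) * (aeval x⁻¹ A - aeval x⁻¹ B * s) =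
      algebraMap k K c₀ * x⁻¹ ^ m * (x⁻¹ - algebraMap k K e) := by
    have h1 := congrArg (aeval x⁻¹) hN
    simp only [map_sub, map_mul, map_pow, aeval_X, aeval_C] at h1
    rw [← h1, ← hs2]
    ring
  obtain ⟨ψ, hψ⟩ : ∃ ψ : K, ψ =
    (aeval x⁻¹ A + aeval x⁻¹ B * s) / (aeval x⁻¹ A - aeval x⁻¹ B * s) := ⟨_, rfl⟩
  have hne : algebraMap k K c₀ * x⁻¹ ^ m * (x⁻¹ - algebraMap k K e) ≠ 0 := by
    refine mul_ne_zero (mul_ne_zero ?_ (pow_ne_zero _ (inv_ne_zero hx))) hxe
    simpa using hc₀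
  have hne1 : aeval x⁻¹ A + aeval x⁻¹ B * s ≠ 0 := by
    intro h; rw [h, zero_mul] at hprod; exact hne hprod.symm
  have hne2 : aeval x⁻¹ A - aeval x⁻¹ B * s ≠ 0 := by
    intro h; rw [h, mul_zero] at hprod; exact hne hprod.symm
  have hψ0 : ψ ≠ 0 := by rw [hψ]; exact div_ne_zero hne1 hne2
  -- the local statement
  have hloc : ∀ v : Place k K, v.Zer (x - algebraMap k K e⁻¹) → v.ord ψ ≠ 0 ∧
      ∃ p₁ p₂ : Pt (F5 a b c d), Sp v (.aff x w hw1) p₁ ∧
      Sp v (.aff (algebraMap k K (a * b) / x) w' hw') p₂ ∧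
      v.ord ψ • V p₁ p₂ =
      (v.ord ψ).natAbs •
        V (.aff e⁻¹ y hy) (.aff (a * b * e) y' hy') := by
    intro v hv
    rw [hψ]
    exact V1_local hV hsq hκ hc₀ he hS hS0 hAB hB hy hy' hy0 hy0' hyy v hx hw1 hw' hs hs2 hprod
      hxe hv
  -- the classification of the places
  have hcl : ∀ v : Place k K, v.ord ψ ≠ 0 → v.ord x < 0 ∨ v.Zer (x - algebraMap k K 0) ∨
      v.Zer (x - algebraMap k K e⁻¹) := by
    intro v hv
    by_cases h1 : v.ord x < 0
    · left; exact h1
    right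
    by_cases h2 : 0 < v.ord x
    · left; right; rwa [map_zero, sub_zero]
    right
    have h3 : v.ord x = 0 := by omega
    have ht : v.Reg x⁻¹ := Or.inr (by rw [v.ord_inv, h3]; simp)
    have hsr : v.Reg s := by
      apply V1_reg_sq
      rw [hs2]
      exact V1_reg_aeval ht _
    have hr1 : v.Reg (aeval x⁻¹ A + aeval x⁻¹ B * s) :=
      (V1_reg_aeval ht _).add ((V1_reg_aeval ht _).mul hsr)
    have hr2 : v.Reg (aeval x⁻¹ A - aeval x⁻¹ B * s) :=
      (V1_reg_aeval ht _).sub ((V1_reg_aeval ht _).mul hsr)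
    have hr3 : v.Reg (x⁻¹ - algebraMap k K e) := ht.sub (v.reg_const e)
    have h4 := congrArg v.ord hprod
    rw [v.ord_mul _ _ hne1 hne2, v.ord_mul _ _ (mul_ne_zero (by simpa using hc₀)
      (pow_ne_zero _ (inv_ne_zero hx))) hxe, v.ord_mul _ _ (by simpa using hc₀)
      (pow_ne_zero _ (inv_ne_zero hx)), v.ord_const _ hc₀, v.ord_pow, v.ord_inv, h3] at h4
    have h5 := hr1.resolve_left hne1
    have h6 := hr2.resolve_left hne2
    have h7 := hr3.resolve_left hxe
    rw [hψ, v.ord_div _ _ hne1 hne2] at hv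
    have h8 : 0 < v.ord (x⁻¹ - algebraMap k K e) := by
      simp only [neg_zero, mul_zero, zero_add] at h4
      omega
    have h9 := Place.val_inv (Or.inr h8 : v.Zer (x⁻¹ - algebraMap k K e)) he
    rwa [inv_inv] at h9
  have hfin : {v : Place k K | v.ord ψ ≠ 0}.Finite := by
    obtain ⟨h1, h2⟩ := finite_places ι hι
    refine (h2.union ((h1 0).union (h1 e⁻¹))).subset fun v hv => ?_
    rcases hcl v hv with h | h | h
    · left; exact h
    · right; left; exact h
    · right; right; exact h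
  -- the values
  have hall : ∀ v : Place k K, ∃ p₁ p₂ : Pt (F5 a b c d), v.ord ψ ≠ 0 →
      Sp v (.aff x w hw1) p₁ ∧
      Sp v (.aff (algebraMap k K (a * b) / x) w' hw') p₂ ∧
      v.ord ψ • V p₁ p₂ =
      (if v.Zer (x - algebraMap k K e⁻¹) then (v.ord ψ).natAbs else 0) •
        V (.aff e⁻¹ y hy) (.aff (a * b * e) y' hy') := by
    intro v
    by_cases hv : v.ord ψ = 0
    · exact ⟨.inf, .inf, fun h => absurd hv h⟩
    by_cases hz : v.Zer (x - algebraMap k K e⁻¹)
    · obtain ⟨-, p₁, p₂, h1, h2, h3⟩ := hloc v hz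
      refine ⟨p₁, p₂, fun _ => ⟨h1, h2, ?_⟩⟩
      rw [if_pos hz]
      exact h3
    · rw [if_neg hz, zero_smul]
      have h00 : (0 : k) ^ 2 = (F5 a b c d).eval 0 := by simp [F5]
      rcases hcl v hv with h | h | h
      · have h1 : v.Zer (algebraMap k K (a * b) / x - algebraMap k K 0) := by
          right
          rw [map_zero, sub_zero, v.ord_div _ _ habK hx, v.ord_const _ (mul_ne_zero ha0 hb0)]
          omega
        refine ⟨.inf, .aff 0 0 h00, fun _ => ⟨h, ⟨h1, ?_⟩, ?_⟩⟩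
        · rw [map_zero, sub_zero]
          apply V1_zer_sq
          rw [hw', eval_map_algebraMap]
          have := Place.val_aeval h1 (F5 a b c d)
          rwa [← h00, zero_pow two_ne_zero, map_zero, sub_zero] at this
        · rw [hV.inf_left, smul_zero]
      · refine ⟨.aff 0 0 h00, .inf, fun _ => ⟨⟨h, ?_⟩, ?_, ?_⟩⟩
        · rw [map_zero, sub_zero]
          apply V1_zer_sq
          rw [hw1, eval_map_algebraMap]
          have := Place.val_aeval h (F5 a b c d)
          rwa [← h00, zero_pow two_ne_zero, map_zero, sub_zero] at this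
        · rw [map_zero, sub_zero] at h
          have h1 := h.resolve_left hx
          change v.ord (algebraMap k K (a * b) / x) < 0
          rw [v.ord_div _ _ habK hx, v.ord_const _ (mul_ne_zero ha0 hb0)]
          omega
        · rw [hV.inf_right, smul_zero]
      · exact absurd h hz
  choose p₁ p₂ hp using hall
  have hxt : Transcendental k x := transcendental_ι ι
  have hxt' : Transcendental k (algebraMap k K (a * b) / x) := by
    intro halg
    apply hxt
    have h1 : x = algebraMap k K (a * b) * (algebraMap k K (a * b) / x)⁻¹ := by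
      field_simp
    rw [h1]
    exact (isAlgebraic_algebraMap _).mul halg.inv
  have hrel := hV.push K ι hι x w (algebraMap k K (a * b) / x) w' hw1 hw' hxt hxt' ψ hψ0
    hfin.toFinset (fun v hv => by simpa using hv) p₁ p₂
    (fun v hv => by
      have h1 := hp v (by simpa using hv)
      exact ⟨h1.1, h1.2.1⟩)
  rw [Finset.sum_congr rfl (fun v hv => (hp v (by simpa using hv)).2.2), ← Finset.sum_smul] at hrel
  refine ⟨_, ?_, hrel⟩
  intro h0
  rw [Finset.sum_eq_zero_iff] at h0
  have h1 := (hloc v₀ hv₀).1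
  have h2 := h0 v₀ (by simpa using h1)
  rw [if_pos hv₀] at h2
  exact h1 (by simpa using h2)

end Pool.Agent.LibT62
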