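import Pool.Agent.LibT62.V1
import Pool.Agent.LibDih3.Clique
import Pool.Agent.LibDih3.Pair5F

/-!
The products of the classes of two points, in the Chow rings of zero-cycles on the symmetric powers
of the curve and on products of symmetric powers, are odd functions which kill push-forwards.
-/

open scoped Classical
open Polynomial

namespace Pool.Agent.LibT62

open Pool.Agent.LibBH2 Pool.Agent.LibQC8 Pool.Agent.LibLP34 Pool.Agent.LibK4 Pool.Agent.LibDih3
open Pool.Agent.LibJac77 (Genus2 Pt KC DCf vp dv neg jP Pic mk Sp)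

variable {k : Type} [Field k] [CharZero k] [IsAlgClosed k] {f : k[X]} [Genus2 f]

omit [CharZero k] [IsAlgClosed k] [Genus2 f] in
/-- the value of a pair of functions at a place is unique -/
theorem val_unique' {K : Type} [Field K] [Algebra k K] {v : Place k K} {x w : K}
    (hw : w ^ 2 = (f.map (algebraMap k K)).eval x) {P Q : Pt f} (hP : Val v x w P)
    (hQ : Sp v (.aff x w hw) Q) : P = Q := by
  match P, Q, hP, hQ with
  | .inf, .inf, _, _ => rfl
  | .inf, .aff ξ η h, hP, hQ =>
    exfalso
    have h1 : v.Reg x := Place.reg_of_val hQ.1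
    have h2 : v.ord x < 0 := hP
    rcases h1 with h1 | h1
    · rw [h1, Place.ord_zero] at h2; exact lt_irrefl _ h2
    · omega
  | .aff ξ η h, .inf, hP, hQ =>
    exfalso
    have h1 : v.Reg x := Place.reg_of_val hP.1
    have h2 : v.ord x < 0 := hQ
    rcases h1 with h1 | h1
    · rw [h1, Place.ord_zero] at h2; exact lt_irrefl _ h2
    · omega
  | .aff ξ η h, .aff ξ' η' h', hP, hQ =>
    have h1 : ξ = ξ' := Place.val_unique hP.1 hQ.1
    have h2 : η = η' := Place.val_unique hP.2 hQ.2
    subst h1 h2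
    rfl

theorem pushFun_of {R : Type} [AddCommGroup R] {V : Pt f → Pt f → R}
    (h1 : ∀ p q, V (neg p) q = - V p q) (h2 : ∀ p q, V p (neg q) = - V p q)
    (h3 : ∀ q, V .inf q = 0) (h4 : ∀ p, V p .inf = 0)
    (h5 : ∀ (H : Type) [Field H] [Algebra k H], IsFunctionField k H → ∀ (j j' : KC f →ₐ[k] H) (φ : H),
      φ ≠ 0 → ∀ (S : Finset (Place k H)), (∀ v, v.ord φ ≠ 0 → v ∈ S) →
      ∀ (p q : Place k H → Pt f), (∀ v, Spec v (.inr j) (vp (p v))) →
      (∀ v, Spec v (.inr j') (vp (q v))) → ∑ v ∈ S, v.ord φ • V (p v) (q v) = 0) :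
    PushFun f V := by
  refine ⟨h1, h2, h3, h4, ?_⟩
  intro K _ _ ι hι x w x' w' hw hw' hx hx' φ hφ S hS p q hpq
  have hH : IsFunctionField k K := ⟨ι RatFunc.X, Pool.Agent.LibJac77.transcendental_ι ι,
    Pool.Agent.LibJac77.finite_adjoin ι hι⟩
  obtain ⟨j, hj1, hj2⟩ := exists_map f hx (by rw [hw, eval_map_algebraMap])
  obtain ⟨j', hj1', hj2'⟩ := exists_map f hx' (by rw [hw', eval_map_algebraMap])
  have hP := fun v => exists_pt hH j v
  have hQ := fun v => exists_pt hH j' v
  rw [hj1, hj2] at hP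
  rw [hj1', hj2'] at hQ
  choose P hP1 hP2 using hP
  choose Q hQ1 hQ2 using hQ
  have h6 := h5 K hH j j' φ hφ S hS P Q hP1 hQ1
  rw [← h6]
  refine Finset.sum_congr rfl fun v hv => ?_
  rw [val_unique' hw (hP2 v) (hpq v hv).1, val_unique' hw' (hQ2 v) (hpq v hv).2]

theorem pushFun_vv : PushFun f fun P Q => vv (ww f) (vp P) * vv (ww f) (vp Q) := by
  refine pushFun_of ?_ ?_ ?_ ?_ ?_
  · intro p q
    rw [vv_neg]
    ring
  · intro p q
    rw [vv_neg]
    ring
  · intro q
    rw [vv_inf, zero_mul]
  · intro p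
    rw [vv_inf, mul_zero]
  · intro H _ _ hH j j' φ hφ S hS p q hp hq
    exact push_vv hH (ww f) j j' hφ S hS (fun v => vp (p v)) (fun v => vp (q v)) hp hq

theorem vU_inf {I : Type} (i : I) :
    vU (F := fun _ : I => KC f) (fun _ => ww f) i (vp (.inf : Pt f)) = 0 := by
  rw [← inc_vv, vv_inf, map_zero]

theorem vU_neg' {I : Type} (i : I) (P : Pt f) :
    vU (F := fun _ : I => KC f) (fun _ => ww f) i (vp (neg P)) =
      - vU (F := fun _ : I => KC f) (fun _ => ww f) i (vp P) := by
  rw [← inc_vv, ← inc_vv, vv_neg, map_neg]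

theorem pushFun_vU {I : Type} (i i' : I) : PushFun f fun P Q =>
    vU (F := fun _ : I => KC f) (fun _ => ww f) i (vp P) *
      vU (F := fun _ : I => KC f) (fun _ => ww f) i' (vp Q) := by
  refine pushFun_of ?_ ?_ ?_ ?_ ?_
  · intro p q
    rw [vU_neg']
    ring
  · intro p q
    rw [vU_neg']
    ring
  · intro q
    rw [vU_inf, zero_mul]
  · intro p
    rw [vU_inf, mul_zero]
  · intro H _ _ hH j j' φ hφ S hS p q hp hq
    exact pushU_vv (F := fun _ : I => KC f) hH (fun _ => ww f) i i' j j' hφ S hS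
      (fun v => vp (p v)) (fun v => vp (q v)) hp hq

/-- a point is orthogonal to itself -/
theorem self_zero {I : Type} (i i' : I) (P : Pt f) :
    vU (F := fun _ : I => KC f) (fun _ => ww f) i (vp P) *
      vU (F := fun _ : I => KC f) (fun _ => ww f) i' (vp P) = 0 := by
  have h6 : 5 ≤ (BrAt f 1 ∩ BrAt f 1).ncard := by
    rw [Set.inter_self, ncard_BrAt]
    norm_num
  rcases pair5 (f := f) (f' := f) (g := 1) (g' := 1) h6 (xo P) (P := P) (Q := P)
    (one_smul _ _).symm (one_smul _ _).symm with h | h | h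
  · rw [← inc_vv, vv_of_neg h, map_zero, zero_mul]
  · rw [← inc_vv, vv_of_neg h, map_zero, zero_mul]
  · exact pairU_of_data (f := fun _ : I => f) (i := i) (i' := i') h

/-- the two points of a pair -/
noncomputable def two {X : Type} (P Q : X) : Bool → X := fun b => if b then P else Q

/-- if the product of `P` and `Q` is zero for all odd functions killing push-forwards then the
zero-cycles on products of symmetric powers supported on the grid are torsion -/
theorem torsion_grid {P Q : Pt f} (h : ∀ (R : Type) [AddCommGroup R] (V : Pt f → Pt f → R),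
    PushFun f V → ∃ n : ℕ, n ≠ 0 ∧ n • V P Q = 0) (I : Type) [Fintype I] :
    TorsionOnU (F := fun _ : I => KC f) (fun _ => ww f) (fun _ =>
      (sat {cl (ww f) {vp P}, cl (ww f) {vp Q}} : Set (Pic0 k (KC f)))) := by
  have h1 : vv (ww f) (vp P) * vv (ww f) (vp Q) = 0 := by
    obtain ⟨n, hn, h⟩ := h _ _ (pushFun_vv (f := f))
    exact eq_zero_of_nsmul n (Nat.pos_of_ne_zero hn) _ h
  have h2 : ∀ i i' : I, vU (F := fun _ : I => KC f) (fun _ => ww f) i (vp P) *
      vU (F := fun _ : I => KC f) (fun _ => ww f) i' (vp Q) = 0 := by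
    intro i i'
    obtain ⟨n, hn, h⟩ := h _ _ (pushFun_vU (f := f) i i')
    exact eq_zero_of_nsmulU n (Nat.pos_of_ne_zero hn) _ h
  have h3 := cliqueU (F := fun _ : I => KC f) (fun _ => isFunctionField f) (fun _ => ww f)
    (J := Bool) (fun _ b => vp (if b then P else Q)) ?_ ?_
  · have h4 : (Set.range fun b : Bool => cl (ww f) {vp (if b then P else Q)}) =
        {cl (ww f) {vp P}, cl (ww f) {vp Q}} := by
      ext u
      constructor
      · rintro ⟨b, rfl⟩
        cases b
        · right; rfl
        · left; rfl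
      · rintro (rfl | rfl)
        · exact ⟨true, rfl⟩
        · exact ⟨false, rfl⟩
    simp only [h4] at h3
    exact h3
  · intro _ b b'
    cases b <;> cases b'
    · exact vv_neg_sq Q
    · exact (mul_comm _ _).trans h1
    · exact h1
    · exact vv_neg_sq P
  · intro i i' b b' _
    cases b <;> cases b'
    · exact self_zero i i' Q
    · exact (mul_comm _ _).trans (h2 i' i)
    · exact h2 i i'
    · exact self_zero i i' P

end Pool.Agent.LibT62
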