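import Pool.Agent.LibT62.A4
import Pool.Agent.LibT62.A0
import Pool.Agent.LibT62.E2
import Pool.Agent.LibT62.M1
import Pool.Agent.LibT62.M2
import Pool.Agent.LibT62.M3
import Pool.Agent.LibT62.M4
import Pool.Agent.LibT62.M5
import Pool.Agent.LibT62.M6
import Pool.Agent.LibT62.V1

/-!
The pairs of points and their properties.
-/

open scoped Classical
open Polynomial IsLocalRing

namespace Pool.Agent.LibT62

open Pool.Agent.LibBH2 Pool.Agent.LibJac77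

/-- everything we know about the `n`-th pair of points -/
structure Pair (a b c d κ : Qb) [Genus2 (F5 a b c d)] (K K₀ : IntermediateField ℚ Qb)
    (e y y' : Qb) : Prop where
  ne : e ≠ 0
  memK : e ∈ K
  mem : e ∈ K₀
  eq : y ^ 2 = (F5 a b c d).eval e⁻¹
  eq' : y' ^ 2 = (F5 a b c d).eval (a * b * e)
  prodK : κ * (y * y') ∈ K
  prod : y * y' ∈ K₀
  ind : ∀ α β : ℤ, α • jP (.aff e⁻¹ y eq : Pt (F5 a b c d)) +
    β • jP (.aff (a * b * e) y' eq' : Pt (F5 a b c d)) = 0 → α = 0 ∧ β = 0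
  van : ∀ (R : Type) [AddCommGroup R] (V : Pt (F5 a b c d) → Pt (F5 a b c d) → R),
    PushFun (F5 a b c d) V → ∃ n : ℕ, n ≠ 0 ∧
      n • V (.aff e⁻¹ y eq) (.aff (a * b * e) y' eq') = 0

theorem v3_eval_mem {K₀ : IntermediateField ℚ Qb} {P : Qb[X]} (h : ∀ i, P.coeff i ∈ K₀) {x : Qb}
    (hx : x ∈ K₀) : P.eval x ∈ K₀ := by
  rw [eval_eq_sum]
  exact K₀.sum_mem fun i _ => K₀.mul_mem (h i) (pow_mem hx i)

theorem v3_coeff_mul {K₀ : IntermediateField ℚ Qb} {P Q : Qb[X]} (h : ∀ i, P.coeff i ∈ K₀)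
    (h' : ∀ i, Q.coeff i ∈ K₀) : ∀ i, (P * Q).coeff i ∈ K₀ := by
  intro i
  rw [coeff_mul]
  exact K₀.sum_mem fun j _ => K₀.mul_mem (h _) (h' _)

theorem v3_coeff_sub {K₀ : IntermediateField ℚ Qb} {P Q : Qb[X]} (h : ∀ i, P.coeff i ∈ K₀)
    (h' : ∀ i, Q.coeff i ∈ K₀) : ∀ i, (P - Q).coeff i ∈ K₀ := by
  intro i
  rw [coeff_sub]
  exact K₀.sub_mem (h _) (h' _)

theorem v3_coeff_C {K₀ : IntermediateField ℚ Qb} {a : Qb} (h : a ∈ K₀) :
    ∀ i, (C a).coeff i ∈ K₀ := by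
  intro i
  rw [coeff_C]
  split_ifs
  · exact h
  · exact K₀.zero_mem

theorem v3_coeff_X {K₀ : IntermediateField ℚ Qb} : ∀ i, (X : Qb[X]).coeff i ∈ K₀ := by
  intro i
  rw [coeff_X]
  split_ifs
  · exact K₀.one_mem
  · exact K₀.zero_mem

theorem v3_coeff_one {K₀ : IntermediateField ℚ Qb} : ∀ i, (1 : Qb[X]).coeff i ∈ K₀ := by
  intro i
  rw [coeff_one]
  split_ifs
  · exact K₀.one_mem
  · exact K₀.zero_mem

theorem v3_coeff_Ht {K₀ : IntermediateField ℚ Qb} {a b c d : Qb} (ha : a ∈ K₀) (hb : b ∈ K₀)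
    (hc : c ∈ K₀) (hd : d ∈ K₀) : ∀ i, (Ht a b c d).coeff i ∈ K₀ := by
  have key : ∀ z : Qb, z ∈ K₀ → ∀ i, (1 - C z * X : Qb[X]).coeff i ∈ K₀ := fun z hz =>
    v3_coeff_sub v3_coeff_one (v3_coeff_mul (v3_coeff_C hz) v3_coeff_X)
  exact v3_coeff_mul (v3_coeff_mul (v3_coeff_mul (key c hc) (key d hd))
    (key _ (K₀.div_mem (K₀.mul_mem ha hb) hc))) (key _ (K₀.div_mem (K₀.mul_mem ha hb) hd))

theorem v3_coeff_F5 {K₀ : IntermediateField ℚ Qb} {a b c d : Qb} (ha : a ∈ K₀) (hb : b ∈ K₀)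
    (hc : c ∈ K₀) (hd : d ∈ K₀) : ∀ i, (F5 a b c d).coeff i ∈ K₀ := by
  have key : ∀ z : Qb, z ∈ K₀ → ∀ i, (X - C z : Qb[X]).coeff i ∈ K₀ := fun z hz =>
    v3_coeff_sub v3_coeff_X (v3_coeff_C hz)
  exact v3_coeff_mul (v3_coeff_mul (v3_coeff_mul (v3_coeff_mul v3_coeff_X (key a ha))
    (key b hb)) (key c hc)) (key d hd)

theorem v3_eOf_mem {K₀ : IntermediateField ℚ Qb} {a b c d : Qb} (ha : a ∈ K₀) (hb : b ∈ K₀)
    (hc : c ∈ K₀) (hd : d ∈ K₀) {A B : Qb[X]} (h : ∀ i, A.coeff i ∈ K₀ ∧ B.coeff i ∈ K₀) (n : ℕ) :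
    eOf (Ht a b c d) n A B ∈ K₀ := by
  have h1 : ∀ i, (A ^ 2 - Ht a b c d * B ^ 2).coeff i ∈ K₀ := by
    rw [sq, sq]
    exact v3_coeff_sub (v3_coeff_mul (fun i => (h i).1) (fun i => (h i).1))
      (v3_coeff_mul (v3_coeff_Ht ha hb hc hd)
        (v3_coeff_mul (fun i => (h i).2) (fun i => (h i).2)))
  exact K₀.div_mem (K₀.neg_mem (h1 _)) (h1 _)

theorem v3_SOf_mem {K₀ : IntermediateField ℚ Qb} {a b c d : Qb} (ha : a ∈ K₀) (hb : b ∈ K₀)
    (hc : c ∈ K₀) (hd : d ∈ K₀) {A B : Qb[X]} (h : ∀ i, A.coeff i ∈ K₀ ∧ B.coeff i ∈ K₀) (n : ℕ) :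
    SOf (Ht a b c d) n A B ∈ K₀ := by
  have h1 := v3_eOf_mem ha hb hc hd h n
  exact K₀.div_mem (K₀.neg_mem (v3_eval_mem (fun i => (h i).1) h1)) (v3_eval_mem (fun i => (h i).2) h1)

/-- a valuation ring does not contain the inverse of a nonzero element of the maximal ideal -/
theorem v3_inv_notMem {V : ValuationSubring Qb} {e : V} (he : residue V e = 0) (he0 : e ≠ 0) :
    ((e : Qb))⁻¹ ∉ V := by
  intro h
  have h1 : (e : Qb) ≠ 0 := fun h0 => he0 (Subtype.ext h0)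
  have h2 : e * ⟨(e : Qb)⁻¹, h⟩ = 1 := Subtype.ext (mul_inv_cancel₀ h1)
  have h3 := congrArg (residue V) h2
  rw [map_mul, he, zero_mul, map_one] at h3
  exact zero_ne_one h3

theorem v3_F5_eval_ne {a b c d x : Qb} (h0 : x ≠ 0) (ha : x ≠ a) (hb : x ≠ b) (hc : x ≠ c)
    (hd : x ≠ d) : (F5 a b c d).eval x ≠ 0 := by
  simp only [F5, eval_mul, eval_sub, eval_X, eval_C]
  exact mul_ne_zero (mul_ne_zero (mul_ne_zero (mul_ne_zero h0 (sub_ne_zero.2 ha))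
    (sub_ne_zero.2 hb)) (sub_ne_zero.2 hc)) (sub_ne_zero.2 hd)

/-- the pairs for all multiples `n` of some `m₀` -/
theorem exists_pairs {a b c d : Qb} [Genus2 (F5 a b c d)] (hsq : Squarefree (F5 a b c d))
    (hH : ¬ IsSquare (Ht a b c d)) (hNP : NoPell (Ht a b c d))
    (Sq : PowerSeries Qb) (hSq : Sq ^ 2 = (Ht a b c d : PowerSeries Qb))
    (hcc : PowerSeries.constantCoeff Sq = 1) {K K₀ : IntermediateField ℚ Qb} (hKK : K ≤ K₀)
    {κ : Qb} (haK : a ∈ K) (hbK : b ∈ K) (hcK : c ∈ K) (hdK : d ∈ K) (hκ0 : κ ∈ K₀)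
    (hκ : κ ^ 2 = c * d) {A B : ℕ → Qb[X]}
    (hAB : ∀ n, 1 ≤ n → (A n ≠ 0 ∨ B n ≠ 0) ∧ Pade Sq n (A n) (B n) ∧
      ∀ i, (A n).coeff i ∈ K ∧ (B n).coeff i ∈ K) :
    ∃ m₀ : ℕ, 1 ≤ m₀ ∧ ∀ n, 1 ≤ n → m₀ ∣ n →
      ∃ y y' : Qb, Pair a b c d κ K K₀ (eOf (Ht a b c d) n (A n) (B n)) y y' := by
  obtain ⟨na, nb, nc, nd, nab, nac, nad, nbc, nbd, ncd⟩ := ne_of_F5 hsq
  obtain ⟨M, hM, hgood⟩ := exists_goodPl hsq hH
  obtain ⟨p, hp1, hp⟩ := Nat.exists_infinite_primes (M + 1)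
  obtain ⟨p', hp1', hp'⟩ := Nat.exists_infinite_primes (p + 1)
  have hdiv : ∀ q, M + 1 ≤ q → ¬ q ∣ M := fun q hq hd =>
    absurd (Nat.le_of_dvd (Nat.pos_of_ne_zero hM) hd) (by omega)
  obtain ⟨V, hV⟩ := hgood p hp (hdiv p hp1)
  obtain ⟨V', hV'⟩ := hgood p' hp' (hdiv p' (by omega))
  obtain ⟨HV, SqV, N, hN1, hdeg, hco, hSqV, hcV, h2V, hHV, hpts⟩ :=
    good_points hH hNP Sq hSq hcc hp hV
  obtain ⟨HV', SqV', N', hN1', hdeg', hco', hSqV', hcV', h2V', hHV', hpts'⟩ :=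
    good_points hH hNP Sq hSq hcc hp' hV'
  refine ⟨N * N', Nat.mul_pos hN1 hN1', fun n hn hdvd => ?_⟩
  obtain ⟨hne, hpade, hmem⟩ := hAB n hn
  obtain ⟨A₁, B₁, cc, e, S, hint, he, hS, hBe⟩ :=
    hpts n hn (dvd_trans (Dvd.intro _ rfl) hdvd) (A n) (B n) hne hpade
  obtain ⟨A₁', B₁', cc', e', S', hint', he', hS', hBe'⟩ :=
    hpts' n hn (dvd_trans (Dvd.intro_left _ rfl) hdvd) (A n) (B n) hne hpade
  set E : Qb := eOf (Ht a b c d) n (A n) (B n) with hE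
  have hE0 : E ≠ 0 := by
    rw [← he]
    exact fun h0 => hint.ne (Subtype.ext h0)
  have hEV : E⁻¹ ∉ V := by
    rw [← he]
    exact v3_inv_notMem hint.small hint.ne
  have hEV' : E⁻¹ ∉ V' := by
    rw [← he']
    exact v3_inv_notMem hint'.small hint'.ne
  have hEm : E ∈ K := v3_eOf_mem haK hbK hcK hdK hmem n
  -- the norm
  obtain ⟨c₀, c₁, hc01, hnorm⟩ := norm_form hH (Ht_natDegree a b c d) hSq hne hpade
  have hcoef1 : (A n ^ 2 - Ht a b c d * B n ^ 2).coeff (2 * n + 1) = c₁ := by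
    rw [hnorm, coeff_X_pow_mul']
    simp
  have hcoef0 : (A n ^ 2 - Ht a b c d * B n ^ 2).coeff (2 * n + 2) = c₀ := by
    rw [hnorm, coeff_X_pow_mul', if_pos (by omega)]
    have h1 : 2 * n + 2 - (2 * n + 1) = 0 + 1 := by omega
    rw [h1, coeff_add, coeff_C_mul, coeff_X]
    simp
  have hEdef : E = - c₁ / c₀ := by rw [hE, eOf, hcoef1, hcoef0]
  have hc₀ : c₀ ≠ 0 := by
    rintro rfl
    apply hE0
    rw [hEdef, div_zero]
  have hnorm2 : A n ^ 2 - Ht a b c d * B n ^ 2 = C c₀ * X ^ (2 * n + 1) * (X - C E) := by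
    have h1 : c₁ = - (c₀ * E) := by
      rw [hEdef]
      field_simp
    rw [hnorm, h1, C_neg, C_mul]
    ring
  -- the value
  set Z : Qb := SOf (Ht a b c d) n (A n) (B n) with hZ
  have hZm : Z ∈ K := v3_SOf_mem haK hbK hcK hdK hmem n
  rw [he] at hBe
  have hAZ : (A n).eval E + (B n).eval E * Z = 0 := by
    rw [hZ, SOf, ← hE]
    field_simp
    ring
  have hZS : Z ^ 2 = (Ht a b c d).eval E := by
    rw [← hS, ← he, ← hHV]
    have h1 := congrArg (algebraMap V Qb) hint.sqS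
    rw [map_pow] at h1
    refine h1.trans ?_
    have h2 := Polynomial.eval_map_algebraMap HV ((e : V) : Qb)
    rw [h2]
    exact (aeval_algebraMap_apply_eq_algebraMap_eval (A := Qb) e HV).symm
  have hZ0 : Z ≠ 0 := by
    intro h0
    have h1 : S = 0 := Subtype.ext (by rw [hS, h0]; rfl)
    have h2 := hint.sgn
    rw [h1, map_zero] at h2
    exact zero_ne_one h2
  -- the points
  have hmV : ∀ z : Qb, z ∈ V → E⁻¹ ≠ z := fun z hz h0 => hEV (h0 ▸ hz)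
  have hf1 : (F5 a b c d).eval E⁻¹ ≠ 0 :=
    v3_F5_eval_ne (inv_ne_zero hE0) (hmV a hV.ma) (hmV b hV.mb) (hmV c hV.mc) (hmV d hV.md)
  obtain ⟨y, hy⟩ := IsAlgClosed.exists_pow_nat_eq ((F5 a b c d).eval E⁻¹) (n := 2) (by norm_num)
  have hy0 : y ≠ 0 := by
    rintro rfl
    apply hf1
    rw [← hy]
    ring
  have hmul := F5_mul a b c d nc nd hE0
  have hκ0' : κ ≠ 0 := by
    rintro rfl
    have : c * d ≠ 0 := mul_ne_zero nc nd
    apply this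
    rw [← hκ]
    ring
  set T : Qb := κ * (a * b * (E⁻¹ - a) * (E⁻¹ - b)) * Z with hT
  have hT0 : T ≠ 0 := by
    refine mul_ne_zero (mul_ne_zero hκ0' (mul_ne_zero (mul_ne_zero (mul_ne_zero na nb)
      (sub_ne_zero.2 (hmV a hV.ma))) (sub_ne_zero.2 (hmV b hV.mb)))) hZ0
  have hTκ : κ * T ∈ K := by
    have h1 : κ * T = (c * d) * (a * b * (E⁻¹ - a) * (E⁻¹ - b)) * Z := by
      rw [hT, ← hκ]
      ring
    rw [h1]
    exact K.mul_mem (K.mul_mem (K.mul_mem hcK hdK) (K.mul_mem (K.mul_mem (K.mul_mem haK hbK)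
      (K.sub_mem (K.inv_mem hEm) haK)) (K.sub_mem (K.inv_mem hEm) hbK))) hZm
  have hTm : T ∈ K₀ := by
    have h1 : T = (κ * T) / κ := by field_simp
    rw [h1]
    exact K₀.div_mem (hKK hTκ) hκ0
  have hy' : (T / y) ^ 2 = (F5 a b c d).eval (a * b * E) := by
    rw [div_pow, hy, div_eq_iff hf1, mul_comm, hmul, hT, mul_pow, mul_pow, hκ, hZS]
  have hyy : y * (T / y) = T := by field_simp
  have hxx : E⁻¹ * (a * b * E) = a * b := by field_simp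
  refine ⟨y, T / y, ⟨hE0, hEm, hKK hEm, hy, hy', by rw [hyy]; exact hTκ, by rw [hyy]; exact hTm,
    ?_, ?_⟩⟩
  · intro α β h
    exact rank_two hsq hp hp' (by omega) hV hV' hy hy' hEV hEV' hxx α β h
  · intro R _ V hV
    exact vanish_push hV hsq hκ hc₀ hE0 hnorm2 hZS hZ0 hAZ hBe hy hy' hy0 (div_ne_zero hT0 hy0) hyy

/-- the main theorem, in terms of `jP` -/
theorem main {a b c d κ : Qb} [Genus2 (F5 a b c d)] (hκ : κ ^ 2 = c * d)
    (hH4 : ¬ IsSquare (H4 a b c d))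
    (hP : ∀ P Q : Qb[X], P ^ 2 - H4 a b c d * Q ^ 2 = 1 → Q = 0)
    (K : IntermediateField ℚ Qb) [FiniteDimensional ℚ K] (haK : a ∈ K) (hbK : b ∈ K)
    (hcK : c ∈ K) (hdK : d ∈ K) :
    ∃ (x y y' : ℕ → Qb) (h : ∀ n, y n ^ 2 = (F5 a b c d).eval (x n))
      (h' : ∀ n, y' n ^ 2 = (F5 a b c d).eval (a * b / x n)),
      (∀ n, x n ≠ 0 ∧ x n ∈ K ∧ κ * (y n * y' n) ∈ K) ∧
      (∀ m n, m ≠ n → y m * y n ∉ K ⊔ IntermediateField.adjoin ℚ {κ}) ∧
      (∀ n, ∀ (R : Type) [AddCommGroup R] (V : Pt (F5 a b c d) → Pt (F5 a b c d) → R),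
        PushFun (F5 a b c d) V → ∃ N : ℕ, N ≠ 0 ∧
          N • V (.aff (x n) (y n) (h n)) (.aff (a * b / x n) (y' n) (h' n)) = 0) ∧
      (∀ u v : ℕ →₀ ℤ, (u.sum fun i m => m • jP (.aff (x i) (y i) (h i) : Pt (F5 a b c d))) +
        (v.sum fun i m => m • jP (.aff (a * b / x i) (y' i) (h' i) : Pt (F5 a b c d))) = 0 →
        u = 0 ∧ v = 0) := by
  have hsq : Squarefree (F5 a b c d) := Genus2.sqf
  have hH := Ht_nsq a b c d hH4
  have hNP := noPell_of a b c d hP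
  obtain ⟨Sq, hSq, hcc⟩ := exists_sqrt (R := Qb) (isUnit_iff_ne_zero.2 two_ne_zero)
    (Ht a b c d : PowerSeries Qb) (by
      rw [← PowerSeries.coeff_zero_eq_constantCoeff_apply, Polynomial.coeff_coe, Ht_coeff_zero])
  obtain ⟨A, B, hAB⟩ := exists_family haK hbK hcK hdK Sq hSq hcc
  obtain ⟨K₀, hK₀⟩ : ∃ K₀ : IntermediateField ℚ Qb, K₀ = K ⊔ IntermediateField.adjoin ℚ {κ} :=
    ⟨_, rfl⟩
  have hKK : K ≤ K₀ := by rw [hK₀]; exact le_sup_left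
  have hκ0 : κ ∈ K₀ := by
    rw [hK₀]
    exact (le_sup_right : _ ≤ K ⊔ IntermediateField.adjoin ℚ ({κ} : Set Qb))
      (IntermediateField.mem_adjoin_simple_self ℚ κ)
  have hfdκ : FiniteDimensional ℚ (IntermediateField.adjoin ℚ ({κ} : Set Qb)) :=
    IntermediateField.finiteDimensional_adjoin fun x _ => (D3a_alg.isAlgebraic x).isIntegral
  have hfin : FiniteDimensional ℚ K₀ := by rw [hK₀]; infer_instance
  have ha0 := hKK haK
  have hb0 := hKK hbK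
  have hc0 := hKK hcK
  have hd0 := hKK hdK
  rw [← hK₀]
  obtain ⟨m₀, hm₀, hpairs⟩ := exists_pairs hsq hH hNP Sq hSq hcc hKK haK hbK hcK hdK hκ0 hκ hAB
  have hAB0 : ∀ n, 1 ≤ n → (A n ≠ 0 ∨ B n ≠ 0) ∧ Pade Sq n (A n) (B n) ∧
      ∀ i, (A n).coeff i ∈ K₀ ∧ (B n).coeff i ∈ K₀ := fun n hn =>
    ⟨(hAB n hn).1, (hAB n hn).2.1, fun i => ⟨hKK ((hAB n hn).2.2 i).1, hKK ((hAB n hn).2.2 i).2⟩⟩
  -- the states: number fields containing `K₀`
  let St : Type := {K : IntermediateField ℚ Qb // FiniteDimensional ℚ K ∧ K₀ ≤ K}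
  have step : ∀ L : St, ∃ (L' : St) (e y y' : Qb), Pair a b c d κ K K₀ e y y' ∧ L.1 ≤ L'.1 ∧
      y ∈ L'.1 ∧ y ∉ L.1 := by
    rintro ⟨L, hL, hL0⟩
    obtain ⟨n, hn, hdvd, hns⟩ := exists_nonsquare hsq hH hNP Sq hSq hcc ha0 hb0 hc0 hd0 hAB0 L hL0
      m₀ hm₀
    obtain ⟨y, y', hpair⟩ := hpairs n hn hdvd
    have hfd : FiniteDimensional ℚ (IntermediateField.adjoin ℚ ({y} : Set Qb)) :=
      IntermediateField.finiteDimensional_adjoin fun x _ => (D3a_alg.isAlgebraic x).isIntegral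
    refine ⟨⟨L ⊔ IntermediateField.adjoin ℚ ({y} : Set Qb), inferInstance,
      le_trans hL0 le_sup_left⟩, _, y, y', hpair, le_sup_left,
      (le_sup_right : _ ≤ L ⊔ IntermediateField.adjoin ℚ ({y} : Set Qb))
        (IntermediateField.mem_adjoin_simple_self ℚ y), fun hy => hns y hy hpair.eq⟩
  choose nx e y y' hpair hle hy hy0 using step
  let s : ℕ → St := fun i => Nat.rec ⟨K₀, hfin, le_rfl⟩ (fun _ K => nx K) i
  have hs : ∀ i, s (i + 1) = nx (s i) := fun i => rfl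
  have hmono : ∀ i j, i ≤ j → (s i).1 ≤ (s j).1 := by
    intro i j hij
    induction j, hij using Nat.le_induction with
    | base => exact le_rfl
    | succ j _ ih => exact le_trans ih (hle (s j))
  have hK0s : ∀ i, K₀ ≤ (s i).1 := fun i => (s i).2.2
  have hrat : ∀ i, RatF (F5 a b c d) (s i).1 := fun i n =>
    hK0s i (v3_coeff_F5 ha0 hb0 hc0 hd0 n)
  have hx1 : ∀ i, a * b / (e (s i))⁻¹ = a * b * e (s i) := fun i => by rw [div_inv_eq_mul]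
  have heq' : ∀ i, y' (s i) ^ 2 = (F5 a b c d).eval (a * b / (e (s i))⁻¹) := fun i => by
    rw [hx1]; exact (hpair (s i)).eq'
  let p : ℕ → Pt (F5 a b c d) := fun i => .aff (e (s i))⁻¹ (y (s i)) (hpair (s i)).eq
  let q : ℕ → Pt (F5 a b c d) := fun i => .aff (a * b / (e (s i))⁻¹) (y' (s i)) (heq' i)
  have hq : ∀ i, q i = .aff (a * b * e (s i)) (y' (s i)) (hpair (s i)).eq' := fun i => by
    simp only [q, hx1]
  have hxm : ∀ i j, (e (s i))⁻¹ ∈ (s j).1 := fun i j =>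
    hK0s j (K₀.inv_mem (hpair (s i)).mem)
  have hxm' : ∀ i j, a * b * e (s i) ∈ (s j).1 := fun i j =>
    hK0s j (K₀.mul_mem (K₀.mul_mem ha0 hb0) (hpair (s i)).mem)
  have hyne : ∀ i, y (s i) ≠ 0 := fun i h0 => hy0 (s i) (by rw [h0]; exact (s i).1.zero_mem)
  have hym : ∀ i j, j < i → y (s j) ∈ (s i).1 := fun i j hij =>
    hmono (j + 1) i hij (by rw [hs]; exact hy (s j))
  have hym' : ∀ i j, j < i → y' (s j) ∈ (s i).1 := by
    intro i j hij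
    have h1 : y' (s j) = (y (s j) * y' (s j)) / y (s j) := by
      field_simp [hyne j]
    rw [h1]
    exact (s i).1.div_mem (hK0s i (hpair (s j)).prod) (hym i j hij)
  have hflip : ∀ i, ∃ (σ : Qb ≃ₐ[ℚ] Qb) (hσ : σ ∈ (s i).1.fixingSubgroup),
      pact (σ : Qb ≃+* Qb) ((hrat i).map hσ) (jP (p i)) = - jP (p i) ∧
      pact (σ : Qb ≃+* Qb) ((hrat i).map hσ) (jP (q i)) = - jP (q i) := by
    intro i
    rw [hq]
    exact exists_flip (s i).1 (hrat i) (hpair (s i)).eq (hpair (s i)).eq' (hxm i i) (hxm' i i)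
      (hK0s i (hpair (s i)).prod) (hy0 (s i))
  choose σ hσ hσ1 hσ2 using hflip
  have hlt : ∀ m n, m < n → y (s m) * y (s n) ∉ K₀ := by
    intro m n hmn h0
    apply hy0 (s n)
    have h1 : y (s n) = (y (s m) * y (s n)) / y (s m) := by field_simp [hyne m]
    rw [h1]
    exact (s n).1.div_mem (hK0s n h0) (hym n m hmn)
  refine ⟨fun i => (e (s i))⁻¹, fun i => y (s i), fun i => y' (s i), fun i => (hpair (s i)).eq,
    heq', ?_, ?_, ?_, fun u v huv => ?_⟩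
  · exact fun i => ⟨inv_ne_zero (hpair (s i)).ne, K.inv_mem (hpair (s i)).memK,
      (hpair (s i)).prodK⟩
  · intro m n hmn
    rcases lt_or_gt_of_ne hmn with h | h
    · exact hlt m n h
    · have := hlt n m h
      rwa [mul_comm] at this
  · intro n R _ V hV
    obtain ⟨N, hN, h1⟩ := (hpair (s n)).van R V hV
    refine ⟨N, hN, ?_⟩
    have h2 := hq n
    simp only [q] at h2
    rw [h2]
    exact h1
  · refine joint_indep (fun i => jP (p i)) (fun i => jP (q i))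
      (fun i => pact ((σ i : Qb ≃ₐ[ℚ] Qb) : Qb ≃+* Qb) ((hrat i).map (hσ i))) ?_ ?_ ?_ u v huv
    · intro i j hij
      refine ⟨pact_fixed (s i).1 (hrat i) (hpair (s j)).eq (hxm j i) (hym i j hij) (σ i) (hσ i),
        ?_⟩
      show pact _ _ (jP (q j)) = jP (q j)
      rw [hq]
      exact pact_fixed (s i).1 (hrat i) (hpair (s j)).eq' (hxm' j i) (hym' i j hij) (σ i) (hσ i)
    · exact fun i => ⟨hσ1 i, hσ2 i⟩
    · intro i m n h
      apply (hpair (s i)).ind m n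
      have h2 := hq i
      rw [← h2]
      exact h

end Pool.Agent.LibT62
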