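import Pool.Agent.LibT62.A2

/-!
Row X1: a solution of the Pell equation gives a `PellU`. Induction on `m`: common factors `X` of `P` and
`Q` are divided out; if `P(0)`, `Q(0)` are not both zero, then `P(0)^2 = Q(0)^2`, and replacing `Q` by
`- Q` we have `P(0) = Q(0) ≠ 0`, so `P + Q Sq` is a unit and `X^(2m) ∣ P - Q Sq`.
-/

open scoped Classical
open Polynomial IsLocalRing

namespace Pool.Agent.LibT62

open Pool.Agent.LibBH2 Pool.Agent.LibJac77

theorem X1_base {K : Type} [Field K] (h2 : (2 : K) ≠ 0) (H : K[X])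
    (Sq : PowerSeries K) (hSq : Sq ^ 2 = (H : PowerSeries K))
    (hc : PowerSeries.constantCoeff Sq = 1) {m : ℕ} {P Q : K[X]} (hm : 0 < m)
    (hP : P.natDegree ≤ m) (hQ : Q.natDegree + 2 ≤ m) (h : P ^ 2 - H * Q ^ 2 = X ^ (2 * m))
    (hp : P.coeff 0 ≠ 0) (hpq : P.coeff 0 = Q.coeff 0) : PellU H Sq m P Q := by
  refine PellU.mk hm hP hQ h ?_
  have hu : IsUnit ((P : PowerSeries K) + (Q : PowerSeries K) * Sq) := by
    rw [PowerSeries.isUnit_iff_constantCoeff, isUnit_iff_ne_zero, map_add, map_mul, hc,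
      Polynomial.constantCoeff_coe, Polynomial.constantCoeff_coe, mul_one, ← hpq, ← two_mul]
    exact mul_ne_zero h2 hp
  refine (IsUnit.dvd_mul_right hu).1 ?_
  have e1 : ((P : PowerSeries K) - (Q : PowerSeries K) * Sq) *
      ((P : PowerSeries K) + (Q : PowerSeries K) * Sq) =
      ((P ^ 2 - H * Q ^ 2 : K[X]) : PowerSeries K) := by
    rw [Polynomial.coe_sub, Polynomial.coe_mul, Polynomial.coe_pow, Polynomial.coe_pow, ← hSq]
    ring
  rw [e1, h, Polynomial.coe_pow, Polynomial.coe_X]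

theorem pellU_of {K : Type} [Field K] (h2 : (2 : K) ≠ 0) (H : K[X]) (h1 : H.coeff 0 = 1)
    (Sq : PowerSeries K) (hSq : Sq ^ 2 = (H : PowerSeries K))
    (hc : PowerSeries.constantCoeff Sq = 1) {m : ℕ} {P Q : K[X]} (hP : P.natDegree ≤ m)
    (hQ : Q.natDegree + 2 ≤ m) (h : P ^ 2 - H * Q ^ 2 = X ^ (2 * m)) (hQ0 : Q ≠ 0) :
    ∃ (N : ℕ) (u v : K[X]), PellU H Sq N u v := by
  induction m generalizing P Q with
  | zero => omega
  | succ k ih =>
    by_cases hb : P.coeff 0 = 0 ∧ Q.coeff 0 = 0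
    · obtain ⟨P', rfl⟩ := Polynomial.X_dvd_iff.2 hb.1
      obtain ⟨Q', rfl⟩ := Polynomial.X_dvd_iff.2 hb.2
      have hQ' : Q' ≠ 0 := by
        rintro rfl
        exact hQ0 (mul_zero X)
      refine ih (P := P') (Q := Q') ?_ ?_ ?_ hQ'
      · by_cases hP' : P' = 0
        · rw [hP', natDegree_zero]
          omega
        · rw [natDegree_X_mul hP'] at hP
          omega
      · rw [natDegree_X_mul hQ'] at hQ
        omega
      · have hX : (X : K[X]) ^ 2 ≠ 0 := pow_ne_zero 2 X_ne_zero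
        apply mul_left_cancel₀ hX
        have e1 : (X : K[X]) ^ 2 * (P' ^ 2 - H * Q' ^ 2) = (X * P') ^ 2 - H * (X * Q') ^ 2 := by
          ring
        rw [e1, h, ← pow_add]
        congr 1
        omega
    · have h0 := congrArg (fun f : K[X] => f.eval 0) h
      simp only [eval_sub, eval_mul, eval_pow, eval_X] at h0
      rw [← coeff_zero_eq_eval_zero, ← coeff_zero_eq_eval_zero, ← coeff_zero_eq_eval_zero, h1,
        one_mul, zero_pow (by omega : 2 * (k + 1) ≠ 0), sub_eq_zero] at h0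
      have hp : P.coeff 0 ≠ 0 := by
        intro hp
        rw [hp, zero_pow two_ne_zero] at h0
        exact hb ⟨hp, pow_eq_zero_iff two_ne_zero |>.1 h0.symm⟩
      rcases sq_eq_sq_iff_eq_or_eq_neg.1 h0 with h3 | h3
      · exact ⟨k + 1, P, Q, X1_base h2 H Sq hSq hc (by omega) hP hQ h hp h3⟩
      · refine ⟨k + 1, P, -Q, X1_base h2 H Sq hSq hc (by omega) hP ?_ ?_ hp ?_⟩
        · rw [natDegree_neg]
          exact hQ
        · rw [neg_sq]
          exact h
        · rw [coeff_neg]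
          exact h3

end Pool.Agent.LibT62
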