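import Pool.Agent.LibT62.A2
import Pool.Agent.LibT62.D0

/-!
Row X2: a `PellU` over `K` is integral at `V`. `(u, v) = l (u', v')` with `u', v'` over `V`, primitive
(`exists_scale`). `u'^2 - H v'^2 = (l⁻¹)^2 X^(2N)`, so `(l⁻¹)^2 ∈ V`, `l⁻¹ ∈ V`; if `l⁻¹` is in the maximal
ideal, `norm_ne_zero` for the reductions is contradicted (`H` mod `V` is not a square). So `l⁻¹` is a
unit of `V`, `l ∈ V`, `u = l u'`, `v = l v'` are over `V`; the identities and the divisibility are inherited
(injectivity of `V → K`, coefficients).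
-/

open scoped Classical
open Polynomial IsLocalRing

namespace Pool.Agent.LibT62

open Pool.Agent.LibBH2 Pool.Agent.LibJac77

theorem pellU_int {K : Type} [Field K] (V : ValuationSubring K) (H : V[X])
    (hH : ¬ IsSquare (H.map (residue V))) (Sq : PowerSeries V) {N : ℕ} {u v : K[X]}
    (h : PellU (H.map (algebraMap V K)) (Sq.map (algebraMap V K)) N u v) :
    ∃ u' v' : V[X], PellU H Sq N u' v' := by
  have hinj : Function.Injective (algebraMap V K) := Subtype.val_injective
  have hne : u ≠ 0 ∨ v ≠ 0 := by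
    by_contra hcon
    push Not at hcon
    have h1 := h.norm
    rw [hcon.1, hcon.2] at h1
    have h2 : (X : K[X]) ^ (2 * N) = 0 := by rw [← h1]; ring
    exact pow_ne_zero _ X_ne_zero h2
  obtain ⟨l, u₁, v₁, hl, hu, hv, hor⟩ := exists_scale V u v hne
  obtain ⟨W, hW⟩ : ∃ W : V[X], W = u₁ ^ 2 - H * v₁ ^ 2 := ⟨_, rfl⟩
  have hWK : C (l ^ 2) * W.map (algebraMap V K) = X ^ (2 * N) := by
    rw [← h.norm, hu, hv, hW]
    simp only [Polynomial.map_sub, Polynomial.map_mul, Polynomial.map_pow, C_pow]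
    ring
  have hWr : W.map (residue V) ≠ 0 := by
    rw [hW]
    simp only [Polynomial.map_sub, Polynomial.map_mul, Polynomial.map_pow]
    exact norm_ne_zero hH hor
  have hco : ∀ i, l ^ 2 * ((W.coeff i : V) : K) = (X ^ (2 * N) : K[X]).coeff i := by
    intro i
    rw [← hWK, coeff_C_mul, coeff_map]
    rfl
  have hl2 : l ^ 2 ≠ 0 := pow_ne_zero 2 hl
  have hz : ∀ i, i ≠ 2 * N → W.coeff i = 0 := by
    intro i hi
    have h1 := hco i
    rw [coeff_X_pow, if_neg hi] at h1
    rcases mul_eq_zero.1 h1 with h2 | h2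
    · exact absurd h2 hl2
    · exact Subtype.ext h2
  have hd : residue V (W.coeff (2 * N)) ≠ 0 := by
    intro h0
    apply hWr
    ext i
    rw [coeff_map, coeff_zero]
    by_cases hi : i = 2 * N
    · rw [hi, h0]
    · rw [hz i hi, map_zero]
  have hdu : IsUnit (W.coeff (2 * N)) := by
    by_contra hcon
    exact hd ((residue_eq_zero_iff _).2 ((mem_maximalIdeal _).2 hcon))
  obtain ⟨d, hd'⟩ := hdu
  have h3 : l ^ 2 * ((d : V) : K) = 1 := by
    rw [hd', hco, coeff_X_pow, if_pos rfl]
  have h4 : l ^ 2 = (((d⁻¹ : Vˣ) : V) : K) := by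
    have h5 : ((d : V) : K) * (((d⁻¹ : Vˣ) : V) : K) = 1 := by
      have h8 : ((((d : V) * ((d⁻¹ : Vˣ) : V)) : V) : K) = ((1 : V) : K) := by rw [Units.mul_inv]
      exact h8
    calc l ^ 2 = l ^ 2 * (((d : V) : K) * (((d⁻¹ : Vˣ) : V) : K)) := by rw [h5, mul_one]
      _ = (l ^ 2 * ((d : V) : K)) * (((d⁻¹ : Vˣ) : V) : K) := by ring
      _ = _ := by rw [h3, one_mul]
  have h5 : l ∈ V := by
    rw [← V.valuation_le_one_iff]
    have h6 : V.valuation (l ^ 2) ≤ 1 := by
      rw [h4, V.valuation_le_one_iff]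
      exact Subtype.property _
    rw [map_pow] at h6
    exact (pow_le_one_iff two_ne_zero).1 h6
  obtain ⟨m, hm⟩ : ∃ m : V, algebraMap V K m = l := ⟨⟨l, h5⟩, rfl⟩
  have hu2 : (C m * u₁).map (algebraMap V K) = u := by
    rw [Polynomial.map_mul, map_C, hm, hu]
  have hv2 : (C m * v₁).map (algebraMap V K) = v := by
    rw [Polynomial.map_mul, map_C, hm, hv]
  refine ⟨C m * u₁, C m * v₁, h.pos, ?_, ?_, ?_, ?_⟩
  · have := h.degu
    rwa [← hu2, natDegree_map_eq_of_injective hinj] at this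
  · have := h.degv
    rwa [← hv2, natDegree_map_eq_of_injective hinj] at this
  · apply map_injective _ hinj
    rw [Polynomial.map_sub, Polynomial.map_mul, Polynomial.map_pow, Polynomial.map_pow, hu2, hv2,
      Polynomial.map_pow, map_X]
    exact h.norm
  · rw [PowerSeries.X_pow_dvd_iff]
    intro i hi
    have h6 := PowerSeries.X_pow_dvd_iff.1 h.dvd i hi
    have h7 : (u : PowerSeries K) - (v : PowerSeries K) * Sq.map (algebraMap V K) =
        (((C m * u₁ : V[X]) : PowerSeries V) - ((C m * v₁ : V[X]) : PowerSeries V) * Sq).map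
          (algebraMap V K) := by
      rw [map_sub, map_mul, ← Polynomial.polynomial_map_coe, ← Polynomial.polynomial_map_coe, hu2, hv2]
    rw [h7, PowerSeries.coeff_map] at h6
    exact hinj (by rw [h6, map_zero])

end Pool.Agent.LibT62
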