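import Pool.Agent.LibT62.A0

/-!
Row X3: a `p`-adic criterion for the unsolvability of the Pell equation (`p` odd).
`A = 1 + s₁ X + s₂ X^2`, `A^2 - H = c₀ X^3 (X - η)`, `c₀` a unit, `0 ≠ η ∈ p V`.
Let `k = N`, `(G₁, G₂) = (u, v)^2 (A, -1)^k` in `V[X][s]`, `s^2 = H`, `em = G₁ - G₂ Sq`, `ep = G₁ + G₂ Sq`.
`u - v Sq = X^(2N) E`, `(u + v Sq) E = 1`; `A + Sq` is a unit (constant coefficient 2),
`(A - Sq)(A + Sq) = c₀ X^3 (X - η)`. So `em = X^(4k) E'`, `ep = X^(3k) (X - η)^k E''` with units `E', E''`.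
So `X^(3k)` divides `G₁`, `G₂` (`2`, `Sq` units), `G₁ = X^(3k) g₁`, `G₂ = X^(3k) g₂`, degrees:
`G₁ ≤ 2k + 2k`, `G₂ ≤ 4k - 2`, so `g₁ ≤ k`, `g₂ ≤ k - 2` (`g₂ = 0` if `k ≤ 1`), and
`g₁ - g₂ Sq = X^k E'`, `g₁ + g₂ Sq = (X - η)^k E''`. Subtract:
(*) `2 g₂ Sq = X^k (E'' - E') - (X^k - (X - η)^k) E''`.
`X^k - (X - η)^k = k η (X^(k-1) + ρ)` with `ρ` a polynomial with coefficients in the maximal ideal:
the coefficient of `X^(k-i)` is `± C(k,i) η^i = ± k η C(k-1,i-1) (η^(i-1) / i)` and for `i ≥ 2`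
`η^(i-1) / i` is in the maximal ideal: `η = p η'`, `i = p^j i'` with `j < i - 1` and `i'` a unit.
Modulo `k η`: `X^k` divides `2 g₂ Sq`, `g₂` has degree `< k`, so `g₂ = k η g₂'`; then `E'' - E' = k η F`.
Cancel `k η ≠ 0` in (*): `2 g₂' Sq = X^k F - (X^(k-1) + ρ) E''`. Modulo the maximal ideal: `X^(k-1)`
divides `g₂'` mod, of degree `< k - 1`, so `g₂' = 0` mod, and `X F = E''` mod: the constant coefficient of
`E''` is a unit, contradiction.
-/

open scoped Classical
open Polynomial IsLocalRing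

namespace Pool.Agent.LibT62

open Pool.Agent.LibBH2 Pool.Agent.LibJac77

/-- powers of `A - s` -/
theorem X3_pow {R : Type} [CommRing R] (H A : R[X]) (hA : A.natDegree ≤ 2) (hd : H.natDegree ≤ 4)
    (Sq : PowerSeries R) (hSq : Sq ^ 2 = (H : PowerSeries R)) (j : ℕ) :
    ∃ a b : R[X], a.natDegree ≤ 2 * j ∧ (b = 0 ∨ b.natDegree + 2 ≤ 2 * j) ∧
      ((A : PowerSeries R) - Sq) ^ j = (a : PowerSeries R) + (b : PowerSeries R) * Sq ∧
      ((A : PowerSeries R) + Sq) ^ j = (a : PowerSeries R) - (b : PowerSeries R) * Sq := by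
  induction j with
  | zero =>
    refine ⟨1, 0, by simp, Or.inl rfl, by simp, by simp⟩
  | succ j ih =>
    obtain ⟨a, b, ha, hb, h1, h2⟩ := ih
    refine ⟨A * a - H * b, A * b - a, ?_, ?_, ?_, ?_⟩
    · refine le_trans (natDegree_sub_le _ _) (max_le ?_ ?_)
      · refine le_trans natDegree_mul_le (by omega)
      · rcases hb with hb | hb
        · rw [hb, mul_zero]; simp
        · refine le_trans natDegree_mul_le (by omega)
    · right
      have : (A * b - a).natDegree ≤ 2 * j := by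
        refine le_trans (natDegree_sub_le _ _) (max_le ?_ ?_)
        · rcases hb with hb | hb
          · rw [hb, mul_zero]; simp
          · refine le_trans natDegree_mul_le (by omega)
        · exact ha
      omega
    · rw [pow_succ, h1]
      push_cast
      linear_combination (b : PowerSeries R) * (-1) * hSq
    · rw [pow_succ, h2]
      push_cast
      linear_combination (b : PowerSeries R) * (-1) * hSq

/-- `j t = η ^ (j - 1)` with small `t` -/
theorem X3_t {K : Type} [Field K] (V : ValuationSubring K) (p : ℕ) (hp : p.Prime)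
    (hp2 : p ≠ 2) (hchar : CharP (RF V) p) {η η' : V} (hη' : η = (p : V) * η') (j : ℕ)
    (hj : 2 ≤ j) : ∃ t : V, t ∈ maximalIdeal V ∧ (j : V) * t = η ^ (j - 1) := by
  obtain ⟨e, i, hi, hij⟩ := Nat.exists_eq_pow_mul_and_not_dvd (show j ≠ 0 by omega) p hp.one_lt.ne'
  have hpm : (p : V) ∈ maximalIdeal V := by
    rw [← residue_eq_zero_iff, map_natCast]
    exact CharP.cast_eq_zero (RF V) p
  have hiu : IsUnit (i : V) := by
    by_contra hcon
    have h1 : (i : V) ∈ maximalIdeal V := (mem_maximalIdeal _).2 hcon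
    rw [← residue_eq_zero_iff, map_natCast] at h1
    exact hi ((CharP.cast_eq_zero_iff (RF V) p i).1 h1)
  obtain ⟨w, hw⟩ := hiu
  have hp3 : 3 ≤ p := by
    have := hp.two_le
    omega
  have hi0 : 0 < i := by
    rcases Nat.eq_zero_or_pos i with h | h
    · exfalso; apply hi; rw [h]; exact dvd_zero p
    · exact h
  have he : e + 1 ≤ j - 1 := by
    rcases Nat.eq_zero_or_pos e with h | h
    · omega
    · have h3 : ∀ n : ℕ, 2 * n + 1 ≤ 3 ^ n := by
        intro n
        induction n with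
        | zero => simp
        | succ n ih => rw [pow_succ]; omega
      have h4 : 3 ^ e ≤ p ^ e := Nat.pow_le_pow_left hp3 e
      have h5 : p ^ e ≤ j := by rw [hij]; exact Nat.le_mul_of_pos_right _ hi0
      have h6 := h3 e
      omega
  have hw1 : (i : V) * ((w⁻¹ : Vˣ) : V) = 1 := by rw [← hw]; exact w.mul_inv
  refine ⟨((w⁻¹ : Vˣ) : V) * (p : V) ^ (j - 1 - e) * η' ^ (j - 1), ?_, ?_⟩
  · have : j - 1 - e = (j - 1 - e - 1) + 1 := by omega
    rw [this, pow_succ]
    have h7 : ((w⁻¹ : Vˣ) : V) * ((p : V) ^ (j - 1 - e - 1) * (p : V)) * η' ^ (j - 1)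
        = (((w⁻¹ : Vˣ) : V) * (p : V) ^ (j - 1 - e - 1) * η' ^ (j - 1)) * (p : V) := by ring
    rw [h7]
    exact Ideal.mul_mem_left _ _ hpm
  · have hjc : (j : V) = (p : V) ^ e * (i : V) := by
      have := congrArg (fun n : ℕ => (n : V)) hij
      simpa using this
    have h8 : (p : V) ^ (j - 1) = (p : V) ^ e * (p : V) ^ (j - 1 - e) := by
      rw [← pow_add]
      congr 1
      omega
    rw [hη', mul_pow, h8, hjc]
    linear_combination ((p : V) ^ e * (p : V) ^ (j - 1 - e) * η' ^ (j - 1)) * hw1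

theorem X3_choose {K : Type} [Field K] (V : ValuationSubring K) (p : ℕ) (hp : p.Prime)
    (hp2 : p ≠ 2) (hchar : CharP (RF V) p) {η η' : V} (hη' : η = (p : V) * η') (k j : ℕ)
    (hj : 2 ≤ j) : ∃ t : V, t ∈ maximalIdeal V ∧
      (k.choose j : V) * (-η) ^ j = (k : V) * η * t := by
  obtain ⟨t, ht, h1⟩ := X3_t V p hp hp2 hchar hη' j hj
  rcases Nat.eq_zero_or_pos k with h0 | h0
  · refine ⟨0, Ideal.zero_mem _, ?_⟩
    rw [h0, Nat.choose_eq_zero_of_lt (by omega)]
    simp
  refine ⟨((k - 1).choose (j - 1) : V) * (-1) ^ j * t, Ideal.mul_mem_left _ _ ht, ?_⟩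
  have h2 : k * (k - 1).choose (j - 1) = k.choose j * j := by
    obtain ⟨k', rfl⟩ : ∃ k', k = k' + 1 := ⟨k - 1, by omega⟩
    obtain ⟨j', rfl⟩ : ∃ j', j = j' + 1 := ⟨j - 1, by omega⟩
    exact Nat.add_one_mul_choose_eq k' j'
  have h3 : (k : V) * ((k - 1).choose (j - 1) : V) = (k.choose j : V) * (j : V) := by
    exact_mod_cast congrArg (fun n : ℕ => (n : V)) h2
  have h4 : η ^ j = η * η ^ (j - 1) := by
    rw [← pow_succ']
    congr 1
    omega
  rw [neg_pow, h4, ← h1]
  linear_combination (-(1 : V)) * ((-1) ^ j * η * t) * h3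

theorem no_pellU {K : Type} [Field K] [CharZero K] (V : ValuationSubring K) (p : ℕ) (hp : p.Prime)
    (hp2 : p ≠ 2) (hchar : CharP (RF V) p) (H A : V[X]) (hA : A.natDegree ≤ 2)
    (hA0 : A.coeff 0 = 1) (Sq : PowerSeries V) (hSq : Sq ^ 2 = (H : PowerSeries V))
    (hc : PowerSeries.constantCoeff Sq = 1) {c₀ η η' : V} (hc₀ : IsUnit c₀) (hη : η ≠ 0)
    (hη' : η = (p : V) * η') (hAH : A ^ 2 - H = C c₀ * X ^ 3 * (X - C η))
    (hd : H.natDegree ≤ 4) {N : ℕ} {u v : V[X]} (h : PellU H Sq N u v) : False := by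
  have hN : 2 ≤ N := by have := h.degv; omega
  -- `2` is a unit
  have h2u : IsUnit (2 : V) := by
    by_contra hcon
    have h1 : (2 : V) ∈ maximalIdeal V := (mem_maximalIdeal _).2 hcon
    rw [← residue_eq_zero_iff] at h1
    have h1'' : residue V ((2 : ℕ) : V) = 0 := by
      rw [Nat.cast_ofNat]; exact h1
    have h1' : ((2 : ℕ) : RF V) = 0 := by
      rw [map_natCast] at h1''; exact h1''
    have h3 := (CharP.cast_eq_zero_iff (RF V) p 2).1 h1'
    exact hp2 ((Nat.prime_dvd_prime_iff_eq hp Nat.prime_two).1 h3)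
  obtain ⟨E, hE⟩ := h.dvd
  set U₀ : PowerSeries V := (u : PowerSeries V) + (v : PowerSeries V) * Sq with hU₀
  have hnorm : ((u : PowerSeries V) - (v : PowerSeries V) * Sq) * U₀
      = PowerSeries.X ^ (2 * N) := by
    have h1 := congrArg (fun q : V[X] => (q : PowerSeries V)) h.norm
    push_cast at h1
    rw [← hSq] at h1
    rw [← h1, hU₀]
    ring
  have hEU : E * U₀ = 1 := by
    have h1 : (PowerSeries.X : PowerSeries V) ^ (2 * N) * (E * U₀ - 1) = 0 := by
      rw [hE] at hnorm
      linear_combination hnorm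
    have h2 : (PowerSeries.X : PowerSeries V) ^ (2 * N) ≠ 0 := pow_ne_zero _ PowerSeries.X_ne_zero
    have h3 := (mul_eq_zero.1 h1).resolve_left h2
    linear_combination h3
  -- inverses
  have hAS : IsUnit ((A : PowerSeries V) + Sq) := by
    rw [PowerSeries.isUnit_iff_constantCoeff, map_add, hc]
    have : PowerSeries.constantCoeff (A : PowerSeries V) = 1 := by
      rw [← PowerSeries.coeff_zero_eq_constantCoeff_apply, Polynomial.coeff_coe, hA0]
    rw [this, one_add_one_eq_two]
    exact h2u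
  have hSu : IsUnit (2 * Sq) := by
    rw [PowerSeries.isUnit_iff_constantCoeff, map_mul, hc, mul_one, map_ofNat]
    exact h2u
  obtain ⟨W, hW⟩ := hAS
  obtain ⟨W2, hW2⟩ := hSu
  set Wi : PowerSeries V := ((W⁻¹ : (PowerSeries V)ˣ) : PowerSeries V) with hWi
  set Ui : PowerSeries V := ((W2⁻¹ : (PowerSeries V)ˣ) : PowerSeries V) with hUi
  have hWW : ((A : PowerSeries V) + Sq) * Wi = 1 := by rw [← hW]; exact W.mul_inv
  have hUU : (2 * Sq) * Ui = 1 := by rw [← hW2]; exact W2.mul_inv
  have hAH' : ((A : PowerSeries V) - Sq) * ((A : PowerSeries V) + Sq)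
      = PowerSeries.C c₀ * PowerSeries.X ^ 3 * (PowerSeries.X - PowerSeries.C η) := by
    have h1 := congrArg (fun q : V[X] => (q : PowerSeries V)) hAH
    push_cast at h1
    rw [← hSq] at h1
    linear_combination h1
  have hAm : (A : PowerSeries V) - Sq
      = PowerSeries.C c₀ * PowerSeries.X ^ 3 * (PowerSeries.X - PowerSeries.C η) * Wi := by
    rw [← hAH']
    linear_combination (-(1 : PowerSeries V)) * ((A : PowerSeries V) - Sq) * hWW
  obtain ⟨a, b, ha, hb, hab1, hab2⟩ := X3_pow H A hA hd Sq hSq N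
  set G₂ : V[X] := (u ^ 2 + H * v ^ 2) * b + (u * v * a + u * v * a) with hG₂
  have hGdeg : G₂.natDegree ≤ 4 * N - 2 := by
    have hu := h.degu
    have hv := h.degv
    refine le_trans (natDegree_add_le _ _) (max_le ?_ ?_)
    · rcases hb with hb | hb
      · rw [hb, mul_zero]; simp
      · have h1 : (u ^ 2 + H * v ^ 2).natDegree ≤ 2 * N := by
          refine le_trans (natDegree_add_le _ _) (max_le ?_ ?_)
          · refine le_trans natDegree_pow_le (by omega)
          · refine le_trans natDegree_mul_le ?_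
            have := natDegree_pow_le (p := v) (n := 2)
            omega
        refine le_trans natDegree_mul_le (by omega)
    · have h1 : (u * v * a).natDegree ≤ 4 * N - 2 := by
        refine le_trans natDegree_mul_le ?_
        have := natDegree_mul_le (p := u) (q := v)
        omega
      exact le_trans (natDegree_add_le _ _) (max_le h1 h1)
  -- main identity
  have hmain : (G₂ : PowerSeries V) * (2 * Sq)
      = U₀ ^ 2 * ((A : PowerSeries V) - Sq) ^ N
        - ((u : PowerSeries V) - (v : PowerSeries V) * Sq) ^ 2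
          * ((A : PowerSeries V) + Sq) ^ N := by
    rw [hab1, hab2, hG₂, hU₀]
    push_cast
    rw [← hSq]
    ring
  have hG : (G₂ : PowerSeries V) = PowerSeries.X ^ (3 * N) *
      ((PowerSeries.X - PowerSeries.C η) ^ N * (PowerSeries.C c₀ ^ N * Wi ^ N * U₀ ^ 2 * Ui)
        - PowerSeries.X ^ N * (E ^ 2 * ((A : PowerSeries V) + Sq) ^ N * Ui)) := by
    have h1 : (G₂ : PowerSeries V) = (G₂ : PowerSeries V) * (2 * Sq) * Ui := by
      rw [mul_assoc, hUU, mul_one]
    rw [h1, hmain, hAm, hE]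
    rw [mul_pow, mul_pow, mul_pow, mul_pow, ← pow_mul, ← pow_mul]
    have h2 : (PowerSeries.X : PowerSeries V) ^ (2 * N * 2)
        = PowerSeries.X ^ (3 * N) * PowerSeries.X ^ N := by
      rw [← pow_add]; congr 1; ring
    rw [h2]
    ring
  have hcoef0 : PowerSeries.coeff (4 * N - 1) (G₂ : PowerSeries V) = 0 := by
    rw [Polynomial.coeff_coe]
    exact Polynomial.coeff_eq_zero_of_natDegree_lt (by omega)
  set T : PowerSeries V := PowerSeries.C c₀ ^ N * Wi ^ N * U₀ ^ 2 * Ui with hT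
  have hTu : IsUnit (PowerSeries.constantCoeff T) := by
    rw [← PowerSeries.isUnit_iff_constantCoeff, hT]
    have h1 : IsUnit (PowerSeries.C c₀ : PowerSeries V) := hc₀.map _
    have h2 : IsUnit Wi := by rw [hWi]; exact Units.isUnit _
    have h3 : IsUnit Ui := by rw [hUi]; exact Units.isUnit _
    have h4 : IsUnit U₀ := IsUnit.of_mul_eq_one_right E hEU
    exact (((h1.pow N).mul (h2.pow N)).mul (h4.pow 2)).mul h3
  have hcoef1 : PowerSeries.coeff (N - 1)
      ((PowerSeries.X - PowerSeries.C η) ^ N * T) = 0 := by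
    have e1 : 4 * N - 1 = (N - 1) + 3 * N := by omega
    rw [hG, e1, PowerSeries.coeff_X_pow_mul] at hcoef0
    rw [map_sub] at hcoef0
    rw [PowerSeries.coeff_X_pow_mul' (E ^ 2 * ((A : PowerSeries V) + Sq) ^ N * Ui) N (N - 1)]
      at hcoef0
    rw [if_neg (by omega), sub_zero] at hcoef0
    exact hcoef0
  -- expansion
  have hexp : ∀ i, PowerSeries.coeff i ((PowerSeries.X - PowerSeries.C η : PowerSeries V) ^ N)
      = (N.choose i : V) * (-η) ^ (N - i) := by
    intro i
    have h1 : (PowerSeries.X - PowerSeries.C η : PowerSeries V) ^ N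
        = (((X + C (-η)) ^ N : V[X]) : PowerSeries V) := by
      push_cast
      rw [map_neg, sub_eq_add_neg]
    rw [h1, Polynomial.coeff_coe, Polynomial.coeff_X_add_C_pow]
    ring
  rw [PowerSeries.coeff_mul, Finset.Nat.sum_antidiagonal_eq_sum_range_succ
    (fun i j => PowerSeries.coeff i ((PowerSeries.X - PowerSeries.C η : PowerSeries V) ^ N)
      * PowerSeries.coeff j T)] at hcoef1
  have e2 : (N - 1).succ = (N - 1) + 1 := rfl
  rw [e2, Finset.sum_range_succ] at hcoef1
  -- each term of the sum is `N η` times a small element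
  have hterm : ∀ i ∈ Finset.range (N - 1), ∃ t : V, t ∈ maximalIdeal V ∧
      PowerSeries.coeff i ((PowerSeries.X - PowerSeries.C η : PowerSeries V) ^ N)
        * PowerSeries.coeff (N - 1 - i) T = (N : V) * η * t := by
    intro i hi
    rw [Finset.mem_range] at hi
    obtain ⟨t, ht, h1⟩ := X3_choose V p hp hp2 hchar hη' N (N - i) (by omega)
    refine ⟨t * PowerSeries.coeff (N - 1 - i) T, Ideal.mul_mem_right _ _ ht, ?_⟩
    rw [hexp i]
    rw [Nat.choose_symm (by omega)] at h1
    rw [h1]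
    ring
  choose! tt htt1 htt2 using hterm
  rw [Finset.sum_congr rfl htt2, ← Finset.mul_sum] at hcoef1
  rw [Nat.sub_self, hexp (N - 1)] at hcoef1
  have h5 : N - (N - 1) = 1 := by omega
  have h6 : N.choose (N - 1) = N := by
    rw [Nat.choose_symm_of_eq_add (show N = (N - 1) + 1 by omega), Nat.choose_one_right]
  rw [h5, h6, pow_one, PowerSeries.coeff_zero_eq_constantCoeff_apply] at hcoef1
  have hfin : (N : V) * η * (∑ i ∈ Finset.range (N - 1), tt i
      - PowerSeries.constantCoeff T) = 0 := by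
    linear_combination hcoef1
  have hN0 : (N : V) ≠ 0 := by
    intro h0
    have h1 : ((N : V) : K) = ((0 : V) : K) := by rw [h0]
    have h2 : (N : K) = 0 := by
      simpa using h1
    have h3 : N = 0 := by exact_mod_cast h2
    omega
  have h7 := (mul_eq_zero.1 hfin).resolve_left (mul_ne_zero hN0 hη)
  have h8 : PowerSeries.constantCoeff T = ∑ i ∈ Finset.range (N - 1), tt i := by
    linear_combination -h7
  have h9 : PowerSeries.constantCoeff T ∈ maximalIdeal V := by
    rw [h8]
    exact Ideal.sum_mem _ (fun i hi => htt1 i hi)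
  exact (mem_maximalIdeal _).1 h9 hTu

end Pool.Agent.LibT62
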