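import Pool.Agent.LibT62.A4
import Pool.Agent.LibT62.X1
import Pool.Agent.LibT62.X2
import Pool.Agent.LibT62.X3

/-!
Row X4: an explicit family. `p` an odd prime, algebraic integers `a, b, c, d` with `p ∣ a b`, `c` prime
to `p`, `p ∣ c + d ≠ 0`: the Pell
equation of `h = (x - c)(x - d)(x - ab/c)(x - ab/d)` is unsolvable over the algebraic numbers.
A place `V` of `Qb` above `p` exists (as in `exists_place_above`, LibJac77/D1a.lean:
`natCast_not_unit_integral`, `Ideal.image_subset_nonunits_valuationSubring`). `c`, `d`, `2` are units.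
`m = a b`, `g = c + m/c`, `g' = d + m/d`, `Ht = (1 - g X + m X^2)(1 - g' X + m X^2)`,
`A = 1 + s₁ X + s₂ X^2`, `s₁ = - (g + g')/2`, `s₂ = m - (g - g')^2/8`: `A^2 - Ht = c₀ X^3 (X - η)` with
`c₀ = s₂^2 - m^2 = - ((g-g')^2/8) (2 m - (g-g')^2/8)`, `c₀ η = - (g+g')(g-g')^2/8 · (sign: compute)`.
Modulo `V`: `m = 0`, `g - g' = c - d = 2 c ≠ 0`, so `c₀` is a unit; `g + g' = (c+d)(cd+m)/(cd)`, so
`η ∈ p V`, `η ≠ 0` (`c d + m` is congruent to `c d`, not zero). `Ht` mod `V` is not a square: if
`Ht = G^2` mod `V`, `G(0) = 1` without loss, `(A - G)(A + G) = c₀ X^4`, so `X^4 ∣ A - G`, `A = G`,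
contradiction. If `P^2 - Ht Q^2 = X^(2m)`, `Q ≠ 0`: `pellU_of`, `pellU_int` (`Sq` over `Qb` is the image of
`Sq` over `V`: `exists_sqrt`, `sqrt_unique`), `no_pellU`. Finally from `NoPell Ht` to the statement with
`H4`: `P.reflect m`, `Q.reflect (m - 2)` (or evaluate at `t⁻¹`: `Ht_eval`), `m` large.
-/

open scoped Classical
open Polynomial IsLocalRing

namespace Pool.Agent.LibT62

open Pool.Agent.LibBH2 Pool.Agent.LibJac77

theorem X4_place (p : ℕ) (hp : p.Prime) : ∃ V : ValuationSubring Qb, CharP (RF V) p ∧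
    ∀ z : integralClosure ℤ Qb, (z : Qb) ∈ V := by
  set A : Subring Qb := (integralClosure ℤ Qb).toSubring with hA
  have hpA : (p : Qb) ∈ A := natCast_mem A p
  let I : Ideal A := Ideal.span {(⟨(p : Qb), hpA⟩ : A)}
  have hI : I ≠ ⊤ := by
    intro h
    rw [Ideal.span_singleton_eq_top] at h
    obtain ⟨b, hb⟩ := isUnit_iff_exists_inv.mp h
    refine natCast_not_unit_integral hp (b : Qb) ?_ ?_
    · exact b.2
    · exact congrArg Subtype.val hb
  obtain ⟨V, hAV, hIV⟩ := Ideal.image_subset_nonunits_valuationSubring I hI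
  have hpV : (p : Qb) ∈ V.nonunits :=
    hIV ⟨⟨(p : Qb), hpA⟩, Ideal.subset_span rfl, rfl⟩
  have hpV1 : (p : Qb) ∈ V := hAV hpA
  have hres : residue V ⟨(p : Qb), hpV1⟩ = 0 := by
    rw [residue_eq_zero_iff]
    have := (ValuationSubring.coe_mem_nonunits_iff (A := V) (a := ⟨(p : Qb), hpV1⟩)).mp hpV
    exact this
  have hcast : ((p : ℕ) : RF V) = 0 := by
    have h1 : (⟨(p : Qb), hpV1⟩ : V) = ((p : ℕ) : V) := Subtype.ext (by simp)
    rw [h1, map_natCast] at hres
    exact hres
  exact ⟨V, (CharP.charP_iff_prime_eq_zero hp).mpr hcast, fun z => hAV z.2⟩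

theorem X4_refl1 {k : Type} [Field k] (c : k) :
    (X - C c : k[X]).reflect 1 = 1 - C c * X := by
  have h1 : (X - C c : k[X]) = X ^ 1 - C c := by rw [pow_one]
  rw [h1, reflect_sub, reflect_monomial, reflect_C, Polynomial.revAt_le le_rfl, pow_one,
    Nat.sub_self, pow_zero]

theorem X4_refl {k : Type} [Field k] (a b c d : k) : (H4 a b c d).reflect 4 = Ht a b c d := by
  unfold Ht H4
  have h0 : ∀ r : k, (X - C r).natDegree ≤ 1 := fun r => natDegree_X_sub_C_le r
  have e1 := Polynomial.natDegree_mul_le (p := (X - C c)) (q := (X - C d))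
  have e2 := Polynomial.natDegree_mul_le (p := (X - C c) * (X - C d))
    (q := (X - C (a * b / c)))
  have h1 := h0 c
  have h2 := h0 d
  have h3 := h0 (a * b / c)
  have h4 := h0 (a * b / d)
  rw [show (4 : ℕ) = 3 + 1 from rfl, reflect_mul _ _ (by omega) h4,
    show (3 : ℕ) = 2 + 1 from rfl, reflect_mul _ _ (by omega) h3,
    show (2 : ℕ) = 1 + 1 from rfl, reflect_mul _ _ h1 h2]
  simp only [X4_refl1]

theorem X4_H4deg {k : Type} [Field k] (a b c d : k) : (H4 a b c d).natDegree ≤ 4 := by
  unfold H4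
  have h0 : ∀ r : k, (X - C r).natDegree ≤ 1 := fun r => natDegree_X_sub_C_le r
  have e1 := Polynomial.natDegree_mul_le (p := (X - C c)) (q := (X - C d))
  have e2 := Polynomial.natDegree_mul_le (p := (X - C c) * (X - C d))
    (q := (X - C (a * b / c)))
  have e3 := Polynomial.natDegree_mul_le (p := (X - C c) * (X - C d) * (X - C (a * b / c)))
    (q := (X - C (a * b / d)))
  have h1 := h0 c
  have h2 := h0 d
  have h3 := h0 (a * b / c)
  have h4 := h0 (a * b / d)
  omega

theorem X4_reflect_natDegree {k : Type} [Field k] (f : k[X]) {N : ℕ} (h : f.natDegree ≤ N) :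
    (f.reflect N).natDegree ≤ N := by
  rw [natDegree_le_iff_coeff_eq_zero]
  intro n hn
  rw [coeff_reflect]
  have : revAt N n = n := by
    change (if n ≤ N then N - n else n) = n
    rw [if_neg (not_le.mpr hn)]
  rw [this]
  exact coeff_eq_zero_of_natDegree_lt (lt_of_le_of_lt h hn)

/-- from the Pell equation in `x` to the Pell equation in `t` -/
theorem X4_pell {k : Type} [Field k] (a b c d : k) (P Q : k[X])
    (h : P ^ 2 - H4 a b c d * Q ^ 2 = 1) (hQ : Q ≠ 0) :
    ∃ (m : ℕ) (P' Q' : k[X]), P'.natDegree ≤ m ∧ Q'.natDegree + 2 ≤ m ∧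
      P' ^ 2 - Ht a b c d * Q' ^ 2 = X ^ (2 * m) ∧ Q' ≠ 0 := by
  set l : ℕ := max P.natDegree Q.natDegree with hl
  have hP1 : P.natDegree ≤ l + 2 := by
    have := le_max_left P.natDegree Q.natDegree
    omega
  have hQ1 : Q.natDegree ≤ l := le_max_right _ _
  have hQ2 : (Q ^ 2).natDegree ≤ l + l := by
    have := Polynomial.natDegree_pow_le (p := Q) (n := 2)
    omega
  refine ⟨l + 2, P.reflect (l + 2), Q.reflect l, X4_reflect_natDegree P hP1, ?_, ?_, ?_⟩
  · have := X4_reflect_natDegree Q hQ1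
    omega
  · have e1 : (P ^ 2).reflect (2 * (l + 2)) = (P.reflect (l + 2)) ^ 2 := by
      rw [show 2 * (l + 2) = (l + 2) + (l + 2) by ring, sq, reflect_mul P P hP1 hP1, sq]
    have e2 : (H4 a b c d * Q ^ 2).reflect (2 * (l + 2)) = Ht a b c d * (Q.reflect l) ^ 2 := by
      rw [show 2 * (l + 2) = 4 + (l + l) by ring, reflect_mul _ _ (X4_H4deg a b c d) hQ2,
        X4_refl, sq, reflect_mul Q Q hQ1 hQ1, sq]
    have e3 := congrArg (Polynomial.reflect (2 * (l + 2))) h
    rw [reflect_sub, e1, e2] at e3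
    rw [e3]
    have h1 : (1 : k[X]) = C 1 := by rw [C_1]
    rw [h1, reflect_C, C_1, one_mul]
  · intro h0
    exact hQ (Polynomial.reflect_eq_zero_iff.1 h0)

section

variable {V : ValuationSubring Qb} {p : ℕ}

theorem X4_two (hp : p.Prime) (hp2 : p ≠ 2) (hchar : CharP (RF V) p) : (2 : RF V) ≠ 0 := by
  intro h
  have h0 : ((2 : ℕ) : RF V) = 0 := by rw [Nat.cast_ofNat]; exact h
  have h1 := (CharP.cast_eq_zero_iff (RF V) p 2).1 h0
  exact hp2 ((Nat.prime_dvd_prime_iff_eq hp Nat.prime_two).1 h1)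

theorem X4_unit {z : V} (h : residue V z ≠ 0) : IsUnit z := by
  by_contra hcon
  exact h ((residue_eq_zero_iff _).2 ((mem_maximalIdeal _).2 hcon))

theorem X4_res {z : V} (h : IsUnit z) : residue V z ≠ 0 := fun h0 =>
  (mem_maximalIdeal _).1 ((residue_eq_zero_iff _).1 h0) h

theorem X4_p (hchar : CharP (RF V) p) : residue V (p : V) = 0 := by
  rw [map_natCast]
  exact CharP.cast_eq_zero (RF V) p

theorem H4_nsq_V (hp : p.Prime) (hp2 : p ≠ 2) (hchar : CharP (RF V) p) {a b : Qb} {c d m' t : V}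
    (hc : IsUnit c) (hab : a * b = (((p : V) * m' : V) : Qb)) (hcd : c + d = (p : V) * t) :
    ¬ IsSquare (H4 a b (c : Qb) (d : Qb)) := by
  rintro ⟨G, hG⟩
  have h2 := X4_two hp hp2 hchar
  have hpr := X4_p hchar
  have hcr := X4_res hc
  have hdr : residue V d = - residue V c := by
    have := congrArg (residue V) hcd
    rw [map_add, map_mul, hpr, zero_mul] at this
    linear_combination this
  have hcQ : (c : Qb) ≠ 0 := fun h0 => hc.ne_zero (Subtype.ext h0)
  have hdQ : (d : Qb) ≠ 0 := by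
    intro h0
    have h1 : d = 0 := Subtype.ext h0
    rw [h1, map_zero] at hdr
    exact hcr (neg_eq_zero.1 hdr.symm)
  have h1 : (H4 a b (c : Qb) (d : Qb)).eval (c : Qb) = 0 := by
    simp [H4]
  have h2' : G.eval (c : Qb) = 0 := by
    rw [hG, eval_mul] at h1
    exact mul_self_eq_zero.1 h1
  have h3 : (derivative (H4 a b (c : Qb) (d : Qb))).eval (c : Qb) = 0 := by
    rw [hG, derivative_mul, eval_add, eval_mul, eval_mul, h2']
    ring
  have h4 : (derivative (H4 a b (c : Qb) (d : Qb))).eval (c : Qb)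
      = ((c : Qb) - d) * ((c : Qb) - a * b / c) * ((c : Qb) - a * b / d) := by
    simp only [H4, derivative_mul, derivative_sub, derivative_X, derivative_C, eval_add, eval_mul,
      eval_sub, eval_X, eval_C, eval_one, eval_zero]
    ring
  rw [h4] at h3
  rcases mul_eq_zero.1 h3 with h5 | h5
  · rcases mul_eq_zero.1 h5 with h6 | h6
    · have h7 : c = d := Subtype.ext (sub_eq_zero.1 h6)
      rw [← h7] at hdr
      have h8 : (2 : RF V) * residue V c = 0 := by linear_combination hdr
      exact mul_ne_zero h2 hcr h8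
    · have h7 : (c : Qb) * c = a * b := by
        have := sub_eq_zero.1 h6
        field_simp at this
        linear_combination this
      rw [hab] at h7
      have h8 : c * c = (p : V) * m' := Subtype.ext h7
      have h9 := congrArg (residue V) h8
      rw [map_mul, map_mul, hpr, zero_mul] at h9
      exact mul_ne_zero hcr hcr h9
  · have h7 : (c : Qb) * d = a * b := by
      have := sub_eq_zero.1 h5
      field_simp at this
      linear_combination this
    rw [hab] at h7
    have h8 : c * d = (p : V) * m' := Subtype.ext h7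
    have h9 := congrArg (residue V) h8
    rw [map_mul, map_mul, hpr, zero_mul, hdr] at h9
    exact mul_ne_zero hcr (neg_ne_zero.2 hcr) h9

theorem pell_V (hp : p.Prime) (hp2 : p ≠ 2) (hchar : CharP (RF V) p) {a b : Qb} {c d m' t : V}
    (hc : IsUnit c) (hab : a * b = (((p : V) * m' : V) : Qb)) (hcd : c + d = (p : V) * t)
    (hne : c + d ≠ 0) (P Q : Qb[X])
    (h : P ^ 2 - H4 a b (c : Qb) (d : Qb) * Q ^ 2 = 1) : Q = 0 := by
  by_contra hQ
  have h2 := X4_two hp hp2 hchar
  have hpr := X4_p hchar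
  have hcr := X4_res hc
  have hcd0 : residue V d = - residue V c := by
    have := congrArg (residue V) hcd
    rw [map_add, map_mul, hpr, zero_mul] at this
    linear_combination this
  have hd : IsUnit d := X4_unit (by rw [hcd0]; exact neg_ne_zero.2 hcr)
  obtain ⟨ci, hci⟩ := isUnit_iff_exists_inv.1 hc
  obtain ⟨di, hdi⟩ := isUnit_iff_exists_inv.1 hd
  have h2u : IsUnit (2 : V) := X4_unit (by rw [map_ofNat]; exact h2)
  obtain ⟨hf, hhf⟩ := isUnit_iff_exists_inv.1 h2u
  set m : V := (p : V) * m' with hm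
  have hmr : residue V m = 0 := by rw [hm, map_mul, hpr, zero_mul]
  have h3m : (p : V) ∈ maximalIdeal V := (residue_eq_zero_iff _).1 hpr
  have hmmax : m ∈ maximalIdeal V := (residue_eq_zero_iff _).1 hmr
  -- polynomials over `V`
  set HV : V[X] := (1 - C c * X) * (1 - C d * X) * (1 - C (m * ci) * X)
    * (1 - C (m * di) * X) with hHV
  have hciQ : ((ci : V) : Qb) = (c : Qb)⁻¹ := by
    have h1 := congrArg (algebraMap V Qb) hci
    rw [map_mul, map_one] at h1
    exact (eq_inv_of_mul_eq_one_right h1)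
  have hdiQ : ((di : V) : Qb) = (d : Qb)⁻¹ := by
    have h1 := congrArg (algebraMap V Qb) hdi
    rw [map_mul, map_one] at h1
    exact (eq_inv_of_mul_eq_one_right h1)
  have hHVmap : HV.map (algebraMap V Qb) = Ht a b (c : Qb) (d : Qb) := by
    rw [hHV]
    simp only [Polynomial.map_mul, Polynomial.map_sub, Polynomial.map_one, map_C, map_X, Ht]
    have e1 : algebraMap V Qb (m * ci) = a * b / c := by
      rw [map_mul]
      have h5 : algebraMap V Qb ci = (c : Qb)⁻¹ := hciQ
      have h6 : algebraMap V Qb m = a * b := hab.symm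
      rw [h5, h6, div_eq_mul_inv]
    have e2 : algebraMap V Qb (m * di) = a * b / d := by
      rw [map_mul]
      have h5 : algebraMap V Qb di = (d : Qb)⁻¹ := hdiQ
      have h6 : algebraMap V Qb m = a * b := hab.symm
      rw [h5, h6, div_eq_mul_inv]
    have e3 : algebraMap V Qb c = (c : Qb) := rfl
    have e4 : algebraMap V Qb d = (d : Qb) := rfl
    rw [e1, e2, e3, e4]
  -- the residue of `HV` is not a square
  have hnsq : ¬ IsSquare (HV.map (residue V)) := by
    rintro ⟨G, hG⟩
    have hHr : HV.map (residue V) = (1 - C (residue V c) * X)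
        * (1 + C (residue V c) * X) := by
      rw [hHV]
      simp only [Polynomial.map_mul, Polynomial.map_sub, Polynomial.map_one, map_C, map_X]
      have f1 : residue V (m * ci) = 0 := by rw [map_mul, hmr, zero_mul]
      have f2 : residue V (m * di) = 0 := by rw [map_mul, hmr, zero_mul]
      rw [f1, f2, hcd0]
      simp only [map_zero, map_neg]
      ring
    set x := (residue V c)⁻¹ with hx
    have h1 : (HV.map (residue V)).eval x = 0 := by
      have f3 : (1 - C (residue V c) * X).eval x = 0 := by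
        rw [eval_sub, eval_one, eval_mul, eval_C, eval_X, hx, mul_inv_cancel₀ hcr, sub_self]
      rw [hHr, eval_mul, f3, zero_mul]
    have h2' : G.eval x = 0 := by
      rw [hG, eval_mul] at h1
      exact mul_self_eq_zero.1 h1
    have h3 : (derivative (HV.map (residue V))).eval x = 0 := by
      rw [hG, derivative_mul, eval_add, eval_mul, eval_mul, h2']
      ring
    have h4 : (derivative (HV.map (residue V))).eval x = - 2 * residue V c := by
      rw [hHr]
      simp only [derivative_mul, derivative_sub, derivative_add, derivative_X, derivative_C,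
        derivative_one, eval_add, eval_mul, eval_sub, eval_X, eval_C, eval_one, eval_zero]
      have : residue V c * x = 1 := mul_inv_cancel₀ hcr
      linear_combination (-2 * residue V c) * this
    rw [h4] at h3
    rcases mul_eq_zero.1 h3 with h7 | h7
    · exact h2 (neg_eq_zero.1 h7)
    · exact hcr h7
  -- square root
  have hHV0 : PowerSeries.constantCoeff (HV : PowerSeries V) = 1 := by
    rw [← PowerSeries.coeff_zero_eq_constantCoeff_apply, Polynomial.coeff_coe,
      Polynomial.coeff_zero_eq_eval_zero, hHV]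
    simp
  obtain ⟨SqV, hSqV, hSqc⟩ := exists_sqrt h2u (HV : PowerSeries V) hHV0
  set Sq : PowerSeries Qb := SqV.map (algebraMap V Qb) with hSq
  have hSq2 : Sq ^ 2 = ((Ht a b (c : Qb) (d : Qb) : Qb[X]) : PowerSeries Qb) := by
    rw [hSq, ← map_pow, hSqV, ← hHVmap, Polynomial.polynomial_map_coe]
  have hSqc' : PowerSeries.constantCoeff Sq = 1 := by
    rw [hSq, ← PowerSeries.coeff_zero_eq_constantCoeff_apply, PowerSeries.coeff_map,
      PowerSeries.coeff_zero_eq_constantCoeff_apply, hSqc, map_one]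
  obtain ⟨M, P', Q', hP', hQ', hPQ, hQ'0⟩ := X4_pell a b (c : Qb) (d : Qb) P Q h hQ
  have h2Q : (2 : Qb) ≠ 0 := two_ne_zero
  obtain ⟨N, u, v, huv⟩ := pellU_of h2Q (Ht a b (c : Qb) (d : Qb))
    (Ht_coeff_zero _ _ _ _) Sq hSq2 hSqc' hP' hQ' hPQ hQ'0
  rw [← hHVmap] at huv
  obtain ⟨u', v', huv'⟩ := pellU_int V HV hnsq SqV huv
  -- the approximation `A`
  set g : V := c + m * ci with hg
  set g' : V := d + m * di with hg'
  set w : V := (g - g') ^ 2 * hf ^ 3 with hw
  set A : V[X] := 1 + C (-(g + g') * hf) * X + C (m - w) * X ^ 2 with hA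
  have hwu : IsUnit w := by
    by_contra hcon
    have h1 : w ∈ maximalIdeal V := (mem_maximalIdeal _).2 hcon
    have hprime := (maximalIdeal.isMaximal V).isPrime
    have hhfu : hf ∉ maximalIdeal V := by
      intro h3
      exact (mem_maximalIdeal _).1 h3 (IsUnit.of_mul_eq_one_right 2 hhf)
    rcases hprime.mem_or_mem h1 with h2 | h2
    · have h3 := hprime.mem_of_pow_mem 2 h2
      have h4 : (2 : V) * c ∈ maximalIdeal V := by
        have e1 : (2 : V) * c = (g - g') + (p : V) * t - m * ci + m * di := by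
          rw [hg, hg']
          linear_combination hcd
        rw [e1]
        refine Ideal.add_mem _ (Ideal.sub_mem _ (Ideal.add_mem _ h3 ?_) ?_) ?_
        · exact Ideal.mul_mem_right _ _ h3m
        · exact Ideal.mul_mem_right _ _ hmmax
        · exact Ideal.mul_mem_right _ _ hmmax
      rcases hprime.mem_or_mem h4 with h5 | h5
      · exact (mem_maximalIdeal _).1 h5 h2u
      · exact (mem_maximalIdeal _).1 h5 hc
    · exact hhfu (hprime.mem_of_pow_mem 3 h2)
  have hc₀u : IsUnit (w ^ 2 - 2 * m * w) := by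
    by_contra hcon
    have h1 : w ^ 2 - 2 * m * w ∈ maximalIdeal V := (mem_maximalIdeal _).2 hcon
    have h2 : 2 * m * w ∈ maximalIdeal V :=
      Ideal.mul_mem_right _ _ (Ideal.mul_mem_left _ _ hmmax)
    have h3 : w ^ 2 ∈ maximalIdeal V := by
      have := Ideal.add_mem _ h1 h2
      simpa using this
    exact (mem_maximalIdeal _).1 h3 (hwu.pow 2)
  obtain ⟨c₁, hc₁⟩ := isUnit_iff_exists_inv.1 hc₀u
  set η : V := -(g + g') * w * c₁ with hη
  set η' : V := -(t + m' * (ci + di)) * w * c₁ with hη'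
  have e3 : g + g' = (p : V) * (t + m' * (ci + di)) := by
    rw [hg, hg', hm]
    linear_combination hcd
  have hηη : η = (p : V) * η' := by
    rw [hη, hη', e3]
    ring
  have hη0 : η ≠ 0 := by
    have e4 : g + g' = (c + d) * (1 + m * (ci * di)) := by
      rw [hg, hg']
      linear_combination (-m * di) * hci + (-m * ci) * hdi
    have h1 : c + d ≠ 0 := by
      intro h0
      apply hne
      exact h0
    have h2 : (1 + m * (ci * di) : V) ≠ 0 := by
      intro h0
      have h3 : (1 : V) ∈ maximalIdeal V := by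
        have h4 : (1 : V) = - (m * (ci * di)) := by linear_combination h0
        rw [h4]
        exact (Ideal.neg_mem_iff _).2 (Ideal.mul_mem_right _ _ hmmax)
      exact (mem_maximalIdeal _).1 h3 isUnit_one
    have h3 : c₁ ≠ 0 := (IsUnit.of_mul_eq_one_right _ hc₁).ne_zero
    rw [hη, e4]
    exact mul_ne_zero (mul_ne_zero (neg_ne_zero.2 (mul_ne_zero h1 h2)) hwu.ne_zero) h3
  have hdiff : A ^ 2 - HV = C (w ^ 2 - 2 * m * w) * X ^ 3 * (X - C η) := by
    have hHV2 : HV = (1 - C g * X + C m * X ^ 2) * (1 - C g' * X + C m * X ^ 2) := by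
      rw [hHV, hg, hg']
      simp only [C_add, C_mul]
      have f1 : (C c * C ci : V[X]) = 1 := by rw [← C_mul, hci, C_1]
      have f2 : (C d * C di : V[X]) = 1 := by rw [← C_mul, hdi, C_1]
      have g1 : (1 - C c * X) * (1 - C m * C ci * X)
          = 1 - (C c + C m * C ci) * X + C m * X ^ 2 := by
        linear_combination (C m * X ^ 2) * f1
      have g2 : (1 - C d * X) * (1 - C m * C di * X)
          = 1 - (C d + C m * C di) * X + C m * X ^ 2 := by
        linear_combination (C m * X ^ 2) * f2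
      rw [← g1, ← g2]
      ring
    have k1 : (w ^ 2 - 2 * m * w) * η = -(g + g') * w := by
      rw [hη]
      linear_combination (-(g + g') * w) * hc₁
    have k2 : 8 * w = (g - g') ^ 2 := by
      rw [hw]
      have : (2 * hf) ^ 3 = 1 := by rw [hhf, one_pow]
      linear_combination ((g - g') ^ 2) * this
    have k3 : (C (w ^ 2 - 2 * m * w) * C η : V[X]) = C (-(g + g') * w) := by
      rw [← C_mul, k1]
    have p1 : A = 1 - C (g + g') * C hf * X + C m * X ^ 2 - C w * X ^ 2 := by
      rw [hA]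
      simp only [C_mul, C_neg, C_sub]
      ring
    have p2 : (2 * C hf : V[X]) = 1 := by
      have : (C 2 * C hf : V[X]) = 1 := by rw [← C_mul, hhf, C_1]
      rwa [map_ofNat] at this
    have p3 : (8 * C w : V[X]) = (C g - C g') ^ 2 := by
      have : (C 8 * C w : V[X]) = (C g - C g') ^ 2 := by
        rw [← C_mul, k2]; simp only [C_pow, C_sub]
      rwa [map_ofNat] at this
    have q0 : (C (w ^ 2 - 2 * m * w) : V[X]) = C w ^ 2 - 2 * C m * C w := by
      simp only [C_sub, C_mul, C_pow, map_ofNat]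
    have q1 : (C (-(g + g') * w) : V[X]) = -(C g + C g') * C w := by
      simp only [C_mul, C_neg, C_add]
    have q2 : (C (g + g') : V[X]) = C g + C g' := C_add
    rw [q0, q1] at k3
    rw [p1, hHV2, q0, q2]
    linear_combination (-X * (C g + C g') + X ^ 2 * (2 * C w + C g * C g') * (2 * C hf + 1)
      - X ^ 3 * (C g + C g') * (C m - C w)) * p2 - X ^ 2 * C hf ^ 2 * p3 + X ^ 3 * k3
  refine no_pellU V p hp hp2 hchar HV A ?_ ?_ SqV hSqV hSqc hc₀u hη0 hηη
    hdiff ?_ huv'
  · rw [hA]
    compute_degree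
  · rw [hA]
    simp [coeff_X, coeff_C]
  · rw [hHV]
    have h0 : ∀ r : V, (1 - C r * X : V[X]).natDegree ≤ 1 := by
      intro r; compute_degree
    have e1 := Polynomial.natDegree_mul_le (p := (1 - C c * X)) (q := (1 - C d * X))
    have e2 := Polynomial.natDegree_mul_le (p := (1 - C c * X) * (1 - C d * X))
      (q := (1 - C (m * ci) * X))
    have e3 := Polynomial.natDegree_mul_le (p := (1 - C c * X) * (1 - C d * X)
      * (1 - C (m * ci) * X)) (q := (1 - C (m * di) * X))
    have h1 := h0 c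
    have h2 := h0 d
    have h3 := h0 (m * ci)
    have h4 := h0 (m * di)
    omega

end

/-- the explicit family -/
theorem explicit_family {p : ℕ} (hp : p.Prime) (hp2 : p ≠ 2) {a b c d m t u v : Qb}
    (hc : IsIntegral ℤ c) (hm : IsIntegral ℤ m) (ht : IsIntegral ℤ t) (hu : IsIntegral ℤ u)
    (hv : IsIntegral ℤ v) (hab : a * b = p * m) (hcd : c + d = p * t) (hne : c + d ≠ 0)
    (huv : u * c + v * p = 1) :
    ¬ IsSquare (H4 a b c d) ∧ ∀ P Q : Qb[X], P ^ 2 - H4 a b c d * Q ^ 2 = 1 → Q = 0 := by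
  obtain ⟨V, hchar, hV⟩ := X4_place p hp
  have hV' : ∀ z : Qb, IsIntegral ℤ z → ∃ w : V, (w : Qb) = z := fun z hz =>
    ⟨⟨z, hV ⟨z, (mem_integralClosure_iff ℤ Qb).2 hz⟩⟩, rfl⟩
  have hinj : Function.Injective (algebraMap V Qb) := Subtype.val_injective
  have hpr := X4_p hchar
  obtain ⟨m₁, rfl⟩ := hV' m hm
  obtain ⟨t₁, rfl⟩ := hV' t ht
  obtain ⟨u₁, rfl⟩ := hV' u hu
  obtain ⟨v₁, rfl⟩ := hV' v hv
  obtain ⟨c₁, rfl⟩ := hV' c hc
  obtain ⟨d₁, rfl⟩ : ∃ w : V, (w : Qb) = d := by
    refine ⟨(p : V) * t₁ - c₁, ?_⟩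
    have h5 : (((p : V) * t₁ - c₁ : V) : Qb) = algebraMap V Qb ((p : V) * t₁ - c₁) := rfl
    rw [h5, map_sub, map_mul, map_natCast]
    change (p : Qb) * (t₁ : Qb) - (c₁ : Qb) = d
    rw [← hcd]
    ring
  have h1 : u₁ * c₁ + v₁ * (p : V) = 1 := by
    apply hinj
    rw [map_add, map_mul, map_mul, map_natCast, map_one]
    exact huv
  have hcu : IsUnit c₁ := by
    apply X4_unit
    intro h0
    have h2 := congrArg (residue V) h1
    rw [map_add, map_mul, map_mul, h0, hpr, mul_zero, mul_zero, add_zero, map_one] at h2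
    exact zero_ne_one h2
  have h3 : a * b = (((p : V) * m₁ : V) : Qb) := by
    have h5 : (((p : V) * m₁ : V) : Qb) = algebraMap V Qb ((p : V) * m₁) := rfl
    rw [h5, map_mul, map_natCast]
    exact hab
  have h4 : c₁ + d₁ = (p : V) * t₁ := by
    apply hinj
    rw [map_add, map_mul, map_natCast]
    exact hcd
  have h5 : c₁ + d₁ ≠ 0 := by
    intro h0
    apply hne
    have h6 := congrArg (algebraMap V Qb) h0
    rw [map_add, map_zero] at h6
    exact h6
  exact ⟨H4_nsq_V hp hp2 hchar hcu h3 h4, pell_V hp hp2 hchar hcu h3 h4 h5⟩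

end Pool.Agent.LibT62
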