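import Pool.Agent.LibT62.V2
import Pool.Agent.LibT62.V3
import Pool.Agent.LibT62.X4

/-!
The pairs of points in the Jacobian.
-/

open scoped Classical
open Polynomial

namespace Pool.Agent.LibT62

open Pool.Agent.LibBH2 Pool.Agent.LibQC8 Pool.Agent.LibLP34 Pool.Agent.LibDih3
open Pool.Agent.LibJac77 (Genus2 Pt KC DCf vp dv neg jP Pic mk Sp Qb)

/-- independence of two sequences -/
theorem linearIndependent_of {G : Type} [AddCommGroup G] (p q : ℕ → G)
    (h : ∀ u v : ℕ →₀ ℤ, (u.sum fun i m => m • p i) + (v.sum fun i m => m • q i) = 0 →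
      u = 0 ∧ v = 0) : LinearIndependent ℤ (Sum.elim p q) := by
  rw [linearIndependent_iff]
  intro l hl
  obtain ⟨u, hu⟩ : ∃ u : ℕ →₀ ℤ, u = l.comapDomain Sum.inl Sum.inl_injective.injOn := ⟨_, rfl⟩
  obtain ⟨v, hv⟩ : ∃ v : ℕ →₀ ℤ, v = l.comapDomain Sum.inr Sum.inr_injective.injOn := ⟨_, rfl⟩
  have hl2 : l = u.mapDomain Sum.inl + v.mapDomain Sum.inr := by
    ext i
    rw [Finsupp.add_apply]
    cases i with
    | inl i =>
      rw [Finsupp.mapDomain_apply Sum.inl_injective, Finsupp.mapDomain_of_notMem_range, hu]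
      · simp
      · simp
    | inr i =>
      rw [Finsupp.mapDomain_apply Sum.inr_injective, Finsupp.mapDomain_of_notMem_range, hv]
      · simp
      · simp
  rw [hl2, map_add, Finsupp.linearCombination_mapDomain, Finsupp.linearCombination_mapDomain,
    Finsupp.linearCombination_apply, Finsupp.linearCombination_apply] at hl
  obtain ⟨h1, h2⟩ := h u v hl
  rw [hl2, h1, h2, Finsupp.mapDomain_zero, Finsupp.mapDomain_zero, add_zero]

/-- the degree zero classes -/
theorem deg_sum {f : Qb[X]} [Genus2 f] (p : ℕ → Pt f) (u : ℕ →₀ ℤ) :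
    ∃ D : Pt f →₀ ℤ, Pool.Agent.LibJac77.deg D = 0 ∧
      mk f D = u.sum fun i m => m • jP (p i) := by
  induction u using Finsupp.induction_linear with
  | zero => exact ⟨0, by simp [Pool.Agent.LibJac77.deg], by simp⟩
  | add u v hu hv =>
    obtain ⟨D, h1, h2⟩ := hu
    obtain ⟨E, h3, h4⟩ := hv
    refine ⟨D + E, by rw [Pool.Agent.LibJac77.deg_add, h1, h3, add_zero], ?_⟩
    have h5 := Finsupp.sum_add_index' (f := u) (g := v) (h := fun i (m : ℤ) => m • jP (p i))
      (fun _ => zero_smul _ _) (fun _ _ _ => add_smul _ _ _)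
    rw [map_add, h2, h4, h5]
  | single i m =>
    refine ⟨m • (Finsupp.single (p i) (1 : ℤ) - Finsupp.single (.inf : Pt f) 1), ?_, ?_⟩
    · have h1 := deg_mp (f := f) (m • (Finsupp.single (p i) (1 : ℤ) -
        Finsupp.single (.inf : Pt f) 1))
      have h2 : mp (m • (Finsupp.single (p i) (1 : ℤ) - Finsupp.single (.inf : Pt f) 1)) =
          m • mp (Finsupp.single (p i) (1 : ℤ) - Finsupp.single (.inf : Pt f) 1) :=
        Finsupp.mapDomain_smul _ _
      rw [← h1, h2, map_zsmul, deg_mp, deg_jP, smul_zero]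
    · have h5 := Finsupp.sum_single_index (a := i) (b := m)
        (h := fun i (m : ℤ) => m • jP (p i)) (zero_smul _ _)
      rw [map_zsmul, h5]
      rfl

theorem indep_pic0 {f : Qb[X]} [Genus2 f] (p q : ℕ → Pt f)
    (h : ∀ u v : ℕ →₀ ℤ, (u.sum fun i m => m • jP (p i)) + (v.sum fun i m => m • jP (q i)) = 0 →
      u = 0 ∧ v = 0) :
    LinearIndependent ℤ (Sum.elim (fun n => cl (ww f) {vp (p n)}) fun n => cl (ww f) {vp (q n)}) := by
  refine linearIndependent_of _ _ fun u v huv => h u v ?_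
  have h1 : ∀ (p : ℕ → Pt f) (u : ℕ →₀ ℤ), (u.sum fun i m => m • cl (ww f) {vp (p i)}) =
      ψ f (u.sum fun i m => m • jP (p i)) := by
    intro p u
    rw [Finsupp.sum, Finsupp.sum, map_sum]
    refine Finset.sum_congr rfl fun i _ => ?_
    rw [map_zsmul, ψ_jP]
  rw [h1, h1, ← map_add] at huv
  refine ψ_injective ?_ huv
  obtain ⟨D, h2, h3⟩ := deg_sum p u
  obtain ⟨E, h4, h5⟩ := deg_sum q v
  exact ⟨D + E, by rw [Pool.Agent.LibJac77.deg_add, h2, h4, add_zero], by rw [map_add, h3, h5]⟩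

end Pool.Agent.LibT62
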